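import Mathlib

set_option autoImplicit false

/-!
# Gaussian kernels and a local `L²` bound for Fourier integrals
-/

namespace Pool.Agent.Q43.MW

open MeasureTheory Complex

/-- `e(x) = exp (2 π i x)` -/
noncomputable def ee (x : ℝ) : ℂ := Complex.exp (2 * Real.pi * I * x)

lemma norm_ee (x : ℝ) : ‖ee x‖ = 1 := by
  unfold ee
  rw [Complex.norm_exp]
  simp

lemma ee_add (x y : ℝ) : ee (x + y) = ee x * ee y := by
  unfold ee
  rw [← Complex.exp_add]
  congr 1
  push_cast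
  ring

lemma ee_zero : ee 0 = 1 := by
  unfold ee
  simp

lemma conj_ee (x : ℝ) : (starRingEnd ℂ) (ee x) = ee (-x) := by
  unfold ee
  rw [← Complex.exp_conj]
  congr 1
  simp only [map_mul, Complex.conj_I, Complex.conj_ofReal, map_ofNat]
  push_cast
  ring

@[fun_prop]
lemma continuous_ee : Continuous ee := by
  unfold ee
  fun_prop

lemma ee_sum {ι : Type*} (s : Finset ι) (f : ι → ℝ) : ee (∑ i ∈ s, f i) = ∏ i ∈ s, ee (f i) := by
  classical
  induction s using Finset.induction_on with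
  | empty => simp [ee_zero]
  | insert a s ha ih => rw [Finset.sum_insert ha, Finset.prod_insert ha, ee_add, ih]

/-- the Gaussian and its Fourier transform -/
lemma gauss_fourier {η : ℝ} (hη : 0 < η) (v : ℝ) :
    ∫ α : ℝ, ((η * Real.exp (-Real.pi * (η * α) ^ 2) : ℝ) : ℂ) * ee (α * v) =
      ((Real.exp (-Real.pi * (v / η) ^ 2) : ℝ) : ℂ) := by
  have hb : 0 < ((Real.pi * η ^ 2 : ℝ) : ℂ).re := by
    rw [ofReal_re]; positivity
  have h := fourierIntegral_gaussian hb ((2 * Real.pi * v : ℝ) : ℂ)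
  have e1 : ((Real.pi : ℂ) / ((Real.pi * η ^ 2 : ℝ) : ℂ)) ^ (1 / 2 : ℂ) = ((1 / η : ℝ) : ℂ) := by
    have e2 : (Real.pi : ℂ) / ((Real.pi * η ^ 2 : ℝ) : ℂ) = ((((1 / η) ^ 2 : ℝ)) : ℂ) := by
      rw [← ofReal_div]
      congr 1
      have := Real.pi_pos
      field_simp
    rw [e2, show (1 / 2 : ℂ) = ((1 / 2 : ℝ) : ℂ) by push_cast; ring,
      ← ofReal_cpow (by positivity)]
    congr 1
    rw [← Real.sqrt_eq_rpow, Real.sqrt_sq (by positivity)]
  rw [e1] at h
  have h2 : ∫ α : ℝ, ((η * Real.exp (-Real.pi * (η * α) ^ 2) : ℝ) : ℂ) * ee (α * v) =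
      (η : ℂ) * ∫ x : ℝ, cexp (I * ((2 * Real.pi * v : ℝ) : ℂ) * x) * cexp (-((Real.pi * η ^ 2 : ℝ) : ℂ) * x ^ 2) := by
    rw [← integral_const_mul]
    congr 1
    ext α
    unfold ee
    push_cast
    rw [mul_assoc, ← Complex.exp_add, ← Complex.exp_add]
    congr 2
    ring
  rw [h2, h]
  have e3 : -((2 * Real.pi * v : ℝ) : ℂ) ^ 2 / (4 * ((Real.pi * η ^ 2 : ℝ) : ℂ)) =
      ((-Real.pi * (v / η) ^ 2 : ℝ) : ℂ) := by
    have hη' : (η : ℂ) ≠ 0 := by exact_mod_cast hη.ne'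
    have hp : (Real.pi : ℂ) ≠ 0 := by exact_mod_cast Real.pi_ne_zero
    push_cast
    field_simp
    ring
  rw [e3]
  rw [← ofReal_exp]
  have hη' : (η : ℂ) ≠ 0 := by exact_mod_cast hη.ne'
  push_cast
  field_simp

lemma gauss_int {c : ℝ} (hc : 0 < c) : ∫ α : ℝ, Real.exp (-Real.pi * (c * α) ^ 2) = 1 / c := by
  have h := integral_gaussian (Real.pi * c ^ 2)
  have e : ∀ α : ℝ, Real.exp (-Real.pi * (c * α) ^ 2) = Real.exp (-(Real.pi * c ^ 2) * α ^ 2) := by
    intro α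
    congr 1
    ring
  simp only [e]
  rw [h]
  have : Real.pi / (Real.pi * c ^ 2) = (1 / c) ^ 2 := by
    have := Real.pi_pos
    field_simp
  rw [this, Real.sqrt_sq (by positivity)]

lemma gauss_integrable {c : ℝ} (hc : 0 < c) : Integrable fun α : ℝ => Real.exp (-Real.pi * (c * α) ^ 2) := by
  have h := integrable_exp_neg_mul_sq (b := Real.pi * c ^ 2) (by have := Real.pi_pos; positivity)
  refine h.congr (Filter.Eventually.of_forall fun α => ?_)
  simp only
  congr 1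
  ring

/-- **Local `L²` bound.** -/
lemma local_l2 {f : ℝ → ℂ} (hf : Integrable f) (hf2 : Integrable fun α => ‖f α‖ ^ 2) {T : ℝ} (hT : 0 < T) :
    ∫ y : ℝ, Real.exp (-Real.pi * (y / T) ^ 2) * ‖∫ α : ℝ, f α * ee (-(α * y))‖ ^ 2 ≤
      ∫ α : ℝ, ‖f α‖ ^ 2 := by
  have hTi : 0 < 1 / T := by positivity
  set G : ℝ → ℝ := fun y => Real.exp (-Real.pi * (y / T) ^ 2) with hG
  have hGi : Integrable G := by
    refine (gauss_integrable hTi).congr (Filter.Eventually.of_forall fun y => ?_)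
    simp only [hG]
    congr 3
    ring
  set W : ℝ → ℝ := fun ξ => T * Real.exp (-Real.pi * (T * ξ) ^ 2) with hW
  have hWi : Integrable W := (gauss_integrable hT).const_mul T
  have hW1 : ∫ ξ, W ξ = 1 := by
    simp only [hW]
    rw [integral_const_mul, gauss_int hT]
    field_simp
  have hW0 : ∀ ξ, 0 ≤ W ξ := fun ξ => by simp only [hW]; positivity
  have hGW : ∀ ξ : ℝ, ∫ y : ℝ, (G y : ℂ) * ee (y * ξ) = (W ξ : ℂ) := by
    intro ξ
    have h := gauss_fourier hTi ξ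
    have e : ∀ y : ℝ, (G y : ℂ) * ee (y * ξ) = (T : ℂ) *
        ((((1 / T) * Real.exp (-Real.pi * ((1 / T) * y) ^ 2) : ℝ) : ℂ) * ee (y * ξ)) := by
      intro y
      simp only [hG]
      have : (y / T) = (1 / T) * y := by ring
      rw [this]
      have hT' : (T : ℂ) ≠ 0 := by exact_mod_cast hT.ne'
      push_cast
      field_simp
    simp only [e]
    rw [integral_const_mul, h]
    simp only [hW]
    push_cast
    congr 2
    have : ξ / (1 / T) = T * ξ := by field_simp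
    norm_cast
    rw [this]
  -- the square as a double integral
  have hK : ∀ y : ℝ, (((‖∫ α : ℝ, f α * ee (-(α * y))‖ ^ 2 : ℝ)) : ℂ) =
      ∫ p : ℝ × ℝ, f p.1 * ee (-(p.1 * y)) * ((starRingEnd ℂ) (f p.2) * ee (p.2 * y)) := by
    intro y
    rw [MeasureTheory.Measure.volume_eq_prod,
      integral_prod_mul (fun α => f α * ee (-(α * y))) (fun β => (starRingEnd ℂ) (f β) * ee (β * y))]
    have h1 : ∫ β : ℝ, (starRingEnd ℂ) (f β) * ee (β * y) =
        (starRingEnd ℂ) (∫ α : ℝ, f α * ee (-(α * y))) := by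
      rw [← integral_conj]
      congr 1
      ext β
      rw [map_mul, conj_ee, neg_neg]
    rw [h1, Complex.mul_conj, Complex.normSq_eq_norm_sq]
  have hmeas : ∀ y : ℝ, Integrable fun α => f α * ee (-(α * y)) := by
    intro y
    refine hf.mul_bdd (c := 1) (by fun_prop) (Filter.Eventually.of_forall fun α => ?_)
    rw [norm_ee]
  have hprod : Integrable (fun q : ℝ × (ℝ × ℝ) => (G q.1 : ℂ) * (f q.2.1 * ee (-(q.2.1 * q.1)) *
      ((starRingEnd ℂ) (f q.2.2) * ee (q.2.2 * q.1)))) := by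
    have h1 : Integrable (fun q : ℝ × (ℝ × ℝ) => (G q.1 : ℂ) * (f q.2.1 * (starRingEnd ℂ) (f q.2.2))) := by
      have h2 : Integrable (fun p : ℝ × ℝ => f p.1 * (starRingEnd ℂ) (f p.2)) := by
        have := hf.mul_prod (g := fun β => (starRingEnd ℂ) (f β)) (by
          exact (Complex.conjLIE.integrable_comp_iff.2 hf))
        exact this
      exact (hGi.ofReal).mul_prod h2
    have h3 := h1.mul_bdd (c := 1) (g := fun q : ℝ × (ℝ × ℝ) => ee (-(q.2.1 * q.1)) * ee (q.2.2 * q.1))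
      (by fun_prop) (Filter.Eventually.of_forall fun q => by rw [norm_mul, norm_ee, norm_ee, one_mul])
    refine h3.congr (Filter.Eventually.of_forall fun q => ?_)
    simp only
    ring
  have hmain : (((∫ y : ℝ, G y * ‖∫ α : ℝ, f α * ee (-(α * y))‖ ^ 2 : ℝ)) : ℂ) =
      ∫ p : ℝ × ℝ, f p.1 * (starRingEnd ℂ) (f p.2) * (W (p.1 - p.2) : ℂ) := by
    rw [← integral_complex_ofReal]
    have e1 : ∀ y : ℝ, ((G y * ‖∫ α : ℝ, f α * ee (-(α * y))‖ ^ 2 : ℝ) : ℂ) =
        ∫ p : ℝ × ℝ, (G y : ℂ) * (f p.1 * ee (-(p.1 * y)) * ((starRingEnd ℂ) (f p.2) * ee (p.2 * y))) := by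
      intro y
      rw [integral_const_mul, ← hK y]
      push_cast
      ring
    have e2 : ∫ y : ℝ, ((G y * ‖∫ α : ℝ, f α * ee (-(α * y))‖ ^ 2 : ℝ) : ℂ) =
        ∫ y : ℝ, ∫ p : ℝ × ℝ, (G y : ℂ) * (f p.1 * ee (-(p.1 * y)) *
          ((starRingEnd ℂ) (f p.2) * ee (p.2 * y))) := by
      congr 1
      ext y
      exact e1 y
    rw [e2]
    rw [integral_integral_swap hprod]
    congr 1
    ext p
    have h4 : ∀ y : ℝ, (G y : ℂ) * (f p.1 * ee (-(p.1 * y)) * ((starRingEnd ℂ) (f p.2) * ee (p.2 * y))) =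
        f p.1 * (starRingEnd ℂ) (f p.2) * ((G y : ℂ) * ee (y * (p.2 - p.1))) := by
      intro y
      have : ee (y * (p.2 - p.1)) = ee (-(p.1 * y)) * ee (p.2 * y) := by
        rw [← ee_add]
        congr 1
        ring
      rw [this]
      ring
    simp only [h4]
    rw [integral_const_mul, hGW]
    congr 2
    simp only [hW]
    congr 3
    ring
  have hI1 : Integrable (fun p : ℝ × ℝ => ‖f p.2‖ ^ 2 * W (p.1 - p.2)) := by
    have := Integrable.convolution_integrand (ContinuousLinearMap.mul ℝ ℝ) hf2 hWi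
    exact this
  have hI2 : Integrable (fun p : ℝ × ℝ => ‖f p.1‖ ^ 2 * W (p.1 - p.2)) := by
    have h1 := hI1.swap
    refine h1.congr (Filter.Eventually.of_forall fun p => ?_)
    simp only [Function.comp, Prod.swap, hW]
    congr 3
    ring
  have hv1 : ∫ p : ℝ × ℝ, ‖f p.2‖ ^ 2 * W (p.1 - p.2) = ∫ α, ‖f α‖ ^ 2 := by
    rw [MeasureTheory.Measure.volume_eq_prod, integral_prod_symm _ hI1]
    congr 1
    ext β
    simp only
    rw [integral_const_mul]
    have : ∫ x : ℝ, W (x - β) = 1 := by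
      rw [integral_sub_right_eq_self W β, hW1]
    rw [this, mul_one]
  have hv2 : ∫ p : ℝ × ℝ, ‖f p.1‖ ^ 2 * W (p.1 - p.2) = ∫ α, ‖f α‖ ^ 2 := by
    rw [MeasureTheory.Measure.volume_eq_prod, integral_prod _ hI2]
    congr 1
    ext β
    simp only
    rw [integral_const_mul]
    have : ∫ x : ℝ, W (β - x) = 1 := by
      rw [integral_sub_left_eq_self W volume β, hW1]
    rw [this, mul_one]
  have hfin : (∫ y : ℝ, G y * ‖∫ α : ℝ, f α * ee (-(α * y))‖ ^ 2) ≤ ∫ α, ‖f α‖ ^ 2 := by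
    have h0 : 0 ≤ ∫ y : ℝ, G y * ‖∫ α : ℝ, f α * ee (-(α * y))‖ ^ 2 :=
      integral_nonneg fun y => by simp only [hG]; positivity
    have h5 : (∫ y : ℝ, G y * ‖∫ α : ℝ, f α * ee (-(α * y))‖ ^ 2) =
        ‖(((∫ y : ℝ, G y * ‖∫ α : ℝ, f α * ee (-(α * y))‖ ^ 2 : ℝ)) : ℂ)‖ := by
      rw [Complex.norm_real, Real.norm_of_nonneg h0]
    rw [h5, hmain]
    refine (norm_integral_le_integral_norm _).trans ?_
    have h6 : ∫ p : ℝ × ℝ, ‖f p.1 * (starRingEnd ℂ) (f p.2) * (W (p.1 - p.2) : ℂ)‖ ≤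
        ∫ p : ℝ × ℝ, (1 / 2 * (‖f p.1‖ ^ 2 * W (p.1 - p.2)) + 1 / 2 * (‖f p.2‖ ^ 2 * W (p.1 - p.2))) := by
      refine integral_mono_of_nonneg (Filter.Eventually.of_forall fun p => norm_nonneg _)
        ((hI2.const_mul _).add (hI1.const_mul _)) (Filter.Eventually.of_forall fun p => ?_)
      simp only
      rw [norm_mul, norm_mul, RCLike.norm_conj, Complex.norm_real, Real.norm_of_nonneg (hW0 _)]
      have h7 : ‖f p.1‖ * ‖f p.2‖ ≤ 1 / 2 * ‖f p.1‖ ^ 2 + 1 / 2 * ‖f p.2‖ ^ 2 := by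
        nlinarith [sq_nonneg (‖f p.1‖ - ‖f p.2‖)]
      nlinarith [mul_le_mul_of_nonneg_right h7 (hW0 (p.1 - p.2))]
    refine h6.trans (le_of_eq ?_)
    rw [integral_add (hI2.const_mul _) (hI1.const_mul _), integral_const_mul, integral_const_mul, hv1, hv2]
    ring
  exact hfin

end Pool.Agent.Q43.MW
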