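import Mathlib
import Pool.Agent.Q43.MW.Fou

set_option autoImplicit false

/-!
# Mean squares over the coefficients
-/

namespace Pool.Agent.Q43.MW

open MeasureTheory Complex Finset

lemma int_ee {a b c : ℝ} (hc : c ≠ 0) : ‖∫ t in a..b, ee (t * c)‖ ≤ 1 / (Real.pi * |c|) := by
  have hc' : (2 * Real.pi * I * c : ℂ) ≠ 0 := by
    have : (Real.pi : ℂ) ≠ 0 := by exact_mod_cast Real.pi_ne_zero
    have h2 : (c : ℂ) ≠ 0 := by exact_mod_cast hc
    simp [this, h2]
  have h := integral_exp_mul_complex (a := a) (b := b) hc'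
  have e : ∀ t : ℝ, ee (t * c) = cexp (2 * Real.pi * I * c * t) := by
    intro t
    unfold ee
    congr 1
    push_cast
    ring
  simp only [e]
  rw [h, norm_div]
  have h1 : ∀ t : ℝ, ‖cexp (2 * Real.pi * I * c * t)‖ = 1 := by
    intro t
    rw [← e, norm_ee]
  have h2 : ‖cexp (2 * Real.pi * I * c * b) - cexp (2 * Real.pi * I * c * a)‖ ≤ 2 := by
    refine (norm_sub_le _ _).trans ?_
    rw [h1, h1]
    norm_num
  have h3 : ‖(2 * Real.pi * I * c : ℂ)‖ = 2 * (Real.pi * |c|) := by
    rw [norm_mul, norm_mul, norm_mul, Complex.norm_I, Complex.norm_real, Complex.norm_real,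
      Real.norm_of_nonneg Real.pi_pos.le, Real.norm_eq_abs]
    norm_num
    ring
  rw [h3]
  have hp : 0 < Real.pi * |c| := mul_pos Real.pi_pos (abs_pos.2 hc)
  rw [div_le_div_iff₀ (by positivity) hp]
  nlinarith

lemma recip_sum {X : Finset ℕ} {u N : ℕ} (hX : X ⊆ Ico u (u + N)) {x : ℕ} (hx : x ∈ X) :
    ∑ z ∈ X.erase x, 1 / |(x : ℝ) - z| ≤ 2 * (1 + Real.log N) := by
  classical
  have hxu := mem_Ico.1 (hX hx)
  have hN : 1 ≤ N := by omega
  have hh : (∑ h ∈ Icc 1 N, (1 : ℝ) / h) ≤ 1 + Real.log N := by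
    have := harmonic_le_one_add_log N
    have e : ((harmonic N : ℚ) : ℝ) = ∑ h ∈ Icc 1 N, (1 : ℝ) / h := by
      rw [harmonic_eq_sum_Icc]
      push_cast
      simp
    rw [← e]
    exact this
  have hsplit : X.erase x = (X.filter fun z => z < x) ∪ (X.filter fun z => x < z) := by
    ext z
    simp only [mem_erase, mem_union, mem_filter]
    constructor
    · rintro ⟨h1, h2⟩
      rcases lt_or_gt_of_ne h1 with h | h
      · exact Or.inl ⟨h2, h⟩
      · exact Or.inr ⟨h2, h⟩
    · rintro (⟨h1, h2⟩ | ⟨h1, h2⟩)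
      · exact ⟨h2.ne, h1⟩
      · exact ⟨h2.ne', h1⟩
  have hdisj : Disjoint (X.filter fun z => z < x) (X.filter fun z => x < z) := by
    rw [disjoint_filter]
    intro z _ h1
    omega
  rw [hsplit, sum_union hdisj]
  have h1 : ∑ z ∈ X.filter (fun z => z < x), 1 / |(x : ℝ) - z| ≤ ∑ h ∈ Icc 1 N, (1 : ℝ) / h := by
    have hinj : Set.InjOn (fun z => x - z) (X.filter (fun z => z < x) : Finset ℕ) := by
      intro z hz z' hz' h
      simp only [coe_filter, Set.mem_ofPred_eq] at hz hz'
      simp only at h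
      omega
    have e : ∑ z ∈ X.filter (fun z => z < x), 1 / |(x : ℝ) - z| =
        ∑ h ∈ (X.filter (fun z => z < x)).image (fun z => x - z), (1 : ℝ) / h := by
      rw [sum_image hinj]
      refine sum_congr rfl fun z hz => ?_
      rw [mem_filter] at hz
      rw [Nat.cast_sub hz.2.le, abs_of_nonneg]
      have : (z : ℝ) < x := by exact_mod_cast hz.2
      linarith
    rw [e]
    refine sum_le_sum_of_subset_of_nonneg ?_ fun _ _ _ => by positivity
    intro h hh'
    rw [mem_image] at hh'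
    obtain ⟨z, hz, rfl⟩ := hh'
    rw [mem_filter] at hz
    have := mem_Ico.1 (hX hz.1)
    rw [mem_Icc]
    omega
  have h2 : ∑ z ∈ X.filter (fun z => x < z), 1 / |(x : ℝ) - z| ≤ ∑ h ∈ Icc 1 N, (1 : ℝ) / h := by
    have hinj : Set.InjOn (fun z => z - x) (X.filter (fun z => x < z) : Finset ℕ) := by
      intro z hz z' hz' h
      simp only [coe_filter, Set.mem_ofPred_eq] at hz hz'
      simp only at h
      omega
    have e : ∑ z ∈ X.filter (fun z => x < z), 1 / |(x : ℝ) - z| =
        ∑ h ∈ (X.filter (fun z => x < z)).image (fun z => z - x), (1 : ℝ) / h := by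
      rw [sum_image hinj]
      refine sum_congr rfl fun z hz => ?_
      rw [mem_filter] at hz
      rw [Nat.cast_sub hz.2.le, abs_of_nonpos, neg_sub]
      have : (x : ℝ) < z := by exact_mod_cast hz.2
      linarith
    rw [e]
    refine sum_le_sum_of_subset_of_nonneg ?_ fun _ _ _ => by positivity
    intro h hh'
    rw [mem_image] at hh'
    obtain ⟨z, hz, rfl⟩ := hh'
    rw [mem_filter] at hz
    have := mem_Ico.1 (hX hz.1)
    rw [mem_Icc]
    omega
  linarith

/-- the exponential sum of one variable -/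
noncomputable def S1 (X : Finset ℕ) (v : ℕ → ℝ) (β : ℝ) : ℂ := ∑ x ∈ X, ee (β * v x)

lemma S1_cont (X : Finset ℕ) (v : ℕ → ℝ) : Continuous (S1 X v) := by
  unfold S1
  fun_prop

/-- **Mean square over one coefficient.** -/
lemma ms {X : Finset ℕ} {u N : ℕ} (hX : X ⊆ Ico u (u + N)) (hN : 1 ≤ N) {v : ℕ → ℝ} {D : ℝ} (hD : 0 < D)
    (hv : ∀ x ∈ X, ∀ z ∈ X, D * |(x : ℝ) - z| ≤ |v x - v z|) {a b : ℝ} (hab : a ≤ b) {α : ℝ} (hα : α ≠ 0) :
    ∫ t in a..b, ‖S1 X v (t * α)‖ ^ 2 ≤ (b - a + 1) * N * (1 + Real.log N) * (1 + 1 / (|α| * D)) := by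
  classical
  have hNr : (1 : ℝ) ≤ N := by exact_mod_cast hN
  have hlog : 0 ≤ Real.log N := Real.log_nonneg hNr
  have hα0 : 0 < |α| := abs_pos.2 hα
  have e1 : ∀ t : ℝ, ((‖S1 X v (t * α)‖ ^ 2 : ℝ) : ℂ) = ∑ x ∈ X, ∑ z ∈ X, ee (t * (α * (v x - v z))) := by
    intro t
    rw [← Complex.normSq_eq_norm_sq, ← Complex.mul_conj]
    unfold S1
    rw [map_sum, sum_mul_sum]
    refine sum_congr rfl fun x _ => sum_congr rfl fun z _ => ?_
    rw [conj_ee, ← ee_add]
    congr 1
    ring
  have hci : ∀ x z : ℕ, IntervalIntegrable (fun t : ℝ => ee (t * (α * (v x - v z)))) volume a b := by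
    intro x z
    exact (by fun_prop : Continuous fun t : ℝ => ee (t * (α * (v x - v z)))).intervalIntegrable _ _
  have e2 : ((∫ t in a..b, ‖S1 X v (t * α)‖ ^ 2 : ℝ) : ℂ) =
      ∑ x ∈ X, ∑ z ∈ X, ∫ t in a..b, ee (t * (α * (v x - v z))) := by
    rw [← intervalIntegral.integral_ofReal]
    simp only [e1]
    rw [intervalIntegral.integral_finsetSum]
    · refine sum_congr rfl fun x _ => ?_
      rw [intervalIntegral.integral_finsetSum]
      intro z _
      exact hci x z
    · intro x _
      exact (by fun_prop : Continuous fun t : ℝ => ∑ z ∈ X, ee (t * (α * (v x - v z)))).intervalIntegrable _ _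
  have h0 : 0 ≤ ∫ t in a..b, ‖S1 X v (t * α)‖ ^ 2 :=
    intervalIntegral.integral_nonneg hab fun t _ => by positivity
  have h1 : (∫ t in a..b, ‖S1 X v (t * α)‖ ^ 2) = ‖((∫ t in a..b, ‖S1 X v (t * α)‖ ^ 2 : ℝ) : ℂ)‖ := by
    rw [Complex.norm_real, Real.norm_of_nonneg h0]
  rw [h1, e2]
  have h2 : ∀ x ∈ X, ‖∑ z ∈ X, ∫ t in a..b, ee (t * (α * (v x - v z)))‖ ≤
      (b - a) + 1 / (Real.pi * |α| * D) * (2 * (1 + Real.log N)) := by
    intro x hx
    rw [← add_sum_erase X _ hx]
    refine (norm_add_le _ _).trans ?_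
    refine add_le_add ?_ ?_
    · simp only [sub_self, mul_zero, ee_zero]
      rw [intervalIntegral.integral_const, norm_smul, norm_one, mul_one, Real.norm_of_nonneg (by linarith)]
    · refine (norm_sum_le _ _).trans ?_
      have h3 : ∀ z ∈ X.erase x, ‖∫ t in a..b, ee (t * (α * (v x - v z)))‖ ≤
          1 / (Real.pi * |α| * D) * (1 / |(x : ℝ) - z|) := by
        intro z hz
        rw [mem_erase] at hz
        have hxz : 0 < |(x : ℝ) - z| := by
          rw [abs_pos, sub_ne_zero]
          exact_mod_cast hz.1.symm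
        have h4 := hv x hx z hz.2
        have h5 : 0 < D * |(x : ℝ) - z| := by positivity
        have h6 : α * (v x - v z) ≠ 0 := by
          refine mul_ne_zero hα ?_
          intro h
          rw [h, abs_zero] at h4
          linarith
        refine (int_ee h6).trans ?_
        rw [abs_mul, one_div_mul_one_div]
        have hp := Real.pi_pos
        refine one_div_le_one_div_of_le (by positivity) ?_
        calc Real.pi * |α| * D * |(x : ℝ) - z| = Real.pi * |α| * (D * |(x : ℝ) - z|) := by ring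
          _ ≤ Real.pi * |α| * |v x - v z| := by gcongr
          _ = Real.pi * (|α| * |v x - v z|) := by ring
      refine (sum_le_sum h3).trans ?_
      rw [← mul_sum]
      have hp := Real.pi_pos
      exact mul_le_mul_of_nonneg_left (recip_sum hX hx) (by positivity)
  refine (norm_sum_le _ _).trans ((sum_le_sum h2).trans ?_)
  rw [sum_const, nsmul_eq_mul]
  have hXN : (X.card : ℝ) ≤ N := by
    have := card_le_card hX
    rw [Nat.card_Ico] at this
    exact_mod_cast (by omega : X.card ≤ N)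
  have hp := Real.pi_pos
  have hpi : 1 / (Real.pi * |α| * D) * (2 * (1 + Real.log N)) ≤ (1 + Real.log N) * (1 / (|α| * D)) := by
    have h7 : 2 ≤ Real.pi := by linarith [Real.pi_gt_three]
    have e : 1 / (Real.pi * |α| * D) * (2 * (1 + Real.log N)) =
        (2 / Real.pi) * ((1 + Real.log N) * (1 / (|α| * D))) := by
      field_simp
    rw [e]
    have h8 : 2 / Real.pi ≤ 1 := by rw [div_le_one hp]; exact h7
    have h9 : 0 ≤ (1 + Real.log N) * (1 / (|α| * D)) := by positivity
    nlinarith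
  have hq : 0 ≤ 1 / (|α| * D) := by positivity
  calc (X.card : ℝ) * (b - a + 1 / (Real.pi * |α| * D) * (2 * (1 + Real.log N)))
      ≤ N * (b - a + (1 + Real.log N) * (1 / (|α| * D))) := by
        have h10 : 0 ≤ b - a + 1 / (Real.pi * |α| * D) * (2 * (1 + Real.log N)) := by
          have : 0 ≤ 1 / (Real.pi * |α| * D) * (2 * (1 + Real.log N)) := by positivity
          linarith
        refine mul_le_mul hXN (by linarith) h10 (by linarith)
    _ ≤ (b - a + 1) * N * (1 + Real.log N) * (1 + 1 / (|α| * D)) := by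
        have h11 : 0 ≤ b - a := by linarith
        have h12 : b - a + (1 + Real.log N) * (1 / (|α| * D)) ≤
            (b - a + 1) * ((1 + Real.log N) * (1 + 1 / (|α| * D))) := by
          have h13 : 0 ≤ (1 + Real.log N) * (1 / (|α| * D)) := by positivity
          have h14 : (1 : ℝ) ≤ (1 + Real.log N) := by linarith
          nlinarith [mul_nonneg h11 h13, mul_nonneg h11 hlog]
        calc (N : ℝ) * (b - a + (1 + Real.log N) * (1 / (|α| * D))) ≤
            N * ((b - a + 1) * ((1 + Real.log N) * (1 + 1 / (|α| * D)))) := by gcongr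
          _ = _ := by ring

end Pool.Agent.Q43.MW
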