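import Mathlib
import Pool.Agent.Q43.MW.MS

set_option autoImplicit false

/-!
# The comparison of the counting functions at two scales
-/

namespace Pool.Agent.Q43.MW

open MeasureTheory Complex Finset

variable {s : ℕ}

/-- the diagonal form with the coefficients `l` -/
noncomputable def form (v : Fin s → ℕ → ℝ) (l : Fin s → ℝ) (x : Fin s → ℕ) : ℝ := ∑ i, l i * v i (x i)

/-- the exponential sum of the form -/
noncomputable def SS (X : Fin s → Finset ℕ) (v : Fin s → ℕ → ℝ) (l : Fin s → ℝ) (α : ℝ) : ℂ :=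
  ∏ i, S1 (X i) (v i) (l i * α)

/-- the smoothed number of the values of the form near `y`, at the scale `h` -/
noncomputable def RR (X : Fin s → Finset ℕ) (v : Fin s → ℕ → ℝ) (l : Fin s → ℝ) (h y : ℝ) : ℝ :=
  ∑ x ∈ Fintype.piFinset X, Real.exp (-Real.pi * ((form v l x - y) / h) ^ 2)

/-- the number of the variables -/
def NN (X : Fin s → Finset ℕ) : ℝ := ∏ i, ((X i).card : ℝ)

lemma SS_eq (X : Fin s → Finset ℕ) (v : Fin s → ℕ → ℝ) (l : Fin s → ℝ) (α : ℝ) :
    SS X v l α = ∑ x ∈ Fintype.piFinset X, ee (α * form v l x) := by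
  unfold SS S1
  rw [Finset.prod_univ_sum]
  refine sum_congr rfl fun x _ => ?_
  unfold form
  rw [← ee_sum, mul_sum]
  congr 1
  refine sum_congr rfl fun i _ => ?_
  ring

lemma SS_le (X : Fin s → Finset ℕ) (v : Fin s → ℕ → ℝ) (l : Fin s → ℝ) (α : ℝ) : ‖SS X v l α‖ ≤ NN X := by
  unfold SS NN
  rw [norm_prod]
  refine prod_le_prod (fun i _ => norm_nonneg _) fun i _ => ?_
  unfold S1
  refine (norm_sum_le _ _).trans ?_
  simp [norm_ee]

lemma SS_cont (X : Fin s → Finset ℕ) (v : Fin s → ℕ → ℝ) :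
    Continuous fun p : (Fin s → ℝ) × ℝ => SS X v p.1 p.2 := by
  unfold SS
  refine continuous_finsetProd _ fun i _ => ?_
  exact (S1_cont _ _).comp (by fun_prop)

lemma SS_cont' (X : Fin s → Finset ℕ) (v : Fin s → ℕ → ℝ) (l : Fin s → ℝ) :
    Continuous fun α : ℝ => SS X v l α := (SS_cont X v).comp (by fun_prop : Continuous fun α : ℝ => (l, α))

lemma NN_nonneg (X : Fin s → Finset ℕ) : 0 ≤ NN X := prod_nonneg fun _ _ => Nat.cast_nonneg _

lemma RR_fourier (X : Fin s → Finset ℕ) (v : Fin s → ℕ → ℝ) (l : Fin s → ℝ) {h : ℝ} (hh : 0 < h) (y : ℝ) :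
    ((RR X v l h y : ℝ) : ℂ) =
      ∫ α : ℝ, ((h * Real.exp (-Real.pi * (h * α) ^ 2) : ℝ) : ℂ) * (SS X v l α * ee (-(α * y))) := by
  unfold RR
  push_cast
  have h1 : ∀ x ∈ Fintype.piFinset X, cexp (-Real.pi * (((form v l x : ℝ) - y) / h) ^ 2) =
      ∫ α : ℝ, ((h * Real.exp (-Real.pi * (h * α) ^ 2) : ℝ) : ℂ) * ee (α * (form v l x - y)) := by
    intro x _
    rw [gauss_fourier hh]
    push_cast
    rfl
  rw [sum_congr rfl h1, ← integral_finsetSum]
  · congr 1
    ext α
    rw [SS_eq, sum_mul, mul_sum]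
    refine sum_congr rfl fun x _ => ?_
    rw [← ee_add]
    push_cast
    congr 2
    ring
  · intro x _
    have h2 : Integrable fun α : ℝ => ((h * Real.exp (-Real.pi * (h * α) ^ 2) : ℝ) : ℂ) :=
      ((gauss_integrable hh).const_mul h).ofReal
    refine h2.mul_bdd (c := 1) (by fun_prop) (Filter.Eventually.of_forall fun α => ?_)
    rw [norm_ee]

/-- the weight -/
noncomputable def wt (η H α : ℝ) : ℝ := Real.exp (-Real.pi * (η * α) ^ 2) - Real.exp (-Real.pi * (H * α) ^ 2)

lemma wt_nonneg {η H : ℝ} (hη : 0 < η) (hH : η ≤ H) (α : ℝ) : 0 ≤ wt η H α := by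
  unfold wt
  rw [sub_nonneg]
  refine Real.exp_le_exp.2 ?_
  have : (η * α) ^ 2 ≤ (H * α) ^ 2 := by
    rw [mul_pow, mul_pow]
    gcongr
  have := Real.pi_pos
  nlinarith

lemma wt_le (η H α : ℝ) : wt η H α ≤ Real.exp (-Real.pi * (η * α) ^ 2) := by
  unfold wt
  have := Real.exp_pos (-Real.pi * (H * α) ^ 2)
  linarith

lemma wt_le' (η H α : ℝ) : wt η H α ≤ Real.pi * (H * α) ^ 2 := by
  unfold wt
  have h1 : Real.exp (-Real.pi * (η * α) ^ 2) ≤ 1 := by
    rw [Real.exp_le_one_iff]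
    have := Real.pi_pos
    nlinarith [sq_nonneg (η * α)]
  have h2 := Real.add_one_le_exp (-Real.pi * (H * α) ^ 2)
  linarith

lemma wt_cont (η H : ℝ) : Continuous (wt η H) := by
  unfold wt
  fun_prop

/-- the function with high frequencies only -/
noncomputable def ff (X : Fin s → Finset ℕ) (v : Fin s → ℕ → ℝ) (l : Fin s → ℝ) (η H α₂ : ℝ) : ℝ → ℂ :=
  {α : ℝ | α₂ < |α|}.indicator fun α => ((η * wt η H α : ℝ) : ℂ) * SS X v l α

lemma base_int (X : Fin s → Finset ℕ) (v : Fin s → ℕ → ℝ) (l : Fin s → ℝ) {η H : ℝ} (hη : 0 < η) (hH : η ≤ H) :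
    Integrable fun α : ℝ => ((η * wt η H α : ℝ) : ℂ) * SS X v l α := by
  have h1 : Integrable fun α : ℝ => ((η * wt η H α : ℝ) : ℂ) := by
    have h2 : Integrable (wt η H) := by
      unfold wt
      exact (gauss_integrable hη).sub (gauss_integrable (hη.trans_le hH))
    exact (h2.const_mul η).ofReal
  refine h1.mul_bdd (c := NN X) (SS_cont' X v l).aestronglyMeasurable
    (Filter.Eventually.of_forall fun α => SS_le X v l α)

lemma meas_high (α₂ : ℝ) : MeasurableSet {α : ℝ | α₂ < |α|} :=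
  (isOpen_lt continuous_const continuous_abs).measurableSet

lemma ff_int (X : Fin s → Finset ℕ) (v : Fin s → ℕ → ℝ) (l : Fin s → ℝ) {η H : ℝ} (hη : 0 < η) (hH : η ≤ H)
    (α₂ : ℝ) : Integrable (ff X v l η H α₂) :=
  (base_int X v l hη hH).indicator (meas_high α₂)

/-- **Comparison of two scales.** -/
lemma engine (X : Fin s → Finset ℕ) (v : Fin s → ℕ → ℝ) (l : Fin s → ℝ) {η H α₁ α₂ : ℝ} (hη : 0 < η)
    (hH : η ≤ H) (h1 : 0 ≤ α₁) (h12 : α₁ ≤ α₂) (y : ℝ) :
    |RR X v l η y - η / H * RR X v l H y| ≤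
      2 * Real.pi * η * H ^ 2 * α₁ ^ 3 * NN X + η * (∫ α in {α : ℝ | α₁ < |α| ∧ |α| ≤ α₂}, ‖SS X v l α‖) +
        ‖∫ α : ℝ, ff X v l η H α₂ α * ee (-(α * y))‖ := by
  have hH0 : 0 < H := hη.trans_le hH
  set g : ℝ → ℂ := fun α => ((η * wt η H α : ℝ) : ℂ) * SS X v l α * ee (-(α * y)) with hg
  have hgi : Integrable g := by
    refine (base_int X v l hη hH).mul_bdd (c := 1) (by fun_prop) (Filter.Eventually.of_forall fun α => ?_)
    rw [norm_ee]
  have hRi : ∀ h : ℝ, 0 < h → Integrable fun α : ℝ =>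
      ((h * Real.exp (-Real.pi * (h * α) ^ 2) : ℝ) : ℂ) * (SS X v l α * ee (-(α * y))) := by
    intro h hh
    have h2 : Integrable fun α : ℝ => ((h * Real.exp (-Real.pi * (h * α) ^ 2) : ℝ) : ℂ) :=
      ((gauss_integrable hh).const_mul h).ofReal
    refine h2.mul_bdd (c := NN X) ((SS_cont' X v l).mul (by fun_prop)).aestronglyMeasurable
      (Filter.Eventually.of_forall fun α => ?_)
    rw [norm_mul, norm_ee, mul_one]
    exact SS_le X v l α
  have hdiff : ((RR X v l η y - η / H * RR X v l H y : ℝ) : ℂ) = ∫ α, g α := by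
    push_cast
    rw [RR_fourier X v l hη y, RR_fourier X v l hH0 y, ← integral_const_mul, ← integral_sub (hRi η hη)
      ((hRi H hH0).const_mul _)]
    congr 1
    ext α
    simp only [hg]
    unfold wt
    have hH' : (H : ℂ) ≠ 0 := by exact_mod_cast hH0.ne'
    push_cast
    field_simp
  set A : Set ℝ := {α : ℝ | |α| ≤ α₁} with hA
  set B : Set ℝ := {α : ℝ | α₁ < |α| ∧ |α| ≤ α₂} with hB
  set C : Set ℝ := {α : ℝ | α₂ < |α|} with hC
  have hAm : MeasurableSet A := (isClosed_le continuous_abs continuous_const).measurableSet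
  have hBm : MeasurableSet B := (meas_high α₁).inter
    ((isClosed_le continuous_abs continuous_const).measurableSet : MeasurableSet {α : ℝ | |α| ≤ α₂})
  have hCm : MeasurableSet C := meas_high α₂
  have hcompl : (A ∪ B)ᶜ = C := by
    ext α
    simp only [hA, hB, hC, Set.mem_compl_iff, Set.mem_union, Set.mem_ofPred_eq, not_or, not_le, not_and]
    constructor
    · rintro ⟨g1, g2⟩
      exact g2 g1
    · intro g1
      exact ⟨by linarith, fun _ => g1⟩
  have hdisj : Disjoint A B := by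
    rw [Set.disjoint_left]
    intro α g1 g2
    simp only [hA, hB, Set.mem_ofPred_eq] at g1 g2
    linarith [g2.1]
  have hsplit : ∫ α, g α = (∫ α in A, g α) + (∫ α in B, g α) + ∫ α in C, g α := by
    rw [← integral_add_compl (hAm.union hBm) hgi, hcompl, setIntegral_union hdisj hBm hgi.integrableOn
      hgi.integrableOn]
  have hnA : ‖∫ α in A, g α‖ ≤ 2 * Real.pi * η * H ^ 2 * α₁ ^ 3 * NN X := by
    have hAI : A = Set.Icc (-α₁) α₁ := by
      ext α
      simp only [hA, Set.mem_ofPred_eq, Set.mem_Icc, abs_le]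
    have h2 : ∀ α ∈ A, ‖g α‖ ≤ η * (Real.pi * (H * α₁) ^ 2) * NN X := by
      intro α hα
      simp only [hA, Set.mem_ofPred_eq] at hα
      simp only [hg]
      rw [norm_mul, norm_mul, norm_ee, mul_one, Complex.norm_real,
        Real.norm_of_nonneg (mul_nonneg hη.le (wt_nonneg hη hH α))]
      have h3 : wt η H α ≤ Real.pi * (H * α₁) ^ 2 := by
        refine (wt_le' η H α).trans ?_
        have : (H * α) ^ 2 ≤ (H * α₁) ^ 2 := by
          rw [mul_pow, mul_pow, ← sq_abs α]
          gcongr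
        have := Real.pi_pos
        gcongr
      have := SS_le X v l α
      have h4 := wt_nonneg hη hH α
      have hp := Real.pi_pos
      gcongr
    have h5 : volume A < ⊤ := by
      rw [hAI]
      exact measure_Icc_lt_top
    have h6 := norm_setIntegral_le_of_norm_le_const h5 h2
    refine h6.trans (le_of_eq ?_)
    rw [hAI, measureReal_def, Real.volume_Icc, ENNReal.toReal_ofReal (by linarith)]
    ring
  have hnB : ‖∫ α in B, g α‖ ≤ η * (∫ α in B, ‖SS X v l α‖) := by
    refine (norm_integral_le_integral_norm _).trans ?_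
    rw [← integral_const_mul]
    have hBsub : B ⊆ Set.Icc (-α₂) α₂ := by
      intro α hα
      simp only [hB, Set.mem_ofPred_eq] at hα
      exact abs_le.1 hα.2
    have hSi : IntegrableOn (fun α => η * ‖SS X v l α‖) B := by
      refine IntegrableOn.mono_set ?_ hBsub
      exact (continuous_const.mul (SS_cont' X v l).norm).continuousOn.integrableOn_compact isCompact_Icc
    refine setIntegral_mono_on hgi.norm.integrableOn hSi hBm fun α _ => ?_
    simp only [hg]
    rw [norm_mul, norm_mul, norm_ee, mul_one, Complex.norm_real,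
      Real.norm_of_nonneg (mul_nonneg hη.le (wt_nonneg hη hH α))]
    have h3 : wt η H α ≤ 1 := by
      refine (wt_le η H α).trans ?_
      rw [Real.exp_le_one_iff]
      have := Real.pi_pos
      nlinarith [sq_nonneg (η * α)]
    have h4 := norm_nonneg (SS X v l α)
    have h5 : η * wt η H α ≤ η := by nlinarith
    nlinarith
  have hnC : ∫ α in C, g α = ∫ α : ℝ, ff X v l η H α₂ α * ee (-(α * y)) := by
    rw [← integral_indicator hCm]
    congr 1
    ext α
    unfold ff
    by_cases hα : α ∈ C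
    · rw [Set.indicator_of_mem hα, Set.indicator_of_mem (by exact hα)]
    · rw [Set.indicator_of_notMem hα, Set.indicator_of_notMem (by exact hα), zero_mul]
  have hfin : |RR X v l η y - η / H * RR X v l H y| = ‖∫ α, g α‖ := by
    rw [← hdiff, Complex.norm_real, Real.norm_eq_abs]
  rw [hfin, hsplit, hnC]
  exact (norm_add₃_le).trans (by gcongr)

/-- the mean square of the high frequencies -/
noncomputable def A2 (X : Fin s → Finset ℕ) (v : Fin s → ℕ → ℝ) (η α₂ : ℝ) (l : Fin s → ℝ) : ℝ :=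
  ∫ α in {α : ℝ | α₂ < |α|}, Real.exp (-Real.pi * (η * α) ^ 2) * ‖SS X v l α‖ ^ 2

/-- the mean of the middle frequencies -/
noncomputable def A1 (X : Fin s → Finset ℕ) (v : Fin s → ℕ → ℝ) (α₁ α₂ : ℝ) (l : Fin s → ℝ) : ℝ :=
  ∫ α in {α : ℝ | α₁ < |α| ∧ |α| ≤ α₂}, ‖SS X v l α‖

lemma ff_l2 (X : Fin s → Finset ℕ) (v : Fin s → ℕ → ℝ) (l : Fin s → ℝ) {η H : ℝ} (hη : 0 < η) (hH : η ≤ H)
    (α₂ : ℝ) {T : ℝ} (hT : 0 < T) :
    ∫ y : ℝ, Real.exp (-Real.pi * (y / T) ^ 2) * ‖∫ α : ℝ, ff X v l η H α₂ α * ee (-(α * y))‖ ^ 2 ≤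
      η ^ 2 * A2 X v η α₂ l := by
  have hfi := ff_int X v l hη hH α₂
  have hle : ∀ α : ℝ, ‖ff X v l η H α₂ α‖ ^ 2 ≤
      {α : ℝ | α₂ < |α|}.indicator (fun α => η ^ 2 * (Real.exp (-Real.pi * (η * α) ^ 2) * ‖SS X v l α‖ ^ 2)) α := by
    intro α
    unfold ff
    by_cases hα : α ∈ {α : ℝ | α₂ < |α|}
    · rw [Set.indicator_of_mem hα, Set.indicator_of_mem hα, norm_mul, Complex.norm_real,
        Real.norm_of_nonneg (mul_nonneg hη.le (wt_nonneg hη hH α)), mul_pow, mul_pow]
      have h1 := wt_nonneg hη hH α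
      have h2 := wt_le η H α
      have h3 : wt η H α ≤ 1 := by
        refine h2.trans ?_
        rw [Real.exp_le_one_iff]
        have := Real.pi_pos
        nlinarith [sq_nonneg (η * α)]
      have h4 : wt η H α ^ 2 ≤ Real.exp (-Real.pi * (η * α) ^ 2) := by nlinarith
      calc η ^ 2 * wt η H α ^ 2 * ‖SS X v l α‖ ^ 2 ≤
          η ^ 2 * Real.exp (-Real.pi * (η * α) ^ 2) * ‖SS X v l α‖ ^ 2 := by gcongr
        _ = _ := by ring
    · rw [Set.indicator_of_notMem hα, Set.indicator_of_notMem hα]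
      simp
  have hgi : Integrable ({α : ℝ | α₂ < |α|}.indicator
      (fun α => η ^ 2 * (Real.exp (-Real.pi * (η * α) ^ 2) * ‖SS X v l α‖ ^ 2))) := by
    refine Integrable.indicator ?_ (meas_high α₂)
    refine Integrable.const_mul ?_ _
    refine (gauss_integrable hη).mul_bdd (c := NN X ^ 2) ((SS_cont' X v l).norm.pow 2).aestronglyMeasurable
      (Filter.Eventually.of_forall fun α => ?_)
    rw [Real.norm_of_nonneg (by positivity)]
    have := SS_le X v l α
    gcongr
  have hf2 : Integrable fun α => ‖ff X v l η H α₂ α‖ ^ 2 := by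
    refine hgi.mono' (hfi.aestronglyMeasurable.norm.pow 2) (Filter.Eventually.of_forall fun α => ?_)
    rw [Real.norm_of_nonneg (by positivity)]
    exact hle α
  refine (local_l2 hfi hf2 hT).trans ((integral_mono hf2 hgi hle).trans (le_of_eq ?_))
  rw [integral_indicator (meas_high α₂), integral_const_mul]
  rfl

end Pool.Agent.Q43.MW
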