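import Mathlib
import Pool.Agent.Q43.MW.Eng

set_option autoImplicit false

/-!
# Means over the coefficients, and Borel-Cantelli
-/

namespace Pool.Agent.Q43.MW

open MeasureTheory Complex Finset

variable {s : ℕ}

/-- Lebesgue measure on a cube -/
noncomputable def bx (s : ℕ) (a b : ℝ) : Measure (Fin s → ℝ) := Measure.pi fun _ => volume.restrict (Set.Ioc a b)

instance bx_fin (a b : ℝ) : IsFiniteMeasure (bx s a b) := by
  unfold bx
  infer_instance

lemma bx_real {a b : ℝ} (hab : a ≤ b) : (bx s a b).real Set.univ = (b - a) ^ s := by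
  unfold bx
  rw [measureReal_def, Measure.pi_univ]
  simp only [Measure.restrict_apply_univ, Real.volume_Ioc, prod_const, card_univ, Fintype.card_fin]
  rw [ENNReal.toReal_pow, ENNReal.toReal_ofReal (by linarith)]

lemma bx_eq (a b : ℝ) : bx s a b = volume.restrict (Set.univ.pi fun _ : Fin s => Set.Ioc a b) := by
  unfold bx
  rw [volume_pi, Measure.restrict_pi_pi]

lemma SS_int_sq (X : Fin s → Finset ℕ) (v : Fin s → ℕ → ℝ) (a b α : ℝ) :
    Integrable (fun l => ‖SS X v l α‖ ^ 2) (bx s a b) := by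
  have h1 : Integrable (fun _ : Fin s → ℝ => (1 : ℝ)) (bx s a b) := integrable_const 1
  have hc : Continuous fun l : Fin s → ℝ => ‖SS X v l α‖ ^ 2 :=
    (((SS_cont X v).comp (by fun_prop : Continuous fun l : Fin s → ℝ => (l, α))).norm.pow 2)
  refine (integrable_const (NN X ^ 2)).mono' hc.aestronglyMeasurable (Filter.Eventually.of_forall fun l => ?_)
  rw [Real.norm_of_nonneg (by positivity)]
  have := SS_le X v l α
  gcongr

lemma SS_int (X : Fin s → Finset ℕ) (v : Fin s → ℕ → ℝ) (a b α : ℝ) :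
    Integrable (fun l => ‖SS X v l α‖) (bx s a b) := by
  have hc : Continuous fun l : Fin s → ℝ => ‖SS X v l α‖ :=
    ((SS_cont X v).comp (by fun_prop : Continuous fun l : Fin s → ℝ => (l, α))).norm
  refine (integrable_const (NN X)).mono' hc.aestronglyMeasurable (Filter.Eventually.of_forall fun l => ?_)
  rw [Real.norm_of_nonneg (norm_nonneg _)]
  exact SS_le X v l α

lemma mean_eq (X : Fin s → Finset ℕ) (v : Fin s → ℕ → ℝ) {a b : ℝ} (hab : a ≤ b) (α : ℝ) :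
    ∫ l, ‖SS X v l α‖ ^ 2 ∂(bx s a b) = ∏ i, ∫ t in a..b, ‖S1 (X i) (v i) (t * α)‖ ^ 2 := by
  have e : ∀ l : Fin s → ℝ, ‖SS X v l α‖ ^ 2 = ∏ i, ‖S1 (X i) (v i) (l i * α)‖ ^ 2 := by
    intro l
    unfold SS
    rw [norm_prod, prod_pow]
  simp only [e]
  unfold bx
  rw [integral_fintype_prod_eq_prod (fun i (t : ℝ) => ‖S1 (X i) (v i) (t * α)‖ ^ 2)]
  refine prod_congr rfl fun i _ => ?_
  rw [intervalIntegral.integral_of_le hab]

/-- the data of one scale -/
structure Data (X : Fin s → Finset ℕ) (v : Fin s → ℕ → ℝ) (N : Fin s → ℕ) (D : Fin s → ℝ) : Prop where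
  one_le : ∀ i, 1 ≤ N i
  pos : ∀ i, 0 < D i
  sub : ∀ i, ∃ u, X i ⊆ Ico u (u + N i)
  sep : ∀ i, ∀ x ∈ X i, ∀ z ∈ X i, D i * |(x : ℝ) - z| ≤ |v i x - v i z|

lemma mean_le {X : Fin s → Finset ℕ} {v : Fin s → ℕ → ℝ} {N : Fin s → ℕ} {D : Fin s → ℝ} (h : Data X v N D)
    {a b : ℝ} (hab : a ≤ b) {α : ℝ} (hα : α ≠ 0) :
    ∫ l, ‖SS X v l α‖ ^ 2 ∂(bx s a b) ≤
      ∏ i, ((b - a + 1) * N i * (1 + Real.log (N i)) * (1 + 1 / (|α| * D i))) := by
  rw [mean_eq X v hab α]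
  refine prod_le_prod (fun i _ => intervalIntegral.integral_nonneg hab fun t _ => by positivity) fun i _ => ?_
  obtain ⟨u, hu⟩ := h.sub i
  exact ms hu (h.one_le i) (h.pos i) (h.sep i) hab hα

lemma mean_A2 (X : Fin s → Finset ℕ) (v : Fin s → ℕ → ℝ) (a b : ℝ) {η : ℝ} (hη : 0 < η) (α₂ : ℝ) :
    Integrable (A2 X v η α₂) (bx s a b) ∧ ∫ l, A2 X v η α₂ l ∂(bx s a b) =
      ∫ α in {α : ℝ | α₂ < |α|}, Real.exp (-Real.pi * (η * α) ^ 2) * ∫ l, ‖SS X v l α‖ ^ 2 ∂(bx s a b) := by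
  have hint : Integrable (fun q : (Fin s → ℝ) × ℝ => Real.exp (-Real.pi * (η * q.2) ^ 2) * ‖SS X v q.1 q.2‖ ^ 2)
      ((bx s a b).prod (volume.restrict {α : ℝ | α₂ < |α|})) := by
    have h1 : Integrable (fun _ : Fin s → ℝ => (1 : ℝ)) (bx s a b) := integrable_const 1
    have h2 : Integrable (fun α : ℝ => Real.exp (-Real.pi * (η * α) ^ 2)) (volume.restrict {α : ℝ | α₂ < |α|}) :=
      (gauss_integrable hη).restrict
    have h3 := h1.mul_prod h2
    have h4 := h3.mul_bdd (c := NN X ^ 2) (g := fun q : (Fin s → ℝ) × ℝ => ‖SS X v q.1 q.2‖ ^ 2)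
      ((SS_cont X v).norm.pow 2).aestronglyMeasurable (Filter.Eventually.of_forall fun q => by
        rw [Real.norm_of_nonneg (by positivity)]
        have := SS_le X v q.1 q.2
        gcongr)
    refine h4.congr (Filter.Eventually.of_forall fun q => ?_)
    simp only [one_mul]
  refine ⟨hint.integral_prod_left, ?_⟩
  unfold A2
  rw [integral_integral_swap hint]
  congr 1
  ext α
  rw [integral_const_mul]

lemma mean_A1 (X : Fin s → Finset ℕ) (v : Fin s → ℕ → ℝ) (a b : ℝ) (α₁ α₂ : ℝ) :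
    Integrable (A1 X v α₁ α₂) (bx s a b) ∧ ∫ l, A1 X v α₁ α₂ l ∂(bx s a b) =
      ∫ α in {α : ℝ | α₁ < |α| ∧ |α| ≤ α₂}, ∫ l, ‖SS X v l α‖ ∂(bx s a b) := by
  have hfin : IsFiniteMeasure (volume.restrict {α : ℝ | α₁ < |α| ∧ |α| ≤ α₂}) := by
    refine isFiniteMeasure_restrict.2 (ne_of_lt ?_)
    refine lt_of_le_of_lt (measure_mono (t := Set.Icc (-α₂) α₂) ?_) measure_Icc_lt_top
    intro α hα
    exact abs_le.1 hα.2
  have hint : Integrable (fun q : (Fin s → ℝ) × ℝ => ‖SS X v q.1 q.2‖)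
      ((bx s a b).prod (volume.restrict {α : ℝ | α₁ < |α| ∧ |α| ≤ α₂})) := by
    refine (integrable_const (NN X)).mono' (SS_cont X v).norm.aestronglyMeasurable
      (Filter.Eventually.of_forall fun q => ?_)
    rw [Real.norm_of_nonneg (norm_nonneg _)]
    exact SS_le X v q.1 q.2
  refine ⟨hint.integral_prod_left, ?_⟩
  unfold A1
  rw [integral_integral_swap hint]

lemma A1_nonneg (X : Fin s → Finset ℕ) (v : Fin s → ℕ → ℝ) (α₁ α₂ : ℝ) (l : Fin s → ℝ) : 0 ≤ A1 X v α₁ α₂ l :=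
  integral_nonneg fun _ => norm_nonneg _

lemma A2_nonneg (X : Fin s → Finset ℕ) (v : Fin s → ℕ → ℝ) (η α₂ : ℝ) (l : Fin s → ℝ) : 0 ≤ A2 X v η α₂ l :=
  integral_nonneg fun _ => by positivity

/-- means of norms from mean squares -/
lemma mean_norm_le (X : Fin s → Finset ℕ) (v : Fin s → ℕ → ℝ) {a b : ℝ} (hab : a ≤ b) {α t : ℝ} (ht : 0 < t)
    (h : ∫ l, ‖SS X v l α‖ ^ 2 ∂(bx s a b) ≤ t ^ 2) :
    ∫ l, ‖SS X v l α‖ ∂(bx s a b) ≤ ((b - a) ^ s + 1) * t := by
  have h1 : ∫ l, ‖SS X v l α‖ ∂(bx s a b) ≤ ∫ l, (t + ‖SS X v l α‖ ^ 2 / t) ∂(bx s a b) := by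
    refine integral_mono (SS_int X v a b α) ((integrable_const t).add ((SS_int_sq X v a b α).div_const t))
      fun l => ?_
    simp only
    have h2 := norm_nonneg (SS X v l α)
    rcases le_total ‖SS X v l α‖ t with h3 | h3
    · have : 0 ≤ ‖SS X v l α‖ ^ 2 / t := by positivity
      linarith
    · have : ‖SS X v l α‖ ≤ ‖SS X v l α‖ ^ 2 / t := by
        rw [le_div_iff₀ ht]
        nlinarith
      linarith
  refine h1.trans ?_
  rw [integral_add (integrable_const t) ((SS_int_sq X v a b α).div_const t), integral_const,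
    integral_div, bx_real hab, smul_eq_mul]
  have : (∫ l, ‖SS X v l α‖ ^ 2 ∂(bx s a b)) / t ≤ t := by
    rw [div_le_iff₀ ht]
    nlinarith
  linarith

lemma inv_int {α₁ α₂ : ℝ} (h1 : 0 < α₁) (h12 : α₁ ≤ α₂) :
    IntegrableOn (fun α : ℝ => 1 / |α|) {α : ℝ | α₁ < |α| ∧ |α| ≤ α₂} ∧
    ∫ α in {α : ℝ | α₁ < |α| ∧ |α| ≤ α₂}, 1 / |α| = 2 * Real.log (α₂ / α₁) := by
  have h2 : 0 < α₂ := h1.trans_le h12
  have hset : {α : ℝ | α₁ < |α| ∧ |α| ≤ α₂} = Set.Ioc α₁ α₂ ∪ Set.Ico (-α₂) (-α₁) := by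
    ext α
    simp only [Set.mem_ofPred_eq, Set.mem_union, Set.mem_Ioc, Set.mem_Ico]
    rcases le_total 0 α with h | h
    · rw [abs_of_nonneg h]
      constructor
      · intro g; exact Or.inl g
      · rintro (g | g)
        · exact g
        · exact absurd g.2 (by linarith)
    · rw [abs_of_nonpos h]
      constructor
      · intro g; exact Or.inr ⟨by linarith [g.2], by linarith [g.1]⟩
      · rintro (g | g)
        · exact absurd g.1 (by linarith)
        · exact ⟨by linarith [g.2], by linarith [g.1]⟩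
  have hdisj : Disjoint (Set.Ioc α₁ α₂) (Set.Ico (-α₂) (-α₁)) := by
    rw [Set.disjoint_left]
    intro α g1 g2
    linarith [g1.1, g2.2]
  have c1 : IntegrableOn (fun α : ℝ => 1 / |α|) (Set.Ioc α₁ α₂) := by
    refine (ContinuousOn.integrableOn_compact isCompact_Icc ?_).mono_set Set.Ioc_subset_Icc_self
    refine continuousOn_const.div continuous_abs.continuousOn fun α hα => ?_
    exact (abs_pos.2 (by linarith [hα.1])).ne'
  have c2 : IntegrableOn (fun α : ℝ => 1 / |α|) (Set.Ico (-α₂) (-α₁)) := by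
    refine (ContinuousOn.integrableOn_compact isCompact_Icc ?_).mono_set Set.Ico_subset_Icc_self
    refine continuousOn_const.div continuous_abs.continuousOn fun α hα => ?_
    exact (abs_pos.2 (by linarith [hα.2])).ne'
  have i1 : ∫ α in Set.Ioc α₁ α₂, 1 / |α| = Real.log (α₂ / α₁) := by
    rw [← intervalIntegral.integral_of_le h12, ← integral_one_div_of_pos h1 h2]
    refine intervalIntegral.integral_congr fun α hα => ?_
    rw [Set.uIcc_of_le h12] at hα
    rw [abs_of_pos (by linarith [hα.1])]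
  have i2 : ∫ α in Set.Ico (-α₂) (-α₁), 1 / |α| = Real.log (α₂ / α₁) := by
    rw [integral_Ico_eq_integral_Ioc, ← intervalIntegral.integral_of_le (by linarith),
      ← integral_one_div_of_pos h1 h2, ← intervalIntegral.integral_comp_neg]
    refine intervalIntegral.integral_congr fun α hα => ?_
    rw [Set.uIcc_of_le (by linarith)] at hα
    rw [abs_neg, abs_of_pos (by linarith [hα.1])]
  rw [hset]
  refine ⟨c1.union c2, ?_⟩
  rw [setIntegral_union hdisj measurableSet_Ico c1 c2, i1, i2]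
  ring

/-- **The middle frequencies in the mean.** -/
lemma mean_A1_le {X : Fin s → Finset ℕ} {v : Fin s → ℕ → ℝ} {a b : ℝ} (hab : a ≤ b) {α₁ α₂ Y K NP c : ℝ}
    (h1 : 0 < α₁) (h12 : α₁ ≤ α₂) (hY : 0 < Y) (hK : 0 < K) (hNP : 0 < NP) (hc : 0 ≤ c)
    (hΦ : ∀ α : ℝ, α₁ < |α| → |α| ≤ α₂ →
      ∫ l, ‖SS X v l α‖ ^ 2 ∂(bx s a b) ≤ (K * NP * (|α| * Y) ^ (-1 - c)) ^ 2) :
    ∫ l, A1 X v α₁ α₂ l ∂(bx s a b) ≤
      ((b - a) ^ s + 1) * K * NP / Y * (α₁ * Y) ^ (-c) * (2 * Real.log (α₂ / α₁)) := by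
  rw [(mean_A1 X v a b α₁ α₂).2, ← (inv_int h1 h12).2, ← integral_const_mul]
  have hfin : IsFiniteMeasure (volume.restrict {α : ℝ | α₁ < |α| ∧ |α| ≤ α₂}) := by
    refine isFiniteMeasure_restrict.2 (ne_of_lt ?_)
    refine lt_of_le_of_lt (measure_mono (t := Set.Icc (-α₂) α₂) ?_) measure_Icc_lt_top
    intro α hα
    exact abs_le.1 hα.2
  have hm : MeasurableSet {α : ℝ | α₁ < |α| ∧ |α| ≤ α₂} := (meas_high α₁).inter
    ((isClosed_le continuous_abs continuous_const).measurableSet : MeasurableSet {α : ℝ | |α| ≤ α₂})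
  have hint : Integrable (fun q : ℝ × (Fin s → ℝ) => ‖SS X v q.2 q.1‖)
      ((volume.restrict {α : ℝ | α₁ < |α| ∧ |α| ≤ α₂}).prod (bx s a b)) := by
    refine (integrable_const (NN X)).mono'
      (((SS_cont X v).comp continuous_swap).norm.aestronglyMeasurable)
      (Filter.Eventually.of_forall fun q => ?_)
    rw [Real.norm_of_nonneg (norm_nonneg _)]
    exact SS_le X v q.2 q.1
  refine setIntegral_mono_on hint.integral_prod_left ((inv_int h1 h12).1.const_mul _) hm fun α hα => ?_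
  have hα0 : 0 < |α| := h1.trans hα.1
  have hM : 0 < |α| * Y := by positivity
  have ht : 0 < K * NP * (|α| * Y) ^ (-1 - c) := by positivity
  have hV : 0 ≤ (b - a) ^ s + 1 := by
    have : 0 ≤ b - a := by linarith
    positivity
  refine (mean_norm_le X v hab ht (hΦ α hα.1 hα.2)).trans ?_
  have h3 : (|α| * Y) ^ (-1 - c) ≤ (α₁ * Y) ^ (-c) * (1 / (|α| * Y)) := by
    rw [show (-1 - c : ℝ) = -c + (-1) by ring, Real.rpow_add hM, Real.rpow_neg_one, one_div]
    refine mul_le_mul_of_nonneg_right ?_ (by positivity)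
    refine Real.rpow_le_rpow_of_nonpos (by positivity) ?_ (by linarith)
    exact mul_le_mul_of_nonneg_right hα.1.le hY.le
  calc ((b - a) ^ s + 1) * (K * NP * (|α| * Y) ^ (-1 - c)) ≤
      ((b - a) ^ s + 1) * (K * NP * ((α₁ * Y) ^ (-c) * (1 / (|α| * Y)))) := by gcongr
    _ = _ := by
      field_simp

/-- **The high frequencies in the mean.** -/
lemma mean_A2_le {X : Fin s → Finset ℕ} {v : Fin s → ℕ → ℝ} {a b : ℝ} {α₂ K η : ℝ} (hη : 0 < η) (hK : 0 ≤ K)
    (hΦ : ∀ α : ℝ, α₂ < |α| → ∫ l, ‖SS X v l α‖ ^ 2 ∂(bx s a b) ≤ K) :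
    ∫ l, A2 X v η α₂ l ∂(bx s a b) ≤ K / η := by
  rw [(mean_A2 X v a b hη α₂).2]
  have h1 : ∫ α in {α : ℝ | α₂ < |α|}, Real.exp (-Real.pi * (η * α) ^ 2) * ∫ l, ‖SS X v l α‖ ^ 2 ∂(bx s a b) ≤
      ∫ α in {α : ℝ | α₂ < |α|}, Real.exp (-Real.pi * (η * α) ^ 2) * K := by
    refine integral_mono_of_nonneg (Filter.Eventually.of_forall fun α => ?_)
      (((gauss_integrable hη).mul_const K).restrict) ?_
    · have : 0 ≤ ∫ l, ‖SS X v l α‖ ^ 2 ∂(bx s a b) := integral_nonneg fun _ => by positivity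
      simp only [Pi.zero_apply]
      positivity
    · refine (ae_restrict_iff' (meas_high α₂)).2 (Filter.Eventually.of_forall fun α hα => ?_)
      exact mul_le_mul_of_nonneg_left (hΦ α hα) (Real.exp_pos _).le
  refine h1.trans ?_
  rw [integral_mul_const]
  have h2 : ∫ α in {α : ℝ | α₂ < |α|}, Real.exp (-Real.pi * (η * α) ^ 2) ≤ 1 / η := by
    rw [← gauss_int hη]
    exact setIntegral_le_integral (gauss_integrable hη) (Filter.Eventually.of_forall fun α => (Real.exp_pos _).le)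
  calc (∫ α in {α : ℝ | α₂ < |α|}, Real.exp (-Real.pi * (η * α) ^ 2)) * K ≤ 1 / η * K := by gcongr
    _ = K / η := by ring

/-- **Borel-Cantelli.** -/
lemma bc {Ω : Type*} [MeasurableSpace Ω] {μ : Measure Ω} [IsFiniteMeasure μ] {f : ℕ → Ω → ℝ}
    (hf : ∀ j, Integrable (f j) μ) (h0 : ∀ j ω, 0 ≤ f j ω) {E θ : ℕ → ℝ} {j₀ : ℕ}
    (hE : ∀ j, j₀ ≤ j → ∫ ω, f j ω ∂μ ≤ E j) (hθ : ∀ j, 0 < θ j) (hs : Summable fun j => E j / θ j) :
    ∀ᵐ ω ∂μ, ∀ᶠ j in Filter.atTop, f j ω < θ j := by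
  have hE0 : ∀ j, j₀ ≤ j → 0 ≤ E j := fun j hj => (integral_nonneg fun ω => h0 j ω).trans (hE j hj)
  have hs' : Summable fun j => E (j + j₀) / θ (j + j₀) := (summable_nat_add_iff j₀).2 hs
  have h1 : ∑' j, μ {ω | θ (j + j₀) ≤ f (j + j₀) ω} ≠ ⊤ := by
    refine ne_of_lt (lt_of_le_of_lt (ENNReal.tsum_le_tsum fun j => ?_)
      (hs'.tsum_ofReal_ne_top.lt_top))
    have h2 := mul_meas_ge_le_integral_of_nonneg (μ := μ) (f := f (j + j₀))
      (Filter.Eventually.of_forall fun ω => h0 (j + j₀) ω) (hf (j + j₀)) (θ (j + j₀))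
    have h3 : μ.real {ω | θ (j + j₀) ≤ f (j + j₀) ω} ≤ E (j + j₀) / θ (j + j₀) := by
      rw [le_div_iff₀ (hθ _), mul_comm]
      exact h2.trans (hE _ (by omega))
    rw [← ENNReal.ofReal_toReal (measure_ne_top μ {ω | θ (j + j₀) ≤ f (j + j₀) ω})]
    exact ENNReal.ofReal_le_ofReal h3
  filter_upwards [ae_eventually_notMem h1] with ω hω
  obtain ⟨J, hJ⟩ := Filter.eventually_atTop.1 hω
  refine Filter.eventually_atTop.2 ⟨J + j₀, fun j hj => ?_⟩
  have h2 := hJ (j - j₀) (by omega)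
  have h3 : j - j₀ + j₀ = j := by omega
  simp only [h3, not_le] at h2
  exact h2

end Pool.Agent.Q43.MW
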