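import Mathlib
import Pool.Agent.Q43.MW.Mean

set_option autoImplicit false

/-!
# The count at a large scale
-/

namespace Pool.Agent.Q43.MW

open Finset

/-- **The number of the values of the form near `y`, at a large scale.** -/
lemma disc {n : ℕ} {X : Fin (n + 1) → Finset ℕ} {v : Fin (n + 1) → ℕ → ℝ} {l : Fin (n + 1) → ℝ}
    {a b H Y : ℝ} (ha : 0 < a) (hab : a ≤ b) (hH : 0 < H) (hY : 0 < Y) (hl : ∀ i, a < l i ∧ l i ≤ b) {y : ℝ}
    (hy1 : 2 * Y * ∑ i, l i ≤ y) (hy2 : y ≤ 5 * Y * ∑ i, l i) {m₀ : ℝ} (hm₀ : 0 ≤ m₀)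
    (hC0 : ∀ u : ℝ, 2 * Y ≤ u → u ≤ 15 / 2 * Y →
      m₀ ≤ (((X 0).filter fun x => |v 0 x - u| ≤ H / b).card : ℝ)) {m : Fin n → ℝ} (hm : ∀ i, 0 ≤ m i)
    (hC : ∀ (i : Fin n) (z : ℝ), 2 * Y ≤ z → z ≤ 5 * Y →
      m i ≤ (((X i.succ).filter fun x => z * (1 - a / (2 * ((n : ℝ) + 1) * b)) ≤ v i.succ x ∧
        v i.succ x ≤ z).card : ℝ)) :
    Real.exp (-Real.pi) * (m₀ * ∏ i, m i) ≤ RR X v l H y := by
  classical
  have hb : 0 < b := ha.trans_le hab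
  set ε : ℝ := a / (2 * ((n : ℝ) + 1) * b) with hε
  have hε0 : 0 < ε := by positivity
  have hl0 : 0 < l 0 := ha.trans (hl 0).1
  set L : ℝ := ∑ i, l i with hL
  have hLpos : 0 < L := by
    rw [hL]
    exact sum_pos (fun i _ => ha.trans (hl i).1) univ_nonempty
  set z : ℝ := y / L with hz
  have hyz : y = z * L := by rw [hz]; field_simp
  have hz1 : 2 * Y ≤ z := by rw [hz, le_div_iff₀ hLpos]; exact hy1
  have hz2 : z ≤ 5 * Y := by rw [hz, div_le_iff₀ hLpos]; exact hy2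
  have hz0 : 0 < z := by linarith
  set W : Fin n → Finset ℕ := fun i => (X i.succ).filter fun x => z * (1 - ε) ≤ v i.succ x ∧ v i.succ x ≤ z with hW
  set tail : (Fin n → ℕ) → ℝ := fun x => ∑ i : Fin n, l i.succ * v i.succ (x i) with htail
  set fib : (Fin n → ℕ) → Finset ℕ := fun x =>
    (X 0).filter fun x₀ => |v 0 x₀ - (y - tail x) / l 0| ≤ H / b with hfib
  set T : Finset (Σ _ : Fin n → ℕ, ℕ) := (Fintype.piFinset W).sigma fib with hT
  set good := (Fintype.piFinset X).filter fun x => |form v l x - y| ≤ H with hgood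
  have hL' : ∑ i : Fin n, l i.succ = L - l 0 := by
    rw [hL, Fin.sum_univ_succ]; ring
  have hL'0 : 0 ≤ ∑ i : Fin n, l i.succ := sum_nonneg fun i _ => (ha.trans (hl i.succ).1).le
  have hL'b : ∑ i : Fin n, l i.succ ≤ n * b := by
    calc ∑ i : Fin n, l i.succ ≤ ∑ _i : Fin n, b := sum_le_sum fun i _ => (hl i.succ).2
      _ = n * b := by simp
  have hu : ∀ x ∈ Fintype.piFinset W, 2 * Y ≤ (y - tail x) / l 0 ∧ (y - tail x) / l 0 ≤ 15 / 2 * Y := by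
    intro x hx
    rw [Fintype.mem_piFinset] at hx
    have t1 : tail x ≤ z * ∑ i : Fin n, l i.succ := by
      rw [htail, mul_sum]
      refine sum_le_sum fun i _ => ?_
      have h1 := (mem_filter.1 (hx i)).2.2
      have h2 : 0 < l i.succ := ha.trans (hl i.succ).1
      nlinarith
    have t2 : z * (1 - ε) * ∑ i : Fin n, l i.succ ≤ tail x := by
      rw [htail, mul_sum]
      refine sum_le_sum fun i _ => ?_
      have h1 := (mem_filter.1 (hx i)).2.1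
      have h2 : 0 < l i.succ := ha.trans (hl i.succ).1
      nlinarith
    rw [hL'] at t1 t2
    constructor
    · rw [le_div_iff₀ hl0]
      nlinarith
    · rw [div_le_iff₀ hl0]
      -- y - tail ≤ z L - z (1 - ε) (L - l 0) = z l0 + z ε (L - l0) ≤ z l0 + z a / 2
      have h3 : ε * (L - l 0) ≤ a / 2 := by
        rw [← hL']
        calc ε * ∑ i : Fin n, l i.succ ≤ ε * (n * b) := by gcongr
          _ ≤ ε * ((n + 1) * b) := by gcongr; linarith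
          _ = a / 2 := by rw [hε]; field_simp
      have h4 : y - tail x ≤ z * l 0 + z * (a / 2) := by
        have : z * (ε * (L - l 0)) ≤ z * (a / 2) := by gcongr
        nlinarith
      have h5 : z * (a / 2) ≤ z * (l 0 / 2) := by
        have := (hl 0).1
        gcongr
      nlinarith
  have hcardT : m₀ * ∏ i, m i ≤ (T.card : ℝ) := by
    rw [hT, card_sigma]
    push_cast
    have h1 : ∑ _x ∈ Fintype.piFinset W, m₀ ≤ ∑ x ∈ Fintype.piFinset W, ((fib x).card : ℝ) :=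
      sum_le_sum fun x hx => hC0 _ (hu x hx).1 (hu x hx).2
    refine le_trans ?_ h1
    rw [sum_const, nsmul_eq_mul, Fintype.card_piFinset]
    push_cast
    rw [mul_comm]
    refine mul_le_mul_of_nonneg_right (prod_le_prod (fun i _ => hm i) fun i _ => ?_) hm₀
    exact hC i z hz1 hz2
  have hinj : T.card ≤ good.card := by
    refine card_le_card_of_injOn (fun q => Fin.cons q.2 q.1) ?_ ?_
    · intro q hq
      rw [mem_coe, hT, mem_sigma] at hq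
      obtain ⟨h1, h2⟩ := hq
      have h3 := mem_filter.1 h2
      rw [mem_coe, hgood, mem_filter]
      refine ⟨?_, ?_⟩
      · rw [Fintype.mem_piFinset]
        intro i
        refine Fin.cases ?_ (fun i => ?_) i
        · simpa using h3.1
        · change (Fin.cons q.2 q.1 : Fin (n + 1) → ℕ) i.succ ∈ X i.succ
          rw [Fin.cons_succ]
          exact (mem_filter.1 (Fintype.mem_piFinset.1 h1 i)).1
      · have h4 : form v l (Fin.cons q.2 q.1) - y = l 0 * (v 0 q.2 - (y - tail q.1) / l 0) := by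
          unfold form
          rw [Fin.sum_univ_succ]
          simp only [Fin.cons_zero, Fin.cons_succ]
          rw [htail]
          field_simp
          ring
        rw [h4, abs_mul, abs_of_pos hl0]
        calc l 0 * |v 0 q.2 - (y - tail q.1) / l 0| ≤ b * (H / b) :=
              mul_le_mul (hl 0).2 h3.2 (abs_nonneg _) hb.le
          _ = H := by field_simp
    · intro q _ q' _ h
      simp only at h
      have h1 := Fin.cons_injective2 h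
      rcases q with ⟨q1, q2⟩
      rcases q' with ⟨q1', q2'⟩
      simp only at h1
      rw [h1.1, h1.2]
  have hsum : Real.exp (-Real.pi) * good.card ≤ RR X v l H y := by
    unfold RR
    rw [mul_comm, ← nsmul_eq_mul, ← sum_const]
    calc ∑ _x ∈ good, Real.exp (-Real.pi) ≤
        ∑ x ∈ good, Real.exp (-Real.pi * ((form v l x - y) / H) ^ 2) := by
          refine sum_le_sum fun x hx => Real.exp_le_exp.2 ?_
          have h1 := (mem_filter.1 hx).2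
          have h2 : ((form v l x - y) / H) ^ 2 ≤ 1 := by
            rw [← sq_abs, abs_div, abs_of_pos hH]
            have h3 : |form v l x - y| / H ≤ 1 := by rw [div_le_one hH]; exact h1
            have h4 : 0 ≤ |form v l x - y| / H := by positivity
            nlinarith
          have := Real.pi_pos
          nlinarith
      _ ≤ _ := sum_le_sum_of_subset_of_nonneg (filter_subset _ _) fun x _ _ => (Real.exp_pos _).le
  refine le_trans ?_ hsum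
  refine mul_le_mul_of_nonneg_left ?_ (Real.exp_pos _).le
  exact hcardT.trans (by exact_mod_cast hinj)

/-! ### Powers -/

/-- the range of a variable with the exponent `k` -/
noncomputable def Xk (k : ℕ) (Y : ℝ) : Finset ℕ := Ico ⌈Y ^ (k : ℝ)⁻¹⌉₊ ⌈8 * Y ^ (k : ℝ)⁻¹⌉₊

lemma root_pow {k : ℕ} (hk : 1 ≤ k) {Y : ℝ} (hY : 0 ≤ Y) : (Y ^ (k : ℝ)⁻¹) ^ k = Y :=
  Real.rpow_inv_natCast_pow hY (by omega)

lemma mem_Xk {k : ℕ} {Y : ℝ} {x : ℕ} : x ∈ Xk k Y ↔ Y ^ (k : ℝ)⁻¹ ≤ x ∧ (x : ℝ) < 8 * Y ^ (k : ℝ)⁻¹ := by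
  unfold Xk
  rw [mem_Ico, Nat.ceil_le, Nat.lt_ceil]

lemma Xk_card {k : ℕ} {Y : ℝ} (hY : 1 ≤ Y) :
    1 ≤ (Xk k Y).card ∧ ((Xk k Y).card : ℝ) ≤ 8 * Y ^ (k : ℝ)⁻¹ ∧
      Xk k Y ⊆ Ico ⌈Y ^ (k : ℝ)⁻¹⌉₊ (⌈Y ^ (k : ℝ)⁻¹⌉₊ + (Xk k Y).card) := by
  set P : ℝ := Y ^ (k : ℝ)⁻¹ with hP
  have hP1 : 1 ≤ P := Real.one_le_rpow hY (by positivity)
  have h1 : (⌈P⌉₊ : ℝ) < P + 1 := Nat.ceil_lt_add_one (by linarith)
  have h2 : P ≤ (⌈P⌉₊ : ℝ) := Nat.le_ceil P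
  have h3 : (⌈8 * P⌉₊ : ℝ) < 8 * P + 1 := Nat.ceil_lt_add_one (by linarith)
  have h4 : 8 * P ≤ (⌈8 * P⌉₊ : ℝ) := Nat.le_ceil _
  have hlt : ⌈P⌉₊ + 1 ≤ ⌈8 * P⌉₊ := by
    have : (⌈P⌉₊ : ℝ) + 1 < ⌈8 * P⌉₊ + 1 := by linarith
    have h5 : ⌈P⌉₊ + 1 < ⌈8 * P⌉₊ + 1 := by exact_mod_cast this
    omega
  have hc : (Xk k Y).card = ⌈8 * P⌉₊ - ⌈P⌉₊ := by
    unfold Xk
    rw [Nat.card_Ico]
  refine ⟨by rw [hc]; omega, ?_, ?_⟩
  · rw [hc, Nat.cast_sub (by omega)]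
    linarith
  · rw [hc]
    have : ⌈P⌉₊ + (⌈8 * P⌉₊ - ⌈P⌉₊) = ⌈8 * P⌉₊ := by omega
    rw [this]
    exact subset_rfl

lemma sep_pow {k : ℕ} (hk : 1 ≤ k) {Y : ℝ} (hY : 0 < Y) {x z : ℕ} (hx : Y ^ (k : ℝ)⁻¹ ≤ x) (hz : Y ^ (k : ℝ)⁻¹ ≤ z) :
    Y ^ (1 - (k : ℝ)⁻¹) * |(x : ℝ) - z| ≤ |(x : ℝ) ^ k - (z : ℝ) ^ k| := by
  set P : ℝ := Y ^ (k : ℝ)⁻¹ with hP
  have hP0 : 0 < P := Real.rpow_pos_of_pos hY _
  have hk0 : (k : ℝ) ≠ 0 := by exact_mod_cast (by omega : k ≠ 0)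
  have hD : Y ^ (1 - (k : ℝ)⁻¹) = P ^ (k - 1) := by
    rw [hP, ← Real.rpow_natCast, ← Real.rpow_mul hY.le]
    congr 1
    rw [Nat.cast_sub hk]
    push_cast
    field_simp
  rw [hD]
  have key : ∀ x z : ℝ, P ≤ z → z ≤ x → P ^ (k - 1) * (x - z) ≤ x ^ k - z ^ k := by
    intro x z hz hzx
    obtain ⟨m, rfl⟩ : ∃ m, k = m + 1 := ⟨k - 1, by omega⟩
    have hz0 : 0 < z := hP0.trans_le hz
    simp only [Nat.add_sub_cancel]
    have h1 : z ^ m ≤ x ^ m := pow_le_pow_left₀ hz0.le hzx m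
    have h2 : P ^ m ≤ z ^ m := pow_le_pow_left₀ hP0.le hz m
    have e1 : x ^ (m + 1) - z ^ (m + 1) = x * (x ^ m - z ^ m) + z ^ m * (x - z) := by ring
    rw [e1]
    have h3 : 0 ≤ x * (x ^ m - z ^ m) := mul_nonneg (by linarith) (by linarith)
    have h4 : P ^ m * (x - z) ≤ z ^ m * (x - z) := mul_le_mul_of_nonneg_right h2 (by linarith)
    linarith
  rcases le_total (x : ℝ) z with h | h
  · rw [abs_sub_comm, abs_of_nonneg (by linarith), abs_sub_comm ((x : ℝ) ^ k),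
      abs_of_nonneg (by have := pow_le_pow_left₀ (Nat.cast_nonneg x) h k; linarith)]
    exact key z x hx h
  · rw [abs_of_nonneg (by linarith),
      abs_of_nonneg (by have := pow_le_pow_left₀ (Nat.cast_nonneg z) h k; linarith)]
    exact key x z hz h

lemma window_pow {k : ℕ} (hk : 1 ≤ k) {Y ε : ℝ} (hY : 1 ≤ Y) (hε0 : 0 < ε) (hε : ε ≤ 1 / 2)
    (hlarge : 2 ≤ ε / k * Y ^ (k : ℝ)⁻¹) {z : ℝ} (hz1 : 2 * Y ≤ z) (hz2 : z ≤ 5 * Y) :
    ε / (2 * k) * Y ^ (k : ℝ)⁻¹ ≤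
      (((Xk k Y).filter fun x : ℕ => z * (1 - ε) ≤ (x : ℝ) ^ k ∧ (x : ℝ) ^ k ≤ z).card : ℝ) := by
  have hk0 : (0 : ℝ) < k := by exact_mod_cast (by omega : 0 < k)
  have hk1 : (1 : ℝ) ≤ k := by exact_mod_cast hk
  set P : ℝ := Y ^ (k : ℝ)⁻¹ with hP
  set ε₁ : ℝ := ε / k with hε₁
  have hε₁0 : 0 < ε₁ := by positivity
  have hε₁1 : ε₁ ≤ ε := by rw [hε₁]; exact div_le_self hε0.le hk1
  have hz0 : 0 < z := by linarith
  set q : ℝ := z ^ (k : ℝ)⁻¹ with hq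
  have hq0 : 0 < q := Real.rpow_pos_of_pos hz0 _
  have hqk : q ^ k = z := root_pow hk hz0.le
  have hPq : P ≤ q := Real.rpow_le_rpow (by linarith) (by linarith) (by positivity)
  have hsub : Icc ⌈q * (1 - ε₁)⌉₊ ⌊q⌋₊ ⊆
      (Xk k Y).filter fun x : ℕ => z * (1 - ε) ≤ (x : ℝ) ^ k ∧ (x : ℝ) ^ k ≤ z := by
    intro x hx
    rw [mem_Icc, Nat.ceil_le, Nat.le_floor_iff hq0.le] at hx
    have h1 : (x : ℝ) ^ k ≤ z := by
      rw [← hqk]
      exact pow_le_pow_left₀ (Nat.cast_nonneg x) hx.2 k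
    have h2 : z * (1 - ε) ≤ (x : ℝ) ^ k := by
      have h3 : (q * (1 - ε₁)) ^ k ≤ (x : ℝ) ^ k := by
        refine pow_le_pow_left₀ ?_ hx.1 k
        have : 0 ≤ 1 - ε₁ := by linarith
        positivity
      refine le_trans ?_ h3
      rw [mul_pow, hqk]
      refine mul_le_mul_of_nonneg_left ?_ hz0.le
      have h4 := one_add_mul_le_pow (a := -ε₁) (by linarith) k
      have h5 : 1 + (k : ℝ) * -ε₁ = 1 - ε := by rw [hε₁]; field_simp; ring
      rw [h5] at h4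
      calc 1 - ε ≤ (1 + -ε₁) ^ k := h4
        _ = (1 - ε₁) ^ k := by ring_nf
    rw [mem_filter, mem_Xk]
    refine ⟨⟨?_, ?_⟩, h2, h1⟩
    · have h6 : Y ≤ (x : ℝ) ^ k := by nlinarith
      have h7 : P ^ k ≤ (x : ℝ) ^ k := by rw [hP, root_pow hk (by linarith)]; exact h6
      exact le_of_pow_le_pow_left₀ (by omega) (Nat.cast_nonneg x) h7
    · have h6 : (x : ℝ) ^ k < (8 * P) ^ k := by
        rw [mul_pow, hP, root_pow hk (by linarith)]
        have h8 : (8 : ℝ) ≤ 8 ^ k := by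
          calc (8 : ℝ) = 8 ^ 1 := by norm_num
            _ ≤ 8 ^ k := pow_le_pow_right₀ (by norm_num) hk
        have : 8 * Y ≤ 8 ^ k * Y := by gcongr
        linarith
      exact lt_of_pow_lt_pow_left₀ k (by positivity) h6
  have hcard := card_le_card hsub
  rw [Nat.card_Icc] at hcard
  have h9 : q < (⌊q⌋₊ : ℝ) + 1 := Nat.lt_floor_add_one q
  have h10 : (⌈q * (1 - ε₁)⌉₊ : ℝ) < q * (1 - ε₁) + 1 := by
    refine Nat.ceil_lt_add_one ?_
    have : 0 ≤ 1 - ε₁ := by linarith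
    positivity
  have h11 : (⌊q⌋₊ : ℝ) + 1 - ⌈q * (1 - ε₁)⌉₊ ≤ ((⌊q⌋₊ + 1 - ⌈q * (1 - ε₁)⌉₊ : ℕ) : ℝ) := by
    rcases le_total ⌈q * (1 - ε₁)⌉₊ (⌊q⌋₊ + 1) with h | h
    · rw [Nat.cast_sub h]
      push_cast
      linarith
    · have : ((⌊q⌋₊ + 1 : ℕ) : ℝ) ≤ ⌈q * (1 - ε₁)⌉₊ := by exact_mod_cast h
      push_cast at this
      have h12 : (0 : ℝ) ≤ ((⌊q⌋₊ + 1 - ⌈q * (1 - ε₁)⌉₊ : ℕ) : ℝ) := Nat.cast_nonneg _
      linarith
  have h13 : ((⌊q⌋₊ + 1 - ⌈q * (1 - ε₁)⌉₊ : ℕ) : ℝ) ≤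
      (((Xk k Y).filter fun x : ℕ => z * (1 - ε) ≤ (x : ℝ) ^ k ∧ (x : ℝ) ^ k ≤ z).card : ℝ) := by
    exact_mod_cast hcard
  have h14 : ε₁ * P ≤ ε₁ * q := by gcongr
  have h15 : ε / (2 * k) * P = ε₁ * P / 2 := by rw [hε₁]; field_simp
  rw [h15]
  nlinarith

lemma near_pow {k : ℕ} (hk : 1 ≤ k) {Y : ℝ} (hlarge : 3 ≤ Y ^ (k : ℝ)⁻¹) (hY : 1 ≤ Y) {u : ℝ} (hu1 : 2 * Y ≤ u)
    (hu2 : u ≤ 15 / 2 * Y) {h : ℝ} (hh : k * 8 ^ k * Y ^ (1 - (k : ℝ)⁻¹) ≤ h) :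
    1 ≤ (((Xk k Y).filter fun x : ℕ => |(x : ℝ) ^ k - u| ≤ h).card : ℝ) := by
  have hk0 : (k : ℝ) ≠ 0 := by exact_mod_cast (by omega : k ≠ 0)
  set P : ℝ := Y ^ (k : ℝ)⁻¹ with hP
  have hu0 : 0 < u := by linarith
  set q : ℝ := u ^ (k : ℝ)⁻¹ with hq
  have hq0 : 0 < q := Real.rpow_pos_of_pos hu0 _
  have hqk : q ^ k = u := root_pow hk hu0.le
  have hPk : P ^ k = Y := root_pow hk (by linarith)
  have hPq : P ≤ q := Real.rpow_le_rpow (by linarith) (by linarith) (by positivity)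
  have hP0 : 0 < P := by linarith
  have hq8 : q ≤ 15 / 2 * P := by
    have h1 : q ^ k ≤ (15 / 2 * P) ^ k := by
      rw [hqk, mul_pow, hPk]
      have : (15 / 2 : ℝ) ≤ (15 / 2) ^ k := by
        calc (15 / 2 : ℝ) = (15 / 2) ^ 1 := by norm_num
          _ ≤ (15 / 2) ^ k := pow_le_pow_right₀ (by norm_num) hk
      have : 15 / 2 * Y ≤ (15 / 2) ^ k * Y := by gcongr
      linarith
    exact le_of_pow_le_pow_left₀ (by omega) (by positivity) h1
  set x := ⌈q⌉₊ with hx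
  have hx1 : q ≤ x := Nat.le_ceil q
  have hx2 : (x : ℝ) < q + 1 := Nat.ceil_lt_add_one hq0.le
  have hx8 : (x : ℝ) < 8 * P := by linarith
  have hmem : x ∈ (Xk k Y).filter fun x : ℕ => |(x : ℝ) ^ k - u| ≤ h := by
    rw [mem_filter, mem_Xk]
    refine ⟨⟨by linarith, hx8⟩, ?_⟩
    refine le_trans ?_ hh
    have h1 : u ≤ (x : ℝ) ^ k := by rw [← hqk]; exact pow_le_pow_left₀ hq0.le hx1 k
    rw [abs_of_nonneg (by linarith), ← hqk]
    have hD : Y ^ (1 - (k : ℝ)⁻¹) = P ^ (k - 1) := by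
      rw [hP, ← Real.rpow_natCast, ← Real.rpow_mul (by linarith)]
      congr 1
      rw [Nat.cast_sub hk]
      push_cast
      field_simp
    rw [hD]
    obtain ⟨m, rfl⟩ : ∃ m, k = m + 1 := ⟨k - 1, by omega⟩
    simp only [Nat.add_sub_cancel]
    -- x ^ (m+1) - q ^ (m+1) ≤ (m + 1) (x - q) x ^ m
    have h2 : (x : ℝ) ^ (m + 1) - q ^ (m + 1) ≤ (m + 1) * x ^ m * (x - q) := by
      have h3 : (x : ℝ) ^ (m + 1) - q ^ (m + 1) = (x - q) * ∑ i ∈ range (m + 1), (x : ℝ) ^ i * q ^ (m - i) := by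
        have := (Commute.all (x : ℝ) q).mul_geom_sum₂ (m + 1)
        rw [← this]
        congr 1
      rw [h3, mul_comm]
      refine mul_le_mul_of_nonneg_right ?_ (by linarith)
      calc ∑ i ∈ range (m + 1), (x : ℝ) ^ i * q ^ (m - i) ≤ ∑ _i ∈ range (m + 1), (x : ℝ) ^ m := by
            refine sum_le_sum fun i hi => ?_
            rw [mem_range] at hi
            calc (x : ℝ) ^ i * q ^ (m - i) ≤ (x : ℝ) ^ i * (x : ℝ) ^ (m - i) := by gcongr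
              _ = (x : ℝ) ^ m := by rw [← pow_add]; congr 1; omega
        _ = (m + 1) * x ^ m := by rw [sum_const, card_range, nsmul_eq_mul]; push_cast; ring
    refine h2.trans ?_
    have h4 : (x : ℝ) ^ m ≤ (8 * P) ^ m := pow_le_pow_left₀ (Nat.cast_nonneg x) hx8.le m
    calc ((m : ℝ) + 1) * x ^ m * (x - q) ≤ (m + 1) * (8 * P) ^ m * 1 := by
          refine mul_le_mul (by gcongr) (by linarith) (by linarith) (by positivity)
      _ = (m + 1) * 8 ^ m * P ^ m := by rw [mul_pow]; ring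
      _ ≤ ((m + 1 : ℕ) : ℝ) * 8 ^ (m + 1) * P ^ m := by
          push_cast
          have : (8 : ℝ) ^ m ≤ 8 ^ (m + 1) := pow_le_pow_right₀ (by norm_num) (by omega)
          gcongr
  have : 0 < ((Xk k Y).filter fun x : ℕ => |(x : ℝ) ^ k - u| ≤ h).card := card_pos.2 ⟨x, hmem⟩
  exact_mod_cast this

end Pool.Agent.Q43.MW
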