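import Mathlib
import Pool.Agent.Q43.MW.Disc

set_option autoImplicit false

/-!
# Powers: mean values and the deterministic step
-/

namespace Pool.Agent.Q43.MW

open MeasureTheory Complex Finset Filter

variable {n : ℕ}

/-- the powers -/
def vp (k : Fin (n + 1) → ℕ) (i : Fin (n + 1)) (x : ℕ) : ℝ := (x : ℝ) ^ k i

/-- the ranges -/
noncomputable def XX (k : Fin (n + 1) → ℕ) (Y : ℝ) (i : Fin (n + 1)) : Finset ℕ := Xk (k i) Y

/-- the sum of the reciprocals of the exponents -/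
noncomputable def sig (k : Fin (n + 1) → ℕ) : ℝ := ∑ i, (k i : ℝ)⁻¹

lemma prod_P (k : Fin (n + 1) → ℕ) {Y : ℝ} (hY : 0 < Y) : ∏ i, Y ^ (k i : ℝ)⁻¹ = Y ^ sig k := by
  unfold sig
  rw [Real.rpow_sum_of_pos hY]

lemma dat {k : Fin (n + 1) → ℕ} (hk : ∀ i, 1 ≤ k i) {Y : ℝ} (hY : 1 ≤ Y) :
    Data (XX k Y) (vp k) (fun i => (XX k Y i).card) (fun i => Y ^ (1 - (k i : ℝ)⁻¹)) where
  one_le i := (Xk_card hY).1
  pos i := Real.rpow_pos_of_pos (by linarith) _
  sub i := ⟨_, (Xk_card hY).2.2⟩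
  sep i x hx z hz := by
    exact sep_pow (hk i) (by linarith) (mem_Xk.1 hx).1 (mem_Xk.1 hz).1

lemma NN_le {k : Fin (n + 1) → ℕ} {Y : ℝ} (hY : 1 ≤ Y) : NN (XX k Y) ≤ 8 ^ (n + 1) * Y ^ sig k := by
  unfold NN
  rw [← prod_P k (by linarith : (0 : ℝ) < Y)]
  calc ∏ i, ((XX k Y i).card : ℝ) ≤ ∏ i, (8 * Y ^ (k i : ℝ)⁻¹) :=
        prod_le_prod (fun i _ => Nat.cast_nonneg _) fun i _ => (Xk_card hY).2.1
    _ = _ := by rw [prod_mul_distrib, prod_const, card_univ, Fintype.card_fin]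

/-- the logarithmic factor -/
noncomputable def KK (n : ℕ) (a b Y : ℝ) : ℝ := (16 * (b - a + 1) * (4 + Real.log Y)) ^ (n + 1)

lemma KK_one {a b Y : ℝ} (hab : a ≤ b) (hY : 1 ≤ Y) : 1 ≤ KK n a b Y := by
  unfold KK
  have := Real.log_nonneg hY
  refine one_le_pow₀ ?_
  nlinarith [mul_nonneg (sub_nonneg.2 hab) this]

lemma phi {k : Fin (n + 1) → ℕ} (hk : ∀ i, 1 ≤ k i) {a b Y : ℝ} (hab : a ≤ b) (hY : 1 ≤ Y) {α : ℝ} (hα : α ≠ 0) :
    ∫ l, ‖SS (XX k Y) (vp k) l α‖ ^ 2 ∂(bx (n + 1) a b) ≤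
      ∏ i, (8 * (b - a + 1) * (4 + Real.log Y) * (Y ^ (k i : ℝ)⁻¹ * (1 + Y ^ (k i : ℝ)⁻¹ / (|α| * Y)))) := by
  have hY0 : 0 < Y := by linarith
  have hlogY := Real.log_nonneg hY
  have hα0 := abs_pos.2 hα
  refine (mean_le (dat hk hY) hab hα).trans (prod_le_prod (fun i _ => ?_) fun i _ => ?_)
  · have h1 : (1 : ℝ) ≤ ((XX k Y i).card : ℝ) := by exact_mod_cast (Xk_card hY).1
    have h2 := Real.log_nonneg h1
    have h3 : 0 ≤ b - a + 1 := by linarith
    positivity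
  · set P : ℝ := Y ^ (k i : ℝ)⁻¹ with hP
    have hP0 : 0 < P := Real.rpow_pos_of_pos hY0 _
    have hk1 : (1 : ℝ) ≤ k i := by exact_mod_cast hk i
    have hPY : P ≤ Y := by
      calc P ≤ Y ^ (1 : ℝ) := Real.rpow_le_rpow_of_exponent_le hY (inv_le_one_of_one_le₀ hk1)
        _ = Y := Real.rpow_one Y
    have h1 : (1 : ℝ) ≤ ((XX k Y i).card : ℝ) := by exact_mod_cast (Xk_card hY).1
    have h2 : ((XX k Y i).card : ℝ) ≤ 8 * P := (Xk_card hY).2.1
    have h3 : 1 + Real.log ((XX k Y i).card : ℝ) ≤ 4 + Real.log Y := by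
      have h4 : Real.log ((XX k Y i).card : ℝ) ≤ Real.log (8 * Y) :=
        Real.log_le_log (by linarith) (by linarith)
      rw [Real.log_mul (by norm_num) hY0.ne'] at h4
      have h5 : Real.log 8 ≤ 3 := by
        have : Real.log 8 = 3 * Real.log 2 := by
          rw [show (8 : ℝ) = 2 ^ 3 by norm_num, Real.log_pow]; norm_num
        have := Real.log_two_lt_d9
        linarith
      linarith
    have h6 : 1 / (|α| * Y ^ (1 - (k i : ℝ)⁻¹)) = P / (|α| * Y) := by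
      rw [Real.rpow_sub hY0, Real.rpow_one, ← hP]
      field_simp
    rw [h6]
    have h7 : 0 ≤ b - a := by linarith
    have h8 : 0 ≤ 1 + Real.log ((XX k Y i).card : ℝ) := by
      have := Real.log_nonneg h1
      linarith
    calc (b - a + 1) * ((XX k Y i).card : ℝ) * (1 + Real.log ((XX k Y i).card : ℝ)) * (1 + P / (|α| * Y))
        ≤ (b - a + 1) * (8 * P) * (4 + Real.log Y) * (1 + P / (|α| * Y)) := by gcongr
      _ = _ := by ring

lemma phi_low {k : Fin (n + 1) → ℕ} (hk : ∀ i, 1 ≤ k i) {a b Y : ℝ} (hab : a ≤ b) (hY : 1 ≤ Y) {α : ℝ}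
    (h1 : 1 ≤ |α| * Y) (h2 : |α| ≤ 1) :
    ∫ l, ‖SS (XX k Y) (vp k) l α‖ ^ 2 ∂(bx (n + 1) a b) ≤
      KK n a b Y * Y ^ (2 * sig k) * (|α| * Y) ^ (-sig k) := by
  have hY0 : 0 < Y := by linarith
  have hα : α ≠ 0 := by
    rintro rfl
    simp at h1
    linarith
  have hM : 0 < |α| * Y := by linarith
  have hlogY := Real.log_nonneg hY
  refine (phi hk hab hY hα).trans ?_
  have h3 : ∀ i, 8 * (b - a + 1) * (4 + Real.log Y) * (Y ^ (k i : ℝ)⁻¹ * (1 + Y ^ (k i : ℝ)⁻¹ / (|α| * Y))) ≤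
      (16 * (b - a + 1) * (4 + Real.log Y)) * (Y ^ (2 * (k i : ℝ)⁻¹) * (|α| * Y) ^ (-(k i : ℝ)⁻¹)) := by
    intro i
    set P : ℝ := Y ^ (k i : ℝ)⁻¹ with hP
    have hP0 : 0 < P := Real.rpow_pos_of_pos hY0 _
    have hk1 : (1 : ℝ) ≤ k i := by exact_mod_cast hk i
    have hτ0 : 0 ≤ (k i : ℝ)⁻¹ := by positivity
    have hτ1 : (k i : ℝ)⁻¹ ≤ 1 := inv_le_one_of_one_le₀ hk1
    have hQ : (|α| * Y) ^ (k i : ℝ)⁻¹ ≤ P := by
      refine Real.rpow_le_rpow hM.le ?_ hτ0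
      nlinarith
    have hQ0 : 0 < (|α| * Y) ^ (k i : ℝ)⁻¹ := Real.rpow_pos_of_pos hM _
    have hQM : (|α| * Y) ^ (k i : ℝ)⁻¹ ≤ |α| * Y := by
      calc (|α| * Y) ^ (k i : ℝ)⁻¹ ≤ (|α| * Y) ^ (1 : ℝ) := Real.rpow_le_rpow_of_exponent_le h1 hτ1
        _ = _ := Real.rpow_one _
    have h4 : 1 + P / (|α| * Y) ≤ 2 * (P * (|α| * Y) ^ (-(k i : ℝ)⁻¹)) := by
      rw [Real.rpow_neg hM.le, ← div_eq_mul_inv]
      have h5 : 1 ≤ P / (|α| * Y) ^ (k i : ℝ)⁻¹ := by
        rw [one_le_div hQ0]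
        exact hQ
      have h6 : P / (|α| * Y) ≤ P / (|α| * Y) ^ (k i : ℝ)⁻¹ := by gcongr
      linarith
    have h7 : Y ^ (2 * (k i : ℝ)⁻¹) = P * P := by
      rw [hP, ← Real.rpow_add hY0]
      congr 1
      ring
    rw [h7]
    have h8 : 0 ≤ b - a := by linarith
    calc 8 * (b - a + 1) * (4 + Real.log Y) * (P * (1 + P / (|α| * Y))) ≤
        8 * (b - a + 1) * (4 + Real.log Y) * (P * (2 * (P * (|α| * Y) ^ (-(k i : ℝ)⁻¹)))) := by gcongr
      _ = _ := by ring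
  have h8 : 0 ≤ b - a := by linarith
  refine (prod_le_prod (fun i _ => ?_) fun i _ => h3 i).trans (le_of_eq ?_)
  · positivity
  · rw [prod_mul_distrib, prod_const, card_univ, Fintype.card_fin, prod_mul_distrib,
      ← Real.rpow_sum_of_pos hY0, ← Real.rpow_sum_of_pos hM, ← mul_sum, sum_neg_distrib]
    unfold KK sig
    ring

lemma phi_high {k : Fin (n + 1) → ℕ} (hk : ∀ i, 1 ≤ k i) {a b Y : ℝ} (hab : a ≤ b) (hY : 1 ≤ Y) {α : ℝ}
    (h2 : 1 < |α|) :
    ∫ l, ‖SS (XX k Y) (vp k) l α‖ ^ 2 ∂(bx (n + 1) a b) ≤ KK n a b Y * Y ^ sig k := by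
  have hY0 : 0 < Y := by linarith
  have hα : α ≠ 0 := by
    rintro rfl
    simp at h2
    linarith
  have hM : Y ≤ |α| * Y := by nlinarith
  have hlogY := Real.log_nonneg hY
  refine (phi hk hab hY hα).trans ?_
  have h3 : ∀ i, 8 * (b - a + 1) * (4 + Real.log Y) * (Y ^ (k i : ℝ)⁻¹ * (1 + Y ^ (k i : ℝ)⁻¹ / (|α| * Y))) ≤
      (16 * (b - a + 1) * (4 + Real.log Y)) * Y ^ (k i : ℝ)⁻¹ := by
    intro i
    set P : ℝ := Y ^ (k i : ℝ)⁻¹ with hP
    have hP0 : 0 < P := Real.rpow_pos_of_pos hY0 _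
    have hk1 : (1 : ℝ) ≤ k i := by exact_mod_cast hk i
    have hPY : P ≤ Y := by
      calc P ≤ Y ^ (1 : ℝ) := Real.rpow_le_rpow_of_exponent_le hY (inv_le_one_of_one_le₀ hk1)
        _ = Y := Real.rpow_one Y
    have h4 : P / (|α| * Y) ≤ 1 := by
      rw [div_le_one (by linarith)]
      linarith
    have h8 : 0 ≤ b - a := by linarith
    calc 8 * (b - a + 1) * (4 + Real.log Y) * (P * (1 + P / (|α| * Y))) ≤
        8 * (b - a + 1) * (4 + Real.log Y) * (P * (1 + 1)) := by gcongr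
      _ = _ := by ring
  have h8 : 0 ≤ b - a := by linarith
  refine (prod_le_prod (fun i _ => ?_) fun i _ => h3 i).trans (le_of_eq ?_)
  · positivity
  · rw [prod_mul_distrib, prod_const, card_univ, Fintype.card_fin, prod_P k hY0]
    unfold KK
    ring

/-! ### growth -/

lemma log_pow_le (C : ℝ) (m : ℕ) {κ : ℝ} (hκ : 0 < κ) :
    ∀ᶠ Y : ℝ in atTop, C * (4 + Real.log Y) ^ m ≤ Y ^ κ := by
  have hm : (0 : ℝ) < (m : ℝ) + 1 := by positivity
  have h1 : (fun Y : ℝ => 4 + Real.log Y) =o[atTop] fun Y : ℝ => Y ^ (κ / (m + 1)) := by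
    refine Asymptotics.IsLittleO.add ?_ (isLittleO_log_rpow_atTop (by positivity))
    refine (Asymptotics.isLittleO_const_left.2 (Or.inr ?_))
    exact tendsto_norm_atTop_atTop.comp (tendsto_rpow_atTop (by positivity))
  have h2 := h1.pow (n := m + 1) (by omega)
  have h3 := h2.def (c := 1 / (|C| + 1)) (by positivity)
  filter_upwards [h3, eventually_ge_atTop 1] with Y hY hY1
  have hlog := Real.log_nonneg hY1
  have hY0 : 0 < Y := by linarith
  rw [Real.norm_of_nonneg (by positivity), Real.norm_of_nonneg (by positivity), ← Real.rpow_natCast (Y ^ (κ / (m + 1))),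
    ← Real.rpow_mul hY0.le] at hY
  have e : κ / (m + 1) * ((m + 1 : ℕ) : ℝ) = κ := by
    push_cast
    field_simp
  rw [e] at hY
  have h4 : (4 + Real.log Y) ^ m ≤ (4 + Real.log Y) ^ (m + 1) := pow_le_pow_right₀ (by linarith) (by omega)
  have h5 : C * (4 + Real.log Y) ^ m ≤ (|C| + 1) * (4 + Real.log Y) ^ (m + 1) := by
    have h6 : C ≤ |C| + 1 := by linarith [le_abs_self C]
    have h7 : 0 ≤ (4 + Real.log Y) ^ m := by positivity
    calc C * (4 + Real.log Y) ^ m ≤ (|C| + 1) * (4 + Real.log Y) ^ m := by gcongr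
      _ ≤ _ := by gcongr
  refine h5.trans ?_
  calc (|C| + 1) * (4 + Real.log Y) ^ (m + 1) ≤ (|C| + 1) * (1 / (|C| + 1) * Y ^ κ) := by gcongr
    _ = Y ^ κ := by field_simp

lemma exp_decay (C A : ℝ) {ε : ℝ} (hε : 0 < ε) :
    ∀ᶠ Y : ℝ in atTop, C * Real.exp (-Real.pi * Y ^ ε) ≤ Y ^ (-A) := by
  have h1 := isLittleO_rpow_exp_pos_mul_atTop (A / ε) Real.pi_pos
  have h2 := h1.comp_tendsto (tendsto_rpow_atTop hε)
  have h3 := h2.def (c := 1 / (|C| + 1)) (by positivity)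
  filter_upwards [h3, eventually_gt_atTop 0] with Y hY hY0
  simp only [Function.comp] at hY
  rw [← Real.rpow_mul hY0.le, mul_div_cancel₀ A hε.ne', Real.norm_of_nonneg (by positivity),
    Real.norm_of_nonneg (by positivity)] at hY
  rw [Real.rpow_neg hY0.le, show -Real.pi * Y ^ ε = -(Real.pi * Y ^ ε) by ring, Real.exp_neg]
  have hE := Real.exp_pos (Real.pi * Y ^ ε)
  have hYA : 0 < Y ^ A := Real.rpow_pos_of_pos hY0 _
  rw [← div_eq_mul_inv, div_le_iff₀ hE, inv_mul_eq_div, le_div_iff₀ hYA]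
  calc C * Y ^ A ≤ (|C| + 1) * Y ^ A := by gcongr; linarith [le_abs_self C]
    _ ≤ (|C| + 1) * (1 / (|C| + 1) * Real.exp (Real.pi * Y ^ ε)) := by gcongr
    _ = _ := by field_simp

lemma const_le (C : ℝ) {κ : ℝ} (hκ : 0 < κ) : ∀ᶠ Y : ℝ in atTop, C ≤ Y ^ κ :=
  (tendsto_rpow_atTop hκ).eventually_ge_atTop C

/-- the Fourier integral of the high frequencies is continuous -/
lemma F_cont {s : ℕ} (X : Fin s → Finset ℕ) (v : Fin s → ℕ → ℝ) (l : Fin s → ℝ) {η H : ℝ} (hη : 0 < η) (hH : η ≤ H)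
    (α₂ : ℝ) : Continuous fun y : ℝ => ∫ α : ℝ, ff X v l η H α₂ α * ee (-(α * y)) := by
  have hfi := ff_int X v l hη hH α₂
  refine continuous_of_dominated (bound := fun α => ‖ff X v l η H α₂ α‖) (fun y => ?_) (fun y => ?_) hfi.norm ?_
  · exact hfi.aestronglyMeasurable.mul (by fun_prop : Continuous fun α : ℝ => ee (-(α * y))).aestronglyMeasurable
  · refine Eventually.of_forall fun α => ?_
    rw [norm_mul, norm_ee, mul_one]
  · refine Eventually.of_forall fun α => ?_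
    fun_prop

lemma F_bdd {s : ℕ} (X : Fin s → Finset ℕ) (v : Fin s → ℕ → ℝ) (l : Fin s → ℝ) {η H : ℝ} (α₂ y : ℝ) :
    ‖∫ α : ℝ, ff X v l η H α₂ α * ee (-(α * y))‖ ≤ ∫ α : ℝ, ‖ff X v l η H α₂ α‖ := by
  refine (norm_integral_le_integral_norm _).trans (le_of_eq ?_)
  congr 1
  ext α
  rw [norm_mul, norm_ee, mul_one]

/-- **From lower bounds of the high frequencies on an interval to the mean square.** -/
lemma high_lower {s : ℕ} (X : Fin s → Finset ℕ) (v : Fin s → ℕ → ℝ) (l : Fin s → ℝ) {η H : ℝ} (hη : 0 < η)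
    (hH : η ≤ H) (α₂ : ℝ) {y w m : ℝ} (hy : 0 ≤ y) (hw : 0 ≤ w) (hyw : 0 < y + w) (hm : 0 ≤ m)
    {S : Set ℝ} (hS : MeasurableSet S) (hSI : S ⊆ Set.Icc y (y + w))
    (hlow : ∀ t ∈ S, m ≤ ‖∫ α : ℝ, ff X v l η H α₂ α * ee (-(α * t))‖) :
    Real.exp (-Real.pi) * m ^ 2 * volume.real S ≤ η ^ 2 * A2 X v η α₂ l := by
  have hT : 0 < y + w := hyw
  refine le_trans ?_ (ff_l2 X v l hη hH α₂ hT)
  set F : ℝ → ℂ := fun t => ∫ α : ℝ, ff X v l η H α₂ α * ee (-(α * t)) with hF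
  have hFc : Continuous F := F_cont X v l hη hH α₂
  set B := ∫ α : ℝ, ‖ff X v l η H α₂ α‖ with hB
  have hGi : Integrable fun t : ℝ => Real.exp (-Real.pi * (t / (y + w)) ^ 2) := by
    refine (gauss_integrable (c := 1 / (y + w)) (by positivity)).congr (Eventually.of_forall fun t => ?_)
    simp only
    congr 3
    ring
  have hint : Integrable fun t : ℝ => Real.exp (-Real.pi * (t / (y + w)) ^ 2) * ‖F t‖ ^ 2 := by
    refine hGi.mul_bdd (c := B ^ 2) (hFc.norm.pow 2).aestronglyMeasurable (Eventually.of_forall fun t => ?_)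
    rw [Real.norm_of_nonneg (by positivity)]
    have := F_bdd X v l (η := η) (H := H) α₂ t
    gcongr
  have hSfin : volume S < ⊤ := lt_of_le_of_lt (measure_mono hSI) measure_Icc_lt_top
  calc Real.exp (-Real.pi) * m ^ 2 * volume.real S = ∫ _t in S, Real.exp (-Real.pi) * m ^ 2 := by
        rw [setIntegral_const, smul_eq_mul, mul_comm]
    _ ≤ ∫ t in S, Real.exp (-Real.pi * (t / (y + w)) ^ 2) * ‖F t‖ ^ 2 := by
        refine setIntegral_mono_on (integrableOn_const (hSfin.ne)) hint.integrableOn hS fun t ht => ?_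
        have h1 := hSI ht
        have h2 : Real.exp (-Real.pi) ≤ Real.exp (-Real.pi * (t / (y + w)) ^ 2) := by
          refine Real.exp_le_exp.2 ?_
          have h3 : (t / (y + w)) ^ 2 ≤ 1 := by
            rw [div_pow, div_le_one (by positivity)]
            have h4 : 0 ≤ t := hy.trans h1.1
            have h5 := h1.2
            nlinarith
          have := Real.pi_pos
          nlinarith
        have h6 := hlow t ht
        gcongr
    _ ≤ _ := setIntegral_le_integral hint (Eventually.of_forall fun t => by positivity)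

end Pool.Agent.Q43.MW
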