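import Mathlib
import Pool.Agent.Q43.MW.Det

set_option autoImplicit false

/-!
# All large numbers, and almost all numbers
-/

namespace Pool.Agent.Q43.MW

open MeasureTheory Complex Finset Filter

variable {n : ℕ}

/-- the large scale -/
noncomputable def HH (k : Fin (n + 1) → ℕ) (b Y : ℝ) : ℝ := b * (k 0 * 8 ^ k 0) * Y ^ (1 - (k 0 : ℝ)⁻¹)

/-- the constant of the main term -/
noncomputable def c5 (k : Fin (n + 1) → ℕ) (a b : ℝ) : ℝ :=
  Real.exp (-Real.pi) * (∏ i : Fin n, a / (2 * ((n : ℝ) + 1) * b) / (2 * k i.succ)) / (b * (k 0 * 8 ^ k 0))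

lemma c5_pos {k : Fin (n + 1) → ℕ} (hk : ∀ i, 1 ≤ k i) {a b : ℝ} (ha : 0 < a) (hb : 0 < b) : 0 < c5 k a b := by
  unfold c5
  have h : ∀ i, (0 : ℝ) < k i := fun i => by exact_mod_cast (hk i)
  have := h 0
  have h2 : 0 < ∏ i : Fin n, a / (2 * ((n : ℝ) + 1) * b) / (2 * k i.succ) :=
    prod_pos fun i _ => by have := h i.succ; positivity
  have := Real.exp_pos (-Real.pi)
  positivity

lemma main_term {k : Fin (n + 1) → ℕ} (hk : ∀ i, 1 ≤ k i) {a b : ℝ} (ha : 0 < a) (hab : a ≤ b) :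
    ∀ᶠ Y : ℝ in atTop, ∀ l : Fin (n + 1) → ℝ, (∀ i, a < l i ∧ l i ≤ b) → ∀ y : ℝ,
      2 * Y * ∑ i, l i ≤ y → y ≤ 5 * Y * ∑ i, l i → ∀ η : ℝ, 0 < η →
        c5 k a b * η * Y ^ (sig k - 1) ≤ η / HH k b Y * RR (XX k Y) (vp k) l (HH k b Y) y := by
  have hb : 0 < b := ha.trans_le hab
  have hkr : ∀ i, (0 : ℝ) < k i := fun i => by exact_mod_cast (hk i)
  set ε : ℝ := a / (2 * ((n : ℝ) + 1) * b) with hε
  have hε0 : 0 < ε := by positivity
  have hε1 : ε ≤ 1 / 2 := by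
    rw [hε, div_le_div_iff₀ (by positivity) (by norm_num)]
    have : (0 : ℝ) ≤ n := Nat.cast_nonneg n
    nlinarith [mul_nonneg this hb.le]
  have h1 : ∀ᶠ Y : ℝ in atTop, ∀ i, 2 ≤ ε / k i * Y ^ (k i : ℝ)⁻¹ := by
    rw [eventually_all]
    intro i
    have hki := hkr i
    filter_upwards [const_le (2 / (ε / k i)) (κ := (k i : ℝ)⁻¹) (by positivity)] with Y hY
    rw [div_le_iff₀ (by positivity)] at hY
    linarith
  filter_upwards [h1, const_le 3 (κ := (k 0 : ℝ)⁻¹) (by have := hkr 0; positivity), eventually_ge_atTop 1]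
    with Y hY1 hY2 hY3 l hl y hy1 hy2 η hη
  have hY0 : 0 < Y := by linarith
  have hH0 : 0 < HH k b Y := by
    unfold HH
    have := hkr 0
    positivity
  have hd := disc (X := XX k Y) (v := vp k) (m₀ := 1) (m := fun i : Fin n => ε / (2 * k i.succ) * Y ^ (k i.succ : ℝ)⁻¹)
    ha hab hH0 hY0 hl hy1 hy2 (by norm_num) (fun u hu1 hu2 => by
      refine near_pow (hk 0) hY2 hY3 hu1 hu2 (le_of_eq ?_)
      unfold HH
      field_simp) (fun i => by have := hkr i.succ; positivity) (fun i z hz1 hz2 =>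
        window_pow (hk i.succ) hY3 hε0 hε1 (hY1 i.succ) hz1 hz2)
  rw [one_mul, prod_mul_distrib, ← Real.rpow_sum_of_pos hY0] at hd
  have hsig : sig k = (k 0 : ℝ)⁻¹ + ∑ i : Fin n, (k i.succ : ℝ)⁻¹ := by
    unfold sig
    rw [Fin.sum_univ_succ]
  have hk0 := hkr 0
  calc c5 k a b * η * Y ^ (sig k - 1) = η / HH k b Y * (Real.exp (-Real.pi) *
        ((∏ i : Fin n, ε / (2 * k i.succ)) * Y ^ (∑ i : Fin n, (k i.succ : ℝ)⁻¹))) := by
        unfold c5 HH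
        rw [← hε]
        have e : Y ^ (sig k - 1) = Y ^ (∑ i : Fin n, (k i.succ : ℝ)⁻¹) / Y ^ (1 - (k 0 : ℝ)⁻¹) := by
          rw [← Real.rpow_sub hY0, hsig]
          congr 1
          ring
        rw [e]
        have : 0 < Y ^ (1 - (k 0 : ℝ)⁻¹) := Real.rpow_pos_of_pos hY0 _
        field_simp
    _ ≤ _ := mul_le_mul_of_nonneg_left hd (by positivity)

/-- the lower end of the middle frequencies -/
noncomputable def al (k : Fin (n + 1) → ℕ) (Y : ℝ) : ℝ := Y ^ ((2 * (k 0 : ℝ))⁻¹ - 1)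

/-- **The deterministic step.** -/
lemma det_step {k : Fin (n + 1) → ℕ} (hk : ∀ i, 1 ≤ k i) {a b : ℝ} (ha : 0 < a) (hab : a ≤ b) (hb : 1 ≤ b)
    {ρ ε : ℝ} (hρ : 0 ≤ ρ) (hε : 0 < ε) :
    ∀ᶠ Y : ℝ in atTop, ∀ l : Fin (n + 1) → ℝ, (∀ i, a < l i ∧ l i ≤ b) → ∀ α₂ : ℝ, al k Y ≤ α₂ →
      A1 (XX k Y) (vp k) (al k Y) α₂ l ≤ c5 k a b / 8 * Y ^ (sig k - 1) → ∀ y : ℝ,
      2 * Y * ∑ i, l i ≤ y → y ≤ 5 * Y * ∑ i, l i →
      (∀ x ∈ Fintype.piFinset (XX k Y), Y ^ (ε - ρ) ≤ |form (vp k) l x - y|) →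
        c5 k a b / 8 * Y ^ (-ρ) * Y ^ (sig k - 1) ≤
          ‖∫ α : ℝ, ff (XX k Y) (vp k) l (Y ^ (-ρ)) (HH k b Y) α₂ α * ee (-(α * y))‖ := by
  have hb0 : 0 < b := by linarith
  have hkr : ∀ i, (1 : ℝ) ≤ k i := fun i => by exact_mod_cast (hk i)
  have hk0 := hkr 0
  have hc5 := c5_pos hk ha hb0
  set h₀ : ℝ := b * (k 0 * 8 ^ k 0) with hh₀
  have hh1 : 1 ≤ h₀ := by
    have h8 : (1 : ℝ) ≤ 8 ^ k 0 := one_le_pow₀ (by norm_num)
    rw [hh₀]
    exact one_le_mul_of_one_le_of_one_le hb (one_le_mul_of_one_le_of_one_le hk0 h8)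
  set C₆ : ℝ := 2 * Real.pi * h₀ ^ 2 * 8 ^ (n + 1) with hC₆
  have hC₆0 : 0 < C₆ := by have := Real.pi_pos; positivity
  filter_upwards [main_term hk ha hab, const_le (8 * C₆ / c5 k a b) (κ := (2 * (k 0 : ℝ))⁻¹) (by positivity),
    exp_decay (8 * 8 ^ (n + 1) / c5 k a b) (ρ + 1) (ε := 2 * ε) (by positivity), eventually_ge_atTop 1]
    with Y hY1 hY2 hY3 hY4 l hl α₂ hα₂ hA1 y hy1 hy2 hno
  have hY0 : 0 < Y := by linarith
  set η : ℝ := Y ^ (-ρ) with hη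
  have hη0 : 0 < η := Real.rpow_pos_of_pos hY0 _
  have hη1 : η ≤ 1 := Real.rpow_le_one_of_one_le_of_nonpos hY4 (by linarith)
  have hinv : (k 0 : ℝ)⁻¹ ≤ 1 := inv_le_one_of_one_le₀ hk0
  have hH1 : 1 ≤ HH k b Y := by
    unfold HH
    rw [← hh₀]
    exact one_le_mul_of_one_le_of_one_le hh1 (Real.one_le_rpow hY4 (by linarith))
  have hηH : η ≤ HH k b Y := hη1.trans hH1
  have hal0 : 0 < al k Y := Real.rpow_pos_of_pos hY0 _
  have heng := engine (XX k Y) (vp k) l hη0 hηH hal0.le hα₂ y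
  have hmain := hY1 l hl y hy1 hy2 η hη0
  have hNN := NN_le (k := k) hY4
  have hYs : 0 < Y ^ (sig k - 1) := Real.rpow_pos_of_pos hY0 _
  have hsplit : Y ^ sig k = Y ^ (sig k - 1) * Y := by
    rw [← Real.rpow_add_one hY0.ne']
    congr 1
    ring
  -- the low frequencies
  have hlow : 2 * Real.pi * η * HH k b Y ^ 2 * al k Y ^ 3 * NN (XX k Y) ≤ c5 k a b / 8 * η * Y ^ (sig k - 1) := by
    have e1 : HH k b Y ^ 2 * al k Y ^ 3 = h₀ ^ 2 * (Y ^ (-(2 * (k 0 : ℝ))⁻¹) / Y) := by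
      unfold HH al
      rw [← hh₀, mul_pow, ← Real.rpow_natCast (Y ^ (1 - (k 0 : ℝ)⁻¹)), ← Real.rpow_natCast (Y ^ ((2 * (k 0 : ℝ))⁻¹ - 1)),
        ← Real.rpow_mul hY0.le, ← Real.rpow_mul hY0.le, mul_assoc, ← Real.rpow_add hY0,
        ← Real.rpow_sub_one hY0.ne']
      congr 2
      push_cast
      field_simp
      ring
    have hq : 0 < Y ^ (-(2 * (k 0 : ℝ))⁻¹) := Real.rpow_pos_of_pos hY0 _
    calc 2 * Real.pi * η * HH k b Y ^ 2 * al k Y ^ 3 * NN (XX k Y)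
        = 2 * Real.pi * η * (HH k b Y ^ 2 * al k Y ^ 3) * NN (XX k Y) := by ring
      _ = 2 * Real.pi * η * (h₀ ^ 2 * (Y ^ (-(2 * (k 0 : ℝ))⁻¹) / Y)) * NN (XX k Y) := by rw [e1]
      _ ≤ 2 * Real.pi * η * (h₀ ^ 2 * (Y ^ (-(2 * (k 0 : ℝ))⁻¹) / Y)) * (8 ^ (n + 1) * (Y ^ (sig k - 1) * Y)) := by
          rw [← hsplit]
          have := Real.pi_pos
          gcongr
      _ = C₆ * Y ^ (-(2 * (k 0 : ℝ))⁻¹) * (η * Y ^ (sig k - 1)) := by
          rw [hC₆]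
          field_simp
      _ ≤ c5 k a b / 8 * (η * Y ^ (sig k - 1)) := by
          refine mul_le_mul_of_nonneg_right ?_ (by positivity)
          rw [Real.rpow_neg hY0.le, ← div_eq_mul_inv, div_le_iff₀ (Real.rpow_pos_of_pos hY0 _)]
          rw [div_le_iff₀ hc5] at hY2
          linarith
      _ = _ := by ring
  -- the small scale
  have hsmall : RR (XX k Y) (vp k) l η y ≤ c5 k a b / 8 * η * Y ^ (sig k - 1) := by
    have h1 : ∀ x ∈ Fintype.piFinset (XX k Y),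
        Real.exp (-Real.pi * ((form (vp k) l x - y) / η) ^ 2) ≤ Real.exp (-Real.pi * Y ^ (2 * ε)) := by
      intro x hx
      refine Real.exp_le_exp.2 ?_
      have h2 : Y ^ ε ≤ |form (vp k) l x - y| / η := by
        rw [le_div_iff₀ hη0, hη, ← Real.rpow_add hY0]
        exact hno x hx
      have h3 : Y ^ (2 * ε) ≤ ((form (vp k) l x - y) / η) ^ 2 := by
        rw [← sq_abs, abs_div, abs_of_pos hη0, show (2 * ε : ℝ) = ε + ε by ring, Real.rpow_add hY0, ← pow_two]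
        have : 0 ≤ Y ^ ε := (Real.rpow_pos_of_pos hY0 _).le
        gcongr
      have := Real.pi_pos
      nlinarith
    have h4 : RR (XX k Y) (vp k) l η y ≤ NN (XX k Y) * Real.exp (-Real.pi * Y ^ (2 * ε)) := by
      unfold RR
      refine (sum_le_sum h1).trans (le_of_eq ?_)
      rw [sum_const, nsmul_eq_mul, Fintype.card_piFinset]
      unfold NN
      push_cast
      rfl
    have hE := Real.exp_pos (-Real.pi * Y ^ (2 * ε))
    calc RR (XX k Y) (vp k) l η y ≤ NN (XX k Y) * Real.exp (-Real.pi * Y ^ (2 * ε)) := h4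
      _ ≤ 8 ^ (n + 1) * Y ^ sig k * Real.exp (-Real.pi * Y ^ (2 * ε)) := by gcongr
      _ = c5 k a b / 8 * Y ^ sig k * (8 * 8 ^ (n + 1) / c5 k a b * Real.exp (-Real.pi * Y ^ (2 * ε))) := by
          field_simp
      _ ≤ c5 k a b / 8 * Y ^ sig k * Y ^ (-(ρ + 1)) := by gcongr
      _ = c5 k a b / 8 * η * Y ^ (sig k - 1) := by
          rw [hη, mul_assoc, mul_assoc, ← Real.rpow_add hY0, ← Real.rpow_add hY0]
          congr 2
          ring
  have hmid : η * (∫ α in {α : ℝ | al k Y < |α| ∧ |α| ≤ α₂}, ‖SS (XX k Y) (vp k) l α‖) ≤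
      c5 k a b / 8 * η * Y ^ (sig k - 1) := by
    unfold A1 at hA1
    calc _ ≤ η * (c5 k a b / 8 * Y ^ (sig k - 1)) := by gcongr
      _ = _ := by ring
  have h5 := (abs_le.1 heng).1
  have h6 : 0 < c5 k a b * η * Y ^ (sig k - 1) := by positivity
  linarith

/-- the dyadic scales -/
noncomputable def Yj (j : ℕ) : ℝ := 2 ^ j

lemma Yj_tendsto : Tendsto Yj atTop atTop := tendsto_pow_atTop_atTop_of_one_lt (by norm_num)

lemma Yj_pos (j : ℕ) : 0 < Yj j := by unfold Yj; positivity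

lemma Yj_summable {κ : ℝ} (hκ : 0 < κ) : Summable fun j => Yj j ^ (-κ) := by
  have h1 : ∀ j, Yj j ^ (-κ) = ((2 : ℝ) ^ (-κ)) ^ j := by
    intro j
    unfold Yj
    rw [← Real.rpow_natCast, ← Real.rpow_natCast, ← Real.rpow_mul (by norm_num), ← Real.rpow_mul (by norm_num)]
    congr 1
    ring
  simp only [h1]
  exact summable_geometric_of_lt_one (by positivity) (Real.rpow_lt_one_of_one_lt_of_neg (by norm_num) (by linarith))

/-- **The middle frequencies are small for almost all coefficients.** -/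
lemma bc_mid {k : Fin (n + 1) → ℕ} (hk : ∀ i, 1 ≤ k i) {a b : ℝ} (hab : a ≤ b) {c C : ℝ} (hc : 0 < c) (hC : 0 < C)
    {α₂ : ℝ → ℝ} (hα1 : ∀ᶠ Y : ℝ in atTop, al k Y ≤ α₂ Y) (hα2 : ∀ᶠ Y : ℝ in atTop, α₂ Y ≤ 1)
    (hΦ : ∀ᶠ Y : ℝ in atTop, ∀ α : ℝ, al k Y < |α| → |α| ≤ α₂ Y →
      ∫ l, ‖SS (XX k Y) (vp k) l α‖ ^ 2 ∂(bx (n + 1) a b) ≤
        (KK n a b Y * Y ^ sig k * (|α| * Y) ^ (-1 - c)) ^ 2) :
    ∀ᵐ l ∂(bx (n + 1) a b), ∀ᶠ j in atTop,
      A1 (XX k (Yj j)) (vp k) (al k (Yj j)) (α₂ (Yj j)) l < C * Yj j ^ (sig k - 1) := by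
  have hkr : ∀ i, (1 : ℝ) ≤ k i := fun i => by exact_mod_cast (hk i)
  have hk0 := hkr 0
  set δ₁ : ℝ := (2 * (k 0 : ℝ))⁻¹ with hδ₁
  have hδ0 : 0 < δ₁ := by positivity
  have hδ1 : δ₁ ≤ 1 := by
    rw [hδ₁]
    exact inv_le_one_of_one_le₀ (by linarith)
  set κ : ℝ := δ₁ * c / 2 with hκ
  have hκ0 : 0 < κ := by positivity
  set V : ℝ := ((b - a) ^ (n + 1) + 1) * (16 * (b - a + 1)) ^ (n + 1) * 2 / C with hV
  have hba : 0 ≤ b - a := by linarith
  have hev : ∀ᶠ Y : ℝ in atTop, ∫ l, A1 (XX k Y) (vp k) (al k Y) (α₂ Y) l ∂(bx (n + 1) a b) ≤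
      C * Y ^ (sig k - 1) * Y ^ (-κ) := by
    filter_upwards [hα1, hα2, hΦ, log_pow_le V (n + 2) hκ0, eventually_ge_atTop 1] with Y h1 h2 h3 h4 h5
    have hY0 : 0 < Y := by linarith
    have hlogY := Real.log_nonneg h5
    have hal0 : 0 < al k Y := Real.rpow_pos_of_pos hY0 _
    have hK := KK_one (n := n) hab h5
    have hYs : 0 < Y ^ sig k := Real.rpow_pos_of_pos hY0 _
    refine (mean_A1_le hab hal0 h1 hY0 (by linarith : 0 < KK n a b Y) hYs hc.le h3).trans ?_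
    have hlog : Real.log (α₂ Y / al k Y) ≤ 4 + Real.log Y := by
      have h6 : α₂ Y / al k Y ≤ Y := by
        rw [div_le_iff₀ hal0]
        unfold al
        have h7 : Y * Y ^ ((2 * (k 0 : ℝ))⁻¹ - 1) = Y ^ (2 * (k 0 : ℝ))⁻¹ := by
          rw [mul_comm, ← Real.rpow_add_one hY0.ne']
          congr 1
          ring
        rw [h7]
        exact h2.trans (Real.one_le_rpow h5 (by positivity))
      have h8 : 0 < α₂ Y / al k Y := div_pos (hal0.trans_le h1) hal0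
      have := Real.log_le_log h8 h6
      linarith
    have e1 : (al k Y * Y) ^ (-c) = Y ^ (-(2 * κ)) := by
      unfold al
      rw [← Real.rpow_add_one hY0.ne', ← Real.rpow_mul hY0.le]
      congr 1
      rw [hκ, hδ₁]
      ring
    rw [e1]
    have e2 : Y ^ sig k / Y = Y ^ (sig k - 1) := by rw [Real.rpow_sub_one hY0.ne']
    have hYs1 : 0 < Y ^ (sig k - 1) := Real.rpow_pos_of_pos hY0 _
    have hq : 0 < Y ^ (-(2 * κ)) := Real.rpow_pos_of_pos hY0 _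
    calc ((b - a) ^ (n + 1) + 1) * KK n a b Y * Y ^ sig k / Y * Y ^ (-(2 * κ)) * (2 * Real.log (α₂ Y / al k Y))
        = ((b - a) ^ (n + 1) + 1) * KK n a b Y * (Y ^ sig k / Y) * Y ^ (-(2 * κ)) *
          (2 * Real.log (α₂ Y / al k Y)) := by ring
      _ ≤ ((b - a) ^ (n + 1) + 1) * KK n a b Y * (Y ^ (sig k - 1)) * Y ^ (-(2 * κ)) * (2 * (4 + Real.log Y)) := by
          rw [e2]
          have hK0 : 0 ≤ KK n a b Y := by linarith
          gcongr
      _ = C * Y ^ (sig k - 1) * (Y ^ (-(2 * κ)) * (V * (4 + Real.log Y) ^ (n + 2))) := by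
          rw [hV]
          unfold KK
          rw [mul_pow (16 * (b - a + 1)) (4 + Real.log Y)]
          field_simp
          ring
      _ ≤ C * Y ^ (sig k - 1) * (Y ^ (-(2 * κ)) * Y ^ κ) := by gcongr
      _ = C * Y ^ (sig k - 1) * Y ^ (-κ) := by
          rw [← Real.rpow_add hY0]
          congr 2
          ring
  obtain ⟨j₀, hj₀⟩ := eventually_atTop.1 (Yj_tendsto.eventually hev)
  refine bc (f := fun j => A1 (XX k (Yj j)) (vp k) (al k (Yj j)) (α₂ (Yj j)))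
    (E := fun j => C * Yj j ^ (sig k - 1) * Yj j ^ (-κ)) (θ := fun j => C * Yj j ^ (sig k - 1)) (j₀ := j₀)
    (fun j => (mean_A1 _ _ a b _ _).1) (fun j l => A1_nonneg _ _ _ _ l) (fun j hj => hj₀ j hj)
    (fun j => by have := Real.rpow_pos_of_pos (Yj_pos j) (sig k - 1); positivity) ?_
  refine (Yj_summable hκ0).congr fun j => ?_
  have := Real.rpow_pos_of_pos (Yj_pos j) (sig k - 1)
  field_simp

/-- **The high frequencies are small for almost all coefficients.** -/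
lemma bc_high {k : Fin (n + 1) → ℕ} {a b : ℝ} (hab : a ≤ b) {ρ τ C : ℝ} (hτ : sig k + ρ < τ)
    (hC : 0 < C) {α₂ : ℝ → ℝ}
    (hΦ : ∀ᶠ Y : ℝ in atTop, ∀ α : ℝ, α₂ Y < |α| →
      ∫ l, ‖SS (XX k Y) (vp k) l α‖ ^ 2 ∂(bx (n + 1) a b) ≤ KK n a b Y * Y ^ sig k) :
    ∀ᵐ l ∂(bx (n + 1) a b), ∀ᶠ j in atTop,
      A2 (XX k (Yj j)) (vp k) (Yj j ^ (-ρ)) (α₂ (Yj j)) l < C * Yj j ^ τ := by
  set κ : ℝ := (τ - sig k - ρ) / 2 with hκ
  have hκ0 : 0 < κ := by rw [hκ]; linarith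
  have hba : 0 ≤ b - a := by linarith
  set V : ℝ := (16 * (b - a + 1)) ^ (n + 1) / C with hV
  have hev : ∀ᶠ Y : ℝ in atTop, ∫ l, A2 (XX k Y) (vp k) (Y ^ (-ρ)) (α₂ Y) l ∂(bx (n + 1) a b) ≤
      C * Y ^ τ * Y ^ (-κ) := by
    filter_upwards [hΦ, log_pow_le V (n + 1) hκ0, eventually_ge_atTop 1] with Y h3 h4 h5
    have hY0 : 0 < Y := by linarith
    have hK := KK_one (n := n) hab h5
    have hYs : 0 < Y ^ sig k := Real.rpow_pos_of_pos hY0 _
    refine (mean_A2_le (Real.rpow_pos_of_pos hY0 _) (by positivity) h3).trans ?_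
    calc KK n a b Y * Y ^ sig k / Y ^ (-ρ) = C * (Y ^ sig k / Y ^ (-ρ)) * (V * (4 + Real.log Y) ^ (n + 1)) := by
          rw [hV]
          unfold KK
          rw [mul_pow (16 * (b - a + 1)) (4 + Real.log Y)]
          field_simp
      _ ≤ C * (Y ^ sig k / Y ^ (-ρ)) * Y ^ κ := by
          have := Real.rpow_pos_of_pos hY0 (-ρ)
          gcongr
      _ = C * Y ^ τ * Y ^ (-κ) := by
          rw [← Real.rpow_sub hY0, mul_assoc, mul_assoc, ← Real.rpow_add hY0, ← Real.rpow_add hY0]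
          congr 2
          rw [hκ]
          ring
  obtain ⟨j₀, hj₀⟩ := eventually_atTop.1 (Yj_tendsto.eventually hev)
  refine bc (f := fun j => A2 (XX k (Yj j)) (vp k) (Yj j ^ (-ρ)) (α₂ (Yj j)))
    (E := fun j => C * Yj j ^ τ * Yj j ^ (-κ)) (θ := fun j => C * Yj j ^ τ) (j₀ := j₀)
    (fun j => (mean_A2 _ _ a b (Real.rpow_pos_of_pos (Yj_pos j) _) _).1) (fun j l => A2_nonneg _ _ _ _ l)
    (fun j hj => hj₀ j hj) (fun j => by have := Real.rpow_pos_of_pos (Yj_pos j) τ; positivity) ?_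
  refine (Yj_summable hκ0).congr fun j => ?_
  have := Real.rpow_pos_of_pos (Yj_pos j) τ
  field_simp

end Pool.Agent.Q43.MW
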