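import Mathlib
import Pool.Agent.Q43.MW.All

set_option autoImplicit false

/-!
# The theorem for all large numbers
-/

namespace Pool.Agent.Q43.MW

open MeasureTheory Complex Finset Filter

variable {n : ℕ}

/-- the number `y` is within `y ^ (-δ)` of a value of the form at positive integers -/
def Rep (k : Fin (n + 1) → ℕ) (l : Fin (n + 1) → ℝ) (δ y : ℝ) : Prop :=
  ∃ x : Fin (n + 1) → ℕ, (∀ i, 1 ≤ x i) ∧ |form (vp k) l x - y| < y ^ (-δ)

lemma pi_pos' {k : Fin (n + 1) → ℕ} {Y : ℝ} (hY : 1 ≤ Y) {x : Fin (n + 1) → ℕ}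
    (hx : x ∈ Fintype.piFinset (XX k Y)) (i : Fin (n + 1)) : 1 ≤ x i := by
  have h1 := (mem_Xk.1 (Fintype.mem_piFinset.1 hx i)).1
  have h2 : (1 : ℝ) ≤ Y ^ (k i : ℝ)⁻¹ := Real.one_le_rpow hY (by positivity)
  exact_mod_cast h2.trans h1

/-- at the scale `Y`: if `y` is not represented, the numbers near `y` have no value of the form near -/
lemma gap {k : Fin (n + 1) → ℕ} {a b : ℝ} (ha : 0 < a) (hb : 0 < b) {δ ρ ε : ℝ} (hδ : 0 ≤ δ) (hε : 0 < ε)
    (hρ : ρ = δ + 2 * ε) :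
    ∀ᶠ Y : ℝ in atTop, ∀ l : Fin (n + 1) → ℝ, (∀ i, a < l i ∧ l i ≤ b) → ∀ y : ℝ,
      2 * Y * ∑ i, l i ≤ y → y ≤ 4 * Y * ∑ i, l i → ¬ Rep k l δ y → ∀ t ∈ Set.Icc y (y + Y ^ (-ρ)),
        ∀ x ∈ Fintype.piFinset (XX k Y), Y ^ (ε - ρ) ≤ |form (vp k) l x - t| := by
  filter_upwards [const_le (2 * (4 * ((n : ℝ) + 1) * b) ^ δ) hε, eventually_ge_atTop 1] with Y hY1 hY2
    l hl y hy1 hy2 hno t ht x hx
  have hY0 : 0 < Y := by linarith
  have hLpos : 0 < ∑ i, l i := sum_pos (fun i _ => ha.trans (hl i).1) univ_nonempty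
  have hLb : ∑ i, l i ≤ ((n : ℝ) + 1) * b := by
    calc ∑ i, l i ≤ ∑ _i : Fin (n + 1), b := sum_le_sum fun i _ => (hl i).2
      _ = ((n : ℝ) + 1) * b := by simp
  have hy0 : 0 < y := lt_of_lt_of_le (by positivity) hy1
  have h1 : y ^ (-δ) ≤ |form (vp k) l x - y| := by
    by_contra h
    push Not at h
    exact hno ⟨x, pi_pos' hY2 hx, h⟩
  have h2 : 2 * Y ^ (ε - ρ) ≤ y ^ (-δ) := by
    have h3 : y ≤ (4 * ((n : ℝ) + 1) * b) * Y := by
      calc y ≤ 4 * Y * ∑ i, l i := hy2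
        _ ≤ 4 * Y * (((n : ℝ) + 1) * b) := by gcongr
        _ = _ := by ring
    have h4 : ((4 * ((n : ℝ) + 1) * b) * Y) ^ (-δ) ≤ y ^ (-δ) :=
      Real.rpow_le_rpow_of_nonpos hy0 h3 (by linarith)
    refine le_trans ?_ h4
    rw [Real.mul_rpow (by positivity) hY0.le, Real.rpow_neg (by positivity)]
    have h5 : 0 < (4 * ((n : ℝ) + 1) * b) ^ δ := by positivity
    have h6 : Y ^ (ε - ρ) = Y ^ (-δ) * (Y ^ ε)⁻¹ := by
      rw [← Real.rpow_neg hY0.le, ← Real.rpow_add hY0]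
      congr 1
      rw [hρ]
      ring
    rw [h6]
    have h7 : 0 < Y ^ ε := Real.rpow_pos_of_pos hY0 _
    have h8 : 0 < Y ^ (-δ) := Real.rpow_pos_of_pos hY0 _
    have h9 : 2 * (Y ^ ε)⁻¹ ≤ ((4 * ((n : ℝ) + 1) * b) ^ δ)⁻¹ := by
      rw [le_inv_comm₀ (by positivity) h5, mul_inv, inv_inv]
      linarith
    nlinarith
  have h3 : |t - y| ≤ Y ^ (-ρ) := by
    rw [abs_of_nonneg (by linarith [ht.1])]
    linarith [ht.2]
  have h4 : Y ^ (-ρ) ≤ Y ^ (ε - ρ) := Real.rpow_le_rpow_of_exponent_le hY2 (by linarith)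
  have h5 : |form (vp k) l x - y| ≤ |form (vp k) l x - t| + |t - y| := by
    have : form (vp k) l x - y = (form (vp k) l x - t) + (t - y) := by ring
    rw [this]
    exact abs_add_le _ _
  linarith

lemma al_facts {k : Fin (n + 1) → ℕ} (hk : ∀ i, 1 ≤ k i) {Y : ℝ} (hY : 1 ≤ Y) {α : ℝ} (h : al k Y < |α|) :
    1 ≤ |α| * Y := by
  have hY0 : 0 < Y := by linarith
  have h1 : (1 : ℝ) ≤ al k Y * Y := by
    unfold al
    rw [← Real.rpow_add_one hY0.ne']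
    refine Real.one_le_rpow hY ?_
    have : (0 : ℝ) ≤ (2 * (k 0 : ℝ))⁻¹ := by positivity
    linarith
  nlinarith

lemma al_le_one {k : Fin (n + 1) → ℕ} (hk : ∀ i, 1 ≤ k i) {Y : ℝ} (hY : 1 ≤ Y) : al k Y ≤ 1 := by
  unfold al
  refine Real.rpow_le_one_of_one_le_of_nonpos hY ?_
  have h1 : (1 : ℝ) ≤ k 0 := by exact_mod_cast hk 0
  have : (2 * (k 0 : ℝ))⁻¹ ≤ 1 := inv_le_one_of_one_le₀ (by linarith)
  linarith

lemma dyadic {L : ℝ} (hL : 0 < L) (J : ℕ) {y : ℝ} (hy : 2 * L * Yj (J + 1) ≤ y) :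
    ∃ j, J ≤ j ∧ 2 * Yj j * L ≤ y ∧ y ≤ 4 * Yj j * L := by
  have h1 : (1 : ℝ) ≤ y / (2 * L) := by
    rw [le_div_iff₀ (by positivity)]
    have : (1 : ℝ) ≤ Yj (J + 1) := one_le_pow₀ (by norm_num)
    nlinarith
  obtain ⟨j, h2, h3⟩ := exists_nat_pow_near h1 (by norm_num : (1 : ℝ) < 2)
  refine ⟨j, ?_, ?_, ?_⟩
  · by_contra h
    push Not at h
    have h4 : (2 : ℝ) ^ (j + 1) ≤ 2 ^ (J + 1) := pow_le_pow_right₀ (by norm_num) (by omega)
    have h5 : Yj (J + 1) ≤ y / (2 * L) := by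
      rw [le_div_iff₀ (by positivity)]
      linarith
    unfold Yj at h5
    linarith
  · rw [le_div_iff₀ (by positivity)] at h2
    unfold Yj
    linarith
  · rw [div_lt_iff₀ (by positivity), pow_succ] at h3
    unfold Yj
    linarith

/-- **All large numbers, coefficients in a cube.** -/
lemma all_box {k : Fin (n + 1) → ℕ} (hk : ∀ i, 1 ≤ k i) {a b : ℝ} (ha : 0 < a) (hab : a ≤ b) (hb : 1 ≤ b)
    {δ : ℝ} (hδ0 : 0 ≤ δ) (hδ : δ < sig k / 2 - 1) :
    ∀ᵐ l ∂(bx (n + 1) a b), (∀ i, a < l i ∧ l i ≤ b) → ∃ Y₀ : ℝ, ∀ y : ℝ, Y₀ ≤ y → Rep k l δ y := by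
  have hb0 : 0 < b := by linarith
  have hc5 := c5_pos hk ha hb0
  set c : ℝ := sig k / 2 - 1 with hc
  have hc0 : 0 < c := by linarith
  set ε : ℝ := (c - δ) / 4 with hε
  have hε0 : 0 < ε := by rw [hε]; linarith
  set ρ : ℝ := δ + 2 * ε with hρ
  have hρc : ρ < c := by rw [hρ, hε]; linarith
  set τ : ℝ := -ρ + (2 * sig k - 2) with hτ
  have hmid := bc_mid (k := k) hk hab hc0 (C := c5 k a b / 8) (by positivity) (α₂ := fun _ => 1)
    (by filter_upwards [eventually_ge_atTop 1] with Y hY; exact al_le_one hk hY)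
    (Eventually.of_forall fun _ => le_rfl)
    (by
      filter_upwards [eventually_ge_atTop 1] with Y hY α h1 h2
      have hY0 : 0 < Y := by linarith
      have hM := al_facts hk hY h1
      refine (phi_low hk hab hY hM h2).trans ?_
      have hK := KK_one (n := n) hab hY
      have hM0 : 0 < |α| * Y := by linarith
      have e1 : (Y ^ sig k) ^ 2 = Y ^ (2 * sig k) := by
        rw [← Real.rpow_natCast, ← Real.rpow_mul hY0.le]
        congr 1
        push_cast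
        ring
      have e2 : ((|α| * Y) ^ (-1 - c)) ^ 2 = (|α| * Y) ^ (-sig k) := by
        rw [← Real.rpow_natCast, ← Real.rpow_mul hM0.le]
        congr 1
        rw [hc]
        push_cast
        ring
      rw [mul_pow, mul_pow, e1, e2]
      have : KK n a b Y ≤ KK n a b Y ^ 2 := by nlinarith
      have h3 : 0 < Y ^ (2 * sig k) := Real.rpow_pos_of_pos hY0 _
      have h4 : 0 < (|α| * Y) ^ (-sig k) := Real.rpow_pos_of_pos hM0 _
      gcongr)
  have hhigh := bc_high (k := k) hab (ρ := ρ) (τ := τ) (C := Real.exp (-Real.pi) * (c5 k a b / 8) ^ 2)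
    (by rw [hτ]; linarith) (by have := Real.exp_pos (-Real.pi); positivity) (α₂ := fun _ => 1)
    (by filter_upwards [eventually_ge_atTop 1] with Y hY α h1; exact phi_high hk hab hY h1)
  have hev := Yj_tendsto.eventually ((det_step hk ha hab hb (ρ := ρ) (ε := ε) (by rw [hρ]; linarith) hε0).and
    ((gap (k := k) ha hb0 hδ0 hε0 hρ).and ((eventually_ge_atTop 1).and
      (eventually_ge_atTop (1 / (a : ℝ))))))
  filter_upwards [hmid, hhigh] with l h1 h2 hl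
  obtain ⟨J, hJ⟩ := eventually_atTop.1 (hev.and (h1.and h2))
  have hLpos : 0 < ∑ i, l i := sum_pos (fun i _ => ha.trans (hl i).1) univ_nonempty
  refine ⟨2 * (∑ i, l i) * Yj (J + 1), fun y hy => ?_⟩
  obtain ⟨j, hj, hy1, hy2⟩ := dyadic hLpos J hy
  obtain ⟨⟨hdet, hgap, hY1, hYa⟩, hA1, hA2⟩ := hJ j hj
  set Y := Yj j with hY
  have hY0 : 0 < Y := Yj_pos j
  by_contra hno
  have hg := hgap l hl y hy1 hy2 hno
  set η : ℝ := Y ^ (-ρ) with hη
  have hη0 : 0 < η := Real.rpow_pos_of_pos hY0 _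
  have hρ0 : 0 ≤ ρ := by rw [hρ]; linarith
  have hη1 : η ≤ 1 := Real.rpow_le_one_of_one_le_of_nonpos hY1 (by linarith)
  have hk0 : (1 : ℝ) ≤ k 0 := by exact_mod_cast hk 0
  have hηH : η ≤ HH k b Y := by
    refine hη1.trans ?_
    unfold HH
    have h8 : (1 : ℝ) ≤ 8 ^ k 0 := one_le_pow₀ (by norm_num)
    have hinv : (k 0 : ℝ)⁻¹ ≤ 1 := inv_le_one_of_one_le₀ hk0
    exact one_le_mul_of_one_le_of_one_le (one_le_mul_of_one_le_of_one_le hb
      (one_le_mul_of_one_le_of_one_le hk0 h8)) (Real.one_le_rpow hY1 (by linarith))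
  have hYL : 1 ≤ Y * ∑ i, l i := by
    have h3 : a ≤ ∑ i, l i := by
      calc a ≤ l 0 := (hl 0).1.le
        _ ≤ ∑ i, l i := single_le_sum (fun i _ => (ha.trans (hl i).1).le) (mem_univ 0)
    rw [div_le_iff₀ ha] at hYa
    nlinarith
  have hy0 : 0 < y := by nlinarith
  have hlow : ∀ t ∈ Set.Icc y (y + η), c5 k a b / 8 * η * Y ^ (sig k - 1) ≤
      ‖∫ α : ℝ, ff (XX k Y) (vp k) l η (HH k b Y) 1 α * ee (-(α * t))‖ := by
    intro t ht
    refine hdet l hl 1 (al_le_one hk hY1) hA1.le t (hy1.trans ht.1) ?_ (hg t ht)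
    have := ht.2
    nlinarith
  have h3 := high_lower (XX k Y) (vp k) l hη0 hηH 1 hy0.le hη0.le (by linarith) (by positivity)
    measurableSet_Icc subset_rfl hlow
  rw [measureReal_def, Real.volume_Icc, ENNReal.toReal_ofReal (by linarith), add_sub_cancel_left] at h3
  have h4 : η ^ 2 * A2 (XX k Y) (vp k) η 1 l < η ^ 2 * (Real.exp (-Real.pi) * (c5 k a b / 8) ^ 2 * Y ^ τ) :=
    mul_lt_mul_of_pos_left hA2 (by positivity)
  have e1 : Y ^ τ = η * (Y ^ (sig k - 1)) ^ 2 := by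
    rw [hη, ← Real.rpow_natCast (Y ^ (sig k - 1)), ← Real.rpow_mul hY0.le, ← Real.rpow_add hY0]
    congr 1
    rw [hτ]
    push_cast
    ring
  rw [e1] at h4
  have e2 : Real.exp (-Real.pi) * (c5 k a b / 8 * η * Y ^ (sig k - 1)) ^ 2 * η =
      η ^ 2 * (Real.exp (-Real.pi) * (c5 k a b / 8) ^ 2 * (η * (Y ^ (sig k - 1)) ^ 2)) := by ring
  linarith

/-- from cubes to all positive coefficients -/
lemma ae_of_boxes {P : (Fin (n + 1) → ℝ) → ℕ → Prop}
    (h : ∀ a b : ℝ, 0 < a → a ≤ b → 1 ≤ b → ∀ q, ∀ᵐ l ∂(bx (n + 1) a b), (∀ i, a < l i ∧ l i ≤ b) → P l q) :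
    ∀ᵐ l : Fin (n + 1) → ℝ, (∀ i, 0 < l i) → ∀ q, P l q := by
  have h1 : ∀ m q : ℕ, ∀ᵐ l : Fin (n + 1) → ℝ, (∀ i, 1 / ((m : ℝ) + 1) < l i ∧ l i ≤ (m : ℝ) + 1) → P l q := by
    intro m q
    have hm : (0 : ℝ) < (m : ℝ) + 1 := by positivity
    have hm1 : (1 : ℝ) ≤ (m : ℝ) + 1 := by
      have : (0 : ℝ) ≤ m := Nat.cast_nonneg m
      linarith
    have h2 := h (1 / ((m : ℝ) + 1)) ((m : ℝ) + 1) (by positivity)
      (by rw [div_le_iff₀ hm]; nlinarith) hm1 q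
    rw [bx_eq, ae_restrict_iff' (MeasurableSet.univ_pi fun _ => measurableSet_Ioc)] at h2
    filter_upwards [h2] with l hl hl2
    exact hl (fun i _ => hl2 i) hl2
  have h2 : ∀ᵐ l : Fin (n + 1) → ℝ, ∀ m q : ℕ,
      (∀ i, 1 / ((m : ℝ) + 1) < l i ∧ l i ≤ (m : ℝ) + 1) → P l q := by
    rw [ae_all_iff]
    intro m
    rw [ae_all_iff]
    exact h1 m
  filter_upwards [h2] with l hl hpos q
  obtain ⟨m, hm⟩ := exists_nat_gt (∑ i, (l i + 1 / l i))
  refine hl m q fun i => ?_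
  have h3 : l i + 1 / l i ≤ ∑ i, (l i + 1 / l i) :=
    single_le_sum (f := fun i => l i + 1 / l i) (fun i _ => by have := hpos i; positivity) (mem_univ i)
  have h4 := hpos i
  have h5 : 0 < 1 / l i := by positivity
  constructor
  · rw [div_lt_iff₀ (by positivity)]
    have h6 : 1 / l i < (m : ℝ) + 1 := by linarith
    rw [div_lt_iff₀ h4] at h6
    linarith
  · linarith

/-- **All large numbers.** -/
theorem all_large {k : Fin (n + 1) → ℕ} (hk : ∀ i, 1 ≤ k i) (hσ : 2 < sig k) :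
    ∀ᵐ l : Fin (n + 1) → ℝ, (∀ i, 0 < l i) → ∀ δ : ℝ, δ < sig k / 2 - 1 →
      ∃ Y₀ : ℝ, ∀ y : ℝ, Y₀ ≤ y → Rep k l δ y := by
  set c : ℝ := sig k / 2 - 1 with hc
  have hc0 : 0 < c := by linarith
  have h := ae_of_boxes (P := fun l q => ∃ Y₀ : ℝ, ∀ y : ℝ, Y₀ ≤ y → Rep k l (c - c / ((q : ℝ) + 1)) y)
    (fun a b ha hab hb q => all_box hk ha hab hb (by
      have : c / ((q : ℝ) + 1) ≤ c := div_le_self hc0.le (by
        have : (0 : ℝ) ≤ q := Nat.cast_nonneg q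
        linarith)
      linarith) (by
      have : 0 < c / ((q : ℝ) + 1) := by positivity
      linarith))
  filter_upwards [h] with l hl hpos δ hδ
  obtain ⟨q, hq⟩ := exists_nat_gt (c / (c - δ))
  obtain ⟨Y₀, hY₀⟩ := hl hpos q
  refine ⟨max Y₀ 1, fun y hy => ?_⟩
  obtain ⟨x, hx1, hx2⟩ := hY₀ y ((le_max_left _ _).trans hy)
  refine ⟨x, hx1, hx2.trans_le ?_⟩
  have hy1 : 1 ≤ y := (le_max_right _ _).trans hy
  refine Real.rpow_le_rpow_of_exponent_le hy1 ?_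
  have h1 : 0 < c - δ := by linarith
  have h2 : c / ((q : ℝ) + 1) ≤ c - δ := by
    rw [div_le_iff₀ (by positivity)]
    rw [div_lt_iff₀ h1] at hq
    nlinarith
  linarith

end Pool.Agent.Q43.MW
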