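import Mathlib
import Pool.Agent.Q43.MW.Fin

set_option autoImplicit false

/-!
# Full ranges of integers: mean values, and the comparison of scales for almost all coefficients
-/

namespace Pool.Agent.Q43.MW

open MeasureTheory Complex Finset Filter

variable {s : ℕ}

/-- the `k`-th powers of the absolute values of the integers in the order `0, -1, 1, -2, 2, ...` -/
noncomputable def vz (k : ℕ) (x : ℕ) : ℝ := (((x + 1) / 2 : ℕ) : ℝ) ^ k

lemma S1_range {k : ℕ} (hk : 1 ≤ k) (P : ℕ) (β : ℝ) :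
    S1 (range (2 * P + 1)) (vz k) β = 1 + 2 * ∑ x ∈ Ioc 0 P, ee (β * (x : ℝ) ^ k) := by
  induction P with
  | zero =>
    unfold S1 vz
    have hk0 : k ≠ 0 := by omega
    simp [zero_pow hk0, ee_zero]
  | succ P ih =>
    have e1 : 2 * (P + 1) + 1 = 2 * P + 1 + 1 + 1 := by ring
    unfold S1 at ih ⊢
    rw [e1, sum_range_succ, sum_range_succ, ih, Finset.sum_Ioc_succ_top (by omega)]
    have e2 : vz k (2 * P + 1) = ((P : ℝ) + 1) ^ k := by
      unfold vz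
      have : (2 * P + 1 + 1) / 2 = P + 1 := by omega
      rw [this]
      push_cast
      rfl
    have e3 : vz k (2 * P + 1 + 1) = ((P : ℝ) + 1) ^ k := by
      unfold vz
      have : (2 * P + 1 + 1 + 1) / 2 = P + 1 := by omega
      rw [this]
      push_cast
      rfl
    rw [e2, e3]
    push_cast
    ring

lemma S1_split {k : ℕ} (hk : 1 ≤ k) (Q P : ℕ) (β : ℝ) :
    ‖S1 (range (2 * P + 1)) (vz k) β‖ ≤ (1 + 2 * Q) + 2 * ‖S1 (Ioc Q P) (fun x => (x : ℝ) ^ k) β‖ := by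
  rw [S1_range hk]
  have hnorm : ∀ R : ℕ, ‖∑ x ∈ Ioc 0 R, ee (β * (x : ℝ) ^ k)‖ ≤ R := by
    intro R
    refine (norm_sum_le _ _).trans ?_
    simp [norm_ee]
  refine (norm_add_le _ _).trans ?_
  rw [norm_one, norm_mul]
  have h2 : ‖(2 : ℂ)‖ = 2 := by simp
  rw [h2]
  rcases le_total Q P with h | h
  · rw [← Finset.sum_Ioc_consecutive (fun x : ℕ => ee (β * (x : ℝ) ^ k)) (Nat.zero_le Q) h]
    have h3 := norm_add_le (∑ x ∈ Ioc 0 Q, ee (β * (x : ℝ) ^ k)) (∑ x ∈ Ioc Q P, ee (β * (x : ℝ) ^ k))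
    have h4 := hnorm Q
    unfold S1
    linarith
  · have h4 := hnorm P
    have h5 : (P : ℝ) ≤ Q := by exact_mod_cast h
    have := norm_nonneg (S1 (Ioc Q P) (fun x => (x : ℝ) ^ k) β)
    linarith

lemma sep_pow' {k : ℕ} (hk : 1 ≤ k) {P : ℝ} (hP : 0 < P) {x z : ℕ} (hx : P ≤ x) (hz : P ≤ z) :
    P ^ (k - 1) * |(x : ℝ) - z| ≤ |(x : ℝ) ^ k - (z : ℝ) ^ k| := by
  have key : ∀ x z : ℝ, P ≤ z → z ≤ x → P ^ (k - 1) * (x - z) ≤ x ^ k - z ^ k := by
    intro x z hz hzx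
    obtain ⟨m, rfl⟩ : ∃ m, k = m + 1 := ⟨k - 1, by omega⟩
    have hz0 : 0 < z := hP.trans_le hz
    simp only [Nat.add_sub_cancel]
    have h1 : z ^ m ≤ x ^ m := pow_le_pow_left₀ hz0.le hzx m
    have h2 : P ^ m ≤ z ^ m := pow_le_pow_left₀ hP.le hz m
    have e1 : x ^ (m + 1) - z ^ (m + 1) = x * (x ^ m - z ^ m) + z ^ m * (x - z) := by ring
    rw [e1]
    have h3 : 0 ≤ x * (x ^ m - z ^ m) := mul_nonneg (by linarith) (by linarith)
    have h4 : P ^ m * (x - z) ≤ z ^ m * (x - z) := mul_le_mul_of_nonneg_right h2 (by linarith)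
    linarith
  rcases le_total (x : ℝ) z with h | h
  · rw [abs_sub_comm, abs_of_nonneg (by linarith), abs_sub_comm ((x : ℝ) ^ k),
      abs_of_nonneg (by have := pow_le_pow_left₀ (Nat.cast_nonneg x) h k; linarith)]
    exact key z x hx h
  · rw [abs_of_nonneg (by linarith),
      abs_of_nonneg (by have := pow_le_pow_left₀ (Nat.cast_nonneg z) h k; linarith)]
    exact key x z hz h

/-- **Mean square over one coefficient, full range.** -/
lemma ms_full {k P : ℕ} (hk : 1 ≤ k) (hP : 1 ≤ P) {a b α w : ℝ} (hab : a ≤ b) (hα : α ≠ 0)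
    (hw : w = |α| ^ (-(k : ℝ)⁻¹)) (hwP : w ≤ P) :
    ∫ t in a..b, ‖S1 (range (2 * P + 1)) (vz k) (t * α)‖ ^ 2 ≤
      24 * (b - a + 1) * (1 + Real.log P) * P * (1 + w) := by
  have hPr : (1 : ℝ) ≤ P := by exact_mod_cast hP
  have hlog := Real.log_nonneg hPr
  have hα0 : 0 < |α| := abs_pos.2 hα
  have hw0 : 0 < w := by rw [hw]; exact Real.rpow_pos_of_pos hα0 _
  have hk0 : (k : ℝ) ≠ 0 := by exact_mod_cast (by omega : k ≠ 0)
  set Q : ℕ := ⌊w⌋₊ with hQ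
  have hQw : (Q : ℝ) ≤ w := Nat.floor_le hw0.le
  have hQw' : w ≤ (Q : ℝ) + 1 := (Nat.lt_floor_add_one w).le
  set D : ℝ := ((Q : ℝ) + 1) ^ (k - 1) with hD
  have hD0 : 0 < D := by positivity
  have hm := ms (X := Ioc Q P) (u := Q + 1) (N := P) (v := fun x => (x : ℝ) ^ k) (D := D)
    (by
      intro x hx
      rw [mem_Ioc] at hx
      rw [mem_Ico]
      omega) hP hD0 (by
      intro x hx z hz
      rw [mem_Ioc] at hx hz
      refine sep_pow' hk (by positivity) ?_ ?_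
      · exact_mod_cast hx.1
      · exact_mod_cast hz.1) hab hα
  have hDw : 1 / (|α| * D) ≤ w := by
    rw [div_le_iff₀ (by positivity)]
    have h1 : w ^ (k - 1) ≤ D := pow_le_pow_left₀ hw0.le hQw' _
    have h2 : w * |α| * w ^ (k - 1) = 1 := by
      have h3 : w * w ^ (k - 1) = w ^ k := by
        rw [← pow_succ']
        congr 1
        omega
      have h4 : w ^ k = |α|⁻¹ := by
        rw [hw, ← Real.rpow_natCast, ← Real.rpow_mul hα0.le]
        have e : -(k : ℝ)⁻¹ * k = -1 := by rw [neg_mul, inv_mul_cancel₀ hk0]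
        rw [e, Real.rpow_neg_one]
      calc w * |α| * w ^ (k - 1) = |α| * (w * w ^ (k - 1)) := by ring
        _ = 1 := by rw [h3, h4]; field_simp
    calc (1 : ℝ) = w * |α| * w ^ (k - 1) := h2.symm
      _ ≤ w * |α| * D := by gcongr
      _ = w * (|α| * D) := by ring
  have hc : Continuous fun t : ℝ => ‖S1 (Ioc Q P) (fun x => (x : ℝ) ^ k) (t * α)‖ ^ 2 :=
    ((S1_cont _ _).comp (by fun_prop : Continuous fun t : ℝ => t * α)).norm.pow 2
  have hc2 : Continuous fun t : ℝ => ‖S1 (range (2 * P + 1)) (vz k) (t * α)‖ ^ 2 :=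
    ((S1_cont _ _).comp (by fun_prop : Continuous fun t : ℝ => t * α)).norm.pow 2
  have hba : 0 ≤ b - a := by linarith
  calc ∫ t in a..b, ‖S1 (range (2 * P + 1)) (vz k) (t * α)‖ ^ 2
      ≤ ∫ t in a..b, (2 * (1 + 2 * w) ^ 2 + 8 * ‖S1 (Ioc Q P) (fun x => (x : ℝ) ^ k) (t * α)‖ ^ 2) := by
        refine intervalIntegral.integral_mono_on hab (hc2.intervalIntegrable _ _)
          ((by fun_prop : Continuous fun t : ℝ => 2 * (1 + 2 * w) ^ 2 +
            8 * ‖S1 (Ioc Q P) (fun x => (x : ℝ) ^ k) (t * α)‖ ^ 2).intervalIntegrable _ _) fun t _ => ?_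
        have h1 := S1_split hk Q P (t * α)
        have h2 := norm_nonneg (S1 (range (2 * P + 1)) (vz k) (t * α))
        have h3 := norm_nonneg (S1 (Ioc Q P) (fun x => (x : ℝ) ^ k) (t * α))
        have h4 : ‖S1 (range (2 * P + 1)) (vz k) (t * α)‖ ≤
            (1 + 2 * w) + 2 * ‖S1 (Ioc Q P) (fun x => (x : ℝ) ^ k) (t * α)‖ := by linarith
        nlinarith [sq_nonneg ((1 + 2 * w) - 2 * ‖S1 (Ioc Q P) (fun x => (x : ℝ) ^ k) (t * α)‖)]
    _ = 2 * (1 + 2 * w) ^ 2 * (b - a) + 8 * ∫ t in a..b, ‖S1 (Ioc Q P) (fun x => (x : ℝ) ^ k) (t * α)‖ ^ 2 := by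
        rw [intervalIntegral.integral_add (intervalIntegrable_const) ((hc.intervalIntegrable _ _).const_mul 8),
          intervalIntegral.integral_const, intervalIntegral.integral_const_mul, smul_eq_mul]
        ring
    _ ≤ 2 * (8 * P * (1 + w)) * (b - a) + 8 * ((b - a + 1) * P * (1 + Real.log P) * (1 + w)) := by
        have h5 : (1 + 2 * w) ^ 2 ≤ 8 * P * (1 + w) := by nlinarith
        have h6 : (b - a + 1) * P * (1 + Real.log P) * (1 + 1 / (|α| * D)) ≤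
            (b - a + 1) * P * (1 + Real.log P) * (1 + w) := by gcongr
        have h7 := hm.trans h6
        gcongr
    _ ≤ 24 * (b - a + 1) * (1 + Real.log P) * P * (1 + w) := by
        have h8 : 0 ≤ P * (1 + w) * (b - a) := by positivity
        have h9 : 0 ≤ P * (1 + w) * Real.log P := by positivity
        have h10 : 0 ≤ P * (1 + w) * (b - a) * Real.log P := by positivity
        have h11 : (0 : ℝ) ≤ P * (1 + w) := by positivity
        nlinarith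

/-- the number of integers of one sign in the range -/
noncomputable def PP (k : ℕ) (A Y : ℝ) : ℕ := ⌈(A * Y) ^ (k : ℝ)⁻¹⌉₊

/-- the ranges -/
noncomputable def XF (s k : ℕ) (A Y : ℝ) (_ : Fin s) : Finset ℕ := range (2 * PP k A Y + 1)

/-- the powers -/
noncomputable def vF (s k : ℕ) (_ : Fin s) : ℕ → ℝ := vz k

/-- the logarithmic factor -/
noncomputable def LF (a b A Y : ℝ) : ℝ := 96 * (b - a + 1) * A * (2 + Real.log A + Real.log Y)

lemma PP_facts {k : ℕ} (hk : 1 ≤ k) {A Y : ℝ} (hA : 1 ≤ A) (hY : 1 ≤ Y) :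
    Y ^ (k : ℝ)⁻¹ ≤ PP k A Y ∧ (PP k A Y : ℝ) ≤ 2 * A * Y ^ (k : ℝ)⁻¹ ∧ 1 ≤ PP k A Y ∧
      Real.log (PP k A Y) ≤ 1 + Real.log A + Real.log Y := by
  have hk1 : (1 : ℝ) ≤ k := by exact_mod_cast hk
  have hinv : (k : ℝ)⁻¹ ≤ 1 := inv_le_one_of_one_le₀ hk1
  have hAY : 1 ≤ A * Y := one_le_mul_of_one_le_of_one_le hA hY
  have h1 : 1 ≤ (A * Y) ^ (k : ℝ)⁻¹ := Real.one_le_rpow hAY (by positivity)
  have h2 : (A * Y) ^ (k : ℝ)⁻¹ ≤ PP k A Y := Nat.le_ceil _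
  have h3 : (PP k A Y : ℝ) < (A * Y) ^ (k : ℝ)⁻¹ + 1 := Nat.ceil_lt_add_one (by linarith)
  have h4 : (A * Y) ^ (k : ℝ)⁻¹ ≤ A * Y ^ (k : ℝ)⁻¹ := by
    rw [Real.mul_rpow (by linarith) (by linarith)]
    have : A ^ (k : ℝ)⁻¹ ≤ A := by
      calc A ^ (k : ℝ)⁻¹ ≤ A ^ (1 : ℝ) := Real.rpow_le_rpow_of_exponent_le hA hinv
        _ = A := Real.rpow_one A
    have h5 : 0 ≤ Y ^ (k : ℝ)⁻¹ := by positivity
    gcongr
  have h5 : Y ^ (k : ℝ)⁻¹ ≤ (A * Y) ^ (k : ℝ)⁻¹ :=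
    Real.rpow_le_rpow (by linarith) (by nlinarith) (by positivity)
  have h6 : (PP k A Y : ℝ) ≤ 2 * A * Y ^ (k : ℝ)⁻¹ := by linarith
  have h7 : (1 : ℝ) ≤ PP k A Y := by linarith
  refine ⟨by linarith, h6, by exact_mod_cast h7, ?_⟩
  have h8 : Y ^ (k : ℝ)⁻¹ ≤ Y := by
    calc Y ^ (k : ℝ)⁻¹ ≤ Y ^ (1 : ℝ) := Real.rpow_le_rpow_of_exponent_le hY hinv
      _ = Y := Real.rpow_one Y
  have h9 : (PP k A Y : ℝ) ≤ 2 * A * Y := by
    refine h6.trans ?_
    gcongr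
  have h10 := Real.log_le_log (by linarith) h9
  rw [Real.log_mul (by positivity) (by positivity), Real.log_mul (by norm_num) (by positivity)] at h10
  have := Real.log_two_lt_d9
  linarith

lemma LF_one {a b A Y : ℝ} (hab : a ≤ b) (hA : 1 ≤ A) (hY : 1 ≤ Y) : 1 ≤ LF a b A Y := by
  unfold LF
  have h1 := Real.log_nonneg hA
  have h2 := Real.log_nonneg hY
  have h3 : 1 ≤ 96 * (b - a + 1) := by linarith
  have h4 : 1 ≤ 2 + Real.log A + Real.log Y := by linarith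
  exact one_le_mul_of_one_le_of_one_le (one_le_mul_of_one_le_of_one_le h3 hA) h4

lemma NN_full {k : ℕ} (hk : 1 ≤ k) {A Y : ℝ} (hA : 1 ≤ A) (hY : 1 ≤ Y) :
    NN (XF s k A Y) ≤ (5 * A) ^ s * Y ^ ((s : ℝ) / k) := by
  obtain ⟨h1, h2, h3, -⟩ := PP_facts hk hA hY
  have hY0 : 0 < Y := by linarith
  unfold NN XF
  rw [prod_const, card_univ, Fintype.card_fin, card_range]
  have h4 : ((2 * PP k A Y + 1 : ℕ) : ℝ) ≤ 5 * A * Y ^ (k : ℝ)⁻¹ := by
    push_cast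
    have h5 : (1 : ℝ) ≤ Y ^ (k : ℝ)⁻¹ := Real.one_le_rpow hY (by positivity)
    have h6 : 1 ≤ A * Y ^ (k : ℝ)⁻¹ := one_le_mul_of_one_le_of_one_le hA h5
    linarith
  calc ((2 * PP k A Y + 1 : ℕ) : ℝ) ^ s ≤ (5 * A * Y ^ (k : ℝ)⁻¹) ^ s := by gcongr
    _ = (5 * A) ^ s * Y ^ ((s : ℝ) / k) := by
        rw [mul_pow (5 * A), ← Real.rpow_natCast (Y ^ (k : ℝ)⁻¹), ← Real.rpow_mul hY0.le]
        congr 2
        field_simp

lemma phi_full {k : ℕ} (hk : 1 ≤ k) {a b A Y : ℝ} (hab : a ≤ b) (hA : 1 ≤ A) (hY : 1 ≤ Y) {α : ℝ}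
    (hα : 1 ≤ |α| * Y) :
    ∫ l, ‖SS (XF s k A Y) (vF s k) l α‖ ^ 2 ∂(bx s a b) ≤
      (LF a b A Y) ^ s * Y ^ ((s : ℝ) / k) * (max 1 (|α| ^ (-(k : ℝ)⁻¹))) ^ s := by
  have hY0 : 0 < Y := by linarith
  have hα0 : α ≠ 0 := by
    rintro rfl
    simp at hα
    linarith
  have ha0 := abs_pos.2 hα0
  obtain ⟨h1, h2, h3, h4⟩ := PP_facts hk hA hY
  set w : ℝ := |α| ^ (-(k : ℝ)⁻¹) with hw
  have hw0 : 0 < w := Real.rpow_pos_of_pos ha0 _
  have hwP : w ≤ PP k A Y := by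
    refine le_trans ?_ h1
    rw [hw, Real.rpow_neg ha0.le, ← Real.inv_rpow ha0.le]
    refine Real.rpow_le_rpow (by positivity) ?_ (by positivity)
    rw [inv_le_iff_one_le_mul₀ ha0, mul_comm]
    exact hα
  rw [mean_eq _ _ hab]
  have h5 : ∀ i : Fin s, ∫ t in a..b, ‖S1 (XF s k A Y i) (vF s k i) (t * α)‖ ^ 2 ≤
      LF a b A Y * Y ^ (k : ℝ)⁻¹ * max 1 w := by
    intro i
    refine (ms_full hk h3 hab hα0 hw hwP).trans ?_
    have hYk : 0 < Y ^ (k : ℝ)⁻¹ := Real.rpow_pos_of_pos hY0 _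
    have h6 : 1 + w ≤ 2 * max 1 w := by
      have := le_max_left 1 w
      have := le_max_right 1 w
      linarith
    have hba : 0 ≤ b - a := by linarith
    have hl : 0 ≤ Real.log (PP k A Y) := Real.log_nonneg (by exact_mod_cast h3)
    have hlA := Real.log_nonneg hA
    have hlY := Real.log_nonneg hY
    calc 24 * (b - a + 1) * (1 + Real.log (PP k A Y)) * (PP k A Y) * (1 + w)
        ≤ 24 * (b - a + 1) * (2 + Real.log A + Real.log Y) * (2 * A * Y ^ (k : ℝ)⁻¹) * (2 * max 1 w) := by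
          have : 1 + Real.log (PP k A Y) ≤ 2 + Real.log A + Real.log Y := by linarith
          gcongr
      _ = _ := by unfold LF; ring
  refine (prod_le_prod (fun i _ => intervalIntegral.integral_nonneg hab fun t _ => by positivity)
    fun i _ => h5 i).trans (le_of_eq ?_)
  rw [prod_const, card_univ, Fintype.card_fin, mul_pow, mul_pow]
  congr 2
  rw [← Real.rpow_natCast, ← Real.rpow_mul hY0.le]
  congr 1
  field_simp

/-- the exponents fit -/
lemma phi_fit {k : ℕ} (hk : 1 ≤ k) {a b A Y β c : ℝ} (hab : a ≤ b) (hA : 1 ≤ A) (hY : 1 ≤ Y) (hc : 0 ≤ c)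
    (hβ : 0 ≤ β) (hσ : (1 + β) * (1 + c) ≤ (s : ℝ) / k / 2) {α : ℝ} (hα : 1 ≤ |α| * Y) (hα2 : |α| ≤ Y ^ β) :
    ∫ l, ‖SS (XF s k A Y) (vF s k) l α‖ ^ 2 ∂(bx s a b) ≤
      ((LF a b A Y) ^ s * Y ^ ((s : ℝ) / k) * (|α| * Y) ^ (-1 - c)) ^ 2 := by
  have hY0 : 0 < Y := by linarith
  have hL := LF_one hab hA hY
  have hLs : 1 ≤ (LF a b A Y) ^ s := one_le_pow₀ hL
  set σ : ℝ := (s : ℝ) / k with hσd
  have ha0 : 0 < |α| := by
    by_contra h
    push Not at h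
    nlinarith [abs_nonneg α]
  have hM : 0 < |α| * Y := by linarith
  refine (phi_full hk hab hA hY hα).trans ?_
  have e1 : (LF a b A Y ^ s * Y ^ σ * (|α| * Y) ^ (-1 - c)) ^ 2 =
      LF a b A Y ^ s * LF a b A Y ^ s * Y ^ σ * (Y ^ σ * (|α| * Y) ^ (-(2 + 2 * c))) := by
    have e2 : ((|α| * Y) ^ (-1 - c)) ^ 2 = (|α| * Y) ^ (-(2 + 2 * c)) := by
      rw [← Real.rpow_natCast, ← Real.rpow_mul hM.le]
      congr 1
      push_cast
      ring
    rw [mul_pow, e2]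
    ring
  rw [e1]
  have hmax : (max 1 (|α| ^ (-(k : ℝ)⁻¹))) ^ s ≤ Y ^ σ * (|α| * Y) ^ (-(2 + 2 * c)) := by
    have h2c : 2 + 2 * c ≤ σ := by nlinarith
    rcases le_total |α| 1 with h | h
    · have h3 : 1 ≤ |α| ^ (-(k : ℝ)⁻¹) := by
        rw [Real.rpow_neg ha0.le]
        rw [one_le_inv₀ (Real.rpow_pos_of_pos ha0 _)]
        exact Real.rpow_le_one ha0.le h (by positivity)
      rw [max_eq_right h3, ← Real.rpow_natCast, ← Real.rpow_mul ha0.le]
      have e3 : -(k : ℝ)⁻¹ * s = -σ := by rw [hσd]; ring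
      rw [e3]
      have h4 : Y ^ σ * (|α| * Y) ^ (-σ) = |α| ^ (-σ) := by
        rw [Real.mul_rpow ha0.le hY0.le, Real.rpow_neg hY0.le]
        have := Real.rpow_pos_of_pos hY0 σ
        field_simp
      rw [← h4]
      have h5 : (|α| * Y) ^ (-σ) ≤ (|α| * Y) ^ (-(2 + 2 * c)) :=
        Real.rpow_le_rpow_of_exponent_le hα (by linarith)
      gcongr
    · have h3 : |α| ^ (-(k : ℝ)⁻¹) ≤ 1 := by
        refine Real.rpow_le_one_of_one_le_of_nonpos h ?_
        have : (0 : ℝ) ≤ (k : ℝ)⁻¹ := by positivity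
        linarith
      rw [max_eq_left h3, one_pow, Real.rpow_neg hM.le, ← div_eq_mul_inv, one_le_div (Real.rpow_pos_of_pos hM _)]
      calc (|α| * Y) ^ (2 + 2 * c) ≤ (Y ^ β * Y) ^ (2 + 2 * c) := by
            refine Real.rpow_le_rpow hM.le ?_ (by linarith)
            gcongr
        _ = Y ^ ((β + 1) * (2 + 2 * c)) := by
            rw [← Real.rpow_add_one hY0.ne', ← Real.rpow_mul hY0.le]
        _ ≤ Y ^ σ := by
            refine Real.rpow_le_rpow_of_exponent_le hY ?_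
            nlinarith
  have hYσ : 0 < Y ^ σ := Real.rpow_pos_of_pos hY0 _
  calc LF a b A Y ^ s * Y ^ σ * (max 1 (|α| ^ (-(k : ℝ)⁻¹))) ^ s ≤
      LF a b A Y ^ s * Y ^ σ * (Y ^ σ * (|α| * Y) ^ (-(2 + 2 * c))) := by gcongr
    _ = LF a b A Y ^ s * 1 * Y ^ σ * (Y ^ σ * (|α| * Y) ^ (-(2 + 2 * c))) := by ring
    _ ≤ _ := by
        have : 0 < (|α| * Y) ^ (-(2 + 2 * c)) := Real.rpow_pos_of_pos hM _
        gcongr

/-- **The middle frequencies are small for almost all coefficients.** -/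
lemma bc_full {k : ℕ} (hk : 1 ≤ k) {a b A : ℝ} (hab : a ≤ b) (hA : 1 ≤ A) {β c h : ℝ} (hc : 0 < c) (hβ : 0 ≤ β)
    (hh : 0 < h) (hh1 : h ≤ 1) (hσ : (1 + β) * (1 + c) ≤ (s : ℝ) / k / 2) :
    ∀ᵐ l ∂(bx s a b), ∀ᶠ j in atTop,
      A1 (XF s k A (Yj j)) (vF s k) (Yj j ^ (h - 1)) (Yj j ^ β) l <
        Yj j ^ ((s : ℝ) / k - 1 - h * c / 2) := by
  set σ : ℝ := (s : ℝ) / k with hσd
  set κ : ℝ := h * c / 4 with hκ
  have hκ0 : 0 < κ := by positivity
  have hba : 0 ≤ b - a := by linarith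
  set V : ℝ := ((b - a) ^ s + 1) * (96 * (b - a + 1) * A * (2 + Real.log A)) ^ s * (2 * (1 + β)) with hV
  have hev : ∀ᶠ Y : ℝ in atTop,
      ∫ l, A1 (XF s k A Y) (vF s k) (Y ^ (h - 1)) (Y ^ β) l ∂(bx s a b) ≤
      Y ^ (σ - 1 - h * c / 2) * Y ^ (-κ) := by
    filter_upwards [log_pow_le V (s + 1) hκ0, eventually_ge_atTop 1] with Y h4 h5
    have hY0 : 0 < Y := by linarith
    have hlogY := Real.log_nonneg h5
    have hlogA := Real.log_nonneg hA
    have hα0 : 0 < Y ^ (h - 1) := Real.rpow_pos_of_pos hY0 _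
    have hL := LF_one hab hA h5
    have hYs : 0 < Y ^ σ := Real.rpow_pos_of_pos hY0 _
    have h12 : Y ^ (h - 1) ≤ Y ^ β := Real.rpow_le_rpow_of_exponent_le h5 (by linarith)
    have hMe : Y ^ (h - 1) * Y = Y ^ h := by
      rw [← Real.rpow_add_one hY0.ne']
      congr 1
      ring
    have hY1h : 1 ≤ Y ^ h := Real.one_le_rpow h5 hh.le
    refine (mean_A1_le hab hα0 h12 hY0 (by positivity : 0 < LF a b A Y ^ s) hYs hc.le
      fun α g1 g2 => phi_fit hk hab hA h5 hc.le hβ hσ ?_ g2).trans ?_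
    · calc (1 : ℝ) ≤ Y ^ (h - 1) * Y := by rw [hMe]; exact hY1h
        _ ≤ |α| * Y := by gcongr
    have hlog : Real.log (Y ^ β / Y ^ (h - 1)) ≤ (1 + β) * Real.log Y := by
      rw [← Real.rpow_sub hY0, Real.log_rpow hY0]
      nlinarith
    rw [hMe, ← Real.rpow_mul hY0.le]
    have e2 : Y ^ σ / Y = Y ^ (σ - 1) := by rw [Real.rpow_sub_one hY0.ne']
    have hLF : LF a b A Y ≤ 96 * (b - a + 1) * A * (2 + Real.log A) * (4 + Real.log Y) := by
      unfold LF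
      have h6 : 2 + Real.log A + Real.log Y ≤ (2 + Real.log A) * (4 + Real.log Y) := by nlinarith
      calc 96 * (b - a + 1) * A * (2 + Real.log A + Real.log Y) ≤
          96 * (b - a + 1) * A * ((2 + Real.log A) * (4 + Real.log Y)) := by gcongr
        _ = _ := by ring
    have hLFs : LF a b A Y ^ s ≤ (96 * (b - a + 1) * A * (2 + Real.log A)) ^ s * (4 + Real.log Y) ^ s := by
      rw [← mul_pow]
      exact pow_le_pow_left₀ (by linarith) hLF s
    have hp1 : 0 < Y ^ (σ - 1) := Real.rpow_pos_of_pos hY0 _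
    have hp2 : 0 < Y ^ (h * -c) := Real.rpow_pos_of_pos hY0 _
    calc ((b - a) ^ s + 1) * LF a b A Y ^ s * Y ^ σ / Y * Y ^ (h * -c) * (2 * Real.log (Y ^ β / Y ^ (h - 1)))
        = ((b - a) ^ s + 1) * LF a b A Y ^ s * (Y ^ σ / Y) * Y ^ (h * -c) *
          (2 * Real.log (Y ^ β / Y ^ (h - 1))) := by ring
      _ ≤ ((b - a) ^ s + 1) * ((96 * (b - a + 1) * A * (2 + Real.log A)) ^ s * (4 + Real.log Y) ^ s) *
          Y ^ (σ - 1) * Y ^ (h * -c) * (2 * ((1 + β) * (4 + Real.log Y))) := by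
          rw [e2]
          have h13 : 0 ≤ Real.log (Y ^ β / Y ^ (h - 1)) := Real.log_nonneg ((one_le_div hα0).2 h12)
          have h7 : Real.log (Y ^ β / Y ^ (h - 1)) ≤ (1 + β) * (4 + Real.log Y) := by nlinarith
          gcongr
      _ = Y ^ (σ - 1) * Y ^ (h * -c) * (V * (4 + Real.log Y) ^ (s + 1)) := by
          rw [hV]
          ring
      _ ≤ Y ^ (σ - 1) * Y ^ (h * -c) * Y ^ κ := by gcongr
      _ = Y ^ (σ - 1 - h * c / 2) * Y ^ (-κ) := by
          rw [← Real.rpow_add hY0, ← Real.rpow_add hY0, ← Real.rpow_add hY0]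
          congr 1
          rw [hκ]
          ring
  obtain ⟨j₀, hj₀⟩ := eventually_atTop.1 (Yj_tendsto.eventually hev)
  refine bc (f := fun j => A1 (XF s k A (Yj j)) (vF s k) (Yj j ^ (h - 1)) (Yj j ^ β))
    (E := fun j => Yj j ^ (σ - 1 - h * c / 2) * Yj j ^ (-κ)) (θ := fun j => Yj j ^ (σ - 1 - h * c / 2)) (j₀ := j₀)
    (fun j => (mean_A1 _ _ a b _ _).1) (fun j l => A1_nonneg _ _ _ _ l) (fun j hj => hj₀ j hj)
    (fun j => Real.rpow_pos_of_pos (Yj_pos j) _) ?_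
  refine (Yj_summable hκ0).congr fun j => ?_
  have := Real.rpow_pos_of_pos (Yj_pos j) (σ - 1 - h * c / 2)
  rw [mul_div_cancel_left₀ _ this.ne']

end Pool.Agent.Q43.MW
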