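import Mathlib
import Pool.Agent.Q43.MW.Full

set_option autoImplicit false

/-!
# The volume of the body, and the distribution of the form
-/

namespace Pool.Agent.Q43.MW

open MeasureTheory Finset Filter

variable {s : ℕ}

/-- the form on the real space -/
noncomputable def Fk (k : ℕ) (l : Fin s → ℝ) (ξ : Fin s → ℝ) : ℝ := ∑ i, l i * |ξ i| ^ k

/-- the volume of the body -/
noncomputable def Vk (k : ℕ) (l : Fin s → ℝ) : ℝ := (volume {ξ : Fin s → ℝ | Fk k l ξ ≤ 1}).toReal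

lemma Fk_cont (k : ℕ) (l : Fin s → ℝ) : Continuous (Fk k l) := by
  unfold Fk
  fun_prop

lemma Fk_nonneg {k : ℕ} {l : Fin s → ℝ} (hl : ∀ i, 0 < l i) (ξ : Fin s → ℝ) : 0 ≤ Fk k l ξ :=
  sum_nonneg fun i _ => mul_nonneg (hl i).le (by positivity)

lemma Fk_meas (k : ℕ) (l : Fin s → ℝ) (T : ℝ) : MeasurableSet {ξ | Fk k l ξ ≤ T} :=
  (isClosed_le (Fk_cont k l) continuous_const).measurableSet

lemma coord_le {k : ℕ} {l : Fin s → ℝ} (hl : ∀ i, 0 < l i) (ξ : Fin s → ℝ) (i : Fin s) :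
    l i * |ξ i| ^ k ≤ Fk k l ξ :=
  single_le_sum (f := fun i => l i * |ξ i| ^ k) (fun i _ => mul_nonneg (hl i).le (by positivity)) (mem_univ i)

lemma vol_lt_top {k : ℕ} (hk : 1 ≤ k) {l : Fin s → ℝ} (hl : ∀ i, 0 < l i) (T : ℝ) :
    volume {ξ : Fin s → ℝ | Fk k l ξ ≤ T} < ⊤ := by
  have hsub : {ξ : Fin s → ℝ | Fk k l ξ ≤ T} ⊆
      Set.Icc (fun i => -(max 1 (T / l i))) (fun i => max 1 (T / l i)) := by
    intro ξ hξ
    simp only [Set.mem_ofPred_eq] at hξ
    have h : ∀ i, |ξ i| ≤ max 1 (T / l i) := by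
      intro i
      by_cases h1 : |ξ i| ≤ 1
      · exact h1.trans (le_max_left _ _)
      · push Not at h1
        refine le_trans ?_ (le_max_right _ _)
        rw [le_div_iff₀ (hl i)]
        have h2 := coord_le (k := k) hl ξ i
        have h3 : |ξ i| ≤ |ξ i| ^ k := by
          calc |ξ i| = |ξ i| ^ 1 := (pow_one _).symm
            _ ≤ |ξ i| ^ k := pow_le_pow_right₀ h1.le hk
        have h4 := hl i
        nlinarith
    rw [Set.mem_Icc]
    exact ⟨fun i => (abs_le.1 (h i)).1, fun i => (abs_le.1 (h i)).2⟩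
  refine lt_of_le_of_lt (measure_mono hsub) ?_
  exact isCompact_Icc.measure_lt_top

lemma vol_eq {k : ℕ} (hk : 1 ≤ k) {l : Fin s → ℝ} (hl : ∀ i, 0 < l i) {T : ℝ} (hT : 0 < T) :
    volume {ξ : Fin s → ℝ | Fk k l ξ ≤ T} = ENNReal.ofReal (Vk k l * T ^ ((s : ℝ) / k)) := by
  have hk0 : (k : ℝ) ≠ 0 := by exact_mod_cast (by omega : k ≠ 0)
  set r : ℝ := T ^ (-(k : ℝ)⁻¹) with hr
  have hr0 : 0 < r := Real.rpow_pos_of_pos hT _
  have hrk : r ^ k = T⁻¹ := by
    rw [hr, ← Real.rpow_natCast, ← Real.rpow_mul hT.le]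
    have e : -(k : ℝ)⁻¹ * k = -1 := by rw [neg_mul, inv_mul_cancel₀ hk0]
    rw [e, Real.rpow_neg_one]
  have hpre : {ξ : Fin s → ℝ | Fk k l ξ ≤ T} = (fun ξ : Fin s → ℝ => r • ξ) ⁻¹' {ξ | Fk k l ξ ≤ 1} := by
    ext ξ
    simp only [Set.mem_ofPred_eq, Set.mem_preimage]
    have e1 : Fk k l (r • ξ) = T⁻¹ * Fk k l ξ := by
      unfold Fk
      rw [mul_sum]
      refine sum_congr rfl fun i _ => ?_
      rw [Pi.smul_apply, smul_eq_mul, abs_mul, abs_of_pos hr0, mul_pow, hrk]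
      ring
    rw [e1, inv_mul_le_iff₀ hT, mul_one]
  rw [hpre, Measure.addHaar_preimage_smul volume hr0.ne', Module.finrank_fin_fun]
  have e2 : |(r ^ s)⁻¹| = T ^ ((s : ℝ) / k) := by
    rw [abs_of_pos (by positivity), hr, ← Real.rpow_natCast, ← Real.rpow_mul hT.le, ← Real.rpow_neg hT.le]
    congr 1
    field_simp
  rw [e2]
  unfold Vk
  rw [ENNReal.ofReal_mul ENNReal.toReal_nonneg, ENNReal.ofReal_toReal (vol_lt_top hk hl 1).ne, mul_comm]

lemma Vk_nonneg (k : ℕ) (l : Fin s → ℝ) : 0 ≤ Vk k l := ENNReal.toReal_nonneg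

/-- the distribution function -/
noncomputable def Nk (k : ℕ) (l : Fin s → ℝ) (T : ℝ) : ℝ := Vk k l * (max T 0) ^ ((s : ℝ) / k)

lemma vol_eq' {k : ℕ} (hk : 1 ≤ k) (hs : 1 ≤ s) {l : Fin s → ℝ} (hl : ∀ i, 0 < l i) (T : ℝ) :
    volume {ξ : Fin s → ℝ | Fk k l ξ ≤ T} = ENNReal.ofReal (Nk k l T) := by
  have hk0 : (0 : ℝ) < k := by exact_mod_cast (by omega : 0 < k)
  have hs0 : (0 : ℝ) < s := by exact_mod_cast (by omega : 0 < s)
  have hσ : 0 < (s : ℝ) / k := by positivity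
  rcases lt_or_ge 0 T with h | h
  · rw [vol_eq hk hl h]
    unfold Nk
    rw [max_eq_left h.le]
  · unfold Nk
    rw [max_eq_right h, Real.zero_rpow hσ.ne', mul_zero, ENNReal.ofReal_zero]
    have h1 : ∀ ε : ℝ, 0 < ε → volume {ξ : Fin s → ℝ | Fk k l ξ ≤ T} ≤
        ENNReal.ofReal (Vk k l * ε ^ ((s : ℝ) / k)) := by
      intro ε hε
      rw [← vol_eq hk hl hε]
      exact measure_mono fun ξ hξ => le_trans hξ (h.trans hε.le)
    have h2 : Tendsto (fun ε : ℝ => ENNReal.ofReal (Vk k l * ε ^ ((s : ℝ) / k))) (nhdsWithin 0 (Set.Ioi 0))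
        (nhds 0) := by
      have h3 : Tendsto (fun ε : ℝ => Vk k l * ε ^ ((s : ℝ) / k)) (nhds 0) (nhds (Vk k l * 0 ^ ((s : ℝ) / k))) :=
        (tendsto_const_nhds.mul ((Real.continuousAt_rpow_const 0 _ (Or.inr hσ.le)).tendsto))
      rw [Real.zero_rpow hσ.ne', mul_zero] at h3
      have h4 := (ENNReal.tendsto_ofReal h3).mono_left (nhdsWithin_le_nhds (s := Set.Ioi (0 : ℝ)))
      rwa [ENNReal.ofReal_zero] at h4
    have h5 : volume {ξ : Fin s → ℝ | Fk k l ξ ≤ T} ≤ 0 :=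
      ge_of_tendsto h2 (eventually_nhdsWithin_of_forall fun ε hε => h1 ε hε)
    exact le_antisymm h5 (by simp)

/-- the density of the distribution -/
noncomputable def dk (k : ℕ) (l : Fin s → ℝ) (t : ℝ) : ℝ := Vk k l * ((s : ℝ) / k) * t ^ ((s : ℝ) / k - 1)

lemma dk_int {k : ℕ} (hk : 1 ≤ k) (hs : 1 ≤ s) (l : Fin s → ℝ) {a b : ℝ} (ha : 0 ≤ a) (hab : a ≤ b) :
    ∫⁻ t in Set.Ioc a b, ENNReal.ofReal (dk k l t) =
      ENNReal.ofReal (Vk k l * b ^ ((s : ℝ) / k) - Vk k l * a ^ ((s : ℝ) / k)) := by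
  have hk0 : (0 : ℝ) < k := by exact_mod_cast (by omega : 0 < k)
  have hs0 : (0 : ℝ) < s := by exact_mod_cast (by omega : 0 < s)
  have hσ : 0 < (s : ℝ) / k := by positivity
  have hi : IntervalIntegrable (fun t : ℝ => t ^ ((s : ℝ) / k - 1)) volume a b :=
    intervalIntegral.intervalIntegrable_rpow' (by linarith)
  have hi2 : IntegrableOn (dk k l) (Set.Ioc a b) := by
    unfold dk
    exact ((intervalIntegrable_iff_integrableOn_Ioc_of_le hab).1 hi).const_mul _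
  have h0 : 0 ≤ᵐ[volume.restrict (Set.Ioc a b)] dk k l := by
    refine (ae_restrict_iff' measurableSet_Ioc).2 (Eventually.of_forall fun t ht => ?_)
    have : 0 < t := lt_of_le_of_lt ha ht.1
    have := Vk_nonneg k l
    simp only [Pi.zero_apply]
    unfold dk
    positivity
  rw [← ofReal_integral_eq_lintegral_ofReal hi2 h0, ← intervalIntegral.integral_of_le hab]
  unfold dk
  rw [intervalIntegral.integral_const_mul, integral_rpow (Or.inl (by linarith))]
  congr 1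
  have e : (s : ℝ) / k - 1 + 1 = (s : ℝ) / k := by ring
  rw [e]
  field_simp

/-- **The distribution of the form.** -/
lemma map_eq {k : ℕ} (hk : 1 ≤ k) (hs : 1 ≤ s) {l : Fin s → ℝ} (hl : ∀ i, 0 < l i) :
    Measure.map (Fk k l) volume =
      (volume.restrict (Set.Ioi (0 : ℝ))).withDensity fun t => ENNReal.ofReal (dk k l t) := by
  have hk0 : (0 : ℝ) < k := by exact_mod_cast (by omega : 0 < k)
  have hs0 : (0 : ℝ) < s := by exact_mod_cast (by omega : 0 < s)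
  have hσ : 0 < (s : ℝ) / k := by positivity
  have hm := (Fk_cont k l).measurable
  have hloc : IsLocallyFiniteMeasure (Measure.map (Fk k l) (volume : Measure (Fin s → ℝ))) := by
    refine ⟨fun x => ⟨Set.Iio (x + 1), Iio_mem_nhds (by linarith), ?_⟩⟩
    rw [Measure.map_apply hm measurableSet_Iio]
    have hsub : Fk k l ⁻¹' Set.Iio (x + 1) ⊆ {ξ | Fk k l ξ ≤ x + 1} := by
      intro ξ hξ
      rw [Set.mem_preimage, Set.mem_Iio] at hξ
      exact hξ.le
    exact lt_of_le_of_lt (measure_mono hsub) (vol_lt_top hk hl (x + 1))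
  refine Measure.ext_of_Ioc _ _ fun a b hab => ?_
  rw [Measure.map_apply hm measurableSet_Ioc]
  have e1 : Fk k l ⁻¹' Set.Ioc a b = {ξ | Fk k l ξ ≤ b} \ {ξ | Fk k l ξ ≤ a} := by
    ext ξ
    simp only [Set.mem_preimage, Set.mem_Ioc, Set.mem_sdiff, Set.mem_ofPred_eq, not_le]
    exact and_comm
  have hsub : {ξ | Fk k l ξ ≤ a} ⊆ {ξ | Fk k l ξ ≤ b} := by
    intro ξ hξ
    simp only [Set.mem_ofPred_eq] at hξ ⊢
    linarith
  rw [e1, measure_sdiff hsub (Fk_meas k l a).nullMeasurableSet (vol_lt_top hk hl a).ne,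
    vol_eq' hk hs hl, vol_eq' hk hs hl, withDensity_apply _ measurableSet_Ioc, Measure.restrict_restrict
    measurableSet_Ioc]
  have e2 : Set.Ioc a b ∩ Set.Ioi 0 = Set.Ioc (max a 0) (max b 0) := by
    ext t
    simp only [Set.mem_inter_iff, Set.mem_Ioc, Set.mem_Ioi, max_lt_iff, le_max_iff]
    constructor
    · rintro ⟨⟨h1, h2⟩, h3⟩
      exact ⟨⟨h1, h3⟩, Or.inl h2⟩
    · rintro ⟨⟨h1, h3⟩, h2⟩
      exact ⟨⟨h1, h2.resolve_right (by linarith)⟩, h3⟩
  rw [e2, dk_int hk hs l (le_max_right _ _) (max_le_max_right 0 hab.le), ← ENNReal.ofReal_sub]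
  · rfl
  · unfold Nk
    have := Vk_nonneg k l
    positivity

/-- integrals of functions of the form -/
lemma int_form {k : ℕ} (hk : 1 ≤ k) (hs : 1 ≤ s) {l : Fin s → ℝ} (hl : ∀ i, 0 < l i) {φ : ℝ → ℝ}
    (hφ : Continuous φ) (T : ℝ) :
    ∫ ξ in {ξ | Fk k l ξ ≤ T}, φ (Fk k l ξ) = ∫ t in Set.Ioc 0 T, dk k l t * φ t := by
  have hm := (Fk_cont k l).measurable
  have h1 := setIntegral_map (μ := (volume : Measure (Fin s → ℝ))) (g := Fk k l) (f := φ) (s := Set.Iic T)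
    measurableSet_Iic hφ.aestronglyMeasurable hm.aemeasurable
  have e1 : Fk k l ⁻¹' Set.Iic T = {ξ | Fk k l ξ ≤ T} := rfl
  rw [e1] at h1
  have hdm : Measurable fun t => ENNReal.ofReal (dk k l t) := by
    unfold dk
    fun_prop
  rw [← h1, map_eq hk hs hl, restrict_withDensity measurableSet_Iic, Measure.restrict_restrict measurableSet_Iic,
    integral_withDensity_eq_integral_toReal_smul hdm (Eventually.of_forall fun t => ENNReal.ofReal_lt_top)]
  have e2 : Set.Iic T ∩ Set.Ioi 0 = Set.Ioc 0 T := by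
    ext t
    simp only [Set.mem_inter_iff, Set.mem_Iic, Set.mem_Ioi, Set.mem_Ioc]
    exact and_comm
  rw [e2]
  refine setIntegral_congr_fun measurableSet_Ioc fun t ht => ?_
  rw [ENNReal.toReal_ofReal, smul_eq_mul]
  have : 0 < t := ht.1
  have := Vk_nonneg k l
  unfold dk
  positivity

end Pool.Agent.Q43.MW
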