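import Mathlib
import Pool.Agent.Q43.MW.Vol

set_option autoImplicit false

/-!
# Cells, and the count at a large scale with an asymptotic formula
-/

namespace Pool.Agent.Q43.MW

open MeasureTheory Finset Filter

variable {s : ℕ}

/-- the integers in the order `0, -1, 1, -2, 2, ...` -/
def dz (x : ℕ) : ℤ := if x % 2 = 0 then ((x / 2 : ℕ) : ℤ) else -(((x + 1) / 2 : ℕ) : ℤ)

lemma dz_inj {x z : ℕ} (h : dz x = dz z) : x = z := by
  unfold dz at h
  split_ifs at h <;> omega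

lemma dz_surj {P : ℕ} {m : ℤ} (h1 : -(P : ℤ) ≤ m) (h2 : m ≤ P) : ∃ x ∈ range (2 * P + 1), dz x = m := by
  rcases le_or_gt 0 m with h | h
  · refine ⟨2 * m.toNat, ?_, ?_⟩
    · rw [mem_range]; omega
    · unfold dz
      rw [if_pos (by omega)]
      omega
  · refine ⟨2 * (-m).toNat - 1, ?_, ?_⟩
    · rw [mem_range]; omega
    · unfold dz
      rw [if_neg (by omega)]
      omega

lemma dz_abs (x : ℕ) : |((dz x : ℤ) : ℝ)| = (((x + 1) / 2 : ℕ) : ℝ) := by
  unfold dz
  split_ifs with h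
  · have : x / 2 = (x + 1) / 2 := by omega
    rw [this, Int.cast_natCast]
    exact abs_of_nonneg (by positivity)
  · push_cast
    rw [abs_neg]
    exact abs_of_nonneg (by positivity)

lemma vz_eq (k x : ℕ) : vz k x = |((dz x : ℤ) : ℝ)| ^ k := by
  rw [dz_abs]
  rfl

lemma dz_le {P x : ℕ} (hx : x ∈ range (2 * P + 1)) : |((dz x : ℤ) : ℝ)| ≤ P := by
  rw [dz_abs]
  rw [mem_range] at hx
  have : (x + 1) / 2 ≤ P := by omega
  exact_mod_cast this

/-- the cell of a point -/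
def cell (x : Fin s → ℕ) : Set (Fin s → ℝ) :=
  Set.univ.pi fun i => Set.Ioc (((dz (x i) : ℤ) : ℝ) - 1 / 2) (((dz (x i) : ℤ) : ℝ) + 1 / 2)

lemma cell_vol (x : Fin s → ℕ) : (volume : Measure (Fin s → ℝ)).real (cell x) = 1 := by
  unfold cell
  rw [measureReal_def, Real.volume_pi_Ioc]
  have : ∀ i : Fin s, ENNReal.ofReal (((dz (x i) : ℤ) : ℝ) + 1 / 2 - (((dz (x i) : ℤ) : ℝ) - 1 / 2)) = 1 := by
    intro i
    rw [show ((dz (x i) : ℤ) : ℝ) + 1 / 2 - (((dz (x i) : ℤ) : ℝ) - 1 / 2) = 1 by ring, ENNReal.ofReal_one]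
  simp only [this, prod_const_one, ENNReal.toReal_one]

lemma cell_meas (x : Fin s → ℕ) : MeasurableSet (cell x) := MeasurableSet.univ_pi fun _ => measurableSet_Ioc

lemma cell_fin (x : Fin s → ℕ) : volume (cell x) < ⊤ := by
  unfold cell
  rw [Real.volume_pi_Ioc]
  exact ENNReal.prod_lt_top fun i _ => ENNReal.ofReal_lt_top

lemma cell_disj {x z : Fin s → ℕ} (h : x ≠ z) : Disjoint (cell x) (cell z) := by
  rw [Set.disjoint_left]
  intro ξ hx hz
  refine h (funext fun i => dz_inj ?_)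
  have h1 := hx i (Set.mem_univ i)
  have h2 := hz i (Set.mem_univ i)
  rw [Set.mem_Ioc] at h1 h2
  have h3 : ((dz (x i) : ℤ) : ℝ) < ((dz (z i) : ℤ) : ℝ) + 1 := by linarith [h1.1, h2.2]
  have h4 : ((dz (z i) : ℤ) : ℝ) < ((dz (x i) : ℤ) : ℝ) + 1 := by linarith [h2.1, h1.2]
  have h5 : dz (x i) < dz (z i) + 1 := by exact_mod_cast h3
  have h6 : dz (z i) < dz (x i) + 1 := by exact_mod_cast h4
  omega

lemma cell_cover {P : ℕ} {ξ : Fin s → ℝ} (hξ : ∀ i, |ξ i| ≤ P) :
    ∃ x ∈ Fintype.piFinset (fun _ : Fin s => range (2 * P + 1)), ξ ∈ cell x := by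
  have h : ∀ i, ∃ n ∈ range (2 * P + 1), dz n = ⌈ξ i - 1 / 2⌉ := by
    intro i
    have h1 := abs_le.1 (hξ i)
    have h2 := Int.le_ceil (ξ i - 1 / 2)
    have h3 := Int.ceil_lt_add_one (ξ i - 1 / 2)
    refine dz_surj ?_ ?_
    · have : (-(P : ℤ) : ℝ) < (⌈ξ i - 1 / 2⌉ : ℝ) + 1 := by
        push_cast
        linarith
      have : -(P : ℤ) < ⌈ξ i - 1 / 2⌉ + 1 := by exact_mod_cast this
      omega
    · have : (⌈ξ i - 1 / 2⌉ : ℝ) < ((P : ℤ) : ℝ) + 1 := by
        push_cast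
        linarith
      have : ⌈ξ i - 1 / 2⌉ < (P : ℤ) + 1 := by exact_mod_cast this
      omega
  choose f hf1 hf2 using h
  refine ⟨f, ?_, ?_⟩
  · rw [Fintype.mem_piFinset]
    exact hf1
  · intro i _
    rw [Set.mem_Ioc, hf2 i]
    have h2 := Int.le_ceil (ξ i - 1 / 2)
    have h3 := Int.ceil_lt_add_one (ξ i - 1 / 2)
    constructor <;> linarith

/-- the form on a cell -/
lemma cell_form {k P : ℕ} {b : ℝ} {l : Fin s → ℝ} (hl : ∀ i, 0 < l i ∧ l i ≤ b)
    {x : Fin s → ℕ} (hx : x ∈ Fintype.piFinset (fun _ : Fin s => range (2 * P + 1))) {ξ : Fin s → ℝ}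
    (hξ : ξ ∈ cell x) :
    |form (vF s k) l x - Fk k l ξ| ≤ s * (b * (k * ((P : ℝ) + 1) ^ (k - 1))) := by
  unfold form Fk
  rw [← sum_sub_distrib]
  refine (abs_sum_le_sum_abs _ _).trans ?_
  have h : ∀ i : Fin s, |l i * vF s k i (x i) - l i * |ξ i| ^ k| ≤ b * (k * ((P : ℝ) + 1) ^ (k - 1)) := by
    intro i
    rw [← mul_sub, abs_mul, abs_of_pos (hl i).1]
    refine mul_le_mul (hl i).2 ?_ (abs_nonneg _) ((hl i).1.le.trans (hl i).2)
    unfold vF
    rw [vz_eq]
    refine (abs_pow_sub_pow_le _ _ _).trans ?_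
    have h1 := hξ i (Set.mem_univ i)
    rw [Set.mem_Ioc] at h1
    have h2 := dz_le (Fintype.mem_piFinset.1 hx i)
    have h3 : |ξ i - ((dz (x i) : ℤ) : ℝ)| ≤ 1 / 2 := by
      rw [abs_le]
      constructor <;> linarith [h1.1, h1.2]
    have h4 : |(|((dz (x i) : ℤ) : ℝ)| - |ξ i|)| ≤ 1 := by
      refine (abs_abs_sub_abs_le_abs_sub _ _).trans ?_
      rw [abs_sub_comm]
      linarith
    have h5 : |ξ i| ≤ P + 1 := by
      have : |ξ i| ≤ |ξ i - ((dz (x i) : ℤ) : ℝ)| + |((dz (x i) : ℤ) : ℝ)| := by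
        have := abs_add_le (ξ i - ((dz (x i) : ℤ) : ℝ)) ((dz (x i) : ℤ) : ℝ)
        simpa using this
      linarith
    have h6 : max |(|((dz (x i) : ℤ) : ℝ)|)| |(|ξ i|)| ≤ P + 1 := by
      rw [abs_abs, abs_abs]
      exact max_le (by linarith) h5
    calc |(|((dz (x i) : ℤ) : ℝ)| - |ξ i|)| * k * max |(|((dz (x i) : ℤ) : ℝ)|)| |(|ξ i|)| ^ (k - 1)
        ≤ 1 * k * ((P : ℝ) + 1) ^ (k - 1) := by gcongr
      _ = _ := by ring
  calc ∑ i, |l i * vF s k i (x i) - l i * |ξ i| ^ k| ≤ ∑ _i : Fin s, b * (k * ((P : ℝ) + 1) ^ (k - 1)) :=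
        sum_le_sum fun i _ => h i
    _ = _ := by rw [sum_const, card_univ, Fintype.card_fin, nsmul_eq_mul]

/-- the Gaussian is Lipschitz -/
lemma gauss_lip (u v : ℝ) : |Real.exp (-Real.pi * u ^ 2) - Real.exp (-Real.pi * v ^ 2)| ≤ 4 * |u - v| := by
  have h := Convex.norm_image_sub_le_of_norm_hasDerivWithin_le (𝕜 := ℝ) (s := Set.univ)
    (f := fun u : ℝ => Real.exp (-Real.pi * u ^ 2))
    (f' := fun u : ℝ => Real.exp (-Real.pi * u ^ 2) * (-Real.pi * (2 * u))) (C := 4)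
    (fun x _ => by
      have h1 : HasDerivAt (fun u : ℝ => -Real.pi * u ^ 2) (-Real.pi * (2 * x)) x := by
        have := (hasDerivAt_pow 2 x).const_mul (-Real.pi)
        simpa using this
      exact (h1.exp).hasDerivWithinAt)
    (fun x _ => by
      rw [norm_mul, Real.norm_of_nonneg (Real.exp_pos _).le, Real.norm_eq_abs]
      have e1 : |(-Real.pi * (2 * x))| = 2 * Real.pi * |x| := by
        rw [abs_mul, abs_neg, abs_of_pos Real.pi_pos, abs_mul, abs_two]
        ring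
      have e2 : -Real.pi * x ^ 2 = -(Real.pi * |x| ^ 2) := by rw [sq_abs]; ring
      rw [e1, e2, Real.exp_neg, inv_mul_le_iff₀ (Real.exp_pos _)]
      have h2 := Real.add_one_le_exp (Real.pi * |x| ^ 2)
      have h3 := Real.pi_gt_three
      have h4 := Real.pi_lt_four
      nlinarith [sq_nonneg (|x| - 1 / 4), mul_nonneg Real.pi_pos.le (sq_nonneg (|x| - 1 / 4))])
    convex_univ (Set.mem_univ v) (Set.mem_univ u)
  simpa [Real.norm_eq_abs] using h

/-- **The count at a large scale as an integral.** -/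
lemma sum_int {k P : ℕ} (hk : 1 ≤ k) {a b H T y : ℝ} (ha : 0 < a) (hH : 0 < H) {l : Fin s → ℝ}
    (hl : ∀ i, a < l i ∧ l i ≤ b) (hP : T / a ≤ (P : ℝ) ^ k) (hyT : y < T) :
    |RR (fun _ : Fin s => range (2 * P + 1)) (vF s k) l H y -
        ∫ ξ in {ξ | Fk k l ξ ≤ T}, Real.exp (-Real.pi * ((Fk k l ξ - y) / H) ^ 2)| ≤
      NN (fun _ : Fin s => range (2 * P + 1)) *
        (4 * (s * (b * (k * ((P : ℝ) + 1) ^ (k - 1)))) / H + Real.exp (-Real.pi * ((T - y) / H) ^ 2)) := by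
  set B := Fintype.piFinset (fun _ : Fin s => range (2 * P + 1)) with hB
  set φ : ℝ → ℝ := fun t => Real.exp (-Real.pi * ((t - y) / H) ^ 2) with hφ
  have hφc : Continuous φ := by rw [hφ]; fun_prop
  have hφ0 : ∀ t, 0 ≤ φ t := fun t => (Real.exp_pos _).le
  have hφ1 : ∀ t, φ t ≤ 1 := by
    intro t
    rw [hφ]
    simp only
    rw [Real.exp_le_one_iff]
    have := Real.pi_pos
    nlinarith [sq_nonneg ((t - y) / H)]
  have hl' : ∀ i, 0 < l i ∧ l i ≤ b := fun i => ⟨ha.trans (hl i).1, (hl i).2⟩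
  set E : ℝ := s * (b * (k * ((P : ℝ) + 1) ^ (k - 1))) with hE
  set U : Set (Fin s → ℝ) := ⋃ x ∈ B, cell x with hU
  have hUm : MeasurableSet U := B.measurableSet_biUnion fun x _ => cell_meas x
  have hint : ∀ x, IntegrableOn (fun ξ => φ (Fk k l ξ)) (cell x) := by
    intro x
    have hfin : IsFiniteMeasure (volume.restrict (cell x)) := isFiniteMeasure_restrict.2 (cell_fin x).ne
    refine (integrable_const (1 : ℝ)).mono' (hφc.comp (Fk_cont k l)).aestronglyMeasurable
      (Eventually.of_forall fun ξ => ?_)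
    rw [Real.norm_of_nonneg (hφ0 _)]
    exact hφ1 _
  have hsum : ∫ ξ in U, φ (Fk k l ξ) = ∑ x ∈ B, ∫ ξ in cell x, φ (Fk k l ξ) :=
    integral_biUnion_finset B (fun x _ => cell_meas x) (fun x _ z _ h => cell_disj h) fun x _ => hint x
  have hUfin : volume U < ⊤ := by
    refine lt_of_le_of_lt (measure_biUnion_finset_le B _) ?_
    exact ENNReal.sum_lt_top.2 fun x _ => cell_fin x
  have hUvol : volume.real U = NN (fun _ : Fin s => range (2 * P + 1)) := by
    rw [measureReal_def, hU, measure_biUnion_finset (fun x _ z _ h => cell_disj h) fun x _ => cell_meas x,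
      ENNReal.toReal_sum fun x _ => (cell_fin x).ne]
    have : ∀ x ∈ B, (volume (cell x)).toReal = 1 := fun x _ => cell_vol x
    rw [sum_congr rfl this, sum_const, nsmul_eq_mul, mul_one, hB, Fintype.card_piFinset]
    unfold NN
    push_cast
    rfl
  have hUint : IntegrableOn (fun ξ => φ (Fk k l ξ)) U := by
    have hfin : IsFiniteMeasure (volume.restrict U) := isFiniteMeasure_restrict.2 hUfin.ne
    refine (integrable_const (1 : ℝ)).mono' (hφc.comp (Fk_cont k l)).aestronglyMeasurable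
      (Eventually.of_forall fun ξ => ?_)
    rw [Real.norm_of_nonneg (hφ0 _)]
    exact hφ1 _
  -- the sum and the integral over the union
  have h1 : |RR (fun _ : Fin s => range (2 * P + 1)) (vF s k) l H y - ∫ ξ in U, φ (Fk k l ξ)| ≤
      NN (fun _ : Fin s => range (2 * P + 1)) * (4 * E / H) := by
    rw [hsum]
    have e1 : RR (fun _ : Fin s => range (2 * P + 1)) (vF s k) l H y =
        ∑ x ∈ B, ∫ _ξ in cell x, φ (form (vF s k) l x) := by
      unfold RR
      refine sum_congr rfl fun x _ => ?_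
      rw [setIntegral_const, cell_vol, one_smul]
    rw [e1, ← sum_sub_distrib]
    refine (abs_sum_le_sum_abs _ _).trans ?_
    have h2 : ∀ x ∈ B, |(∫ _ξ in cell x, φ (form (vF s k) l x)) - ∫ ξ in cell x, φ (Fk k l ξ)| ≤ 4 * E / H := by
      intro x hx
      have hfin : IsFiniteMeasure (volume.restrict (cell x)) := isFiniteMeasure_restrict.2 (cell_fin x).ne
      rw [← integral_sub (integrable_const _) (hint x)]
      have h3 : ∀ ξ ∈ cell x, ‖φ (form (vF s k) l x) - φ (Fk k l ξ)‖ ≤ 4 * E / H := by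
        intro ξ hξ
        rw [Real.norm_eq_abs, hφ]
        simp only
        refine (gauss_lip _ _).trans ?_
        rw [← sub_div, abs_div, abs_of_pos hH, mul_div_assoc]
        have h4 := cell_form (k := k) hl' hx hξ
        have e2 : form (vF s k) l x - y - (Fk k l ξ - y) = form (vF s k) l x - Fk k l ξ := by ring
        rw [e2]
        gcongr
      have h5 := norm_setIntegral_le_of_norm_le_const (cell_fin x) h3
      rw [cell_vol, mul_one, Real.norm_eq_abs] at h5
      exact h5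
    refine (sum_le_sum h2).trans (le_of_eq ?_)
    rw [sum_const, nsmul_eq_mul, hB, Fintype.card_piFinset]
    unfold NN
    push_cast
    rfl
  -- the union and the body
  have hsub : {ξ | Fk k l ξ ≤ T} ⊆ U := by
    intro ξ hξ
    simp only [Set.mem_ofPred_eq] at hξ
    have h3 : ∀ i, |ξ i| ≤ P := by
      intro i
      have h4 := coord_le (k := k) (fun i => (hl' i).1) ξ i
      have h5 : |ξ i| ^ k ≤ (P : ℝ) ^ k := by
        refine le_trans ?_ hP
        rw [le_div_iff₀ ha]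
        have : 0 ≤ |ξ i| ^ k := by positivity
        have := (hl i).1
        nlinarith
      exact le_of_pow_le_pow_left₀ (by omega) (Nat.cast_nonneg P) h5
    obtain ⟨x, hx1, hx2⟩ := cell_cover h3
    exact Set.mem_biUnion hx1 hx2
  have h6 : |(∫ ξ in U, φ (Fk k l ξ)) - ∫ ξ in {ξ | Fk k l ξ ≤ T}, φ (Fk k l ξ)| ≤
      NN (fun _ : Fin s => range (2 * P + 1)) * Real.exp (-Real.pi * ((T - y) / H) ^ 2) := by
    have e3 : (∫ ξ in U, φ (Fk k l ξ)) - ∫ ξ in {ξ | Fk k l ξ ≤ T}, φ (Fk k l ξ) =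
        ∫ ξ in U \ {ξ | Fk k l ξ ≤ T}, φ (Fk k l ξ) := by
      rw [setIntegral_sdiff (Fk_meas k l T) hUint hsub]
    rw [e3]
    have hDfin : volume (U \ {ξ | Fk k l ξ ≤ T}) < ⊤ := lt_of_le_of_lt (measure_mono Set.sdiff_subset) hUfin
    have h7 := norm_setIntegral_le_of_norm_le_const (C := Real.exp (-Real.pi * ((T - y) / H) ^ 2)) hDfin
      (f := fun ξ => φ (Fk k l ξ)) (fun ξ hξ => by
        rw [Real.norm_of_nonneg (hφ0 _), hφ]
        simp only
        refine Real.exp_le_exp.2 ?_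
        have h8 : T < Fk k l ξ := by
          have := hξ.2
          simpa using this
        have h9 : ((T - y) / H) ^ 2 ≤ ((Fk k l ξ - y) / H) ^ 2 := by
          have : 0 ≤ T - y := by linarith
          have : (T - y) / H ≤ (Fk k l ξ - y) / H := by gcongr
          have : 0 ≤ (T - y) / H := by positivity
          gcongr
        have := Real.pi_pos
        nlinarith)
    rw [Real.norm_eq_abs] at h7
    refine h7.trans ?_
    rw [mul_comm]
    refine mul_le_mul_of_nonneg_right ?_ (Real.exp_pos _).le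
    rw [← hUvol]
    exact measureReal_mono Set.sdiff_subset hUfin.ne
  calc _ = |(RR (fun _ : Fin s => range (2 * P + 1)) (vF s k) l H y - ∫ ξ in U, φ (Fk k l ξ)) +
        ((∫ ξ in U, φ (Fk k l ξ)) - ∫ ξ in {ξ | Fk k l ξ ≤ T}, φ (Fk k l ξ))| := by congr 1; ring
    _ ≤ _ := (abs_add_le _ _).trans (by rw [mul_add]; exact add_le_add h1 h6)

end Pool.Agent.Q43.MW
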