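import Mathlib
import Pool.Agent.Q43.MW.Cell

set_option autoImplicit false

/-!
# The asymptotic formula for the smoothed counts
-/

namespace Pool.Agent.Q43.MW

open MeasureTheory Finset Filter

variable {s : ℕ}

/-- translated Gaussians -/
lemma gsh {c : ℝ} (hc : 0 < c) (y : ℝ) :
    Integrable (fun t : ℝ => Real.exp (-Real.pi * ((t - y) / c) ^ 2)) ∧
      ∫ t : ℝ, Real.exp (-Real.pi * ((t - y) / c) ^ 2) = c := by
  have hi : 0 < 1 / c := by positivity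
  have e : ∀ t : ℝ, Real.exp (-Real.pi * (t / c) ^ 2) = Real.exp (-Real.pi * (1 / c * t) ^ 2) := by
    intro t
    congr 3
    ring
  constructor
  · have h1 : Integrable fun t : ℝ => Real.exp (-Real.pi * (t / c) ^ 2) := by
      refine (gauss_integrable hi).congr (Eventually.of_forall fun t => ?_)
      simp only
      rw [e]
    exact h1.comp_sub_right y
  · rw [integral_sub_right_eq_self (fun t : ℝ => Real.exp (-Real.pi * (t / c) ^ 2)) y]
    simp only [e]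
    rw [gauss_int hi]
    field_simp

lemma gtail {c d u : ℝ} (hc : 0 < c) (hd : 0 ≤ d) (h : d ≤ |u|) :
    Real.exp (-Real.pi * (u / c) ^ 2) ≤
      Real.exp (-(3 / 4 * Real.pi) * (d / c) ^ 2) * Real.exp (-Real.pi * (u / (2 * c)) ^ 2) := by
  rw [← Real.exp_add]
  refine Real.exp_le_exp.2 ?_
  have h1 : (d / c) ^ 2 ≤ (u / c) ^ 2 := by
    rw [← sq_abs (u / c), abs_div, abs_of_pos hc]
    gcongr
  have h2 : (u / (2 * c)) ^ 2 = (u / c) ^ 2 / 4 := by field_simp; ring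
  rw [h2]
  have := Real.pi_pos
  nlinarith

lemma gfirst {c u : ℝ} (hc : 0 < c) :
    |u| * Real.exp (-Real.pi * (u / c) ^ 2) ≤ c * Real.exp (-Real.pi * (u / (2 * c)) ^ 2) := by
  have h2 : -Real.pi * (u / c) ^ 2 = -(3 / 4 * Real.pi * (u / c) ^ 2) + -Real.pi * (u / (2 * c)) ^ 2 := by
    field_simp
    ring
  rw [h2, Real.exp_add, ← mul_assoc]
  refine mul_le_mul_of_nonneg_right ?_ (Real.exp_pos _).le
  rw [Real.exp_neg, ← div_eq_mul_inv, div_le_iff₀ (Real.exp_pos _)]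
  have h3 := Real.add_one_le_exp (3 / 4 * Real.pi * (u / c) ^ 2)
  have h4 : |u| = c * |u / c| := by
    rw [abs_div, abs_of_pos hc]
    field_simp
  rw [h4]
  have h5 : |u / c| ≤ Real.exp (3 / 4 * Real.pi * (u / c) ^ 2) := by
    rw [← sq_abs] at h3 ⊢
    have h6 := abs_nonneg (u / c)
    have h7 := Real.pi_gt_three
    nlinarith [sq_nonneg (|u / c| - 1 / 2), mul_nonneg (by linarith : 0 ≤ Real.pi - 3) (sq_nonneg |u / c|)]
  exact mul_le_mul_of_nonneg_left h5 hc.le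

lemma rpow_lip {p M t y : ℝ} (hp : 1 ≤ p) (ht0 : 0 ≤ t) (htM : t ≤ M) (hy0 : 0 ≤ y) (hyM : y ≤ M) :
    |t ^ p - y ^ p| ≤ p * M ^ (p - 1) * |t - y| := by
  have h := Convex.norm_image_sub_le_of_norm_hasDerivWithin_le (𝕜 := ℝ) (s := Set.Icc 0 M)
    (f := fun u : ℝ => u ^ p) (f' := fun u : ℝ => p * u ^ (p - 1)) (C := p * M ^ (p - 1))
    (fun x _ => (Real.hasDerivAt_rpow_const (Or.inr hp)).hasDerivWithinAt)
    (fun x hx => by
      have h1 : 0 ≤ x ^ (p - 1) := Real.rpow_nonneg hx.1 _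
      rw [Real.norm_of_nonneg (by positivity)]
      have h2 : x ^ (p - 1) ≤ M ^ (p - 1) := Real.rpow_le_rpow hx.1 hx.2 (by linarith)
      gcongr)
    (convex_Icc 0 M) (⟨hy0, hyM⟩ : y ∈ Set.Icc 0 M) (⟨ht0, htM⟩ : t ∈ Set.Icc 0 M)
  simpa [Real.norm_eq_abs] using h

/-- the integral over the line -/
lemma one_dim {p Y H y : ℝ} (hp : 1 ≤ p) (hY : 0 < Y) (hH : 0 < H) (hy1 : Y / 2 ≤ y) (hy2 : y ≤ 3 * Y) :
    |(∫ t in Set.Ioc 0 (4 * Y), t ^ p * Real.exp (-Real.pi * ((t - y) / H) ^ 2)) - H * y ^ p| ≤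
      p * (4 * Y) ^ (p - 1) * (2 * H ^ 2) + y ^ p * (2 * H * Real.exp (-(3 / 4 * Real.pi) * (Y / 2 / H) ^ 2)) := by
  have hy0 : 0 < y := by linarith
  set φ : ℝ → ℝ := fun t => Real.exp (-Real.pi * ((t - y) / H) ^ 2) with hφ
  have hφi : Integrable φ := (gsh hH y).1
  have hφI : ∫ t, φ t = H := (gsh hH y).2
  have hψ := gsh (c := 2 * H) (by positivity) y
  have hφ0 : ∀ t, 0 ≤ φ t := fun t => (Real.exp_pos _).le
  have hyp : 0 < y ^ p := Real.rpow_pos_of_pos hy0 _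
  have hI1 : IntegrableOn (fun t => t ^ p * φ t) (Set.Ioc 0 (4 * Y)) := by
    refine Integrable.bdd_mul (c := (4 * Y) ^ p) hφi.integrableOn ?_ ?_
    · exact (Real.continuous_rpow_const (by linarith)).aestronglyMeasurable
    · refine (ae_restrict_iff' measurableSet_Ioc).2 (Eventually.of_forall fun t ht => ?_)
      rw [Real.norm_of_nonneg (Real.rpow_nonneg ht.1.le _)]
      exact Real.rpow_le_rpow ht.1.le ht.2 (by linarith)
  have hI2 : IntegrableOn (fun t => y ^ p * φ t) (Set.Ioc 0 (4 * Y)) := (hφi.const_mul _).integrableOn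
  have h1 : |(∫ t in Set.Ioc 0 (4 * Y), t ^ p * φ t) - ∫ t in Set.Ioc 0 (4 * Y), y ^ p * φ t| ≤
      p * (4 * Y) ^ (p - 1) * (2 * H ^ 2) := by
    rw [← integral_sub hI1 hI2, ← Real.norm_eq_abs]
    refine (norm_integral_le_integral_norm _).trans ?_
    have h2 : ∫ t in Set.Ioc 0 (4 * Y), ‖t ^ p * φ t - y ^ p * φ t‖ ≤
        ∫ t in Set.Ioc 0 (4 * Y), p * (4 * Y) ^ (p - 1) * (H * Real.exp (-Real.pi * ((t - y) / (2 * H)) ^ 2)) := by
      refine setIntegral_mono_on (hI1.sub hI2).norm ((hψ.1.const_mul _).const_mul _).integrableOn measurableSet_Ioc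
        fun t ht => ?_
      rw [← sub_mul, norm_mul, Real.norm_of_nonneg (hφ0 t), Real.norm_eq_abs]
      have h3 := rpow_lip (M := 4 * Y) hp ht.1.le ht.2 hy0.le (by linarith)
      have h4 := gfirst (u := t - y) hH
      calc |t ^ p - y ^ p| * φ t ≤ p * (4 * Y) ^ (p - 1) * |t - y| * φ t := by
            have := hφ0 t
            gcongr
        _ = p * (4 * Y) ^ (p - 1) * (|t - y| * φ t) := by ring
        _ ≤ _ := by
            have : 0 ≤ (4 * Y) ^ (p - 1) := by positivity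
            gcongr
    refine h2.trans ?_
    have h5 : ∫ t in Set.Ioc 0 (4 * Y), p * (4 * Y) ^ (p - 1) * (H * Real.exp (-Real.pi * ((t - y) / (2 * H)) ^ 2)) ≤
        ∫ t : ℝ, p * (4 * Y) ^ (p - 1) * (H * Real.exp (-Real.pi * ((t - y) / (2 * H)) ^ 2)) :=
      setIntegral_le_integral ((hψ.1.const_mul _).const_mul _) (Eventually.of_forall fun t => by
        have : 0 ≤ (4 * Y) ^ (p - 1) := by positivity
        simp only [Pi.zero_apply]
        positivity)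
    refine h5.trans (le_of_eq ?_)
    rw [integral_const_mul, integral_const_mul, hψ.2]
    ring
  have h6 : |(∫ t in Set.Ioc 0 (4 * Y), y ^ p * φ t) - H * y ^ p| ≤
      y ^ p * (2 * H * Real.exp (-(3 / 4 * Real.pi) * (Y / 2 / H) ^ 2)) := by
    have e1 : H * y ^ p = ∫ t, y ^ p * φ t := by rw [integral_const_mul, hφI]; ring
    have e2 := integral_add_compl (measurableSet_Ioc (a := (0 : ℝ)) (b := 4 * Y)) (hφi.const_mul (y ^ p))
    rw [e1, ← e2, sub_add_cancel_left, abs_neg, ← Real.norm_eq_abs]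
    refine (norm_integral_le_integral_norm _).trans ?_
    have h7 : ∫ t in (Set.Ioc 0 (4 * Y))ᶜ, ‖y ^ p * φ t‖ ≤ ∫ t in (Set.Ioc 0 (4 * Y))ᶜ,
        y ^ p * (Real.exp (-(3 / 4 * Real.pi) * (Y / 2 / H) ^ 2) * Real.exp (-Real.pi * ((t - y) / (2 * H)) ^ 2)) := by
      refine setIntegral_mono_on (hφi.const_mul _).norm.integrableOn
        ((hψ.1.const_mul _).const_mul _).integrableOn measurableSet_Ioc.compl fun t ht => ?_
      rw [Real.norm_of_nonneg (mul_nonneg hyp.le (hφ0 t))]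
      refine mul_le_mul_of_nonneg_left ?_ hyp.le
      refine gtail hH (by positivity) ?_
      rw [Set.mem_compl_iff, Set.mem_Ioc, not_and_or, not_lt, not_le] at ht
      rcases ht with ht | ht
      · rw [abs_of_nonpos (by linarith)]
        linarith
      · rw [abs_of_nonneg (by linarith)]
        linarith
    refine h7.trans ?_
    refine (setIntegral_le_integral ((hψ.1.const_mul _).const_mul _) (Eventually.of_forall fun t => by
      simp only [Pi.zero_apply]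
      positivity)).trans (le_of_eq ?_)
    rw [integral_const_mul, integral_const_mul, hψ.2]
    ring
  calc _ = |((∫ t in Set.Ioc 0 (4 * Y), t ^ p * φ t) - ∫ t in Set.Ioc 0 (4 * Y), y ^ p * φ t) +
        ((∫ t in Set.Ioc 0 (4 * Y), y ^ p * φ t) - H * y ^ p)| := by congr 1; ring
    _ ≤ _ := (abs_add_le _ _).trans (add_le_add h1 h6)

/-- **The smoothed count at a large scale.** -/
lemma main_asym {k : ℕ} (hk : 1 ≤ k) (hσ : 2 ≤ (s : ℝ) / k) {a b A : ℝ} (ha : 0 < a) (hA : 1 ≤ A) (hA2 : 4 / a ≤ A)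
    {l : Fin s → ℝ} (hl : ∀ i, a < l i ∧ l i ≤ b) :
    ∀ᶠ Y : ℝ in atTop, ∀ y : ℝ, Y / 2 ≤ y → y ≤ 3 * Y →
      |RR (XF s k A Y) (vF s k) l (Y ^ (1 - (4 * (k : ℝ))⁻¹)) y -
        Vk k l * ((s : ℝ) / k) * (Y ^ (1 - (4 * (k : ℝ))⁻¹) * y ^ ((s : ℝ) / k - 1))| ≤
        Y ^ (1 - (4 * (k : ℝ))⁻¹) * Y ^ ((s : ℝ) / k - 1 - (8 * (k : ℝ))⁻¹) := by
  have hk0 : (0 : ℝ) < k := by exact_mod_cast (by omega : 0 < k)
  have hk1 : (1 : ℝ) ≤ k := by exact_mod_cast hk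
  set σ : ℝ := (s : ℝ) / k with hσd
  have hs : 1 ≤ s := by
    by_contra h
    have : s = 0 := by omega
    rw [hσd, this] at hσ
    norm_num at hσ
  have hl' : ∀ i, 0 < l i := fun i => ha.trans (hl i).1
  have hb : 0 < b := (hl' ⟨0, hs⟩).trans_le (hl ⟨0, hs⟩).2
  set κ : ℝ := (8 * (k : ℝ))⁻¹ with hκ
  have hκ0 : 0 < κ := by positivity
  have hκ4 : (4 * (k : ℝ))⁻¹ = 2 * κ := by rw [hκ]; field_simp; norm_num
  have hκk : (k : ℝ)⁻¹ = 8 * κ := by rw [hκ]; field_simp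
  rw [hκ4]
  have hV := Vk_nonneg k l
  set C1 : ℝ := (5 * A) ^ s * (4 * (s * (b * (k * (4 * A) ^ (k - 1))))) with hC1
  set C3 : ℝ := Vk k l * σ * ((σ - 1) * (4 : ℝ) ^ (σ - 2) * 2) with hC3
  set C4 : ℝ := Vk k l * σ * (3 ^ (σ - 1) * 2) with hC4
  filter_upwards [const_le (4 * C1) hκ0, const_le (4 * C3) hκ0, const_le 6 hκ0, eventually_ge_atTop 1,
    exp_decay (4 * (5 * A) ^ s) (3 * κ) (ε := 2 * κ) (by positivity),
    exp_decay (4 * C4) (3 * κ) (ε := 2 * κ) (by positivity)] with Y h1 h2 h3 h4 h5 h6 y hy1 hy2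
  have hY0 : 0 < Y := by linarith
  have hy0 : 0 < y := by linarith
  obtain ⟨p1, p2, p3, -⟩ := PP_facts hk hA h4
  set H : ℝ := Y ^ (1 - 2 * κ) with hH
  have hH0 : 0 < H := Real.rpow_pos_of_pos hY0 _
  have hP : 4 * Y / a ≤ (PP k A Y : ℝ) ^ k := by
    have e1 : (A * Y) ^ (k : ℝ)⁻¹ ≤ PP k A Y := Nat.le_ceil _
    have e2 : ((A * Y) ^ (k : ℝ)⁻¹) ^ k = A * Y := Real.rpow_inv_natCast_pow (by positivity) (by omega)
    calc 4 * Y / a = 4 / a * Y := by ring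
      _ ≤ A * Y := by gcongr
      _ = ((A * Y) ^ (k : ℝ)⁻¹) ^ k := e2.symm
      _ ≤ (PP k A Y : ℝ) ^ k := pow_le_pow_left₀ (by positivity) e1 k
  have hsum := sum_int (s := s) hk ha hH0 hl hP (y := y) (by linarith)
  have e0 : ∫ ξ in {ξ | Fk k l ξ ≤ 4 * Y}, Real.exp (-Real.pi * ((Fk k l ξ - y) / H) ^ 2) =
      ∫ t in Set.Ioc 0 (4 * Y), dk k l t * Real.exp (-Real.pi * ((t - y) / H) ^ 2) :=
    int_form (φ := fun t => Real.exp (-Real.pi * ((t - y) / H) ^ 2)) hk hs hl' (by fun_prop) _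
  have e1 : ∫ t in Set.Ioc 0 (4 * Y), dk k l t * Real.exp (-Real.pi * ((t - y) / H) ^ 2) =
      Vk k l * σ * ∫ t in Set.Ioc 0 (4 * Y), t ^ (σ - 1) * Real.exp (-Real.pi * ((t - y) / H) ^ 2) := by
    rw [← integral_const_mul]
    refine setIntegral_congr_fun measurableSet_Ioc fun t _ => ?_
    unfold dk
    rw [← hσd]
    ring
  rw [e0, e1] at hsum
  have hone := one_dim (p := σ - 1) (by linarith) hY0 hH0 hy1 hy2
  have hNN := NN_full (s := s) hk hA h4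
  have hXF : (XF s k A Y) = fun _ : Fin s => range (2 * PP k A Y + 1) := rfl
  rw [hXF] at hNN ⊢
  rw [← hσd] at hNN
  have hYσ : 0 < Y ^ σ := Real.rpow_pos_of_pos hY0 _
  have htarget : H * Y ^ (σ - 1 - κ) = Y ^ σ * Y ^ (-(3 * κ)) := by
    rw [hH, ← Real.rpow_add hY0, ← Real.rpow_add hY0]
    congr 1
    ring
  rw [htarget]
  set R : ℝ := Y ^ σ * Y ^ (-(3 * κ)) with hR
  have hR0 : 0 < R := by positivity
  -- first term
  have hYH : Y / H = Y ^ (2 * κ) := by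
    rw [hH, ← Real.rpow_one_sub' hY0.le (by
      have : κ ≤ 1 / 8 := by
        rw [hκ]
        rw [inv_le_comm₀ (by positivity) (by norm_num)]
        norm_num
        linarith
      intro h
      linarith)]
    congr 1
    ring
  have t1 : NN (fun _ : Fin s => range (2 * PP k A Y + 1)) *
      (4 * (s * (b * (k * ((PP k A Y : ℝ) + 1) ^ (k - 1)))) / H) ≤ R / 4 := by
    have q1 : ((PP k A Y : ℝ) + 1) ^ (k - 1) ≤ (4 * A) ^ (k - 1) * Y ^ (1 - 8 * κ) := by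
      have q2 : (PP k A Y : ℝ) + 1 ≤ 4 * A * Y ^ (k : ℝ)⁻¹ := by
        have : (1 : ℝ) ≤ PP k A Y := by exact_mod_cast p3
        linarith
      calc ((PP k A Y : ℝ) + 1) ^ (k - 1) ≤ (4 * A * Y ^ (k : ℝ)⁻¹) ^ (k - 1) :=
            pow_le_pow_left₀ (by positivity) q2 _
        _ = (4 * A) ^ (k - 1) * Y ^ (1 - 8 * κ) := by
            rw [mul_pow (4 * A), ← Real.rpow_natCast (Y ^ (k : ℝ)⁻¹), ← Real.rpow_mul hY0.le]
            congr 2
            rw [Nat.cast_sub hk, ← hκk]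
            push_cast
            field_simp
    calc NN (fun _ : Fin s => range (2 * PP k A Y + 1)) *
          (4 * (s * (b * (k * ((PP k A Y : ℝ) + 1) ^ (k - 1)))) / H)
        ≤ ((5 * A) ^ s * Y ^ σ) * (4 * (s * (b * (k * ((4 * A) ^ (k - 1) * Y ^ (1 - 8 * κ))))) / H) := by gcongr
      _ = C1 * Y ^ σ * (Y ^ (1 - 8 * κ) / H) := by rw [hC1]; ring
      _ = C1 * Y ^ (-(6 * κ)) * Y ^ σ := by
          rw [hH, ← Real.rpow_sub hY0]
          rw [show (1 - 8 * κ - (1 - 2 * κ)) = -(6 * κ) by ring]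
          ring
      _ ≤ Y ^ κ / 4 * Y ^ (-(6 * κ)) * Y ^ σ := by
          have := Real.rpow_pos_of_pos hY0 (-(6 * κ))
          gcongr
          linarith
      _ = Y ^ (-(5 * κ)) * Y ^ σ / 4 := by
          have : Y ^ κ * Y ^ (-(6 * κ)) = Y ^ (-(5 * κ)) := by
            rw [← Real.rpow_add hY0]; congr 1; ring
          rw [← this]
          ring
      _ ≤ R / 4 := by
          rw [hR, mul_comm (Y ^ σ)]
          have : Y ^ (-(5 * κ)) ≤ Y ^ (-(3 * κ)) := Real.rpow_le_rpow_of_exponent_le h4 (by linarith)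
          gcongr
  have t2 : NN (fun _ : Fin s => range (2 * PP k A Y + 1)) * Real.exp (-Real.pi * ((4 * Y - y) / H) ^ 2) ≤ R / 4 := by
    have q1 : Real.exp (-Real.pi * ((4 * Y - y) / H) ^ 2) ≤ Real.exp (-Real.pi * Y ^ (2 * κ)) := by
      refine Real.exp_le_exp.2 ?_
      have q2 : Y ^ (2 * κ) ≤ (4 * Y - y) / H := by
        rw [← hYH]
        gcongr
        linarith
      have q3 : 1 ≤ Y ^ (2 * κ) := Real.one_le_rpow h4 (by positivity)
      have q4 : Y ^ (2 * κ) ≤ ((4 * Y - y) / H) ^ 2 := by nlinarith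
      have := Real.pi_pos
      nlinarith
    calc _ ≤ ((5 * A) ^ s * Y ^ σ) * Real.exp (-Real.pi * Y ^ (2 * κ)) := by gcongr
      _ = Y ^ σ / 4 * (4 * (5 * A) ^ s * Real.exp (-Real.pi * Y ^ (2 * κ))) := by ring
      _ ≤ Y ^ σ / 4 * Y ^ (-(3 * κ)) := by gcongr
      _ = R / 4 := by rw [hR]; ring
  have t3 : Vk k l * σ * ((σ - 1) * (4 * Y) ^ (σ - 1 - 1) * (2 * H ^ 2)) ≤ R / 4 := by
    have q1 : (4 * Y) ^ (σ - 1 - 1) * H ^ 2 = (4 : ℝ) ^ (σ - 2) * (Y ^ σ * Y ^ (-(4 * κ))) := by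
      rw [Real.mul_rpow (by norm_num) hY0.le, hH, ← Real.rpow_natCast (Y ^ (1 - 2 * κ)), ← Real.rpow_mul hY0.le,
        mul_assoc, ← Real.rpow_add hY0, ← Real.rpow_add hY0]
      rw [show σ - 1 - 1 = σ - 2 by ring]
      congr 2
      push_cast
      ring
    calc Vk k l * σ * ((σ - 1) * (4 * Y) ^ (σ - 1 - 1) * (2 * H ^ 2)) =
          Vk k l * σ * ((σ - 1) * 2 * ((4 * Y) ^ (σ - 1 - 1) * H ^ 2)) := by ring
      _ = C3 * Y ^ (-(4 * κ)) * Y ^ σ := by rw [q1, hC3]; ring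
      _ ≤ Y ^ κ / 4 * Y ^ (-(4 * κ)) * Y ^ σ := by
          have := Real.rpow_pos_of_pos hY0 (-(4 * κ))
          gcongr
          linarith
      _ = R / 4 := by
          have : Y ^ κ * Y ^ (-(4 * κ)) = Y ^ (-(3 * κ)) := by
            rw [← Real.rpow_add hY0]; congr 1; ring
          rw [hR, ← this]
          ring
  have t4 : Vk k l * σ * (y ^ (σ - 1) * (2 * H * Real.exp (-(3 / 4 * Real.pi) * (Y / 2 / H) ^ 2))) ≤ R / 4 := by
    have q1 : y ^ (σ - 1) ≤ 3 ^ (σ - 1) * Y ^ (σ - 1) := by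
      rw [← Real.mul_rpow (by norm_num) hY0.le]
      exact Real.rpow_le_rpow hy0.le hy2 (by linarith)
    have q2 : Real.exp (-(3 / 4 * Real.pi) * (Y / 2 / H) ^ 2) ≤ Real.exp (-Real.pi * Y ^ (2 * κ)) := by
      refine Real.exp_le_exp.2 ?_
      have q3 : (Y / 2 / H) ^ 2 = Y ^ (2 * κ) * Y ^ (2 * κ) / 4 := by
        rw [← hYH]
        field_simp
        ring
      rw [q3]
      have q4 : 6 ≤ Y ^ (2 * κ) := h3.trans (Real.rpow_le_rpow_of_exponent_le h4 (by linarith))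
      have := Real.pi_pos
      nlinarith [mul_nonneg (by linarith : 0 ≤ Y ^ (2 * κ) - 6) (by linarith : 0 ≤ Y ^ (2 * κ)),
        mul_nonneg this.le (mul_nonneg (by linarith : 0 ≤ Y ^ (2 * κ) - 6) (by linarith : 0 ≤ Y ^ (2 * κ)))]
    have q5 : Y ^ (σ - 1) * H ≤ Y ^ σ := by
      rw [hH, ← Real.rpow_add hY0]
      exact Real.rpow_le_rpow_of_exponent_le h4 (by linarith)
    calc Vk k l * σ * (y ^ (σ - 1) * (2 * H * Real.exp (-(3 / 4 * Real.pi) * (Y / 2 / H) ^ 2)))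
        ≤ Vk k l * σ * ((3 ^ (σ - 1) * Y ^ (σ - 1)) * (2 * H * Real.exp (-Real.pi * Y ^ (2 * κ)))) := by gcongr
      _ = C4 * Real.exp (-Real.pi * Y ^ (2 * κ)) * (Y ^ (σ - 1) * H) := by rw [hC4]; ring
      _ ≤ C4 * Real.exp (-Real.pi * Y ^ (2 * κ)) * Y ^ σ := by
          have : 0 ≤ C4 := by rw [hC4]; positivity
          gcongr
      _ = Y ^ σ / 4 * (4 * C4 * Real.exp (-Real.pi * Y ^ (2 * κ))) := by ring
      _ ≤ Y ^ σ / 4 * Y ^ (-(3 * κ)) := by gcongr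
      _ = R / 4 := by rw [hR]; ring
  have hVσ : 0 ≤ Vk k l * σ := by positivity
  have h7 : |Vk k l * σ * (∫ t in Set.Ioc 0 (4 * Y), t ^ (σ - 1) * Real.exp (-Real.pi * ((t - y) / H) ^ 2)) -
      Vk k l * σ * (H * y ^ (σ - 1))| ≤ R / 4 + R / 4 := by
    rw [← mul_sub, abs_mul, abs_of_nonneg hVσ]
    calc _ ≤ Vk k l * σ * ((σ - 1) * (4 * Y) ^ (σ - 1 - 1) * (2 * H ^ 2) +
          y ^ (σ - 1) * (2 * H * Real.exp (-(3 / 4 * Real.pi) * (Y / 2 / H) ^ 2))) := by gcongr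
      _ = Vk k l * σ * ((σ - 1) * (4 * Y) ^ (σ - 1 - 1) * (2 * H ^ 2)) +
          Vk k l * σ * (y ^ (σ - 1) * (2 * H * Real.exp (-(3 / 4 * Real.pi) * (Y / 2 / H) ^ 2))) := by ring
      _ ≤ _ := add_le_add t3 t4
  have h8 := abs_le.1 h7
  have h9 := abs_le.1 (hsum.trans (show _ ≤ R / 4 + R / 4 by rw [mul_add]; exact add_le_add t1 t2))
  rw [abs_le]
  constructor <;> linarith [h8.1, h8.2, h9.1, h9.2]

end Pool.Agent.Q43.MW
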