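import Mathlib
import Pool.Agent.Q43.MW.Asy

set_option autoImplicit false

/-!
# From smoothed counts to counts
-/

namespace Pool.Agent.Q43.MW

open MeasureTheory Complex Finset Filter

variable {s : ℕ}

/-- the very high frequencies -/
lemma ff_tail (X : Fin s → Finset ℕ) (v : Fin s → ℕ → ℝ) (l : Fin s → ℝ) {η H : ℝ} (hη : 0 < η) (hH : η ≤ H)
    {α₂ : ℝ} (hα : 0 ≤ α₂) (y : ℝ) :
    ‖∫ α : ℝ, ff X v l η H α₂ α * ee (-(α * y))‖ ≤ 2 * Real.exp (-(3 / 4 * Real.pi) * (η * α₂) ^ 2) * NN X := by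
  refine (F_bdd X v l α₂ y).trans ?_
  set c := Real.exp (-(3 / 4 * Real.pi) * (η * α₂) ^ 2) with hc
  have hg : Integrable fun α : ℝ => Real.exp (-Real.pi * (η / 2 * α) ^ 2) := gauss_integrable (by positivity)
  have hgI : ∫ α : ℝ, Real.exp (-Real.pi * (η / 2 * α) ^ 2) = 1 / (η / 2) := gauss_int (by positivity)
  have h1 : ∫ α : ℝ, ‖ff X v l η H α₂ α‖ ≤
      ∫ α : ℝ, (η * c * NN X) * Real.exp (-Real.pi * (η / 2 * α) ^ 2) := by
    refine integral_mono (ff_int X v l hη hH α₂).norm (hg.const_mul _) fun α => ?_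
    simp only
    have hN := NN_nonneg X
    have hc0 : 0 < c := Real.exp_pos _
    have hE := Real.exp_pos (-Real.pi * (η / 2 * α) ^ 2)
    unfold ff
    by_cases h : α ∈ {α : ℝ | α₂ < |α|}
    · rw [Set.indicator_of_mem h, norm_mul, Complex.norm_real,
        Real.norm_of_nonneg (mul_nonneg hη.le (wt_nonneg hη hH α))]
      have h2 := SS_le X v l α
      have h3 : wt η H α ≤ c * Real.exp (-Real.pi * (η / 2 * α) ^ 2) := by
        refine (wt_le η H α).trans ?_
        rw [hc, ← Real.exp_add]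
        refine Real.exp_le_exp.2 ?_
        have h4 : (η * α₂) ^ 2 ≤ (η * α) ^ 2 := by
          rw [mul_pow, mul_pow, ← sq_abs α]
          have : α₂ ≤ |α| := le_of_lt h
          gcongr
        have := Real.pi_pos
        nlinarith
      have h5 := wt_nonneg hη hH α
      calc η * wt η H α * ‖SS X v l α‖ ≤ η * (c * Real.exp (-Real.pi * (η / 2 * α) ^ 2)) * NN X := by gcongr
        _ = _ := by ring
    · rw [Set.indicator_of_notMem h, norm_zero]
      positivity
  refine h1.trans (le_of_eq ?_)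
  rw [integral_const_mul, hgI]
  field_simp

/-- the number of the values in a short interval -/
noncomputable def ZZ (X : Fin s → Finset ℕ) (v : Fin s → ℕ → ℝ) (l : Fin s → ℝ) (η y : ℝ) : ℝ :=
  (((Fintype.piFinset X).filter fun x => |form v l x - y| ≤ η).card : ℝ)

/-- the window function -/
noncomputable def wf (h R t : ℝ) : ℝ := ∫ u in Set.Icc (-R) R, Real.exp (-Real.pi * ((u - t) / h) ^ 2)

lemma wf_nonneg (h R t : ℝ) : 0 ≤ wf h R t := by
  unfold wf
  exact integral_nonneg fun _ => (Real.exp_pos _).le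

lemma wf_le {h : ℝ} (hh : 0 < h) (R t : ℝ) : wf h R t ≤ h := by
  unfold wf
  exact le_trans (setIntegral_le_integral (gsh hh t).1 (Eventually.of_forall fun _ => (Real.exp_pos _).le))
    (le_of_eq (gsh hh t).2)

lemma wf_far {h w R t : ℝ} (hh : 0 < h) (hw : 0 ≤ w) (ht : R + w ≤ |t|) :
    wf h R t ≤ 2 * Real.exp (-(3 / 4 * Real.pi) * (w / h) ^ 2) * h := by
  unfold wf
  have hψ := gsh (c := 2 * h) (by positivity) t
  have h1 : ∫ u in Set.Icc (-R) R, Real.exp (-Real.pi * ((u - t) / h) ^ 2) ≤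
      ∫ u in Set.Icc (-R) R, Real.exp (-(3 / 4 * Real.pi) * (w / h) ^ 2) *
        Real.exp (-Real.pi * ((u - t) / (2 * h)) ^ 2) := by
    refine setIntegral_mono_on (gsh hh t).1.integrableOn (hψ.1.const_mul _).integrableOn measurableSet_Icc
      fun u hu => gtail hh hw ?_
    have h2 : |u| ≤ R := abs_le.2 hu
    have h3 : |t| - |u| ≤ |u - t| := by
      rw [abs_sub_comm]
      exact abs_sub_abs_le_abs_sub t u
    linarith
  refine h1.trans ((setIntegral_le_integral (hψ.1.const_mul _) (Eventually.of_forall fun _ => by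
    simp only [Pi.zero_apply]
    positivity)).trans (le_of_eq ?_))
  rw [integral_const_mul, hψ.2]
  ring

lemma wf_near {h w R t : ℝ} (hh : 0 < h) (hw : 0 ≤ w) (ht : |t| + w ≤ R) :
    h * (1 - 2 * Real.exp (-(3 / 4 * Real.pi) * (w / h) ^ 2)) ≤ wf h R t := by
  unfold wf
  have hψ := gsh (c := 2 * h) (by positivity) t
  have e1 := integral_add_compl (measurableSet_Icc (a := -R) (b := R)) (gsh hh t).1
  rw [(gsh hh t).2] at e1
  have h1 : ∫ u in (Set.Icc (-R) R)ᶜ, Real.exp (-Real.pi * ((u - t) / h) ^ 2) ≤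
      ∫ u in (Set.Icc (-R) R)ᶜ, Real.exp (-(3 / 4 * Real.pi) * (w / h) ^ 2) *
        Real.exp (-Real.pi * ((u - t) / (2 * h)) ^ 2) := by
    refine setIntegral_mono_on (gsh hh t).1.integrableOn (hψ.1.const_mul _).integrableOn measurableSet_Icc.compl
      fun u hu => gtail hh hw ?_
    have h2 : R < |u| := by
      by_contra h3
      push Not at h3
      exact hu (abs_le.1 h3)
    have h3 := abs_sub_abs_le_abs_sub u t
    linarith
  have h2 : ∫ u in (Set.Icc (-R) R)ᶜ, Real.exp (-(3 / 4 * Real.pi) * (w / h) ^ 2) *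
        Real.exp (-Real.pi * ((u - t) / (2 * h)) ^ 2) ≤ 2 * Real.exp (-(3 / 4 * Real.pi) * (w / h) ^ 2) * h := by
    refine ((setIntegral_le_integral (hψ.1.const_mul _) (Eventually.of_forall fun _ => by
      simp only [Pi.zero_apply]
      positivity)).trans (le_of_eq ?_))
    rw [integral_const_mul, hψ.2]
    ring
  linarith

lemma RR_window (X : Fin s → Finset ℕ) (v : Fin s → ℕ → ℝ) (l : Fin s → ℝ) {h : ℝ} (hh : 0 < h) (R y : ℝ) :
    ∫ u in Set.Icc (-R) R, RR X v l h (y + u) = ∑ x ∈ Fintype.piFinset X, wf h R (form v l x - y) := by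
  unfold RR wf
  rw [integral_finsetSum]
  · refine sum_congr rfl fun x _ => ?_
    congr 1
    ext u
    congr 2
    ring
  · intro x _
    refine ((gsh hh (form v l x - y)).1.congr (Eventually.of_forall fun u => ?_)).integrableOn
    simp only
    congr 2
    ring

/-- **Upper and lower bounds for the counts.** -/
lemma sharp (X : Fin s → Finset ℕ) (v : Fin s → ℕ → ℝ) (l : Fin s → ℝ) {h w η y G Δ : ℝ} (hh : 0 < h) (hw : 0 ≤ w)
    (hη : 0 < η) (hwη : w ≤ η) (hG : ∀ u : ℝ, |u| ≤ η + w → |RR X v l h (y + u) - h * G| ≤ h * Δ) :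
    (1 - 2 * Real.exp (-(3 / 4 * Real.pi) * (w / h) ^ 2)) * ZZ X v l η y ≤ 2 * (η + w) * (G + Δ) ∧
      2 * (η - w) * (G - Δ) ≤ ZZ X v l η y + 2 * Real.exp (-(3 / 4 * Real.pi) * (w / h) ^ 2) * NN X := by
  set e := 2 * Real.exp (-(3 / 4 * Real.pi) * (w / h) ^ 2) with he
  have he0 : 0 < e := by positivity
  have hRi : ∀ R : ℝ, IntegrableOn (fun u => RR X v l h (y + u)) (Set.Icc (-R) R) := by
    intro R
    have hc : Continuous fun u : ℝ => RR X v l h (y + u) := by
      unfold RR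
      fun_prop
    exact hc.continuousOn.integrableOn_compact isCompact_Icc
  have hIcc : ∀ R : ℝ, 0 ≤ R → ∀ c : ℝ, ∫ _u in Set.Icc (-R) R, c = 2 * R * c := by
    intro R hR c
    rw [setIntegral_const, measureReal_def, Real.volume_Icc, ENNReal.toReal_ofReal (by linarith), smul_eq_mul]
    ring
  constructor
  · have h1 : (h * (1 - e)) * ZZ X v l η y ≤ ∫ u in Set.Icc (-(η + w)) (η + w), RR X v l h (y + u) := by
      rw [RR_window X v l hh]
      unfold ZZ
      rw [mul_comm, ← nsmul_eq_mul, ← sum_const]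
      calc ∑ _x ∈ (Fintype.piFinset X).filter (fun x => |form v l x - y| ≤ η), h * (1 - e) ≤
          ∑ x ∈ (Fintype.piFinset X).filter (fun x => |form v l x - y| ≤ η), wf h (η + w) (form v l x - y) := by
            refine sum_le_sum fun x hx => wf_near hh hw ?_
            have := (mem_filter.1 hx).2
            linarith
        _ ≤ _ := sum_le_sum_of_subset_of_nonneg (filter_subset _ _) fun x _ _ => wf_nonneg _ _ _
    have h2 : ∫ u in Set.Icc (-(η + w)) (η + w), RR X v l h (y + u) ≤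
        ∫ _u in Set.Icc (-(η + w)) (η + w), h * (G + Δ) := by
      refine setIntegral_mono_on (hRi _) (integrableOn_const (by rw [Real.volume_Icc]; exact ENNReal.ofReal_ne_top))
        measurableSet_Icc fun u hu => ?_
      have := (abs_le.1 (hG u (abs_le.2 hu))).2
      linarith
    rw [hIcc _ (by linarith)] at h2
    have h3 : h * ((1 - e) * ZZ X v l η y) ≤ h * (2 * (η + w) * (G + Δ)) := by linarith
    exact le_of_mul_le_mul_left h3 hh
  · have h1 : ∫ u in Set.Icc (-(η - w)) (η - w), RR X v l h (y + u) ≤ h * (ZZ X v l η y + e * NN X) := by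
      rw [RR_window X v l hh, ← sum_filter_add_sum_filter_not _ (fun x => |form v l x - y| ≤ η)]
      have h2 : ∑ x ∈ (Fintype.piFinset X).filter (fun x => |form v l x - y| ≤ η), wf h (η - w) (form v l x - y) ≤
          h * ZZ X v l η y := by
        unfold ZZ
        rw [mul_comm, ← nsmul_eq_mul, ← sum_const]
        exact sum_le_sum fun x _ => wf_le hh _ _
      have h3 : ∑ x ∈ (Fintype.piFinset X).filter (fun x => ¬ |form v l x - y| ≤ η),
          wf h (η - w) (form v l x - y) ≤ h * (e * NN X) := by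
        calc ∑ x ∈ (Fintype.piFinset X).filter (fun x => ¬ |form v l x - y| ≤ η),
              wf h (η - w) (form v l x - y) ≤
            ∑ _x ∈ (Fintype.piFinset X).filter (fun x => ¬ |form v l x - y| ≤ η), e * h := by
              refine sum_le_sum fun x hx => ?_
              have h4 := (mem_filter.1 hx).2
              push Not at h4
              exact wf_far hh hw (by linarith)
          _ ≤ ∑ _x ∈ Fintype.piFinset X, e * h :=
              sum_le_sum_of_subset_of_nonneg (filter_subset _ _) fun x _ _ => by positivity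
          _ = h * (e * NN X) := by
              rw [sum_const, nsmul_eq_mul, Fintype.card_piFinset]
              unfold NN
              push_cast
              ring
      linarith
    have h2 : ∫ _u in Set.Icc (-(η - w)) (η - w), h * (G - Δ) ≤
        ∫ u in Set.Icc (-(η - w)) (η - w), RR X v l h (y + u) := by
      refine setIntegral_mono_on (integrableOn_const (by rw [Real.volume_Icc]; exact ENNReal.ofReal_ne_top)) (hRi _)
        measurableSet_Icc fun u hu => ?_
      have h5 : |u| ≤ η + w := by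
        have := abs_le.2 hu
        linarith
      have := (abs_le.1 (hG u h5)).1
      linarith
    rw [hIcc _ (by linarith)] at h2
    have h3 : h * (2 * (η - w) * (G - Δ)) ≤ h * (ZZ X v l η y + e * NN X) := by linarith
    exact le_of_mul_le_mul_left h3 hh

/-- **The smoothed counts at all small scales, for almost all coefficients.** -/
lemma small_scales {k : ℕ} (hk : 1 ≤ k) {a b A : ℝ} (ha : 0 < a) (hab : a ≤ b) (hA : 1 ≤ A) (hA2 : 4 / a ≤ A)
    {β c κ₁ : ℝ} (hc : 0 < c) (hκ₁ : 0 < κ₁) (hβ : 0 ≤ β) (hσ : (1 + β) * (1 + c) ≤ (s : ℝ) / k / 2) :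
    ∃ κ : ℝ, 0 < κ ∧ ∀ᵐ l ∂(bx s a b), (∀ i, a < l i ∧ l i ≤ b) → ∀ᶠ j in atTop,
      ∀ y : ℝ, Yj j / 2 ≤ y → y ≤ 3 * Yj j → ∀ h : ℝ, Yj j ^ (-β + κ₁) ≤ h → h ≤ 1 →
        |RR (XF s k A (Yj j)) (vF s k) l h y - h * (Vk k l * ((s : ℝ) / k) * y ^ ((s : ℝ) / k - 1))| ≤
          h * Yj j ^ ((s : ℝ) / k - 1 - κ) := by
  have hk0 : (0 : ℝ) < k := by exact_mod_cast (by omega : 0 < k)
  have hk1 : (1 : ℝ) ≤ k := by exact_mod_cast hk
  set σ : ℝ := (s : ℝ) / k with hσd
  have hσ2 : 2 ≤ σ := by nlinarith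
  set κ₀ : ℝ := (8 * (k : ℝ))⁻¹ with hκ₀
  have hκ0 : 0 < κ₀ := by positivity
  have hκ8 : κ₀ ≤ 1 / 8 := by
    rw [hκ₀, inv_le_comm₀ (by positivity) (by norm_num)]
    norm_num
    linarith
  have hκ4 : (4 * (k : ℝ))⁻¹ = 2 * κ₀ := by rw [hκ₀]; field_simp; norm_num
  set g : ℝ := κ₀ with hg
  set κ : ℝ := min (κ₀ / 2) (g * c / 4) with hκ
  have hκpos : 0 < κ := by rw [hκ]; positivity
  have hκa : κ ≤ κ₀ / 2 := min_le_left _ _
  have hκb : κ ≤ g * c / 4 := min_le_right _ _
  refine ⟨κ, hκpos, ?_⟩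
  have hbc := bc_full (s := s) hk hab hA hc hβ (h := g) (by positivity) (by linarith) (by rw [← hσd]; exact hσ)
  filter_upwards [hbc] with l hl hlb
  have hdet : ∀ᶠ Y : ℝ in atTop, A1 (XF s k A Y) (vF s k) (Y ^ (g - 1)) (Y ^ β) l <
      Y ^ (σ - 1 - g * c / 2) → ∀ y : ℝ, Y / 2 ≤ y → y ≤ 3 * Y → ∀ h : ℝ, Y ^ (-β + κ₁) ≤ h → h ≤ 1 →
        |RR (XF s k A Y) (vF s k) l h y - h * (Vk k l * σ * y ^ (σ - 1))| ≤ h * Y ^ (σ - 1 - κ) := by
    filter_upwards [main_asym hk (by rw [← hσd]; exact hσ2) ha hA hA2 hlb,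
      const_le (4 * (2 * Real.pi * (5 * A) ^ s)) (κ := κ₀ / 2) (by positivity),
      const_le 4 (κ := κ₀ / 2) (by positivity), const_le 4 (κ := g * c / 4) (by positivity),
      const_le 2 (κ := κ₁) hκ₁,
      exp_decay (4 * (2 * (5 * A) ^ s)) (1 + β + κ) (ε := κ₁) hκ₁,
      eventually_ge_atTop 1] with Y h1 h2 h3 h3' h3'' h4 h5 hA1 y hy1 hy2 h hh1 hh2
    have hY0 : 0 < Y := by linarith
    have hy0 : 0 < y := by linarith
    have hm := h1 y hy1 hy2
    rw [← hσd, hκ4, ← hκ₀] at hm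
    set H : ℝ := Y ^ (1 - 2 * κ₀) with hH
    have hH0 : 0 < H := Real.rpow_pos_of_pos hY0 _
    have hH1 : 1 ≤ H := Real.one_le_rpow h5 (by linarith)
    have hh0 : 0 < h := lt_of_lt_of_le (Real.rpow_pos_of_pos hY0 _) hh1
    have hhH : h ≤ H := hh2.trans hH1
    have hα1 : 0 < Y ^ (g - 1) := Real.rpow_pos_of_pos hY0 _
    have hα12 : Y ^ (g - 1) ≤ Y ^ β := Real.rpow_le_rpow_of_exponent_le h5 (by linarith)
    have heng := engine (XF s k A Y) (vF s k) l hh0 hhH hα1.le hα12 y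
    have hN := NN_full (s := s) hk hA h5
    rw [← hσd] at hN
    set T : ℝ := Y ^ (σ - 1 - κ) with hT
    have hT0 : 0 < T := Real.rpow_pos_of_pos hY0 _
    have t1 : 2 * Real.pi * h * H ^ 2 * (Y ^ (g - 1)) ^ 3 * NN (XF s k A Y) ≤ h * T / 4 := by
      have q1 : H ^ 2 * (Y ^ (g - 1)) ^ 3 * Y ^ σ = Y ^ (σ - 1 - κ₀) := by
        rw [hH, ← Real.rpow_natCast (Y ^ (1 - 2 * κ₀)), ← Real.rpow_natCast (Y ^ (g - 1)), ← Real.rpow_mul hY0.le,
          ← Real.rpow_mul hY0.le, ← Real.rpow_add hY0, ← Real.rpow_add hY0]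
        congr 1
        rw [hg]
        push_cast
        ring
      calc 2 * Real.pi * h * H ^ 2 * (Y ^ (g - 1)) ^ 3 * NN (XF s k A Y) ≤
          2 * Real.pi * h * H ^ 2 * (Y ^ (g - 1)) ^ 3 * ((5 * A) ^ s * Y ^ σ) := by
            have := Real.pi_pos
            gcongr
        _ = h * (2 * Real.pi * (5 * A) ^ s) * (H ^ 2 * (Y ^ (g - 1)) ^ 3 * Y ^ σ) := by ring
        _ = h * (2 * Real.pi * (5 * A) ^ s) * Y ^ (σ - 1 - κ₀) := by rw [q1]
        _ ≤ h * (Y ^ (κ₀ / 2) / 4) * Y ^ (σ - 1 - κ₀) := by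
            have := Real.rpow_pos_of_pos hY0 (σ - 1 - κ₀)
            gcongr
            linarith
        _ = h * (Y ^ (κ₀ / 2) * Y ^ (σ - 1 - κ₀)) / 4 := by ring
        _ ≤ h * T / 4 := by
            rw [← Real.rpow_add hY0]
            have : Y ^ (κ₀ / 2 + (σ - 1 - κ₀)) ≤ T :=
              Real.rpow_le_rpow_of_exponent_le h5 (by linarith)
            gcongr
    have t2 : h * (∫ α in {α : ℝ | Y ^ (g - 1) < |α| ∧ |α| ≤ Y ^ β}, ‖SS (XF s k A Y) (vF s k) l α‖) ≤ h * T / 4 := by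
      unfold A1 at hA1
      have q1 : 4 * Y ^ (σ - 1 - g * c / 2) ≤ T := by
        calc 4 * Y ^ (σ - 1 - g * c / 2) ≤ Y ^ (g * c / 4) * Y ^ (σ - 1 - g * c / 2) := by
              have := Real.rpow_pos_of_pos hY0 (σ - 1 - g * c / 2)
              gcongr
          _ = Y ^ (g * c / 4 + (σ - 1 - g * c / 2)) := by rw [Real.rpow_add hY0]
          _ ≤ T := Real.rpow_le_rpow_of_exponent_le h5 (by linarith)
      have q2 : (∫ α in {α : ℝ | Y ^ (g - 1) < |α| ∧ |α| ≤ Y ^ β}, ‖SS (XF s k A Y) (vF s k) l α‖) ≤ T / 4 := by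
        linarith
      calc _ ≤ h * (T / 4) := by gcongr
        _ = _ := by ring
    have t3 : ‖∫ α : ℝ, ff (XF s k A Y) (vF s k) l h H (Y ^ β) α * ee (-(α * y))‖ ≤ h * T / 4 := by
      refine (ff_tail (XF s k A Y) (vF s k) l hh0 hhH (Real.rpow_nonneg hY0.le β) y).trans ?_
      have q1 : Y ^ κ₁ ≤ h * Y ^ β := by
        calc Y ^ κ₁ = Y ^ (-β + κ₁) * Y ^ β := by rw [← Real.rpow_add hY0]; congr 1; ring
          _ ≤ h * Y ^ β := by
              have := Real.rpow_pos_of_pos hY0 β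
              gcongr
      have q2 : Real.exp (-(3 / 4 * Real.pi) * (h * Y ^ β) ^ 2) ≤ Real.exp (-Real.pi * Y ^ κ₁) := by
        refine Real.exp_le_exp.2 ?_
        have q3 : 4 / 3 * Y ^ κ₁ ≤ (h * Y ^ β) ^ 2 := by nlinarith
        have := Real.pi_pos
        nlinarith
      calc 2 * Real.exp (-(3 / 4 * Real.pi) * (h * Y ^ β) ^ 2) * NN (XF s k A Y)
          ≤ 2 * Real.exp (-Real.pi * Y ^ κ₁) * ((5 * A) ^ s * Y ^ σ) := by
            have := Real.exp_pos (-Real.pi * Y ^ κ₁)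
            have := NN_nonneg (XF s k A Y)
            gcongr
        _ = Y ^ σ / 4 * (4 * (2 * (5 * A) ^ s) * Real.exp (-Real.pi * Y ^ κ₁)) := by ring
        _ ≤ Y ^ σ / 4 * Y ^ (-(1 + β + κ)) := by gcongr
        _ = Y ^ (-β) * T / 4 := by
            rw [hT, ← Real.rpow_add hY0, div_mul_eq_mul_div, ← Real.rpow_add hY0]
            congr 2
            ring
        _ ≤ h * T / 4 := by
            have q4 : Y ^ (-β) ≤ h := (Real.rpow_le_rpow_of_exponent_le h5 (by linarith)).trans hh1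
            gcongr
    have t4 : |h / H * RR (XF s k A Y) (vF s k) l H y - h * (Vk k l * σ * y ^ (σ - 1))| ≤ h * T / 4 := by
      have e1 : h / H * RR (XF s k A Y) (vF s k) l H y - h * (Vk k l * σ * y ^ (σ - 1)) =
          h / H * (RR (XF s k A Y) (vF s k) l H y - Vk k l * σ * (H * y ^ (σ - 1))) := by
        field_simp
      rw [e1, abs_mul, abs_of_pos (by positivity : 0 < h / H)]
      have q1 : 4 * Y ^ (σ - 1 - κ₀) ≤ T := by
        calc 4 * Y ^ (σ - 1 - κ₀) ≤ Y ^ (κ₀ / 2) * Y ^ (σ - 1 - κ₀) := by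
              have := Real.rpow_pos_of_pos hY0 (σ - 1 - κ₀)
              gcongr
          _ = Y ^ (κ₀ / 2 + (σ - 1 - κ₀)) := by rw [Real.rpow_add hY0]
          _ ≤ T := Real.rpow_le_rpow_of_exponent_le h5 (by linarith)
      calc h / H * |RR (XF s k A Y) (vF s k) l H y - Vk k l * σ * (H * y ^ (σ - 1))| ≤
          h / H * (H * Y ^ (σ - 1 - κ₀)) := by gcongr
        _ = h * Y ^ (σ - 1 - κ₀) := by field_simp
        _ ≤ h * (T / 4) := by gcongr; linarith
        _ = _ := by ring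
    have h6 := abs_le.1 (heng.trans (add_le_add (add_le_add t1 t2) t3))
    have h7 := abs_le.1 t4
    rw [abs_le]
    constructor <;> linarith [h6.1, h6.2, h7.1, h7.2]
  filter_upwards [hl, Yj_tendsto.eventually hdet] with j g1 g2
  exact g2 g1

end Pool.Agent.Q43.MW
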