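import Mathlib
import Pool.Agent.Q43.MW.Sharp
import Pool.Agent.Helper276.VdC

set_option autoImplicit false

/-!
# Mean squares over the exponents
-/

namespace Pool.Agent.Q43.MW

open MeasureTheory Complex Finset Filter

/-- the power `x ^ t` of a positive integer, as a continuous function of `t` -/
noncomputable def pe (t : ℝ) (x : ℕ) : ℝ := Real.exp (t * Real.log x)

lemma pe_eq (t : ℝ) {x : ℕ} (hx : 1 ≤ x) : pe t x = (x : ℝ) ^ t := by
  unfold pe
  have : (0 : ℝ) < x := by exact_mod_cast hx
  rw [Real.rpow_def_of_pos this, mul_comm]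

@[fun_prop]
lemma pe_cont (x : ℕ) : Continuous fun t : ℝ => pe t x := by
  unfold pe
  fun_prop

/-- one pair of integers -/
lemma int_pair {a b P β : ℝ} (ha : 1 ≤ a) (hab : a ≤ b) (hP : 3 ≤ P) (hβ : β ≠ 0) {x z : ℕ} (hzx : z < x)
    (hz : P ≤ z) :
    ‖∫ t in a..b, ee (β * (pe t x - pe t z))‖ ≤ 1 / (|β| * P ^ (a - 1)) * (1 / ((x : ℝ) - z)) := by
  have hzr : (0 : ℝ) < z := by linarith
  have hzx' : (z : ℝ) < x := by exact_mod_cast hzx
  have hxr : (0 : ℝ) < x := by linarith
  have hz1 : 1 ≤ z := by
    have : (1 : ℝ) ≤ z := by linarith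
    exact_mod_cast this
  have hx1 : 1 ≤ x := by omega
  have hlz1 : 1 ≤ Real.log z := by
    rw [Real.le_log_iff_exp_le hzr]
    have := Real.exp_one_lt_d9
    linarith
  have hlzx : Real.log z ≤ Real.log x := Real.log_le_log hzr hzx'.le
  have hβ0 : 0 < |β| := abs_pos.2 hβ
  have hd : ∀ (y : ℕ) (t : ℝ), HasDerivAt (fun t => pe t y) (pe t y * Real.log y) t := by
    intro y t
    unfold pe
    have h1 : HasDerivAt (fun t : ℝ => t * Real.log y) (1 * Real.log y) t := (hasDerivAt_id t).mul_const _
    rw [one_mul] at h1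
    exact h1.exp
  have key : ∀ γ : ℝ, 0 < γ → ‖∫ t in a..b, ee (γ * (pe t x - pe t z))‖ ≤
      1 / (γ * P ^ (a - 1)) * (1 / ((x : ℝ) - z)) := by
    intro γ hγ
    have hpi := Real.pi_pos
    set l : ℝ := 2 * Real.pi * γ * (P ^ (a - 1) * (x - z)) with hl
    have hPa : 0 < P ^ (a - 1) := Real.rpow_pos_of_pos (by linarith) _
    have hxz : 0 < (x : ℝ) - z := by linarith
    have hl0 : 0 < l := by positivity
    have h := Pool.Agent.Helper276.VdC.first_test (ψ := fun t => 2 * Real.pi * γ * (pe t x - pe t z))
      (ψ1 := fun t => 2 * Real.pi * γ * (pe t x * Real.log x - pe t z * Real.log z))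
      (ψ2 := fun t => 2 * Real.pi * γ * (pe t x * Real.log x * Real.log x - pe t z * Real.log z * Real.log z))
      hab hl0 (fun t _ => ((hd x t).sub (hd z t)).const_mul _)
      (fun t _ => (((hd x t).mul_const _).sub ((hd z t).mul_const _)).const_mul _) (by fun_prop)
      (fun t _ => by
        refine mul_nonneg (by positivity) ?_
        have h1 : pe t z ≤ pe t x ∨ t < 0 := by
          rcases lt_or_ge t 0 with h | h
          · exact Or.inr h
          · left
            unfold pe
            exact Real.exp_le_exp.2 (mul_le_mul_of_nonneg_left hlzx h)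
        have ht : 0 ≤ t ∨ t < 0 := le_or_gt 0 t
        rcases h1 with h1 | h1
        · have h2 : 0 < pe t z := Real.exp_pos _
          have h3 : pe t z * Real.log z ≤ pe t x * Real.log x :=
            mul_le_mul h1 hlzx (by linarith) (by linarith)
          have h4 : pe t z * Real.log z * Real.log z ≤ pe t x * Real.log x * Real.log x :=
            mul_le_mul h3 hlzx (by linarith) (mul_nonneg (by linarith) (by linarith))
          linarith
        · exfalso
          have := (‹t ∈ Set.Icc a b›).1
          linarith)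
      (fun t ht => by
        have ht1 : 1 ≤ t := ha.trans ht.1
        have h2 : 0 < pe t z := Real.exp_pos _
        have h3 : pe t x - pe t z ≤ pe t x * Real.log x - pe t z * Real.log z := by
          have h4 : pe t z ≤ pe t x := by
            unfold pe
            exact Real.exp_le_exp.2 (mul_le_mul_of_nonneg_left hlzx (by linarith))
          have h5 : (pe t x - pe t z) * 1 ≤ (pe t x - pe t z) * Real.log z :=
            mul_le_mul_of_nonneg_left hlz1 (by linarith)
          have h6 : pe t x * Real.log z ≤ pe t x * Real.log x := mul_le_mul_of_nonneg_left hlzx (by linarith)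
          linarith
        have h7 : P ^ (a - 1) * (x - z) ≤ pe t x - pe t z := by
          rw [pe_eq t hx1, pe_eq t hz1]
          have h8 : P ^ (a - 1) ≤ (z : ℝ) ^ (t - 1) := by
            calc P ^ (a - 1) ≤ (z : ℝ) ^ (a - 1) := Real.rpow_le_rpow (by linarith) hz (by linarith)
              _ ≤ (z : ℝ) ^ (t - 1) := Real.rpow_le_rpow_of_exponent_le (by linarith) (by linarith [ht.1])
          have h9 : (z : ℝ) ^ (t - 1) ≤ (x : ℝ) ^ (t - 1) := Real.rpow_le_rpow hzr.le hzx'.le (by linarith)
          have e1 : (x : ℝ) ^ t = (x : ℝ) ^ (t - 1) * x := by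
            rw [← Real.rpow_add_one hxr.ne']
            congr 1
            ring
          have e2 : (z : ℝ) ^ t = (z : ℝ) ^ (t - 1) * z := by
            rw [← Real.rpow_add_one hzr.ne']
            congr 1
            ring
          rw [e1, e2]
          have h10 : P ^ (a - 1) * (x - z) ≤ (z : ℝ) ^ (t - 1) * (x - z) := by gcongr
          have h11 : (z : ℝ) ^ (t - 1) * x ≤ (x : ℝ) ^ (t - 1) * x := by gcongr
          linarith
        have h12 : P ^ (a - 1) * (x - z) ≤ pe t x * Real.log x - pe t z * Real.log z := h7.trans h3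
        have h13 : l ≤ 2 * Real.pi * γ * (pe t x * Real.log x - pe t z * Real.log z) := by
          rw [hl]
          gcongr
        exact h13.trans (le_abs_self _))
    have e3 : ∀ t : ℝ, ee (γ * (pe t x - pe t z)) =
        Complex.exp (Complex.I * ((2 * Real.pi * γ * (pe t x - pe t z) : ℝ) : ℂ)) := by
      intro t
      unfold ee
      congr 1
      push_cast
      ring
    simp only [e3]
    refine h.trans ?_
    rw [hl, one_div_mul_one_div, div_le_div_iff₀ (by positivity) (by positivity)]
    have h14 := Real.pi_gt_three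
    have h15 : 0 < γ * P ^ (a - 1) * (x - z) := by positivity
    nlinarith
  rcases lt_or_gt_of_ne hβ with h | h
  · have e4 : ‖∫ t in a..b, ee (β * (pe t x - pe t z))‖ = ‖∫ t in a..b, ee (-β * (pe t x - pe t z))‖ := by
      have : ∫ t in a..b, ee (-β * (pe t x - pe t z)) =
          (starRingEnd ℂ) (∫ t in a..b, ee (β * (pe t x - pe t z))) := by
        rw [intervalIntegral.integral_of_le hab, intervalIntegral.integral_of_le hab, ← integral_conj]
        congr 1
        ext t
        rw [conj_ee]
        congr 1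
        ring
      rw [this, RCLike.norm_conj]
    rw [e4, abs_of_neg h]
    exact key (-β) (by linarith)
  · rw [abs_of_pos h]
    exact key β h

/-- **Mean square over one exponent.** -/
lemma ms_exp {X : Finset ℕ} {u N : ℕ} (hX : X ⊆ Ico u (u + N)) (hN : 1 ≤ N) {P : ℝ} (hP : 3 ≤ P)
    (hXP : ∀ x ∈ X, P ≤ (x : ℝ)) {a b : ℝ} (ha : 1 ≤ a) (hab : a ≤ b) {α : ℝ} (hα : α ≠ 0) :
    ∫ t in a..b, ‖S1 X (pe t) α‖ ^ 2 ≤ (b - a + 2) * N * (1 + Real.log N) * (1 + 1 / (|α| * P ^ (a - 1))) := by
  classical
  have hNr : (1 : ℝ) ≤ N := by exact_mod_cast hN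
  have hlog : 0 ≤ Real.log N := Real.log_nonneg hNr
  have hα0 : 0 < |α| := abs_pos.2 hα
  set D : ℝ := P ^ (a - 1) with hD
  have hD0 : 0 < D := Real.rpow_pos_of_pos (by linarith) _
  have e1 : ∀ t : ℝ, ((‖S1 X (pe t) α‖ ^ 2 : ℝ) : ℂ) = ∑ x ∈ X, ∑ z ∈ X, ee (α * (pe t x - pe t z)) := by
    intro t
    rw [← Complex.normSq_eq_norm_sq, ← Complex.mul_conj]
    unfold S1
    rw [map_sum, sum_mul_sum]
    refine sum_congr rfl fun x _ => sum_congr rfl fun z _ => ?_
    rw [conj_ee, ← ee_add]
    congr 1
    ring
  have hci : ∀ x z : ℕ, IntervalIntegrable (fun t : ℝ => ee (α * (pe t x - pe t z))) volume a b := by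
    intro x z
    exact (by fun_prop : Continuous fun t : ℝ => ee (α * (pe t x - pe t z))).intervalIntegrable _ _
  have e2 : ((∫ t in a..b, ‖S1 X (pe t) α‖ ^ 2 : ℝ) : ℂ) =
      ∑ x ∈ X, ∑ z ∈ X, ∫ t in a..b, ee (α * (pe t x - pe t z)) := by
    rw [← intervalIntegral.integral_ofReal]
    simp only [e1]
    rw [intervalIntegral.integral_finsetSum]
    · refine sum_congr rfl fun x _ => ?_
      rw [intervalIntegral.integral_finsetSum]
      intro z _
      exact hci x z
    · intro x _
      exact (by fun_prop : Continuous fun t : ℝ => ∑ z ∈ X, ee (α * (pe t x - pe t z))).intervalIntegrable _ _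
  have h0 : 0 ≤ ∫ t in a..b, ‖S1 X (pe t) α‖ ^ 2 :=
    intervalIntegral.integral_nonneg hab fun t _ => by positivity
  have h1 : (∫ t in a..b, ‖S1 X (pe t) α‖ ^ 2) = ‖((∫ t in a..b, ‖S1 X (pe t) α‖ ^ 2 : ℝ) : ℂ)‖ := by
    rw [Complex.norm_real, Real.norm_of_nonneg h0]
  rw [h1, e2]
  have h2 : ∀ x ∈ X, ‖∑ z ∈ X, ∫ t in a..b, ee (α * (pe t x - pe t z))‖ ≤
      (b - a) + 1 / (|α| * D) * (2 * (1 + Real.log N)) := by
    intro x hx
    rw [← add_sum_erase X _ hx]
    refine (norm_add_le _ _).trans ?_
    refine add_le_add ?_ ?_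
    · simp only [sub_self, mul_zero, ee_zero]
      rw [intervalIntegral.integral_const, norm_smul, norm_one, mul_one, Real.norm_of_nonneg (by linarith)]
    · refine (norm_sum_le _ _).trans ?_
      have h3 : ∀ z ∈ X.erase x, ‖∫ t in a..b, ee (α * (pe t x - pe t z))‖ ≤
          1 / (|α| * D) * (1 / |(x : ℝ) - z|) := by
        intro z hz
        rw [mem_erase] at hz
        rcases lt_or_gt_of_ne hz.1 with h | h
        · have h4 := int_pair ha hab hP hα h (hXP z hz.2)
          have : (0 : ℝ) < (x : ℝ) - z := by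
            have : (z : ℝ) < x := by exact_mod_cast h
            linarith
          rw [abs_of_pos this]
          exact h4
        · have h4 := int_pair ha hab hP (neg_ne_zero.2 hα) h (hXP x hx)
          have : (x : ℝ) - z < 0 := by
            have : (x : ℝ) < z := by exact_mod_cast h
            linarith
          rw [abs_of_neg this, neg_sub]
          rw [abs_neg] at h4
          have e5 : ∀ t : ℝ, ee (-α * (pe t z - pe t x)) = ee (α * (pe t x - pe t z)) := by
            intro t
            congr 1
            ring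
          simp only [e5] at h4
          exact h4
      refine (sum_le_sum h3).trans ?_
      rw [← mul_sum]
      exact mul_le_mul_of_nonneg_left (recip_sum hX hx) (by positivity)
  refine (norm_sum_le _ _).trans ((sum_le_sum h2).trans ?_)
  rw [sum_const, nsmul_eq_mul]
  have hXN : (X.card : ℝ) ≤ N := by
    have := card_le_card hX
    rw [Nat.card_Ico] at this
    exact_mod_cast (by omega : X.card ≤ N)
  have hba : 0 ≤ b - a := by linarith
  set q : ℝ := 1 / (|α| * D) with hq
  have hq0 : 0 ≤ q := by positivity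
  have h5 : b - a + q * (2 * (1 + Real.log N)) ≤ (b - a + 2) * ((1 + Real.log N) * (1 + q)) := by
    have h6 : 0 ≤ (b - a) * Real.log N := by positivity
    have h7 : 0 ≤ (b - a) * q := by positivity
    have h8 : 0 ≤ (b - a) * Real.log N * q := by positivity
    nlinarith
  calc (X.card : ℝ) * (b - a + q * (2 * (1 + Real.log N))) ≤ N * ((b - a + 2) * ((1 + Real.log N) * (1 + q))) :=
        mul_le_mul hXN h5 (by positivity) (by positivity)
    _ = _ := by ring

end Pool.Agent.Q43.MW
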