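import Mathlib
import Pool.Agent.Q43.MW.Ex1

set_option autoImplicit false

/-!
# Means over the exponents
-/

namespace Pool.Agent.Q43.MW

open MeasureTheory Complex Finset Filter

variable {s : ℕ}

/-- a general mean over parameters -/
lemma gen_A1 {ν : Measure (Fin s → ℝ)} [IsFiniteMeasure ν] {G : (Fin s → ℝ) × ℝ → ℂ} (hG : Continuous G) {N : ℝ}
    (hN : ∀ q, ‖G q‖ ≤ N) {α₁ α₂ Y K NP c : ℝ} (h1 : 0 < α₁) (h12 : α₁ ≤ α₂) (hY : 0 < Y) (hK : 0 < K)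
    (hNP : 0 < NP) (hc : 0 ≤ c)
    (hΦ : ∀ α : ℝ, α₁ < |α| → |α| ≤ α₂ → ∫ l, ‖G (l, α)‖ ^ 2 ∂ν ≤ (K * NP * (|α| * Y) ^ (-1 - c)) ^ 2) :
    Integrable (fun l => ∫ α in {α : ℝ | α₁ < |α| ∧ |α| ≤ α₂}, ‖G (l, α)‖) ν ∧
    ∫ l, (∫ α in {α : ℝ | α₁ < |α| ∧ |α| ≤ α₂}, ‖G (l, α)‖) ∂ν ≤
      (ν.real Set.univ + 1) * K * NP / Y * (α₁ * Y) ^ (-c) * (2 * Real.log (α₂ / α₁)) := by
  have hN0 : 0 ≤ N := (norm_nonneg _).trans (hN (0, 0))
  have hfin : IsFiniteMeasure (volume.restrict {α : ℝ | α₁ < |α| ∧ |α| ≤ α₂}) := by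
    refine isFiniteMeasure_restrict.2 (ne_of_lt ?_)
    refine lt_of_le_of_lt (measure_mono (t := Set.Icc (-α₂) α₂) ?_) measure_Icc_lt_top
    intro α hα
    exact abs_le.1 hα.2
  have hint : Integrable (fun q : (Fin s → ℝ) × ℝ => ‖G q‖)
      (ν.prod (volume.restrict {α : ℝ | α₁ < |α| ∧ |α| ≤ α₂})) := by
    refine (integrable_const N).mono' hG.norm.aestronglyMeasurable (Filter.Eventually.of_forall fun q => ?_)
    rw [Real.norm_of_nonneg (norm_nonneg _)]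
    exact hN q
  refine ⟨hint.integral_prod_left, ?_⟩
  rw [integral_integral_swap (f := fun l α => ‖G (l, α)‖) hint]
  rw [← (inv_int h1 h12).2, ← integral_const_mul]
  have hm : MeasurableSet {α : ℝ | α₁ < |α| ∧ |α| ≤ α₂} := (meas_high α₁).inter
    ((isClosed_le continuous_abs continuous_const).measurableSet : MeasurableSet {α : ℝ | |α| ≤ α₂})
  have hint2 : Integrable (fun q : ℝ × (Fin s → ℝ) => ‖G (q.2, q.1)‖)
      ((volume.restrict {α : ℝ | α₁ < |α| ∧ |α| ≤ α₂}).prod ν) := hint.swap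
  refine setIntegral_mono_on hint2.integral_prod_left ((inv_int h1 h12).1.const_mul _) hm fun α hα => ?_
  have hα0 : 0 < |α| := h1.trans hα.1
  have hM : 0 < |α| * Y := by positivity
  set t : ℝ := K * NP * (|α| * Y) ^ (-1 - c) with ht
  have ht0 : 0 < t := by positivity
  have hsq := hΦ α hα.1 hα.2
  have hcα : Continuous fun l : Fin s → ℝ => ‖G (l, α)‖ := (hG.comp (by fun_prop)).norm
  have hi1 : Integrable (fun l : Fin s → ℝ => ‖G (l, α)‖) ν := by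
    refine (integrable_const N).mono' hcα.aestronglyMeasurable (Filter.Eventually.of_forall fun l => ?_)
    rw [Real.norm_of_nonneg (norm_nonneg _)]
    exact hN _
  have hi2 : Integrable (fun l : Fin s → ℝ => ‖G (l, α)‖ ^ 2) ν := by
    refine (integrable_const (N ^ 2)).mono' (hcα.pow 2).aestronglyMeasurable (Filter.Eventually.of_forall fun l => ?_)
    rw [Real.norm_of_nonneg (by positivity)]
    have := hN (l, α)
    gcongr
  have h2 : ∫ l, ‖G (l, α)‖ ∂ν ≤ (ν.real Set.univ + 1) * t := by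
    have h3 : ∫ l, ‖G (l, α)‖ ∂ν ≤ ∫ l, (t + ‖G (l, α)‖ ^ 2 / t) ∂ν := by
      refine integral_mono hi1 ((integrable_const t).add (hi2.div_const t)) fun l => ?_
      simp only
      have h4 := norm_nonneg (G (l, α))
      rcases le_total ‖G (l, α)‖ t with h3 | h3
      · have : 0 ≤ ‖G (l, α)‖ ^ 2 / t := by positivity
        linarith
      · have : ‖G (l, α)‖ ≤ ‖G (l, α)‖ ^ 2 / t := by
          rw [le_div_iff₀ ht0]
          nlinarith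
        linarith
    refine h3.trans ?_
    rw [integral_add (integrable_const t) (hi2.div_const t), integral_const, integral_div, smul_eq_mul]
    have : (∫ l, ‖G (l, α)‖ ^ 2 ∂ν) / t ≤ t := by
      rw [div_le_iff₀ ht0]
      nlinarith
    linarith
  refine h2.trans ?_
  have h3 : (|α| * Y) ^ (-1 - c) ≤ (α₁ * Y) ^ (-c) * (1 / (|α| * Y)) := by
    rw [show (-1 - c : ℝ) = -c + (-1) by ring, Real.rpow_add hM, Real.rpow_neg_one, one_div]
    refine mul_le_mul_of_nonneg_right ?_ (by positivity)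
    refine Real.rpow_le_rpow_of_nonpos (by positivity) ?_ (by linarith)
    exact mul_le_mul_of_nonneg_right hα.1.le hY.le
  have hV : 0 ≤ ν.real Set.univ := measureReal_nonneg
  calc (ν.real Set.univ + 1) * t ≤ (ν.real Set.univ + 1) * (K * NP * ((α₁ * Y) ^ (-c) * (1 / (|α| * Y)))) := by
        rw [ht]
        gcongr
    _ = _ := by
      field_simp

/-- Lebesgue measure on a box -/
noncomputable def bxe (a b : Fin s → ℝ) : Measure (Fin s → ℝ) :=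
  Measure.pi fun i => volume.restrict (Set.Ioc (a i) (b i))

instance bxe_fin (a b : Fin s → ℝ) : IsFiniteMeasure (bxe a b) := by
  unfold bxe
  infer_instance

lemma bxe_eq (a b : Fin s → ℝ) : bxe a b = volume.restrict (Set.univ.pi fun i => Set.Ioc (a i) (b i)) := by
  unfold bxe
  rw [volume_pi, Measure.restrict_pi_pi]

/-- the powers with the exponents `c` -/
noncomputable def ve (c : Fin s → ℝ) (i : Fin s) (x : ℕ) : ℝ := pe (c i) x

lemma SS_ve (X : Fin s → Finset ℕ) (l c : Fin s → ℝ) (α : ℝ) :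
    SS X (ve c) l α = ∏ i, S1 (X i) (pe (c i)) (l i * α) := rfl

lemma SS_ve_cont (X : Fin s → Finset ℕ) (l : Fin s → ℝ) :
    Continuous fun q : (Fin s → ℝ) × ℝ => SS X (ve q.1) l q.2 := by
  unfold SS S1 ve pe
  fun_prop

lemma mean_ve (X : Fin s → Finset ℕ) (l : Fin s → ℝ) {a b : Fin s → ℝ} (hab : ∀ i, a i ≤ b i) (α : ℝ) :
    ∫ c, ‖SS X (ve c) l α‖ ^ 2 ∂(bxe a b) = ∏ i, ∫ t in (a i)..(b i), ‖S1 (X i) (pe t) (l i * α)‖ ^ 2 := by
  have e : ∀ c : Fin s → ℝ, ‖SS X (ve c) l α‖ ^ 2 = ∏ i, ‖S1 (X i) (pe (c i)) (l i * α)‖ ^ 2 := by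
    intro c
    rw [SS_ve, norm_prod, prod_pow]
  simp only [e]
  unfold bxe
  rw [integral_fintype_prod_eq_prod (fun i (t : ℝ) => ‖S1 (X i) (pe t) (l i * α)‖ ^ 2)]
  refine prod_congr rfl fun i _ => ?_
  rw [intervalIntegral.integral_of_le (hab i)]

/-- the range of a variable whose exponent lies between `a` and `b` -/
noncomputable def Xe (a b Y : ℝ) : Finset ℕ := Ico ⌈Y ^ b⁻¹⌉₊ ⌈8 * Y ^ a⁻¹⌉₊

lemma mem_Xe {a b Y : ℝ} {x : ℕ} : x ∈ Xe a b Y ↔ Y ^ b⁻¹ ≤ x ∧ (x : ℝ) < 8 * Y ^ a⁻¹ := by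
  unfold Xe
  rw [mem_Ico, Nat.ceil_le, Nat.lt_ceil]

/-- the number of the integers below the range -/
noncomputable def Ne (a Y : ℝ) : ℕ := ⌈8 * Y ^ a⁻¹⌉₊

lemma Xe_facts {a b Y : ℝ} (ha : 1 ≤ a) (hY : 1 ≤ Y) :
    Xe a b Y ⊆ Ico 0 (0 + Ne a Y) ∧ 1 ≤ Ne a Y ∧ (Ne a Y : ℝ) ≤ 9 * Y ^ a⁻¹ ∧
      Real.log (Ne a Y) ≤ 3 + Real.log Y := by
  have h1 : 1 ≤ Y ^ a⁻¹ := Real.one_le_rpow hY (by positivity)
  have h2 : (Ne a Y : ℝ) < 8 * Y ^ a⁻¹ + 1 := Nat.ceil_lt_add_one (by positivity)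
  have h3 : 8 * Y ^ a⁻¹ ≤ Ne a Y := Nat.le_ceil _
  have h4 : (1 : ℝ) ≤ Ne a Y := by linarith
  have h5 : Y ^ a⁻¹ ≤ Y := by
    calc Y ^ a⁻¹ ≤ Y ^ (1 : ℝ) := Real.rpow_le_rpow_of_exponent_le hY (inv_le_one_of_one_le₀ ha)
      _ = Y := Real.rpow_one Y
  refine ⟨?_, by exact_mod_cast h4, by linarith, ?_⟩
  · intro x hx
    unfold Xe at hx
    rw [mem_Ico] at hx ⊢
    unfold Ne
    omega
  · have h6 : Real.log (Ne a Y) ≤ Real.log (9 * Y) := Real.log_le_log (by linarith) (by linarith)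
    rw [Real.log_mul (by norm_num) (by positivity)] at h6
    have h7 : Real.log 9 ≤ 3 := by
      have h8 : Real.log 9 ≤ Real.log 16 := Real.log_le_log (by norm_num) (by norm_num)
      have h9 : Real.log 16 = 4 * Real.log 2 := by
        rw [show (16 : ℝ) = 2 ^ 4 by norm_num, Real.log_pow]; norm_num
      have := Real.log_two_lt_d9
      linarith
    linarith

/-- one factor of the mean square -/
lemma one_factor {a b ε₁ l Y : ℝ} (ha : 1 ≤ a) (hab : a ≤ b) (hb : b ≤ a + 1) (hl : 0 < l)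
    (hε : 1 - a⁻¹ - ε₁ ≤ (a - 1) / b) (hε0 : 0 ≤ ε₁) (hY : 1 ≤ Y) (hY3 : 3 ≤ Y ^ b⁻¹) {α : ℝ} (hα : 1 ≤ |α| * Y) :
    ∫ t in a..b, ‖S1 (Xe a b Y) (pe t) (l * α)‖ ^ 2 ≤
      (54 * (1 + l⁻¹) * (4 + Real.log Y)) * (Y ^ (a⁻¹ + ε₁) * max 1 (|α| ^ (-a⁻¹))) := by
  have hY0 : 0 < Y := by linarith
  have hα0 : α ≠ 0 := by
    rintro rfl
    simp at hα
    linarith
  have ha0 := abs_pos.2 hα0
  obtain ⟨f1, f2, f3, f4⟩ := Xe_facts (b := b) ha hY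
  have hlogY := Real.log_nonneg hY
  have h := ms_exp (X := Xe a b Y) f1 f2 hY3 (fun x hx => (mem_Xe.1 hx).1) ha hab
    (α := l * α) (mul_ne_zero hl.ne' hα0)
  refine h.trans ?_
  have hN1 : (1 : ℝ) ≤ Ne a Y := by exact_mod_cast f2
  have hlN := Real.log_nonneg hN1
  have e1 : (Y ^ b⁻¹) ^ (a - 1) = Y ^ ((a - 1) / b) := by
    rw [← Real.rpow_mul hY0.le]
    congr 1
    field_simp
  have e2 : 1 / (|l * α| * (Y ^ b⁻¹) ^ (a - 1)) ≤ l⁻¹ * (Y ^ ε₁ * (Y ^ a⁻¹ / (|α| * Y))) := by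
    rw [e1, abs_mul, abs_of_pos hl]
    have h1 : Y ^ (1 - a⁻¹ - ε₁) ≤ Y ^ ((a - 1) / b) := Real.rpow_le_rpow_of_exponent_le hY hε
    have h2 : 0 < Y ^ (1 - a⁻¹ - ε₁) := Real.rpow_pos_of_pos hY0 _
    calc 1 / (l * |α| * Y ^ ((a - 1) / b)) ≤ 1 / (l * |α| * Y ^ (1 - a⁻¹ - ε₁)) := by gcongr
      _ = l⁻¹ * (Y ^ ε₁ * (Y ^ a⁻¹ / (|α| * Y))) := by
          rw [Real.rpow_sub hY0, Real.rpow_sub hY0, Real.rpow_one]
          have := Real.rpow_pos_of_pos hY0 ε₁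
          have := Real.rpow_pos_of_pos hY0 a⁻¹
          field_simp
  set m : ℝ := max 1 (|α| ^ (-a⁻¹)) with hm
  have hm1 : 1 ≤ m := le_max_left _ _
  have hYε : 1 ≤ Y ^ ε₁ := Real.one_le_rpow hY hε0
  have e3 : Y ^ a⁻¹ / (|α| * Y) ≤ m := by
    have hM : 0 < |α| * Y := by linarith
    have h3 : (|α| * Y) ^ a⁻¹ ≤ |α| * Y := by
      calc (|α| * Y) ^ a⁻¹ ≤ (|α| * Y) ^ (1 : ℝ) :=
            Real.rpow_le_rpow_of_exponent_le hα (inv_le_one_of_one_le₀ ha)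
        _ = _ := Real.rpow_one _
    refine le_trans ?_ (le_max_right _ _)
    rw [div_le_iff₀ hM]
    calc Y ^ a⁻¹ = |α| ^ (-a⁻¹) * (|α| * Y) ^ a⁻¹ := by
          rw [Real.mul_rpow ha0.le hY0.le, Real.rpow_neg ha0.le]
          have := Real.rpow_pos_of_pos ha0 a⁻¹
          field_simp
      _ ≤ |α| ^ (-a⁻¹) * (|α| * Y) := by gcongr
  have hl' : 0 < l⁻¹ := by positivity
  have e4 : 1 + 1 / (|l * α| * (Y ^ b⁻¹) ^ (a - 1)) ≤ (1 + l⁻¹) * (Y ^ ε₁ * m) := by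
    have h5 : l⁻¹ * (Y ^ ε₁ * (Y ^ a⁻¹ / (|α| * Y))) ≤ l⁻¹ * (Y ^ ε₁ * m) := by gcongr
    have h6 : 1 ≤ Y ^ ε₁ * m := one_le_mul_of_one_le_of_one_le hYε hm1
    linarith
  have e5 : Y ^ (a⁻¹ + ε₁) = Y ^ a⁻¹ * Y ^ ε₁ := Real.rpow_add hY0 _ _
  have hYa : 0 < Y ^ a⁻¹ := Real.rpow_pos_of_pos hY0 _
  have h7 : 0 ≤ 1 + 1 / (|l * α| * (Y ^ b⁻¹) ^ (a - 1)) := by positivity
  calc (b - a + 2) * (Ne a Y : ℝ) * (1 + Real.log (Ne a Y)) * (1 + 1 / (|l * α| * (Y ^ b⁻¹) ^ (a - 1)))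
      ≤ 3 * (9 * Y ^ a⁻¹) * (4 + Real.log Y) * ((1 + l⁻¹) * (Y ^ ε₁ * m)) := by
        have h8 : b - a + 2 ≤ 3 := by linarith
        have h9 : 1 + Real.log (Ne a Y) ≤ 4 + Real.log Y := by linarith
        have h10 : 0 ≤ b - a + 2 := by linarith
        gcongr
    _ = 27 * (1 + l⁻¹) * (4 + Real.log Y) * (Y ^ (a⁻¹ + ε₁) * m) := by rw [e5]; ring
    _ ≤ _ := by
        have h11 : 0 < Y ^ (a⁻¹ + ε₁) := Real.rpow_pos_of_pos hY0 _
        have h12 : 0 ≤ (1 + l⁻¹) * (4 + Real.log Y) * (Y ^ (a⁻¹ + ε₁) * m) := by positivity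
        linarith

/-- the sum of the reciprocals -/
noncomputable def sg (a : Fin s → ℝ) : ℝ := ∑ i, (a i)⁻¹

/-- the ranges -/
noncomputable def XE (a b : Fin s → ℝ) (Y : ℝ) (i : Fin s) : Finset ℕ := Xe (a i) (b i) Y

/-- the constant -/
noncomputable def KE (l : Fin s → ℝ) : ℝ := ∏ i, (54 * (1 + (l i)⁻¹))

lemma KE_pos {l : Fin s → ℝ} (hl : ∀ i, 0 < l i) : 1 ≤ KE l := by
  unfold KE
  refine one_le_prod fun i _ => ?_
  have : 0 < (l i)⁻¹ := inv_pos.2 (hl i)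
  linarith

lemma phi_exp {a b l : Fin s → ℝ} {ε₁ Y : ℝ} (ha : ∀ i, 1 ≤ a i) (hab : ∀ i, a i ≤ b i) (hb : ∀ i, b i ≤ a i + 1)
    (hl : ∀ i, 0 < l i) (hε : ∀ i, 1 - (a i)⁻¹ - ε₁ ≤ (a i - 1) / b i) (hε0 : 0 ≤ ε₁) (hY : 1 ≤ Y)
    (hY3 : ∀ i, 3 ≤ Y ^ (b i)⁻¹) {β c : ℝ} (hc : 0 ≤ c) (hβ : 0 ≤ β) (hσ : (1 + β) * (1 + c) ≤ sg a / 2) {α : ℝ}
    (hα : 1 ≤ |α| * Y) (hα2 : |α| ≤ Y ^ β) :
    ∫ t, ‖SS (XE a b Y) (ve t) l α‖ ^ 2 ∂(bxe a b) ≤
      ((KE l * (4 + Real.log Y) ^ s) * Y ^ (sg a + s * ε₁) * (|α| * Y) ^ (-1 - c)) ^ 2 := by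
  have hY0 : 0 < Y := by linarith
  have hlogY := Real.log_nonneg hY
  have ha0 : 0 < |α| := by
    by_contra h
    push Not at h
    nlinarith [abs_nonneg α]
  have hM : 0 < |α| * Y := by linarith
  rw [mean_ve _ _ hab]
  have h1 : ∏ i, ∫ t in (a i)..(b i), ‖S1 (XE a b Y i) (pe t) (l i * α)‖ ^ 2 ≤
      ∏ i, ((54 * (1 + (l i)⁻¹) * (4 + Real.log Y)) * (Y ^ ((a i)⁻¹ + ε₁) * max 1 (|α| ^ (-(a i)⁻¹)))) :=
    prod_le_prod (fun i _ => intervalIntegral.integral_nonneg (hab i) fun t _ => by positivity)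
      fun i _ => one_factor (ha i) (hab i) (hb i) (hl i) (hε i) hε0 hY (hY3 i) hα
  refine h1.trans ?_
  have e1 : ∏ i, Y ^ ((a i)⁻¹ + ε₁) = Y ^ (sg a + s * ε₁) := by
    rw [← Real.rpow_sum_of_pos hY0]
    congr 1
    unfold sg
    rw [sum_add_distrib, sum_const, card_univ, Fintype.card_fin, nsmul_eq_mul]
  have p1 : ∏ i : Fin s, (54 * (1 + (l i)⁻¹) * (4 + Real.log Y)) = KE l * (4 + Real.log Y) ^ s := by
    unfold KE
    rw [prod_mul_distrib (f := fun i => 54 * (1 + (l i)⁻¹)), prod_const, card_univ, Fintype.card_fin]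
  have p2 : ∏ i, (Y ^ ((a i)⁻¹ + ε₁) * max 1 (|α| ^ (-(a i)⁻¹))) =
      Y ^ (sg a + s * ε₁) * ∏ i, max 1 (|α| ^ (-(a i)⁻¹)) := by
    rw [prod_mul_distrib, e1]
  rw [prod_mul_distrib, p1, p2]
  have hK := KE_pos hl
  set L : ℝ := (4 + Real.log Y) ^ s with hL
  have hL1 : 1 ≤ L := one_le_pow₀ (by linarith)
  set W : ℝ := Y ^ (sg a + s * ε₁) with hW
  have hW0 : 0 < W := Real.rpow_pos_of_pos hY0 _
  have h2c : 2 + 2 * c ≤ sg a := by nlinarith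
  have hmax : ∏ i, max 1 (|α| ^ (-(a i)⁻¹)) ≤ W * (|α| * Y) ^ (-(2 + 2 * c)) := by
    rcases le_total |α| 1 with h | h
    · have h3 : ∀ i, max 1 (|α| ^ (-(a i)⁻¹)) = |α| ^ (-(a i)⁻¹) := by
        intro i
        refine max_eq_right ?_
        have : 0 < (a i)⁻¹ := inv_pos.2 (by linarith [ha i])
        rw [Real.rpow_neg ha0.le, one_le_inv₀ (Real.rpow_pos_of_pos ha0 _)]
        exact Real.rpow_le_one ha0.le h this.le
      rw [prod_congr rfl fun i _ => h3 i, ← Real.rpow_sum_of_pos ha0, sum_neg_distrib]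
      have h4 : |α| ^ (-∑ i, (a i)⁻¹) = Y ^ (sg a) * (|α| * Y) ^ (-sg a) := by
        unfold sg
        rw [Real.mul_rpow ha0.le hY0.le, Real.rpow_neg hY0.le]
        have := Real.rpow_pos_of_pos hY0 (∑ i, (a i)⁻¹)
        field_simp
      rw [h4]
      have h5 : (|α| * Y) ^ (-sg a) ≤ (|α| * Y) ^ (-(2 + 2 * c)) :=
        Real.rpow_le_rpow_of_exponent_le hα (by linarith)
      have h6 : Y ^ (sg a) ≤ W := Real.rpow_le_rpow_of_exponent_le hY (by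
        have : 0 ≤ (s : ℝ) * ε₁ := by positivity
        linarith)
      gcongr
    · have h3 : ∀ i, max 1 (|α| ^ (-(a i)⁻¹)) = 1 := by
        intro i
        refine max_eq_left ?_
        have : 0 < (a i)⁻¹ := inv_pos.2 (by linarith [ha i])
        exact Real.rpow_le_one_of_one_le_of_nonpos h (by linarith)
      rw [prod_congr rfl fun i _ => h3 i, prod_const_one, Real.rpow_neg hM.le, ← div_eq_mul_inv,
        one_le_div (Real.rpow_pos_of_pos hM _)]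
      calc (|α| * Y) ^ (2 + 2 * c) ≤ (Y ^ β * Y) ^ (2 + 2 * c) := by
            refine Real.rpow_le_rpow hM.le ?_ (by linarith)
            gcongr
        _ = Y ^ ((β + 1) * (2 + 2 * c)) := by
            rw [← Real.rpow_add_one hY0.ne', ← Real.rpow_mul hY0.le]
        _ ≤ W := by
            refine Real.rpow_le_rpow_of_exponent_le hY ?_
            have : 0 ≤ (s : ℝ) * ε₁ := by positivity
            nlinarith
  have e2 : (KE l * L * W * (|α| * Y) ^ (-1 - c)) ^ 2 =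
      (KE l * L) * (KE l * L) * W * (W * (|α| * Y) ^ (-(2 + 2 * c))) := by
    have e3 : ((|α| * Y) ^ (-1 - c)) ^ 2 = (|α| * Y) ^ (-(2 + 2 * c)) := by
      rw [← Real.rpow_natCast, ← Real.rpow_mul hM.le]
      congr 1
      push_cast
      ring
    rw [mul_pow, e3]
    ring
  rw [e2]
  have hKL : 1 ≤ KE l * L := one_le_mul_of_one_le_of_one_le hK hL1
  have hP : 0 < (|α| * Y) ^ (-(2 + 2 * c)) := Real.rpow_pos_of_pos hM _
  calc KE l * L * (W * ∏ i, max 1 (|α| ^ (-(a i)⁻¹))) ≤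
        KE l * L * (W * (W * (|α| * Y) ^ (-(2 + 2 * c)))) := by gcongr
    _ = (KE l * L) * 1 * W * (W * (|α| * Y) ^ (-(2 + 2 * c))) := by ring
    _ ≤ _ := by gcongr

end Pool.Agent.Q43.MW
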