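import Mathlib
import Pool.Agent.Q43.MW.Ex2

set_option autoImplicit false

/-!
# The theorem for almost all exponents, in a small box
-/

namespace Pool.Agent.Q43.MW

open MeasureTheory Complex Finset Filter

lemma near_exp {a b t Y : ℝ} (ha : 1 ≤ a) (hat : a ≤ t) (htb : t ≤ b) (hY : 1 ≤ Y) (hY3 : 3 ≤ Y ^ b⁻¹) {u : ℝ}
    (hu1 : 2 * Y ≤ u) (hu2 : u ≤ 15 / 2 * Y) {h : ℝ} (hh : b * 8 ^ b * Y ^ (1 - b⁻¹) ≤ h) :
    1 ≤ (((Xe a b Y).filter fun x : ℕ => |pe t x - u| ≤ h).card : ℝ) := by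
  have hY0 : 0 < Y := by linarith
  have ht1 : 1 ≤ t := ha.trans hat
  have ht0 : 0 < t := by linarith
  have hb0 : 0 < b := by linarith
  have hti : t⁻¹ ≤ 1 := inv_le_one_of_one_le₀ ht1
  have hbt : b⁻¹ ≤ t⁻¹ := inv_anti₀ ht0 htb
  have hta : t⁻¹ ≤ a⁻¹ := inv_anti₀ (by linarith) hat
  set P : ℝ := Y ^ t⁻¹ with hP
  have hP3 : 3 ≤ P := hY3.trans (Real.rpow_le_rpow_of_exponent_le hY hbt)
  have hu0 : 0 < u := by linarith
  set q : ℝ := u ^ t⁻¹ with hq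
  have hq0 : 0 < q := Real.rpow_pos_of_pos hu0 _
  have hqt : q ^ t = u := by
    rw [hq, ← Real.rpow_mul hu0.le, inv_mul_cancel₀ ht0.ne', Real.rpow_one]
  have hPq : P ≤ q := Real.rpow_le_rpow hY0.le (by linarith) (by positivity)
  have hq8 : q ≤ 15 / 2 * P := by
    calc q ≤ (15 / 2 * Y) ^ t⁻¹ := Real.rpow_le_rpow hu0.le hu2 (by positivity)
      _ = (15 / 2) ^ t⁻¹ * P := Real.mul_rpow (by norm_num) hY0.le
      _ ≤ (15 / 2) * P := by
          have : (15 / 2 : ℝ) ^ t⁻¹ ≤ 15 / 2 := by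
            calc (15 / 2 : ℝ) ^ t⁻¹ ≤ (15 / 2) ^ (1 : ℝ) := Real.rpow_le_rpow_of_exponent_le (by norm_num) hti
              _ = 15 / 2 := Real.rpow_one _
          gcongr
  set x := ⌈q⌉₊ with hx
  have hx1 : q ≤ x := Nat.le_ceil q
  have hx2 : (x : ℝ) < q + 1 := Nat.ceil_lt_add_one hq0.le
  have hx8 : (x : ℝ) < 8 * P := by linarith
  have hxpos : 1 ≤ x := by
    have : (0 : ℝ) < x := by linarith
    exact_mod_cast this
  have hmem : x ∈ (Xe a b Y).filter fun x : ℕ => |pe t x - u| ≤ h := by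
    rw [mem_filter, mem_Xe]
    refine ⟨⟨?_, ?_⟩, ?_⟩
    · exact ((Real.rpow_le_rpow_of_exponent_le hY hbt).trans hPq).trans hx1
    · have : P ≤ Y ^ a⁻¹ := Real.rpow_le_rpow_of_exponent_le hY hta
      linarith
    · rw [pe_eq t hxpos, ← hqt]
      refine (rpow_lip (M := x) ht1 (Nat.cast_nonneg x) le_rfl hq0.le hx1).trans (le_trans ?_ hh)
      have h1 : |(x : ℝ) - q| ≤ 1 := by
        rw [abs_of_nonneg (by linarith)]
        linarith
      have h2 : (x : ℝ) ^ (t - 1) ≤ 8 ^ b * Y ^ (1 - b⁻¹) := by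
        calc (x : ℝ) ^ (t - 1) ≤ (8 * P) ^ (t - 1) := Real.rpow_le_rpow (Nat.cast_nonneg x) hx8.le (by linarith)
          _ = 8 ^ (t - 1) * P ^ (t - 1) := Real.mul_rpow (by norm_num) (by positivity)
          _ ≤ 8 ^ b * Y ^ (1 - b⁻¹) := by
              have h3 : (8 : ℝ) ^ (t - 1) ≤ 8 ^ b := Real.rpow_le_rpow_of_exponent_le (by norm_num) (by linarith)
              have h4 : P ^ (t - 1) ≤ Y ^ (1 - b⁻¹) := by
                rw [hP, ← Real.rpow_mul hY0.le]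
                refine Real.rpow_le_rpow_of_exponent_le hY ?_
                have : t⁻¹ * (t - 1) = 1 - t⁻¹ := by field_simp
                rw [this]
                linarith
              have : (0 : ℝ) < P ^ (t - 1) := Real.rpow_pos_of_pos (by linarith) _
              gcongr
      have h5 : 0 ≤ (x : ℝ) ^ (t - 1) := by positivity
      calc t * (x : ℝ) ^ (t - 1) * |(x : ℝ) - q| ≤ b * (8 ^ b * Y ^ (1 - b⁻¹)) * 1 := by gcongr
        _ = _ := by ring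
  have : 0 < ((Xe a b Y).filter fun x : ℕ => |pe t x - u| ≤ h).card := card_pos.2 ⟨x, hmem⟩
  exact_mod_cast this

lemma window_exp {a b t Y ε : ℝ} (ha : 1 ≤ a) (hat : a ≤ t) (htb : t ≤ b) (hY : 1 ≤ Y) (hε0 : 0 < ε)
    (hε : ε ≤ 1 / 2) (hlarge : 2 ≤ ε / b * Y ^ b⁻¹) {z : ℝ} (hz1 : 2 * Y ≤ z) (hz2 : z ≤ 5 * Y) :
    ε / (2 * b) * Y ^ b⁻¹ ≤
      (((Xe a b Y).filter fun x : ℕ => z * (1 - ε) ≤ pe t x ∧ pe t x ≤ z).card : ℝ) := by
  have hY0 : 0 < Y := by linarith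
  have ht1 : 1 ≤ t := ha.trans hat
  have ht0 : 0 < t := by linarith
  have hb0 : 0 < b := by linarith
  have hb1 : 1 ≤ b := by linarith
  have hti : t⁻¹ ≤ 1 := inv_le_one_of_one_le₀ ht1
  have hbt : b⁻¹ ≤ t⁻¹ := inv_anti₀ ht0 htb
  have hta : t⁻¹ ≤ a⁻¹ := inv_anti₀ (by linarith) hat
  set P : ℝ := Y ^ t⁻¹ with hP
  have hP0 : 0 < P := Real.rpow_pos_of_pos hY0 _
  have hPb : Y ^ b⁻¹ ≤ P := Real.rpow_le_rpow_of_exponent_le hY hbt
  have hPt : P ^ t = Y := by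
    rw [hP, ← Real.rpow_mul hY0.le, inv_mul_cancel₀ ht0.ne', Real.rpow_one]
  set ε₁ : ℝ := ε / b with hε₁
  have hε₁0 : 0 < ε₁ := by positivity
  have hε₁1 : ε₁ ≤ ε := by rw [hε₁]; exact div_le_self hε0.le hb1
  have hz0 : 0 < z := by linarith
  set q : ℝ := z ^ t⁻¹ with hq
  have hq0 : 0 < q := Real.rpow_pos_of_pos hz0 _
  have hqt : q ^ t = z := by
    rw [hq, ← Real.rpow_mul hz0.le, inv_mul_cancel₀ ht0.ne', Real.rpow_one]
  have hPq : P ≤ q := Real.rpow_le_rpow hY0.le (by linarith) (by positivity)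
  have hq5 : q ≤ 5 * P := by
    calc q ≤ (5 * Y) ^ t⁻¹ := Real.rpow_le_rpow hz0.le hz2 (by positivity)
      _ = 5 ^ t⁻¹ * P := Real.mul_rpow (by norm_num) hY0.le
      _ ≤ 5 * P := by
          have : (5 : ℝ) ^ t⁻¹ ≤ 5 := by
            calc (5 : ℝ) ^ t⁻¹ ≤ 5 ^ (1 : ℝ) := Real.rpow_le_rpow_of_exponent_le (by norm_num) hti
              _ = 5 := Real.rpow_one _
          gcongr
  have h1e : 0 ≤ 1 - ε₁ := by linarith
  have hsub : Icc ⌈q * (1 - ε₁)⌉₊ ⌊q⌋₊ ⊆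
      (Xe a b Y).filter fun x : ℕ => z * (1 - ε) ≤ pe t x ∧ pe t x ≤ z := by
    intro x hx
    rw [mem_Icc, Nat.ceil_le, Nat.le_floor_iff hq0.le] at hx
    have hxpos : 1 ≤ x := by
      have h2 : 0 < q * (1 - ε₁) := mul_pos hq0 (by linarith)
      have : (0 : ℝ) < x := lt_of_lt_of_le h2 hx.1
      exact_mod_cast this
    have h1 : (x : ℝ) ^ t ≤ z := by
      rw [← hqt]
      exact Real.rpow_le_rpow (Nat.cast_nonneg x) hx.2 ht0.le
    have h2 : z * (1 - ε) ≤ (x : ℝ) ^ t := by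
      have h3 : (q * (1 - ε₁)) ^ t ≤ (x : ℝ) ^ t := Real.rpow_le_rpow (by positivity) hx.1 ht0.le
      refine le_trans ?_ h3
      rw [Real.mul_rpow hq0.le h1e, hqt]
      refine mul_le_mul_of_nonneg_left ?_ hz0.le
      have h4 := one_add_mul_self_le_rpow_one_add (s := -ε₁) (by linarith) ht1
      have h5 : t * ε₁ ≤ ε := by
        rw [hε₁]
        calc t * (ε / b) ≤ b * (ε / b) := by gcongr
          _ = ε := by field_simp
      rw [← sub_eq_add_neg] at h4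
      linarith
    rw [mem_filter, mem_Xe, pe_eq t hxpos]
    refine ⟨⟨?_, ?_⟩, h2, h1⟩
    · have h6 : Y ≤ (x : ℝ) ^ t := by nlinarith
      have h7 : P ≤ x := by
        by_contra h8
        push Not at h8
        have h9 : (x : ℝ) ^ t < P ^ t := Real.rpow_lt_rpow (Nat.cast_nonneg x) h8 ht0
        rw [hPt] at h9
        linarith
      exact hPb.trans h7
    · have h6 : P ≤ Y ^ a⁻¹ := Real.rpow_le_rpow_of_exponent_le hY hta
      have h7 : (x : ℝ) ≤ q := hx.2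
      linarith
  have hcard := card_le_card hsub
  rw [Nat.card_Icc] at hcard
  have h9 : q < (⌊q⌋₊ : ℝ) + 1 := Nat.lt_floor_add_one q
  have h10 : (⌈q * (1 - ε₁)⌉₊ : ℝ) < q * (1 - ε₁) + 1 := Nat.ceil_lt_add_one (by positivity)
  have h11 : (⌊q⌋₊ : ℝ) + 1 - ⌈q * (1 - ε₁)⌉₊ ≤ ((⌊q⌋₊ + 1 - ⌈q * (1 - ε₁)⌉₊ : ℕ) : ℝ) := by
    rcases le_total ⌈q * (1 - ε₁)⌉₊ (⌊q⌋₊ + 1) with h | h
    · rw [Nat.cast_sub h]
      push_cast
      linarith
    · have : ((⌊q⌋₊ + 1 : ℕ) : ℝ) ≤ ⌈q * (1 - ε₁)⌉₊ := by exact_mod_cast h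
      push_cast at this
      have h12 : (0 : ℝ) ≤ ((⌊q⌋₊ + 1 - ⌈q * (1 - ε₁)⌉₊ : ℕ) : ℝ) := Nat.cast_nonneg _
      linarith
  have h13 : ((⌊q⌋₊ + 1 - ⌈q * (1 - ε₁)⌉₊ : ℕ) : ℝ) ≤
      (((Xe a b Y).filter fun x : ℕ => z * (1 - ε) ≤ pe t x ∧ pe t x ≤ z).card : ℝ) := by
    exact_mod_cast hcard
  have h14 : ε₁ * Y ^ b⁻¹ ≤ ε₁ * q := by
    have := hPb.trans hPq
    gcongr
  have h15 : ε / (2 * b) * Y ^ b⁻¹ = ε₁ * Y ^ b⁻¹ / 2 := by rw [hε₁]; field_simp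
  rw [h15]
  have h16 : 2 ≤ ε₁ * Y ^ b⁻¹ := hlarge
  nlinarith

variable {n : ℕ}

/-- the large scale -/
noncomputable def He (b : Fin (n + 1) → ℝ) (lb Y : ℝ) : ℝ := lb * (b 0 * 8 ^ b 0) * Y ^ (1 - (b 0)⁻¹)

/-- the constant of the main term -/
noncomputable def ce (b : Fin (n + 1) → ℝ) (la lb : ℝ) : ℝ :=
  Real.exp (-Real.pi) * (∏ i : Fin n, la / (2 * ((n : ℝ) + 1) * lb) / (2 * b i.succ)) / (lb * (b 0 * 8 ^ b 0))

lemma ce_pos {b : Fin (n + 1) → ℝ} (hb : ∀ i, 1 ≤ b i) {la lb : ℝ} (ha : 0 < la) (hlb : 0 < lb) : 0 < ce b la lb := by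
  unfold ce
  have h : ∀ i, (0 : ℝ) < b i := fun i => by linarith [hb i]
  have := h 0
  have h2 : 0 < ∏ i : Fin n, la / (2 * ((n : ℝ) + 1) * lb) / (2 * b i.succ) :=
    prod_pos fun i _ => by have := h i.succ; positivity
  have := Real.exp_pos (-Real.pi)
  positivity

lemma main_exp {a b l : Fin (n + 1) → ℝ} {la lb : ℝ} (ha : ∀ i, 1 ≤ a i) (hab : ∀ i, a i ≤ b i) (hla : 0 < la)
    (hlab : la ≤ lb) (hl : ∀ i, la < l i ∧ l i ≤ lb) :
    ∀ᶠ Y : ℝ in atTop, ∀ c : Fin (n + 1) → ℝ, (∀ i, a i ≤ c i ∧ c i ≤ b i) → ∀ y : ℝ,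
      2 * Y * ∑ i, l i ≤ y → y ≤ 5 * Y * ∑ i, l i → ∀ η : ℝ, 0 < η →
        ce b la lb * η * Y ^ (sg b - 1) ≤ η / He b lb Y * RR (XE a b Y) (ve c) l (He b lb Y) y := by
  have hlb : 0 < lb := hla.trans_le hlab
  have hb1 : ∀ i, 1 ≤ b i := fun i => (ha i).trans (hab i)
  have hb0 : ∀ i, 0 < b i := fun i => by linarith [hb1 i]
  set ε : ℝ := la / (2 * ((n : ℝ) + 1) * lb) with hε
  have hε0 : 0 < ε := by positivity
  have hε1 : ε ≤ 1 / 2 := by
    rw [hε, div_le_div_iff₀ (by positivity) (by norm_num)]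
    have : (0 : ℝ) ≤ n := Nat.cast_nonneg n
    nlinarith [mul_nonneg this hlb.le]
  have h1 : ∀ᶠ Y : ℝ in atTop, ∀ i, 2 ≤ ε / b i * Y ^ (b i)⁻¹ := by
    rw [eventually_all]
    intro i
    have hbi := hb0 i
    filter_upwards [const_le (2 / (ε / b i)) (κ := (b i)⁻¹) (by positivity)] with Y hY
    rw [div_le_iff₀ (by positivity)] at hY
    linarith
  filter_upwards [h1, const_le 3 (κ := (b 0)⁻¹) (inv_pos.2 (hb0 0)), eventually_ge_atTop 1]
    with Y hY1 hY2 hY3 c hc y hy1 hy2 η hη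
  have hY0 : 0 < Y := by linarith
  have hbz := hb0 0
  have hH0 : 0 < He b lb Y := by
    unfold He
    positivity
  have hd := disc (X := XE a b Y) (v := ve c) (m₀ := 1)
    (m := fun i : Fin n => ε / (2 * b i.succ) * Y ^ (b i.succ)⁻¹)
    hla hlab hH0 hY0 hl hy1 hy2 (by norm_num) (fun u hu1 hu2 => by
      refine near_exp (ha 0) (hc 0).1 (hc 0).2 hY3 hY2 hu1 hu2 (le_of_eq ?_)
      unfold He
      field_simp) (fun i => by have := hb0 i.succ; positivity) (fun i z hz1 hz2 =>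
        window_exp (ha i.succ) (hc i.succ).1 (hc i.succ).2 hY3 hε0 hε1 (hY1 i.succ) hz1 hz2)
  rw [one_mul, prod_mul_distrib, ← Real.rpow_sum_of_pos hY0] at hd
  have hsig : sg b = (b 0)⁻¹ + ∑ i : Fin n, (b i.succ)⁻¹ := by
    unfold sg
    rw [Fin.sum_univ_succ]
  calc ce b la lb * η * Y ^ (sg b - 1) = η / He b lb Y * (Real.exp (-Real.pi) *
        ((∏ i : Fin n, ε / (2 * b i.succ)) * Y ^ (∑ i : Fin n, (b i.succ)⁻¹))) := by
        unfold ce He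
        rw [← hε]
        have e : Y ^ (sg b - 1) = Y ^ (∑ i : Fin n, (b i.succ)⁻¹) / Y ^ (1 - (b 0)⁻¹) := by
          rw [← Real.rpow_sub hY0, hsig]
          congr 1
          ring
        rw [e]
        have : 0 < Y ^ (1 - (b 0)⁻¹) := Real.rpow_pos_of_pos hY0 _
        have h8 : (0 : ℝ) < 8 ^ b 0 := by positivity
        field_simp
    _ ≤ _ := mul_le_mul_of_nonneg_left hd (by positivity)

lemma NN_exp {a b : Fin (n + 1) → ℝ} (ha : ∀ i, 1 ≤ a i) {Y : ℝ} (hY : 1 ≤ Y) :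
    NN (XE a b Y) ≤ 9 ^ (n + 1) * Y ^ sg a := by
  unfold NN
  have hY0 : 0 < Y := by linarith
  calc ∏ i, ((XE a b Y i).card : ℝ) ≤ ∏ i, (9 * Y ^ (a i)⁻¹) := by
        refine prod_le_prod (fun i _ => Nat.cast_nonneg _) fun i _ => ?_
        obtain ⟨f1, -, f3, -⟩ := Xe_facts (b := b i) (ha i) hY
        have h1 := card_le_card f1
        rw [Nat.card_Ico] at h1
        have h2 : ((XE a b Y i).card : ℝ) ≤ Ne (a i) Y := by
          have : (XE a b Y i).card ≤ Ne (a i) Y := by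
            unfold XE
            omega
          exact_mod_cast this
        exact h2.trans f3
    _ = _ := by
        rw [prod_mul_distrib, prod_const, card_univ, Fintype.card_fin, ← Real.rpow_sum_of_pos hY0]
        rfl

/-- the middle frequencies are small for almost all exponents -/
lemma bc_exp {a b l : Fin (n + 1) → ℝ} {ε₁ β c h C : ℝ} (ha : ∀ i, 1 ≤ a i) (hab : ∀ i, a i ≤ b i)
    (hb : ∀ i, b i ≤ a i + 1) (hl : ∀ i, 0 < l i) (hε : ∀ i, 1 - (a i)⁻¹ - ε₁ ≤ (a i - 1) / b i) (hε0 : 0 ≤ ε₁)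
    (hc : 0 ≤ c) (hβ : 0 ≤ β) (hσ : (1 + β) * (1 + c) ≤ sg a / 2) (hh : 0 < h) (hh1 : h ≤ 1) (hC : 0 < C)
    (hmid : sg a + ((n + 1 : ℕ) : ℝ) * ε₁ - h * c < sg b) :
    ∀ᵐ t ∂(bxe a b), ∀ᶠ j in atTop,
      (∫ α in {α : ℝ | Yj j ^ (h - 1) < |α| ∧ |α| ≤ Yj j ^ β}, ‖SS (XE a b (Yj j)) (ve t) l α‖) <
        C * Yj j ^ (sg b - 1) := by
  set κ : ℝ := (sg b - (sg a + ((n + 1 : ℕ) : ℝ) * ε₁ - h * c)) / 2 with hκ
  have hκ0 : 0 < κ := by rw [hκ]; linarith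
  set W := (bxe a b).real Set.univ + 1 with hW
  have hW0 : 0 ≤ W := by
    have : 0 ≤ (bxe a b).real Set.univ := measureReal_nonneg
    linarith
  have hK := KE_pos hl
  set V : ℝ := W * KE l * (2 * (1 + β)) / C with hV
  have hY3 : ∀ᶠ Y : ℝ in atTop, ∀ i, 3 ≤ Y ^ (b i)⁻¹ := by
    rw [eventually_all]
    intro i
    exact const_le 3 (inv_pos.2 (by linarith [ha i, hab i]))
  have hgen : ∀ᶠ Y : ℝ in atTop,
      Integrable (fun t => ∫ α in {α : ℝ | Y ^ (h - 1) < |α| ∧ |α| ≤ Y ^ β}, ‖SS (XE a b Y) (ve t) l α‖) (bxe a b) ∧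
      ∫ t, (∫ α in {α : ℝ | Y ^ (h - 1) < |α| ∧ |α| ≤ Y ^ β}, ‖SS (XE a b Y) (ve t) l α‖) ∂(bxe a b) ≤
        C * Y ^ (sg b - 1) * Y ^ (-κ) := by
    filter_upwards [log_pow_le V (n + 2) hκ0, eventually_ge_atTop 1, hY3] with Y h4 h5 h6
    have hY0 : 0 < Y := by linarith
    have hlogY := Real.log_nonneg h5
    have hα0 : 0 < Y ^ (h - 1) := Real.rpow_pos_of_pos hY0 _
    have h12 : Y ^ (h - 1) ≤ Y ^ β := Real.rpow_le_rpow_of_exponent_le h5 (by linarith)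
    have hMe : Y ^ (h - 1) * Y = Y ^ h := by
      rw [← Real.rpow_add_one hY0.ne']
      congr 1
      ring
    have hY1h : 1 ≤ Y ^ h := Real.one_le_rpow h5 hh.le
    have hYs : 0 < Y ^ (sg a + ((n + 1 : ℕ) : ℝ) * ε₁) := Real.rpow_pos_of_pos hY0 _
    have hg := gen_A1 (ν := bxe a b) (G := fun q => SS (XE a b Y) (ve q.1) l q.2) (SS_ve_cont _ l)
      (N := NN (XE a b Y)) (fun q => SS_le _ _ l q.2) hα0 h12 hY0
      (by positivity : 0 < KE l * (4 + Real.log Y) ^ (n + 1)) hYs hc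
      (fun α g1 g2 => phi_exp ha hab hb hl hε hε0 h5 h6 hc hβ hσ (by
        calc (1 : ℝ) ≤ Y ^ (h - 1) * Y := by rw [hMe]; exact hY1h
          _ ≤ |α| * Y := by gcongr) g2)
    refine ⟨hg.1, hg.2.trans ?_⟩
    have hlog : Real.log (Y ^ β / Y ^ (h - 1)) ≤ (1 + β) * (4 + Real.log Y) := by
      rw [← Real.rpow_sub hY0, Real.log_rpow hY0]
      nlinarith
    have hlog0 : 0 ≤ Real.log (Y ^ β / Y ^ (h - 1)) := Real.log_nonneg ((one_le_div hα0).2 h12)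
    rw [hMe, ← Real.rpow_mul hY0.le, ← hW]
    have hp2 : 0 < Y ^ (h * -c) := Real.rpow_pos_of_pos hY0 _
    calc W * (KE l * (4 + Real.log Y) ^ (n + 1)) * Y ^ (sg a + ((n + 1 : ℕ) : ℝ) * ε₁) / Y * Y ^ (h * -c) *
          (2 * Real.log (Y ^ β / Y ^ (h - 1)))
        ≤ W * (KE l * (4 + Real.log Y) ^ (n + 1)) * Y ^ (sg a + ((n + 1 : ℕ) : ℝ) * ε₁) / Y * Y ^ (h * -c) *
          (2 * ((1 + β) * (4 + Real.log Y))) := by gcongr
      _ = C * (Y ^ (sg a + ((n + 1 : ℕ) : ℝ) * ε₁) / Y * Y ^ (h * -c)) * (V * (4 + Real.log Y) ^ (n + 2)) := by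
          rw [hV]
          field_simp
          ring
      _ ≤ C * (Y ^ (sg a + ((n + 1 : ℕ) : ℝ) * ε₁) / Y * Y ^ (h * -c)) * Y ^ κ := by gcongr
      _ = C * Y ^ (sg b - 1) * Y ^ (-κ) := by
          rw [← Real.rpow_sub_one hY0.ne', ← Real.rpow_add hY0, mul_assoc, mul_assoc, ← Real.rpow_add hY0,
            ← Real.rpow_add hY0]
          congr 2
          rw [hκ]
          ring
  obtain ⟨j₀, hj₀⟩ := eventually_atTop.1 (Yj_tendsto.eventually hgen)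
  have hbc := bc (μ := bxe a b)
    (f := fun j t => if j₀ ≤ j then ∫ α in {α : ℝ | Yj j ^ (h - 1) < |α| ∧ |α| ≤ Yj j ^ β},
      ‖SS (XE a b (Yj j)) (ve t) l α‖ else 0)
    (E := fun j => C * Yj j ^ (sg b - 1) * Yj j ^ (-κ)) (θ := fun j => C * Yj j ^ (sg b - 1)) (j₀ := j₀)
    (fun j => by
      by_cases hj : j₀ ≤ j
      · simp only [hj, if_true]
        exact (hj₀ j hj).1
      · simp only [hj, if_false]
        exact integrable_const 0)
    (fun j t => by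
      by_cases hj : j₀ ≤ j
      · simp only [hj, if_true]
        exact integral_nonneg fun _ => norm_nonneg _
      · simp only [hj, if_false]
        exact le_rfl) (fun j hj => by
        simp only [hj, if_true]
        exact (hj₀ j hj).2)
    (fun j => mul_pos hC (Real.rpow_pos_of_pos (Yj_pos j) _)) (by
      refine (Yj_summable hκ0).congr fun j => ?_
      have := Real.rpow_pos_of_pos (Yj_pos j) (sg b - 1)
      rw [mul_div_cancel_left₀ _ (by positivity)])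
  filter_upwards [hbc] with t ht
  filter_upwards [ht, eventually_ge_atTop j₀] with j h1 h2
  simpa only [h2, if_true] using h1

end Pool.Agent.Q43.MW
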