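import Mathlib
import Pool.Agent.Q43.MW.Ex3

set_option autoImplicit false

/-!
# The theorem for almost all exponents
-/

namespace Pool.Agent.Q43.MW

open MeasureTheory Complex Finset Filter

variable {n : ℕ}

/-- `y` is within `y ^ (-δ)` of a value `l_1 x_1 ^ c_1 + ... + l_s x_s ^ c_s` at positive integers -/
def RepE (l : Fin (n + 1) → ℝ) (δ : ℝ) (c : Fin (n + 1) → ℝ) (y : ℝ) : Prop :=
  ∃ x : Fin (n + 1) → ℕ, (∀ i, 1 ≤ x i) ∧ |(∑ i, l i * (x i : ℝ) ^ c i) - y| < y ^ (-δ)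

lemma det_exp {a b l : Fin (n + 1) → ℝ} {la lb δ κ₁ h : ℝ} (ha : ∀ i, 1 ≤ a i) (hab : ∀ i, a i ≤ b i) (hla : 0 < la)
    (hlab : la ≤ lb) (hlb1 : 1 ≤ lb) (hl : ∀ i, la < l i ∧ l i ≤ lb) (hδ : 0 ≤ δ) (hκ : 0 < κ₁)
    (hhle : h ≤ 1) (hlow : sg a - sg b + 3 * h < 2 * (b 0)⁻¹) :
    ∀ᶠ Y : ℝ in atTop, ∀ c : Fin (n + 1) → ℝ, (∀ i, a i ≤ c i ∧ c i ≤ b i) →
      (∫ α in {α : ℝ | Y ^ (h - 1) < |α| ∧ |α| ≤ Y ^ (δ + 3 * κ₁)}, ‖SS (XE a b Y) (ve c) l α‖) <
        ce b la lb / 8 * Y ^ (sg b - 1) → ∀ y : ℝ, 2 * Y * ∑ i, l i ≤ y → y ≤ 4 * Y * ∑ i, l i → RepE l δ c y := by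
  have hlb : 0 < lb := hla.trans_le hlab
  have hb1 : ∀ i, 1 ≤ b i := fun i => (ha i).trans (hab i)
  have hb0 : ∀ i, 0 < b i := fun i => by linarith [hb1 i]
  have hce := ce_pos hb1 hla hlb
  have hLpos : 0 < ∑ i, l i := sum_pos (fun i _ => hla.trans (hl i).1) univ_nonempty
  set L := ∑ i, l i with hL
  set β : ℝ := δ + 3 * κ₁ with hβ
  have hβ0 : 0 ≤ β := by positivity
  set h₀ : ℝ := lb * (b 0 * 8 ^ b 0) with hh₀
  have hh1 : 1 ≤ h₀ := by
    have h8 : (1 : ℝ) ≤ 8 ^ b 0 := Real.one_le_rpow (by norm_num) (hb0 0).le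
    rw [hh₀]
    exact one_le_mul_of_one_le_of_one_le hlb1 (one_le_mul_of_one_le_of_one_le (hb1 0) h8)
  set C₆ : ℝ := 2 * Real.pi * h₀ ^ 2 * 9 ^ (n + 1) with hC₆
  have hC₆0 : 0 < C₆ := by have := Real.pi_pos; positivity
  set e₆ : ℝ := 2 * (b 0)⁻¹ - (sg a - sg b + 3 * h) with he₆
  have he₆0 : 0 < e₆ := by rw [he₆]; linarith
  set A₀ : ℝ := 1 + β + |sg a| + |sg b| with hA₀
  filter_upwards [main_exp ha hab hla hlab hl, const_le (8 * C₆ / ce b la lb) he₆0,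
    exp_decay (8 * (2 * 9 ^ (n + 1)) / ce b la lb) A₀ (ε := κ₁) hκ, const_le 2 hκ, const_le ((4 * L) ^ δ) hκ,
    eventually_ge_atTop 1, eventually_ge_atTop (1 / L), const_le 3 (κ := (b 0)⁻¹) (inv_pos.2 (hb0 0))]
    with Y hY1 hY2 hY3 hY4 hY5 hY6 hY7 hY8 c hc hA1 y hy1 hy2
  have hY0 : 0 < Y := by linarith
  have hyL : 0 < y := lt_of_lt_of_le (by positivity) hy1
  by_contra hno
  set η : ℝ := Y ^ (-β + κ₁) with hη
  have hη0 : 0 < η := Real.rpow_pos_of_pos hY0 _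
  have hη1 : η ≤ 1 := Real.rpow_le_one_of_one_le_of_nonpos hY6 (by rw [hβ]; linarith)
  have hinv : (b 0)⁻¹ ≤ 1 := inv_le_one_of_one_le₀ (hb1 0)
  set H : ℝ := He b lb Y with hH
  have hH1 : 1 ≤ H := by
    rw [hH]
    unfold He
    exact one_le_mul_of_one_le_of_one_le hh1 (Real.one_le_rpow hY6 (by linarith))
  have hηH : η ≤ H := hη1.trans hH1
  have hα0 : 0 < Y ^ (h - 1) := Real.rpow_pos_of_pos hY0 _
  have hT0 : 0 < Y ^ (sg b - 1) := Real.rpow_pos_of_pos hY0 _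
  have hNN := NN_exp (b := b) ha hY6
  have hmain := hY1 c hc y hy1 (by
    have : 4 * Y * L ≤ 5 * Y * L := by nlinarith [mul_pos hY0 hLpos]
    linarith) η hη0
  have hsmall : RR (XE a b Y) (ve c) l η y ≤ ce b la lb / 8 * η * Y ^ (sg b - 1) := by
    have h1 : ∀ x ∈ Fintype.piFinset (XE a b Y),
        Real.exp (-Real.pi * ((form (ve c) l x - y) / η) ^ 2) ≤ Real.exp (-Real.pi * Y ^ κ₁) := by
      intro x hx
      refine Real.exp_le_exp.2 ?_
      have hx1 : ∀ i, 1 ≤ x i := by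
        intro i
        have h2 := (mem_Xe.1 (Fintype.mem_piFinset.1 hx i)).1
        have h3 : (1 : ℝ) ≤ Y ^ (b i)⁻¹ := Real.one_le_rpow hY6 (inv_pos.2 (hb0 i)).le
        exact_mod_cast h3.trans h2
      have hfe : form (ve c) l x = ∑ i, l i * (x i : ℝ) ^ c i := by
        unfold form ve
        exact sum_congr rfl fun i _ => by rw [pe_eq _ (hx1 i)]
      have h4 : y ^ (-δ) ≤ |form (ve c) l x - y| := by
        by_contra h5
        push Not at h5
        rw [hfe] at h5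
        exact hno ⟨x, hx1, h5⟩
      have h5 : Y ^ (-β + 2 * κ₁) ≤ y ^ (-δ) := by
        have h6 : ((4 * L) * Y) ^ (-δ) ≤ y ^ (-δ) :=
          Real.rpow_le_rpow_of_nonpos hyL (by linarith) (by linarith)
        refine le_trans ?_ h6
        rw [Real.mul_rpow (by positivity) hY0.le, Real.rpow_neg (by positivity)]
        have h7 : Y ^ (-β + 2 * κ₁) = (Y ^ κ₁)⁻¹ * Y ^ (-δ) := by
          rw [← Real.rpow_neg hY0.le, ← Real.rpow_add hY0, hβ]
          congr 1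
          ring
        rw [h7]
        have h8 : 0 < (4 * L) ^ δ := by positivity
        have h9 : (Y ^ κ₁)⁻¹ ≤ ((4 * L) ^ δ)⁻¹ := inv_anti₀ h8 hY5
        have := Real.rpow_pos_of_pos hY0 (-δ)
        gcongr
      have h6 : Y ^ κ₁ ≤ |form (ve c) l x - y| / η := by
        rw [le_div_iff₀ hη0, hη, ← Real.rpow_add hY0]
        refine le_trans (le_of_eq ?_) (h5.trans h4)
        congr 1
        ring
      have h7 : Y ^ κ₁ ≤ ((form (ve c) l x - y) / η) ^ 2 := by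
        rw [← sq_abs, abs_div, abs_of_pos hη0]
        nlinarith
      have := Real.pi_pos
      nlinarith
    have h4 : RR (XE a b Y) (ve c) l η y ≤ NN (XE a b Y) * Real.exp (-Real.pi * Y ^ κ₁) := by
      unfold RR
      refine (sum_le_sum h1).trans (le_of_eq ?_)
      rw [sum_const, nsmul_eq_mul, Fintype.card_piFinset]
      unfold NN
      push_cast
      rfl
    have hE := Real.exp_pos (-Real.pi * Y ^ κ₁)
    have h9 : (1 : ℝ) ≤ 9 ^ (n + 1) := one_le_pow₀ (by norm_num)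
    calc RR (XE a b Y) (ve c) l η y ≤ NN (XE a b Y) * Real.exp (-Real.pi * Y ^ κ₁) := h4
      _ ≤ (9 ^ (n + 1) * Y ^ sg a) * Real.exp (-Real.pi * Y ^ κ₁) := by gcongr
      _ ≤ 2 * (9 ^ (n + 1) * Y ^ sg a) * Real.exp (-Real.pi * Y ^ κ₁) := by
          have : 0 ≤ (9 ^ (n + 1) * Y ^ sg a) * Real.exp (-Real.pi * Y ^ κ₁) := by positivity
          linarith
      _ = ce b la lb / 8 * Y ^ sg a * (8 * (2 * 9 ^ (n + 1)) / ce b la lb * Real.exp (-Real.pi * Y ^ κ₁)) := by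
          field_simp
      _ ≤ ce b la lb / 8 * Y ^ sg a * Y ^ (-A₀) := by gcongr
      _ = ce b la lb / 8 * Y ^ (sg a - A₀) := by
          rw [mul_assoc, ← Real.rpow_add hY0]
          congr 2
      _ ≤ ce b la lb / 8 * Y ^ (-β + κ₁ + (sg b - 1)) := by
          have : Y ^ (sg a - A₀) ≤ Y ^ (-β + κ₁ + (sg b - 1)) := by
            refine Real.rpow_le_rpow_of_exponent_le hY6 ?_
            rw [hA₀]
            have := le_abs_self (sg a)
            have := neg_abs_le (sg b)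
            linarith
          gcongr
      _ = ce b la lb / 8 * η * Y ^ (sg b - 1) := by
          rw [hη, mul_assoc, ← Real.rpow_add hY0]
  have h12 : Y ^ (h - 1) ≤ Y ^ β := Real.rpow_le_rpow_of_exponent_le hY6 (by linarith)
  · have heng := engine (XE a b Y) (ve c) l hη0 hηH hα0.le h12 y
    have htail := ff_tail (XE a b Y) (ve c) l hη0 hηH (Real.rpow_nonneg hY0.le β) y
    have hlow' : 2 * Real.pi * η * H ^ 2 * (Y ^ (h - 1)) ^ 3 * NN (XE a b Y) ≤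
        ce b la lb / 8 * η * Y ^ (sg b - 1) := by
      have e1 : H ^ 2 * (Y ^ (h - 1)) ^ 3 * Y ^ sg a = h₀ ^ 2 * (Y ^ (-e₆) * Y ^ (sg b - 1)) := by
        rw [hH]
        unfold He
        rw [← hh₀, mul_pow, ← Real.rpow_natCast (Y ^ (1 - (b 0)⁻¹)), ← Real.rpow_natCast (Y ^ (h - 1)),
          ← Real.rpow_mul hY0.le, ← Real.rpow_mul hY0.le, mul_assoc, mul_assoc, ← Real.rpow_add hY0,
          ← Real.rpow_add hY0, ← Real.rpow_add hY0]
        congr 2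
        rw [he₆]
        push_cast
        ring
      calc 2 * Real.pi * η * H ^ 2 * (Y ^ (h - 1)) ^ 3 * NN (XE a b Y)
          ≤ 2 * Real.pi * η * H ^ 2 * (Y ^ (h - 1)) ^ 3 * (9 ^ (n + 1) * Y ^ sg a) := by
            have := Real.pi_pos
            gcongr
        _ = 2 * Real.pi * η * 9 ^ (n + 1) * (H ^ 2 * (Y ^ (h - 1)) ^ 3 * Y ^ sg a) := by ring
        _ = C₆ * Y ^ (-e₆) * (η * Y ^ (sg b - 1)) := by rw [e1, hC₆]; ring
        _ ≤ ce b la lb / 8 * (η * Y ^ (sg b - 1)) := by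
            refine mul_le_mul_of_nonneg_right ?_ (by positivity)
            rw [Real.rpow_neg hY0.le, ← div_eq_mul_inv, div_le_iff₀ (Real.rpow_pos_of_pos hY0 _)]
            rw [div_le_iff₀ hce] at hY2
            linarith
        _ = _ := by ring
    have htail' : 2 * Real.exp (-(3 / 4 * Real.pi) * (η * Y ^ β) ^ 2) * NN (XE a b Y) ≤
        ce b la lb / 8 * η * Y ^ (sg b - 1) := by
      have q1 : η * Y ^ β = Y ^ κ₁ := by
        rw [hη, ← Real.rpow_add hY0]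
        congr 1
        ring
      have q2 : Real.exp (-(3 / 4 * Real.pi) * (η * Y ^ β) ^ 2) ≤ Real.exp (-Real.pi * Y ^ κ₁) := by
        refine Real.exp_le_exp.2 ?_
        rw [q1]
        have q3 : 4 / 3 * Y ^ κ₁ ≤ (Y ^ κ₁) ^ 2 := by nlinarith
        have := Real.pi_pos
        nlinarith
      calc 2 * Real.exp (-(3 / 4 * Real.pi) * (η * Y ^ β) ^ 2) * NN (XE a b Y)
          ≤ 2 * Real.exp (-Real.pi * Y ^ κ₁) * (9 ^ (n + 1) * Y ^ sg a) := by
            have := NN_nonneg (XE a b Y)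
            gcongr
        _ = ce b la lb / 8 * Y ^ sg a * (8 * (2 * 9 ^ (n + 1)) / ce b la lb * Real.exp (-Real.pi * Y ^ κ₁)) := by
            field_simp
        _ ≤ ce b la lb / 8 * Y ^ sg a * Y ^ (-A₀) := by gcongr
        _ = ce b la lb / 8 * Y ^ (sg a - A₀) := by
            rw [mul_assoc, ← Real.rpow_add hY0]
            congr 2
        _ ≤ ce b la lb / 8 * Y ^ (-β + κ₁ + (sg b - 1)) := by
            have : Y ^ (sg a - A₀) ≤ Y ^ (-β + κ₁ + (sg b - 1)) := by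
              refine Real.rpow_le_rpow_of_exponent_le hY6 ?_
              rw [hA₀]
              have := le_abs_self (sg a)
              have := neg_abs_le (sg b)
              linarith
            gcongr
        _ = ce b la lb / 8 * η * Y ^ (sg b - 1) := by
            rw [hη, mul_assoc, ← Real.rpow_add hY0]
    have hmid' : η * (∫ α in {α : ℝ | Y ^ (h - 1) < |α| ∧ |α| ≤ Y ^ β}, ‖SS (XE a b Y) (ve c) l α‖) ≤
        ce b la lb / 8 * η * Y ^ (sg b - 1) := by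
      calc _ ≤ η * (ce b la lb / 8 * Y ^ (sg b - 1)) := by gcongr
        _ = _ := by ring
    have h5 := (abs_le.1 heng).1
    have h6 : 0 < ce b la lb * η * Y ^ (sg b - 1) := by positivity
    linarith


/-- **A small box of exponents.** -/
lemma box_exp {a b l : Fin (n + 1) → ℝ} {δ κ₁ h c ε₁ : ℝ} (ha : ∀ i, 1 ≤ a i) (hab : ∀ i, a i ≤ b i)
    (hb : ∀ i, b i ≤ a i + 1) (hl : ∀ i, 0 < l i) (hε : ∀ i, 1 - (a i)⁻¹ - ε₁ ≤ (a i - 1) / b i) (hε0 : 0 ≤ ε₁)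
    (hδ : 0 ≤ δ) (hκ : 0 < κ₁) (hh : 0 < h) (hh1 : h ≤ 1) (hc : 0 ≤ c)
    (hσ : (1 + (δ + 3 * κ₁)) * (1 + c) ≤ sg a / 2)
    (hmid : sg a + ((n + 1 : ℕ) : ℝ) * ε₁ - h * c < sg b) (hlow : sg a - sg b + 3 * h < 2 * (b 0)⁻¹) :
    ∀ᵐ t ∂(bxe a b), (∀ i, a i < t i ∧ t i ≤ b i) → ∃ Y₀ : ℝ, ∀ y : ℝ, Y₀ ≤ y → RepE l δ t y := by
  obtain ⟨la, hla, hla2⟩ : ∃ la : ℝ, 0 < la ∧ ∀ i, la < l i := by
    refine ⟨(∑ i, (l i)⁻¹ + 1)⁻¹, ?_, fun i => ?_⟩
    · have : 0 ≤ ∑ i, (l i)⁻¹ := sum_nonneg fun i _ => (inv_pos.2 (hl i)).le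
      positivity
    · have h1 : (l i)⁻¹ ≤ ∑ i, (l i)⁻¹ := single_le_sum (f := fun i => (l i)⁻¹)
        (fun i _ => (inv_pos.2 (hl i)).le) (mem_univ i)
      rw [inv_lt_comm₀ (by linarith [inv_pos.2 (hl i)]) (hl i)]
      linarith
  obtain ⟨lb, hlb1, hlb2⟩ : ∃ lb : ℝ, 1 ≤ lb ∧ ∀ i, l i ≤ lb := by
    refine ⟨∑ i, l i + 1, ?_, fun i => ?_⟩
    · have : 0 ≤ ∑ i, l i := sum_nonneg fun i _ => (hl i).le
      linarith
    · have h1 : l i ≤ ∑ i, l i := single_le_sum (f := fun i => l i) (fun i _ => (hl i).le) (mem_univ i)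
      linarith
  have hlab : la ≤ lb := ((hla2 0).trans_le (hlb2 0)).le
  have hb1 : ∀ i, 1 ≤ b i := fun i => (ha i).trans (hab i)
  have hce := ce_pos hb1 hla (by linarith : 0 < lb)
  have hbc := bc_exp ha hab hb hl hε hε0 hc (by positivity : 0 ≤ δ + 3 * κ₁) hσ hh hh1
    (by positivity : 0 < ce b la lb / 8) hmid
  have hdet := det_exp ha hab hla hlab hlb1 (fun i => ⟨hla2 i, hlb2 i⟩) hδ hκ hh1 hlow
  have hLpos : 0 < ∑ i, l i := sum_pos (fun i _ => hl i) univ_nonempty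
  filter_upwards [hbc] with t ht htb
  obtain ⟨J, hJ⟩ := eventually_atTop.1 (ht.and (Yj_tendsto.eventually hdet))
  refine ⟨2 * (∑ i, l i) * Yj (J + 1), fun y hy => ?_⟩
  obtain ⟨j, hj, hy1, hy2⟩ := dyadic hLpos J hy
  obtain ⟨g1, g2⟩ := hJ j hj
  exact g2 t (fun i => ⟨(htb i).1.le, (htb i).2⟩) g1 y hy1 hy2

/-- the conditions on a box hold for small boxes -/
lemma small_box {p : Fin (n + 1) → ℝ} (hp : ∀ i, 1 < p i) {ε₁ D₁ D₂ : ℝ} (hε : 0 < ε₁) (hD₁ : 0 < D₁)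
    (hD₂ : D₂ < 2 * (p 0)⁻¹) :
    ∃ w : ℝ, 0 < w ∧ (∀ i, 1 ≤ p i - w) ∧ w ≤ 1 / 2 ∧
      (∀ i, 1 - (p i - w)⁻¹ - ε₁ ≤ (p i - w - 1) / (p i + w)) ∧
      sg (fun i => p i - w) - sg (fun i => p i + w) < D₁ ∧
      sg (fun i => p i - w) - sg (fun i => p i + w) + D₂ < 2 * (p 0 + w)⁻¹ := by
  have hp0 : ∀ i, p i ≠ 0 := fun i => by linarith [hp i]
  have e1 : ∀ᶠ w : ℝ in nhds 0, ∀ i, 1 ≤ p i - w := by
    rw [eventually_all]
    intro i
    filter_upwards [eventually_lt_nhds (show (0 : ℝ) < p i - 1 by linarith [hp i])] with w hw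
    linarith
  have e2 : ∀ᶠ w : ℝ in nhds 0, w ≤ 1 / 2 := by
    filter_upwards [eventually_lt_nhds (show (0 : ℝ) < 1 / 2 by norm_num)] with w hw
    exact hw.le
  have e3 : ∀ᶠ w : ℝ in nhds 0, ∀ i, 1 - (p i - w)⁻¹ - ε₁ ≤ (p i - w - 1) / (p i + w) := by
    rw [eventually_all]
    intro i
    have hc : ContinuousAt (fun w : ℝ => (p i - w - 1) / (p i + w) - (1 - (p i - w)⁻¹ - ε₁)) 0 := by
      refine ContinuousAt.sub (ContinuousAt.div (by fun_prop) (by fun_prop) (by simpa using hp0 i)) ?_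
      refine ContinuousAt.sub (ContinuousAt.sub continuousAt_const (ContinuousAt.inv₀ (by fun_prop) ?_))
        continuousAt_const
      simpa using hp0 i
    have hv : 0 < (p i - 0 - 1) / (p i + 0) - (1 - (p i - 0)⁻¹ - ε₁) := by
      have : (p i - 0 - 1) / (p i + 0) - (1 - (p i - 0)⁻¹ - ε₁) = ε₁ := by
        have := hp0 i
        rw [sub_zero, add_zero]
        field_simp
        ring
      rw [this]
      exact hε
    filter_upwards [hc.eventually (lt_mem_nhds hv)] with w hw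
    linarith
  have hsg : ContinuousAt (fun w : ℝ => sg (fun i => p i - w) - sg (fun i => p i + w)) 0 := by
    unfold sg
    refine ContinuousAt.sub (tendsto_finsetSum _ fun i _ => ?_) (tendsto_finsetSum _ fun i _ => ?_)
    · refine (ContinuousAt.inv₀ (f := fun w : ℝ => p i - w) (by fun_prop) ?_)
      simpa using hp0 i
    · refine (ContinuousAt.inv₀ (f := fun w : ℝ => p i + w) (by fun_prop) ?_)
      simpa using hp0 i
  have hsg0 : sg (fun i => p i - (0 : ℝ)) - sg (fun i => p i + (0 : ℝ)) = 0 := by simp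
  have e4 : ∀ᶠ w : ℝ in nhds 0, sg (fun i => p i - w) - sg (fun i => p i + w) < D₁ := by
    refine hsg.eventually (gt_mem_nhds ?_)
    change sg (fun i => p i - (0 : ℝ)) - sg (fun i => p i + (0 : ℝ)) < D₁
    rw [hsg0]
    exact hD₁
  have e5 : ∀ᶠ w : ℝ in nhds 0, sg (fun i => p i - w) - sg (fun i => p i + w) + D₂ < 2 * (p 0 + w)⁻¹ := by
    have hc : ContinuousAt (fun w : ℝ => 2 * (p 0 + w)⁻¹ -
        (sg (fun i => p i - w) - sg (fun i => p i + w) + D₂)) 0 := by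
      refine ContinuousAt.sub (continuousAt_const.mul (ContinuousAt.inv₀ (by fun_prop) ?_))
        (hsg.add continuousAt_const)
      simpa using hp0 0
    have hv : 0 < 2 * (p 0 + 0)⁻¹ - (sg (fun i => p i - (0 : ℝ)) - sg (fun i => p i + (0 : ℝ)) + D₂) := by
      rw [hsg0, add_zero]
      linarith
    filter_upwards [hc.eventually (lt_mem_nhds hv)] with w hw
    linarith
  obtain ⟨r, hr, h⟩ := Metric.eventually_nhds_iff.1 (e1.and (e2.and (e3.and (e4.and e5))))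
  have h2 := h (y := r / 2) (by rw [Real.dist_eq, sub_zero, abs_of_pos (by positivity)]; linarith)
  exact ⟨r / 2, by positivity, h2.1, h2.2.1, h2.2.2.1, h2.2.2.2.1, h2.2.2.2.2⟩

lemma sg_anti {a b : Fin (n + 1) → ℝ} (ha : ∀ i, 0 < a i) (hab : ∀ i, a i ≤ b i) : sg b ≤ sg a :=
  sum_le_sum fun i _ => inv_anti₀ (ha i) (hab i)

/-- one value of `δ` -/
lemma all_exp {l : Fin (n + 1) → ℝ} (hl : ∀ i, 0 < l i) {δ : ℝ} (hδ : 0 ≤ δ) :
    ∀ᵐ t : Fin (n + 1) → ℝ, (∀ i, 1 < t i) → δ < sg t / 2 - 1 → ∃ Y₀ : ℝ, ∀ y : ℝ, Y₀ ≤ y → RepE l δ t y := by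
  rw [ae_iff]
  refine measure_null_of_locally_null _ fun p hp => ?_
  simp only [Set.mem_ofPred_eq, not_forall] at hp
  obtain ⟨hp1, hp2, -⟩ := hp
  set g : ℝ := sg p / 2 - 1 - δ with hg
  have hg0 : 0 < g := by rw [hg]; linarith
  set κ₁ : ℝ := g / 12 with hκ₁
  set c : ℝ := g / 2 / (1 + (δ + 3 * κ₁)) with hc
  have hc0 : 0 < c := by positivity
  have hp0 : (0 : ℝ) < p 0 := by linarith [hp1 0]
  set h : ℝ := (4 * p 0)⁻¹ with hh
  have hh0 : 0 < h := by positivity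
  have hh1 : h ≤ 1 := by
    rw [hh]
    exact inv_le_one_of_one_le₀ (by linarith [hp1 0])
  set ε₁ : ℝ := h * c / (4 * ((n + 1 : ℕ) : ℝ)) with hε₁
  have hn0 : (0 : ℝ) < ((n + 1 : ℕ) : ℝ) := by positivity
  have hε₁0 : 0 < ε₁ := by positivity
  have hD₂ : 3 * h < 2 * (p 0)⁻¹ := by
    rw [hh, mul_inv]
    have := inv_pos.2 hp0
    linarith
  obtain ⟨w, hw0, hw1, hw2, hw3, hw4, hw5⟩ := small_box hp1 hε₁0 (by positivity : 0 < h * c / 2) hD₂
  set a : Fin (n + 1) → ℝ := fun i => p i - w with ha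
  set b : Fin (n + 1) → ℝ := fun i => p i + w with hb
  have hsga : sg p ≤ sg a := sg_anti (fun i => by have := hw1 i; change 0 < p i - w; linarith)
    (fun i => by change p i - w ≤ p i; linarith)
  have hfit : (1 + (δ + 3 * κ₁)) * (1 + c) ≤ sg a / 2 := by
    have h1 : (1 + (δ + 3 * κ₁)) * c = g / 2 := by
      rw [hc]
      have : 0 < 1 + (δ + 3 * κ₁) := by positivity
      field_simp
    have h2 : (1 + (δ + 3 * κ₁)) * (1 + c) = 1 + δ + 3 * κ₁ + g / 2 := by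
      rw [mul_add, h1]
      ring
    rw [h2, hκ₁]
    linarith
  have hmid : sg a + ((n + 1 : ℕ) : ℝ) * ε₁ - h * c < sg b := by
    have h1 : ((n + 1 : ℕ) : ℝ) * ε₁ = h * c / 4 := by
      rw [hε₁]
      field_simp
    rw [h1]
    have : 0 < h * c := by positivity
    linarith
  have hbox := box_exp (l := l) (δ := δ) (κ₁ := κ₁) (h := h) (c := c) (ε₁ := ε₁) hw1
    (fun i => by change p i - w ≤ p i + w; linarith) (fun i => by change p i + w ≤ p i - w + 1; linarith) hl hw3 hε₁0.le hδ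
    (by positivity) hh0 hh1 hc0.le hfit hmid hw5
  set u : Set (Fin (n + 1) → ℝ) := Set.univ.pi fun i => Set.Ioo (a i) (b i) with hu
  have huo : IsOpen u := isOpen_set_pi Set.finite_univ fun i _ => isOpen_Ioo
  have hpu : p ∈ u := fun i _ => ⟨by change p i - w < p i; linarith, by change p i < p i + w; linarith⟩
  refine ⟨u ∩ {t | ¬((∀ i, 1 < t i) → δ < sg t / 2 - 1 → ∃ Y₀ : ℝ, ∀ y : ℝ, Y₀ ≤ y → RepE l δ t y)},
    Filter.inter_mem (mem_nhdsWithin_of_mem_nhds (huo.mem_nhds hpu)) self_mem_nhdsWithin, ?_⟩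
  rw [bxe_eq, ae_restrict_iff' (MeasurableSet.univ_pi fun _ => measurableSet_Ioc), ae_iff] at hbox
  refine measure_mono_null ?_ hbox
  rintro t ⟨ht1, ht2⟩
  simp only [Set.mem_ofPred_eq] at ht2 ⊢
  intro h3
  refine ht2 fun _ _ => ?_
  exact h3 (fun i _ => ⟨(ht1 i (Set.mem_univ i)).1, (ht1 i (Set.mem_univ i)).2.le⟩)
    fun i => ⟨(ht1 i (Set.mem_univ i)).1, (ht1 i (Set.mem_univ i)).2.le⟩

/-- **All large numbers, almost all exponents.** -/
theorem all_exponents {l : Fin (n + 1) → ℝ} (hl : ∀ i, 0 < l i) :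
    ∀ᵐ t : Fin (n + 1) → ℝ, (∀ i, 1 < t i) → 2 < sg t → ∀ δ : ℝ, δ < sg t / 2 - 1 →
      ∃ Y₀ : ℝ, ∀ y : ℝ, Y₀ ≤ y → RepE l δ t y := by
  have h : ∀ᵐ t : Fin (n + 1) → ℝ, ∀ q : ℚ, 0 ≤ (q : ℝ) → (∀ i, 1 < t i) → (q : ℝ) < sg t / 2 - 1 →
      ∃ Y₀ : ℝ, ∀ y : ℝ, Y₀ ≤ y → RepE l (q : ℝ) t y := by
    rw [ae_all_iff]
    intro q
    by_cases hq : 0 ≤ (q : ℝ)
    · filter_upwards [all_exp hl hq] with t ht _
      exact ht
    · exact Eventually.of_forall fun t h => absurd h hq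
  filter_upwards [h] with t ht h1 h2 δ hδ
  obtain ⟨q, hq1, hq2⟩ := exists_rat_btwn (show max δ 0 < sg t / 2 - 1 from max_lt hδ (by linarith))
  obtain ⟨Y₀, hY₀⟩ := ht q ((le_max_right _ _).trans hq1.le) h1 hq2
  refine ⟨max Y₀ 1, fun y hy => ?_⟩
  obtain ⟨x, hx1, hx2⟩ := hY₀ y ((le_max_left _ _).trans hy)
  refine ⟨x, hx1, hx2.trans_le ?_⟩
  exact Real.rpow_le_rpow_of_exponent_le ((le_max_right _ _).trans hy)
    (by have := (le_max_left δ 0).trans hq1.le; linarith)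

end Pool.Agent.Q43.MW
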