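import Mathlib
import Pool.Agent.Q43.MW.Ex4

set_option autoImplicit false

/-!
# The Fourier series of a weight times a character of the integer part
-/

namespace Pool.Agent.Q43.MW

open MeasureTheory Complex Finset Filter

/-- the weight -/
noncomputable def ww (t : ℝ) : ℝ := (1 - Real.cos (2 * Real.pi * t)) / 2

lemma ww_nonneg (t : ℝ) : 0 ≤ ww t := by
  unfold ww
  have := Real.cos_le_one (2 * Real.pi * t)
  linarith

lemma ww_le (t : ℝ) : ww t ≤ 1 := by
  unfold ww
  have := Real.neg_one_le_cos (2 * Real.pi * t)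
  linarith

@[fun_prop]
lemma ww_cont : Continuous ww := by
  unfold ww
  fun_prop

lemma ww_ee (t : ℝ) : (ww t : ℂ) = 1 / 2 - (ee t + ee (-t)) / 4 := by
  unfold ww ee
  have h := Complex.two_cos (2 * Real.pi * t)
  push_cast
  rw [show (2 : ℂ) * Real.pi * I * t = (2 * Real.pi * t) * I by ring,
    show (2 : ℂ) * Real.pi * I * -t = -(2 * Real.pi * t) * I by ring, ← h]
  ring

lemma ee_int (m : ℤ) : ee (m : ℝ) = 1 := by
  unfold ee
  rw [Complex.exp_eq_one_iff]
  exact ⟨m, by push_cast; ring⟩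

lemma ww_int (m : ℤ) : ww (m : ℝ) = 0 := by
  unfold ww
  have : Real.cos (2 * Real.pi * m) = 1 := by
    rw [show 2 * Real.pi * (m : ℝ) = m * (2 * Real.pi) by ring]
    exact Real.cos_int_mul_two_pi m
  rw [this]
  ring

lemma ww_add_int (t : ℝ) (m : ℤ) : ww (t + m) = ww t := by
  unfold ww
  congr 2
  rw [show 2 * Real.pi * (t + m) = 2 * Real.pi * t + m * (2 * Real.pi) by ring]
  exact Real.cos_add_int_mul_two_pi _ m

/-- the Fourier coefficients -/
noncomputable def cf (α : ℝ) (h : ℤ) : ℂ := ∫ t in (0 : ℝ)..1, (ww t : ℂ) * ee (-(α + h) * t)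

lemma int_unit {ζ : ℝ} (hζ : ζ ≠ 0) : ∫ t in (0 : ℝ)..1, ee (ζ * t) = (ee ζ - 1) / (2 * Real.pi * I * ζ) := by
  have hc : (2 * Real.pi * I * ζ : ℂ) ≠ 0 := by
    have : (ζ : ℂ) ≠ 0 := by exact_mod_cast hζ
    exact mul_ne_zero Complex.two_pi_I_ne_zero this
  have h := integral_exp_mul_complex (a := 0) (b := 1) hc
  have e : ∀ t : ℝ, ee (ζ * t) = Complex.exp ((2 * Real.pi * I * ζ) * t) := by
    intro t
    unfold ee
    congr 1
    push_cast
    ring
  simp only [e]
  rw [h]
  congr 1
  unfold ee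
  simp

lemma cf_bound {α : ℝ} (hα : |α| ≤ 1 / 2) (h : ℤ) : ‖cf α h‖ ≤ 4 / (1 + (h : ℝ) ^ 2) := by
  have htriv : ‖cf α h‖ ≤ 1 := by
    unfold cf
    have := intervalIntegral.norm_integral_le_of_norm_le_const (a := (0 : ℝ)) (b := 1)
      (f := fun t => (ww t : ℂ) * ee (-(α + h) * t)) (C := 1) (fun t _ => by
        rw [norm_mul, norm_ee, mul_one, Complex.norm_real, Real.norm_of_nonneg (ww_nonneg t)]
        exact ww_le t)
    simpa using this
  by_cases hh : |h| ≤ 1
  · refine htriv.trans ?_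
    have h1 : (h : ℝ) ^ 2 ≤ 1 := by
      have : |(h : ℝ)| ≤ 1 := by exact_mod_cast hh
      rw [← sq_abs]
      nlinarith [abs_nonneg (h : ℝ)]
    rw [le_div_iff₀ (by positivity)]
    linarith
  · have hh2 : (2 : ℝ) ≤ |(h : ℝ)| := by
      have : (2 : ℤ) ≤ |h| := by omega
      exact_mod_cast this
    set ξ : ℝ := α + h with hξ
    have hξ1 : |(h : ℝ)| - 1 / 2 ≤ |ξ| := by
      have h1 : |(h : ℝ)| ≤ |ξ| + |α| := by
        have : (h : ℝ) = ξ - α := by rw [hξ]; ring
        rw [this]
        exact abs_sub ξ α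
      linarith
    have hξ2 : 3 / 2 ≤ |ξ| := by linarith
    have hsq : 9 / 4 ≤ ξ ^ 2 := by
      rw [← sq_abs]
      nlinarith
    have n0 : ξ ≠ 0 := by
      intro h0
      rw [h0] at hsq
      norm_num at hsq
    have n1 : ξ - 1 ≠ 0 := by
      intro h0
      have : ξ = 1 := by linarith
      rw [this] at hsq
      norm_num at hsq
    have n2 : ξ + 1 ≠ 0 := by
      intro h0
      have : ξ = -1 := by linarith
      rw [this] at hsq
      norm_num at hsq
    have e1 : ∀ t : ℝ, (ww t : ℂ) * ee (-(α + h) * t) =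
        1 / 2 * ee (-ξ * t) - 1 / 4 * ee (-(ξ - 1) * t) - 1 / 4 * ee (-(ξ + 1) * t) := by
      intro t
      rw [ww_ee, ← hξ]
      have a1 : ee t * ee (-ξ * t) = ee (-(ξ - 1) * t) := by rw [← ee_add]; congr 1; ring
      have a2 : ee (-t) * ee (-ξ * t) = ee (-(ξ + 1) * t) := by rw [← ee_add]; congr 1; ring
      rw [← a1, ← a2]
      ring
    have hci : ∀ ζ : ℝ, IntervalIntegrable (fun t : ℝ => ee (ζ * t)) volume 0 1 := fun ζ =>
      (by fun_prop : Continuous fun t : ℝ => ee (ζ * t)).intervalIntegrable _ _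
    have e2 : cf α h = (ee (-ξ) - 1) / (2 * Real.pi * I) * (1 / (2 * ξ * (ξ ^ 2 - 1)) : ℝ) := by
      unfold cf
      simp only [e1]
      rw [intervalIntegral.integral_sub (((hci _).const_mul _).sub ((hci _).const_mul _)) ((hci _).const_mul _),
        intervalIntegral.integral_sub ((hci _).const_mul _) ((hci _).const_mul _),
        intervalIntegral.integral_const_mul, intervalIntegral.integral_const_mul,
        intervalIntegral.integral_const_mul, int_unit (neg_ne_zero.2 n0), int_unit (neg_ne_zero.2 n1),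
        int_unit (neg_ne_zero.2 n2)]
      have b1 : ee (-(ξ - 1)) = ee (-ξ) := by
        rw [show -(ξ - 1) = -ξ + ((1 : ℤ) : ℝ) by push_cast; ring, ee_add, ee_int, mul_one]
      have b2 : ee (-(ξ + 1)) = ee (-ξ) := by
        rw [show -(ξ + 1) = -ξ + ((-1 : ℤ) : ℝ) by push_cast; ring, ee_add, ee_int, mul_one]
      rw [b1, b2]
      have c0 : (ξ : ℂ) ≠ 0 := by exact_mod_cast n0
      have c1 : (ξ : ℂ) - 1 ≠ 0 := by exact_mod_cast n1
      have c2 : (ξ : ℂ) + 1 ≠ 0 := by exact_mod_cast n2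
      have c3 : (ξ : ℂ) ^ 2 - 1 ≠ 0 := by
        have : (ξ : ℂ) ^ 2 - 1 = (ξ - 1) * (ξ + 1) := by ring
        rw [this]
        exact mul_ne_zero c1 c2
      have c4 := Complex.two_pi_I_ne_zero
      have c5 : (Real.pi : ℂ) ≠ 0 := by exact_mod_cast Real.pi_ne_zero
      have key : (1 : ℂ) / 2 * (1 / -ξ) - 1 / 4 * (1 / -(ξ - 1)) - 1 / 4 * (1 / -(ξ + 1)) =
          1 / (2 * ξ * (ξ ^ 2 - 1)) := by
        rw [show (ξ : ℂ) ^ 2 - 1 = (ξ - 1) * (ξ + 1) by ring]
        field_simp
        ring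
      push_cast
      rw [← key]
      field_simp
    rw [e2, norm_mul, norm_div, norm_mul, norm_mul, Complex.norm_I, mul_one, Complex.norm_real, Complex.norm_real,
      Complex.norm_ofNat, Real.norm_of_nonneg Real.pi_pos.le, Real.norm_eq_abs, abs_div, abs_one, abs_mul, abs_mul,
      abs_two, abs_of_pos (by linarith : 0 < ξ ^ 2 - 1)]
    have hnum : ‖ee (-ξ) - 1‖ ≤ 2 := by
      refine (norm_sub_le _ _).trans ?_
      rw [norm_ee, norm_one]
      norm_num
    have hpi := Real.pi_gt_three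
    have hh3 : 1 + (h : ℝ) ^ 2 ≤ 20 / 9 * ξ ^ 2 := by
      have h1 : |(h : ℝ)| ≤ 4 / 3 * |ξ| := by linarith
      have h2 : (h : ℝ) ^ 2 ≤ 16 / 9 * ξ ^ 2 := by
        rw [← sq_abs (h : ℝ), ← sq_abs ξ]
        nlinarith [abs_nonneg (h : ℝ), abs_nonneg ξ]
      linarith
    calc ‖ee (-ξ) - 1‖ / (2 * Real.pi) * (1 / (2 * |ξ| * (ξ ^ 2 - 1)))
        ≤ 2 / (2 * 3) * (1 / (2 * (3 / 2) * (5 / 9 * ξ ^ 2))) := by
          have h1 : 5 / 9 * ξ ^ 2 ≤ ξ ^ 2 - 1 := by linarith
          have h2 : 0 < 5 / 9 * ξ ^ 2 := by positivity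
          have h3 : 0 ≤ ξ ^ 2 - 1 := by linarith
          gcongr
      _ = 1 / (5 * ξ ^ 2) := by
          field_simp
          norm_num
      _ ≤ 4 / (1 + (h : ℝ) ^ 2) := by
          rw [div_le_div_iff₀ (by positivity) (by positivity)]
          nlinarith

/-- the weighted character of the integer part -/
noncomputable def Th (α t : ℝ) : ℂ := (ww t : ℂ) * ee (α * ⌊t⌋)

lemma cf_summable {α : ℝ} (hα : |α| ≤ 1 / 2) : Summable (cf α) := by
  refine Summable.of_norm_bounded (g := fun h : ℤ => 4 / (1 + (h : ℝ) ^ 2)) ?_ (cf_bound hα)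
  have h1 : Summable fun h : ℤ => 1 / (h : ℝ) ^ 2 := Real.summable_one_div_int_pow.2 (by norm_num)
  have h2 : Summable fun h : ℤ => 4 * (1 / (h : ℝ) ^ 2) + (if h = 0 then 4 else 0) := by
    refine (h1.mul_left 4).add ?_
    exact summable_of_ne_finset_zero (s := {0}) fun h hh => by
      rw [if_neg]
      simpa using hh
  refine Summable.of_nonneg_of_le (fun h => by positivity) (fun h => ?_) h2
  by_cases h0 : h = 0
  · subst h0
    norm_num
  · rw [if_neg h0, add_zero, ← mul_one_div]
    have : (0 : ℝ) < (h : ℝ) ^ 2 := by positivity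
    gcongr
    linarith

lemma fr_cont (α : ℝ) : Continuous fun t : ℝ => (ww t : ℂ) * ee (-α * Int.fract t) := by
  rw [continuous_iff_continuousAt]
  intro t
  by_cases ht : Int.fract t = 0
  · -- an integer
    have hw : ww t = 0 := by
      have : t = (⌊t⌋ : ℝ) := by
        have := Int.floor_add_fract t
        linarith
      rw [this]
      exact ww_int _
    change Tendsto (fun t : ℝ => (ww t : ℂ) * ee (-α * Int.fract t)) (nhds t)
      (nhds ((ww t : ℂ) * ee (-α * Int.fract t)))
    rw [hw]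
    simp only [Complex.ofReal_zero, zero_mul]
    refine squeeze_zero_norm (a := fun t : ℝ => ww t) (fun t => ?_) ?_
    · rw [norm_mul, norm_ee, mul_one, Complex.norm_real, Real.norm_of_nonneg (ww_nonneg t)]
    · have := ww_cont.tendsto t
      rwa [hw] at this
  · have h1 : ContinuousAt (Int.fract : ℝ → ℝ) t := by
      have h2 : ContinuousAt (fun x : ℝ => x - (⌊t⌋ : ℝ)) t := by fun_prop
      refine h2.congr ?_
      have h3 : (⌊t⌋ : ℝ) < t := by
        have h4 := Int.floor_add_fract t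
        have h5 := Int.fract_nonneg t
        rcases h5.lt_or_eq with h6 | h6
        · linarith
        · exact absurd h6.symm ht
      have h4 : t < (⌊t⌋ : ℝ) + 1 := Int.lt_floor_add_one t
      filter_upwards [Ioo_mem_nhds h3 h4] with x hx
      have h5 : ⌊x⌋ = ⌊t⌋ := by
        rw [Int.floor_eq_iff]
        exact ⟨hx.1.le, hx.2⟩
      rw [← Int.self_sub_floor, h5]
    refine ContinuousAt.mul ?_ ?_
    · exact (Complex.continuous_ofReal.comp ww_cont).continuousAt
    · exact continuous_ee.continuousAt.comp (continuousAt_const.mul h1)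

/-- **The Fourier series.** -/
lemma Th_series {α : ℝ} (hα : |α| ≤ 1 / 2) (t : ℝ) : HasSum (fun h : ℤ => cf α h * ee ((α + h) * t)) (Th α t) := by
  have hper : Function.Periodic (fun t : ℝ => (ww t : ℂ) * ee (-α * Int.fract t)) 1 := by
    intro x
    simp only
    have := ww_add_int x 1
    push_cast at this
    rw [this, Int.fract_add_one]
  have : Fact ((0 : ℝ) < 1) := ⟨one_pos⟩
  set G : C(AddCircle (1 : ℝ), ℂ) := ⟨hper.lift, by
    have := fr_cont α
    exact this.quotient_liftOn' _⟩ with hG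
  have hGt : ∀ x : ℝ, G (x : AddCircle (1 : ℝ)) = (ww x : ℂ) * ee (-α * Int.fract x) := by
    intro x
    exact hper.lift_coe x
  have hcoef : ∀ h : ℤ, fourierCoeff (⇑G) h = cf α h := by
    intro h
    rw [fourierCoeff_eq_intervalIntegral (⇑G) h 0]
    unfold cf
    rw [one_div_one, one_smul, zero_add, intervalIntegral.integral_of_le zero_le_one,
      intervalIntegral.integral_of_le zero_le_one, ← integral_Ico_eq_integral_Ioc,
      ← integral_Ico_eq_integral_Ioc]
    refine setIntegral_congr_fun measurableSet_Ico fun x hx => ?_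
    rw [hGt, fourier_coe_apply, smul_eq_mul]
    have hf : Int.fract x = x := Int.fract_eq_self.2 hx
    rw [hf]
    have e1 : Complex.exp (2 * Real.pi * I * ((-h : ℤ) : ℂ) * (x : ℂ) / ((1 : ℝ) : ℂ)) = ee (-h * x) := by
      unfold ee
      congr 1
      push_cast
      ring
    rw [e1]
    have e2 : ee (-(α + h) * x) = ee (-h * x) * ee (-α * x) := by
      rw [← ee_add]
      congr 1
      ring
    rw [e2]
    ring
  have hsum : Summable (fourierCoeff (⇑G)) := by
    have : fourierCoeff (⇑G) = cf α := funext hcoef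
    rw [this]
    exact cf_summable hα
  have h1 := has_pointwise_sum_fourier_series_of_summable hsum (t : AddCircle (1 : ℝ))
  rw [hGt] at h1
  have h2 := h1.mul_right (ee (α * t))
  have e3 : (ww t : ℂ) * ee (-α * Int.fract t) * ee (α * t) = Th α t := by
    unfold Th
    rw [mul_assoc, ← ee_add]
    congr 2
    have := Int.self_sub_floor t
    rw [← this]
    ring
  rw [e3] at h2
  have e4 : (fun h : ℤ => fourierCoeff (⇑G) h • (fourier h) (t : AddCircle (1 : ℝ)) * ee (α * t)) =
      fun h : ℤ => cf α h * ee ((α + h) * t) := by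
    funext h
    rw [hcoef, fourier_coe_apply, smul_eq_mul]
    have e1 : Complex.exp (2 * Real.pi * I * (h : ℂ) * (t : ℂ) / ((1 : ℝ) : ℂ)) = ee (h * t) := by
      unfold ee
      congr 1
      push_cast
      ring
    rw [e1, mul_assoc, ← ee_add]
    congr 2
    ring
  rw [e4] at h2
  exact h2

end Pool.Agent.Q43.MW
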