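import Mathlib
import Pool.Agent.Q43.MW.Fl1

set_option autoImplicit false

/-!
# The circle method for integer parts
-/

namespace Pool.Agent.Q43.MW

open MeasureTheory Complex Finset Filter

variable {s : ℕ}

lemma Th_cont : Continuous fun q : ℝ × ℝ => Th q.1 q.2 := by
  have h : (fun q : ℝ × ℝ => Th q.1 q.2) = fun q : ℝ × ℝ => ((ww q.2 : ℂ) * ee (-q.1 * Int.fract q.2)) *
      ee (q.1 * q.2) := by
    funext q
    unfold Th
    rw [mul_assoc, ← ee_add]
    congr 2
    have := Int.self_sub_floor q.2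
    rw [← this]
    ring
  rw [h]
  refine Continuous.mul ?_ (by fun_prop)
  rw [continuous_iff_continuousAt]
  rintro ⟨α, t⟩
  by_cases ht : Int.fract t = 0
  · have hw : ww t = 0 := by
      have : t = (⌊t⌋ : ℝ) := by
        have := Int.floor_add_fract t
        linarith
      rw [this]
      exact ww_int _
    change Tendsto (fun q : ℝ × ℝ => (ww q.2 : ℂ) * ee (-q.1 * Int.fract q.2)) (nhds (α, t))
      (nhds ((ww t : ℂ) * ee (-α * Int.fract t)))
    rw [hw]
    simp only [Complex.ofReal_zero, zero_mul]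
    refine squeeze_zero_norm (a := fun q : ℝ × ℝ => ww q.2) (fun q => ?_) ?_
    · rw [norm_mul, norm_ee, mul_one, Complex.norm_real, Real.norm_of_nonneg (ww_nonneg q.2)]
    · have := (ww_cont.comp continuous_snd).tendsto (α, t)
      simp only [Function.comp] at this
      rwa [hw] at this
  · have h1 : ContinuousAt (Int.fract : ℝ → ℝ) t := by
      have h2 : ContinuousAt (fun x : ℝ => x - (⌊t⌋ : ℝ)) t := by fun_prop
      refine h2.congr ?_
      have h3 : (⌊t⌋ : ℝ) < t := by
        have h4 := Int.floor_add_fract t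
        have h5 := Int.fract_nonneg t
        rcases h5.lt_or_eq with h6 | h6
        · linarith
        · exact absurd h6.symm ht
      have h4 : t < (⌊t⌋ : ℝ) + 1 := Int.lt_floor_add_one t
      filter_upwards [Ioo_mem_nhds h3 h4] with x hx
      have h5 : ⌊x⌋ = ⌊t⌋ := by
        rw [Int.floor_eq_iff]
        exact ⟨hx.1.le, hx.2⟩
      rw [← Int.self_sub_floor, h5]
    have h6 : ContinuousAt (fun q : ℝ × ℝ => Int.fract q.2) (α, t) :=
      ContinuousAt.comp (f := fun q : ℝ × ℝ => q.2) (g := Int.fract) h1 continuousAt_snd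
    refine ContinuousAt.mul ?_ ?_
    · exact (Complex.continuous_ofReal.comp (ww_cont.comp continuous_snd)).continuousAt
    · exact continuous_ee.continuousAt.comp (continuousAt_fst.neg.mul h6)

lemma Th_norm (α t : ℝ) : ‖Th α t‖ ≤ 1 := by
  unfold Th
  rw [norm_mul, norm_ee, mul_one, Complex.norm_real, Real.norm_of_nonneg (ww_nonneg t)]
  exact ww_le t

/-- the generating function -/
noncomputable def TT (X : Fin s → Finset ℕ) (f : Fin s → ℕ → ℝ) (α : ℝ) : ℂ := ∏ i, ∑ x ∈ X i, Th α (f i x)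

/-- the integer -/
noncomputable def NI (f : Fin s → ℕ → ℝ) (x : Fin s → ℕ) : ℤ := ∑ i, ⌊f i (x i)⌋

lemma TT_eq (X : Fin s → Finset ℕ) (f : Fin s → ℕ → ℝ) (α : ℝ) :
    TT X f α = ∑ x ∈ Fintype.piFinset X, ((∏ i, ww (f i (x i)) : ℝ) : ℂ) * ee (α * NI f x) := by
  unfold TT
  rw [Finset.prod_univ_sum]
  refine sum_congr rfl fun x _ => ?_
  unfold Th NI
  rw [prod_mul_distrib, ← ee_sum]
  push_cast
  rw [mul_sum]

lemma TT_norm (X : Fin s → Finset ℕ) (f : Fin s → ℕ → ℝ) (α : ℝ) : ‖TT X f α‖ ≤ NN X := by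
  unfold TT NN
  rw [norm_prod]
  refine prod_le_prod (fun i _ => norm_nonneg _) fun i _ => ?_
  refine (norm_sum_le _ _).trans ?_
  calc ∑ x ∈ X i, ‖Th α (f i x)‖ ≤ ∑ _x ∈ X i, (1 : ℝ) := sum_le_sum fun x _ => Th_norm _ _
    _ = _ := by simp

lemma Th_cont' {Ω : Type*} [TopologicalSpace Ω] {u v : Ω → ℝ} (hu : Continuous u) (hv : Continuous v) :
    Continuous fun ω => Th (u ω) (v ω) := by
  have h : Continuous fun ω => ((u ω, v ω) : ℝ × ℝ) := hu.prodMk hv
  have h2 := Th_cont.comp h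
  exact h2

lemma TT_cont (X : Fin s → Finset ℕ) (f : Fin s → ℕ → ℝ) : Continuous fun α : ℝ => TT X f α := by
  have h : ∀ i, Continuous fun α : ℝ => ∑ x ∈ X i, Th α (f i x) := fun i =>
    continuous_finsetSum _ fun x _ => Th_cont' continuous_id continuous_const
  have h2 := continuous_finsetProd (s := (univ : Finset (Fin s))) (f := fun i (α : ℝ) => ∑ x ∈ X i, Th α (f i x))
    fun i _ => h i
  exact h2

/-- the smoothed weighted number of the representations -/
noncomputable def RN (X : Fin s → Finset ℕ) (f : Fin s → ℕ → ℝ) (H : ℝ) (m : ℤ) : ℝ :=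
  ∑ x ∈ Fintype.piFinset X, (∏ i, ww (f i (x i))) * Real.exp (-Real.pi * (((NI f x : ℝ) - m) / H) ^ 2)

lemma RN_fourier (X : Fin s → Finset ℕ) (f : Fin s → ℕ → ℝ) {H : ℝ} (hH : 0 < H) (m : ℤ) :
    ((RN X f H m / H : ℝ) : ℂ) =
      ∫ α : ℝ, ((Real.exp (-Real.pi * (H * α) ^ 2) : ℝ) : ℂ) * (TT X f α * ee (-(α * m))) := by
  unfold RN
  push_cast
  have h1 : ∀ x ∈ Fintype.piFinset X, (∏ i, (ww (f i (x i)) : ℂ)) *
      cexp (-Real.pi * (((NI f x : ℂ) - m) / H) ^ 2) =
      ∫ α : ℝ, (∏ i, (ww (f i (x i)) : ℂ)) * (((H * Real.exp (-Real.pi * (H * α) ^ 2) : ℝ) : ℂ) *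
        ee (α * ((NI f x : ℝ) - m))) := by
    intro x _
    rw [integral_const_mul, gauss_fourier hH]
    push_cast
    rfl
  rw [sum_congr rfl h1, ← integral_finsetSum]
  · rw [← integral_div]
    congr 1
    ext α
    rw [TT_eq, sum_mul, mul_sum, sum_div]
    refine sum_congr rfl fun x _ => ?_
    have hH' : (H : ℂ) ≠ 0 := by exact_mod_cast hH.ne'
    have e1 : ee (α * ((NI f x : ℝ) - m)) = ee (α * (NI f x : ℝ)) * ee (-(α * m)) := by
      rw [← ee_add]
      congr 1
      ring
    rw [e1]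
    push_cast
    field_simp
  · intro x _
    have h2 : Integrable fun α : ℝ => ((H * Real.exp (-Real.pi * (H * α) ^ 2) : ℝ) : ℂ) :=
      ((gauss_integrable hH).const_mul H).ofReal
    refine Integrable.const_mul ?_ _
    refine h2.mul_bdd (c := 1) (by fun_prop) (Filter.Eventually.of_forall fun α => ?_)
    rw [norm_ee]

lemma orth {k : ℤ} (hk : k ≠ 0) : ∫ α in (-(1 / 2) : ℝ)..(1 / 2), ee (α * k) = 0 := by
  have hkr : (k : ℝ) ≠ 0 := by exact_mod_cast hk
  have h1 : ∫ α in (-(1 / 2) : ℝ)..(1 / 2), ee (α * k) = ∫ t in (0 : ℝ)..1, ee ((t - 1 / 2) * k) := by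
    rw [intervalIntegral.integral_comp_sub_right (fun t => ee (t * k)) (1 / 2 : ℝ)]
    norm_num
  rw [h1]
  have h2 : ∀ t : ℝ, ee ((t - 1 / 2) * k) = ee (-(1 / 2) * k) * ee (k * t) := by
    intro t
    rw [← ee_add]
    congr 1
    ring
  simp only [h2]
  rw [intervalIntegral.integral_const_mul, int_unit hkr, ee_int]
  simp

/-- **The circle method.** -/
lemma eng2 (X : Fin s → Finset ℕ) (f : Fin s → ℕ → ℝ) {H α₁ : ℝ} (hH : 0 < H) (h1 : 0 ≤ α₁) (h12 : α₁ ≤ 1 / 2)
    (m : ℤ) (hno : ∀ x ∈ Fintype.piFinset X, NI f x ≠ m) :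
    RN X f H m / H ≤ 2 * Real.pi * H ^ 2 * α₁ ^ 3 * NN X +
      (∫ α in {α : ℝ | α₁ < |α| ∧ |α| ≤ 1 / 2}, ‖TT X f α‖) +
        2 * Real.exp (-(3 / 4 * Real.pi) * (H * (1 / 2)) ^ 2) / H * NN X := by
  set g : ℝ → ℂ := fun α => TT X f α * ee (-(α * m)) with hg
  set E : ℝ → ℝ := fun α => Real.exp (-Real.pi * (H * α) ^ 2) with hE
  have hgn : ∀ α, ‖g α‖ ≤ NN X := by
    intro α
    rw [hg]
    simp only
    rw [norm_mul, norm_ee, mul_one]
    exact TT_norm X f α
  have hgc : Continuous g := (TT_cont X f).mul (by fun_prop)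
  have hN := NN_nonneg X
  have hEi : Integrable E := gauss_integrable hH
  have hEg : Integrable fun α => ((E α : ℝ) : ℂ) * g α :=
    hEi.ofReal.mul_bdd (c := NN X) hgc.aestronglyMeasurable (Eventually.of_forall hgn)
  have hE1 : ∀ α, E α ≤ 1 := by
    intro α
    rw [hE]
    simp only
    rw [Real.exp_le_one_iff]
    have := Real.pi_pos
    nlinarith [sq_nonneg (H * α)]
  have hE0 : ∀ α, 0 ≤ E α := fun α => (Real.exp_pos _).le
  have hE2 : ∀ α, 1 - E α ≤ Real.pi * (H * α) ^ 2 := by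
    intro α
    rw [hE]
    simp only
    have := Real.add_one_le_exp (-Real.pi * (H * α) ^ 2)
    linarith
  set A : Set ℝ := {α : ℝ | |α| ≤ α₁} with hA
  set B : Set ℝ := {α : ℝ | α₁ < |α| ∧ |α| ≤ 1 / 2} with hB
  set C : Set ℝ := {α : ℝ | 1 / 2 < |α|} with hC
  have hAm : MeasurableSet A := (isClosed_le continuous_abs continuous_const).measurableSet
  have hBm : MeasurableSet B := (meas_high α₁).inter
    ((isClosed_le continuous_abs continuous_const).measurableSet : MeasurableSet {α : ℝ | |α| ≤ 1 / 2})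
  have hCm : MeasurableSet C := meas_high (1 / 2)
  have hAB : A ∪ B = Set.Icc (-(1 / 2)) (1 / 2) := by
    ext α
    simp only [hA, hB, Set.mem_union, Set.mem_ofPred_eq, Set.mem_Icc, ← abs_le]
    constructor
    · rintro (h | h)
      · linarith
      · exact h.2
    · intro h
      rcases le_or_gt |α| α₁ with h2 | h2
      · exact Or.inl h2
      · exact Or.inr ⟨h2, h⟩
  have hcompl : (A ∪ B)ᶜ = C := by
    ext α
    rw [hAB]
    simp only [hC, Set.mem_compl_iff, Set.mem_Icc, ← abs_le, Set.mem_ofPred_eq, not_le]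
  have hdisj : Disjoint A B := by
    rw [Set.disjoint_left]
    intro α g1 g2
    simp only [hA, hB, Set.mem_ofPred_eq] at g1 g2
    linarith [g2.1]
  have hgAB : IntegrableOn g (A ∪ B) := by
    rw [hAB]
    exact hgc.continuousOn.integrableOn_compact isCompact_Icc
  have hgA : IntegrableOn g A := hgAB.mono_set Set.subset_union_left
  have hgB : IntegrableOn g B := hgAB.mono_set Set.subset_union_right
  have hzero : (∫ α in A, g α) + ∫ α in B, g α = 0 := by
    rw [← setIntegral_union hdisj hBm hgA hgB, hAB, integral_Icc_eq_integral_Ioc,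
      ← intervalIntegral.integral_of_le (by norm_num)]
    have e1 : ∀ α : ℝ, g α = ∑ x ∈ Fintype.piFinset X, ((∏ i, ww (f i (x i)) : ℝ) : ℂ) *
        ee (α * ((NI f x - m : ℤ) : ℝ)) := by
      intro α
      rw [hg]
      simp only
      rw [TT_eq, sum_mul]
      refine sum_congr rfl fun x _ => ?_
      rw [mul_assoc, ← ee_add]
      congr 2
      push_cast
      ring
    simp only [e1]
    rw [intervalIntegral.integral_finsetSum]
    · refine sum_eq_zero fun x hx => ?_
      rw [intervalIntegral.integral_const_mul, orth (sub_ne_zero.2 (hno x hx)), mul_zero]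
    · intro x _
      exact (by fun_prop : Continuous fun α : ℝ => ((∏ i, ww (f i (x i)) : ℝ) : ℂ) *
        ee (α * ((NI f x - m : ℤ) : ℝ))).intervalIntegrable _ _
  have hsplit : ∫ α, ((E α : ℝ) : ℂ) * g α = (∫ α in A, ((E α : ℝ) : ℂ) * g α) + (∫ α in B, ((E α : ℝ) : ℂ) * g α) +
      ∫ α in C, ((E α : ℝ) : ℂ) * g α := by
    rw [← integral_add_compl (hAm.union hBm) hEg, hcompl, setIntegral_union hdisj hBm hEg.integrableOn
      hEg.integrableOn]
  have hmain : ((RN X f H m / H : ℝ) : ℂ) = (∫ α in A, (((E α : ℝ) : ℂ) - 1) * g α) +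
      (∫ α in B, (((E α : ℝ) : ℂ) - 1) * g α) + ∫ α in C, ((E α : ℝ) : ℂ) * g α := by
    rw [RN_fourier X f hH m]
    change ∫ α, ((E α : ℝ) : ℂ) * g α = _
    have d1 : ∫ α in A, (((E α : ℝ) : ℂ) - 1) * g α = (∫ α in A, ((E α : ℝ) : ℂ) * g α) - ∫ α in A, g α := by
      rw [← integral_sub hEg.integrableOn hgA]
      congr 1
      ext α
      ring
    have d2 : ∫ α in B, (((E α : ℝ) : ℂ) - 1) * g α = (∫ α in B, ((E α : ℝ) : ℂ) * g α) - ∫ α in B, g α := by
      rw [← integral_sub hEg.integrableOn hgB]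
      congr 1
      ext α
      ring
    rw [hsplit, d1, d2]
    linear_combination hzero
  have hnE : ∀ α, ‖((E α : ℝ) : ℂ) - 1‖ = 1 - E α := by
    intro α
    have : ((E α : ℝ) : ℂ) - 1 = ((E α - 1 : ℝ) : ℂ) := by push_cast; ring
    rw [this, Complex.norm_real, Real.norm_eq_abs, abs_sub_comm, abs_of_nonneg (by linarith [hE1 α])]
  have hbA : ‖∫ α in A, (((E α : ℝ) : ℂ) - 1) * g α‖ ≤ 2 * Real.pi * H ^ 2 * α₁ ^ 3 * NN X := by
    have hAI : A = Set.Icc (-α₁) α₁ := by
      ext α
      simp only [hA, Set.mem_ofPred_eq, Set.mem_Icc, abs_le]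
    have h2 : ∀ α ∈ A, ‖(((E α : ℝ) : ℂ) - 1) * g α‖ ≤ Real.pi * (H * α₁) ^ 2 * NN X := by
      intro α hα
      rw [norm_mul, hnE]
      have h3 : 1 - E α ≤ Real.pi * (H * α₁) ^ 2 := by
        refine (hE2 α).trans ?_
        have : (H * α) ^ 2 ≤ (H * α₁) ^ 2 := by
          rw [mul_pow, mul_pow, ← sq_abs α]
          have : |α| ≤ α₁ := hα
          gcongr
        have := Real.pi_pos
        gcongr
      have h4 : 0 ≤ 1 - E α := by linarith [hE1 α]
      have h5 : 0 ≤ Real.pi * (H * α₁) ^ 2 := by have := Real.pi_pos; positivity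
      exact mul_le_mul h3 (hgn α) (norm_nonneg _) h5
    have h5 : volume A < ⊤ := by
      rw [hAI]
      exact measure_Icc_lt_top
    refine (norm_setIntegral_le_of_norm_le_const h5 h2).trans (le_of_eq ?_)
    rw [hAI, measureReal_def, Real.volume_Icc, ENNReal.toReal_ofReal (by linarith)]
    ring
  have hbB : ‖∫ α in B, (((E α : ℝ) : ℂ) - 1) * g α‖ ≤ ∫ α in B, ‖TT X f α‖ := by
    refine (norm_integral_le_integral_norm _).trans ?_
    have hBsub : B ⊆ Set.Icc (-(1 / 2)) (1 / 2) := by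
      rw [← hAB]
      exact Set.subset_union_right
    have hTi : IntegrableOn (fun α => ‖TT X f α‖) B :=
      ((TT_cont X f).norm.continuousOn.integrableOn_compact isCompact_Icc).mono_set hBsub
    have hi : IntegrableOn (fun α => ‖(((E α : ℝ) : ℂ) - 1) * g α‖) B := by
      have : Continuous fun α => ‖(((E α : ℝ) : ℂ) - 1) * g α‖ := by
        have hEc : Continuous E := by
          rw [hE]
          fun_prop
        exact (((Complex.continuous_ofReal.comp hEc).sub continuous_const).mul hgc).norm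
      exact (this.continuousOn.integrableOn_compact isCompact_Icc).mono_set hBsub
    refine setIntegral_mono_on hi hTi hBm fun α _ => ?_
    rw [norm_mul, hnE]
    have e1 : ‖g α‖ = ‖TT X f α‖ := by
      rw [hg]
      simp only
      rw [norm_mul, norm_ee, mul_one]
    rw [e1]
    have h3 : 1 - E α ≤ 1 := by linarith [hE0 α]
    have h4 := norm_nonneg (TT X f α)
    have h5 : 0 ≤ 1 - E α := by linarith [hE1 α]
    nlinarith
  have hbC : ‖∫ α in C, ((E α : ℝ) : ℂ) * g α‖ ≤ 2 * Real.exp (-(3 / 4 * Real.pi) * (H * (1 / 2)) ^ 2) / H * NN X := by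
    refine (norm_integral_le_integral_norm _).trans ?_
    set c := Real.exp (-(3 / 4 * Real.pi) * (H * (1 / 2)) ^ 2) with hc
    have hg2 : Integrable fun α : ℝ => Real.exp (-Real.pi * (H / 2 * α) ^ 2) := gauss_integrable (by positivity)
    have hgI : ∫ α : ℝ, Real.exp (-Real.pi * (H / 2 * α) ^ 2) = 1 / (H / 2) := gauss_int (by positivity)
    have h2 : ∫ α in C, ‖((E α : ℝ) : ℂ) * g α‖ ≤ ∫ α in C, (c * NN X) * Real.exp (-Real.pi * (H / 2 * α) ^ 2) := by
      refine setIntegral_mono_on hEg.norm.integrableOn (hg2.const_mul _).integrableOn hCm fun α hα => ?_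
      rw [norm_mul, Complex.norm_real, Real.norm_of_nonneg (hE0 α)]
      have h3 : E α ≤ c * Real.exp (-Real.pi * (H / 2 * α) ^ 2) := by
        rw [hc, ← Real.exp_add]
        refine Real.exp_le_exp.2 ?_
        have h4 : (H * (1 / 2)) ^ 2 ≤ (H * α) ^ 2 := by
          rw [mul_pow, mul_pow, ← sq_abs α]
          have : 1 / 2 ≤ |α| := le_of_lt hα
          gcongr
        have := Real.pi_pos
        nlinarith
      calc E α * ‖g α‖ ≤ (c * Real.exp (-Real.pi * (H / 2 * α) ^ 2)) * NN X := by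
            have := hgn α
            gcongr
        _ = _ := by ring
    refine h2.trans ((setIntegral_le_integral (hg2.const_mul _) (Eventually.of_forall fun _ => by
      simp only [Pi.zero_apply]
      positivity)).trans (le_of_eq ?_))
    rw [integral_const_mul, hgI]
    field_simp
  have hle : RN X f H m / H ≤ ‖((RN X f H m / H : ℝ) : ℂ)‖ := by
    rw [Complex.norm_real]
    exact Real.le_norm_self _
  refine hle.trans ?_
  rw [hmain]
  exact norm_add₃_le.trans (by gcongr)

end Pool.Agent.Q43.MW
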