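import Mathlib
import Pool.Agent.Q43.MW.Fl2

set_option autoImplicit false

/-!
# Mean squares for integer parts
-/

namespace Pool.Agent.Q43.MW

open MeasureTheory Complex Finset Filter

variable {s : ℕ}

/-- the majorant of the Fourier coefficients -/
noncomputable def qh (h : ℤ) : ℝ := 4 / (1 + (h : ℝ) ^ 2)

lemma qh_pos (h : ℤ) : 0 < qh h := by
  unfold qh
  positivity

lemma qh_summable : Summable qh := by
  have h1 : Summable fun h : ℤ => 1 / (h : ℝ) ^ 2 := Real.summable_one_div_int_pow.2 (by norm_num)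
  have h2 : Summable fun h : ℤ => 4 * (1 / (h : ℝ) ^ 2) + (if h = 0 then 4 else 0) := by
    refine (h1.mul_left 4).add ?_
    exact summable_of_ne_finset_zero (s := {0}) fun h hh => by
      rw [if_neg]
      simpa using hh
  refine Summable.of_nonneg_of_le (fun h => (qh_pos h).le) (fun h => ?_) h2
  unfold qh
  by_cases h0 : h = 0
  · subst h0
    norm_num
  · rw [if_neg h0, add_zero, ← mul_one_div]
    have : (0 : ℝ) < (h : ℝ) ^ 2 := by positivity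
    gcongr
    linarith

/-- the sum of the majorants -/
noncomputable def Kq : ℝ := ∑' h, qh h

lemma Kq_one : 1 ≤ Kq := by
  have h1 : qh 0 ≤ Kq := qh_summable.le_tsum 0 fun j _ => (qh_pos j).le
  have h2 : qh 0 = 4 := by unfold qh; norm_num
  linarith

/-- Cauchy-Schwarz -/
lemma cs_q {σ : ℤ → ℝ} {N : ℝ} (h0 : ∀ h, 0 ≤ σ h) (hN : ∀ h, σ h ≤ N) :
    (∑' h, qh h * σ h) ^ 2 ≤ Kq * ∑' h, qh h * σ h ^ 2 := by
  have hN0 : 0 ≤ N := (h0 0).trans (hN 0)
  have s1 : Summable fun h => qh h * σ h := Summable.of_nonneg_of_le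
    (fun h => mul_nonneg (qh_pos h).le (h0 h)) (fun h => mul_le_mul_of_nonneg_left (hN h) (qh_pos h).le)
    (qh_summable.mul_right N)
  have s2 : Summable fun h => qh h * σ h ^ 2 := Summable.of_nonneg_of_le
    (fun h => mul_nonneg (qh_pos h).le (by positivity)) (fun h => mul_le_mul_of_nonneg_left
      (pow_le_pow_left₀ (h0 h) (hN h) 2) (qh_pos h).le)
    (qh_summable.mul_right (N ^ 2))
  have hK := Kq_one
  set S := ∑' h, qh h * σ h with hS
  set c := S / Kq with hc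
  have e1 : ∑' h, qh h * (σ h - c) ^ 2 = (∑' h, qh h * σ h ^ 2) - 2 * c * S + c ^ 2 * Kq := by
    have e2 : ∀ h, qh h * (σ h - c) ^ 2 = (qh h * σ h ^ 2 - 2 * c * (qh h * σ h)) + c ^ 2 * qh h := by
      intro h
      ring
    simp only [e2]
    rw [(s2.sub (s1.mul_left (2 * c))).tsum_add (qh_summable.mul_left (c ^ 2)), s2.tsum_sub (s1.mul_left (2 * c)),
      tsum_mul_left, tsum_mul_left]
    rfl
  have h2 : 0 ≤ ∑' h, qh h * (σ h - c) ^ 2 := tsum_nonneg fun h => mul_nonneg (qh_pos h).le (by positivity)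
  rw [e1] at h2
  have h3 : c * Kq = S := by rw [hc]; field_simp
  have h4 : c ^ 2 * Kq = c * S := by rw [pow_two, mul_assoc, h3]
  rw [h4] at h2
  have h5 : c * S ≤ ∑' h, qh h * σ h ^ 2 := by linarith
  calc S ^ 2 = Kq * (c * S) := by rw [← mul_assoc, mul_comm Kq c, h3]; ring
    _ ≤ _ := by gcongr

/-- the sum of one variable -/
lemma TI_le (X : Finset ℕ) (l t : ℝ) {α : ℝ} (hα : |α| ≤ 1 / 2) :
    ‖∑ x ∈ X, Th α (l * pe t x)‖ ^ 2 ≤ Kq * ∑' h : ℤ, qh h * ‖S1 X (pe t) (l * (α + h))‖ ^ 2 := by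
  have hs : HasSum (fun h : ℤ => ∑ x ∈ X, cf α h * ee ((α + h) * (l * pe t x))) (∑ x ∈ X, Th α (l * pe t x)) :=
    hasSum_sum fun x _ => Th_series hα _
  have e1 : ∀ h : ℤ, ∑ x ∈ X, cf α h * ee ((α + h) * (l * pe t x)) = cf α h * S1 X (pe t) (l * (α + h)) := by
    intro h
    unfold S1
    rw [mul_sum]
    refine sum_congr rfl fun x _ => ?_
    congr 2
    ring
  simp only [e1] at hs
  have hSN : ∀ h : ℤ, ‖S1 X (pe t) (l * (α + h))‖ ≤ X.card := by
    intro h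
    unfold S1
    refine (norm_sum_le _ _).trans ?_
    simp [norm_ee]
  have hsum : Summable fun h : ℤ => qh h * ‖S1 X (pe t) (l * (α + h))‖ := Summable.of_nonneg_of_le
    (fun h => mul_nonneg (qh_pos h).le (norm_nonneg _)) (fun h => mul_le_mul_of_nonneg_left (hSN h) (qh_pos h).le)
    (qh_summable.mul_right _)
  have hn : ‖∑ x ∈ X, Th α (l * pe t x)‖ ≤ ∑' h : ℤ, qh h * ‖S1 X (pe t) (l * (α + h))‖ := by
    rw [← hs.tsum_eq]
    refine tsum_of_norm_bounded hsum.hasSum fun h => ?_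
    rw [norm_mul]
    exact mul_le_mul_of_nonneg_right (cf_bound hα h) (norm_nonneg _)
  exact (pow_le_pow_left₀ (norm_nonneg _) hn 2).trans (cs_q (fun h => norm_nonneg _) hSN)

lemma ms_TI {X : Finset ℕ} {l a b B : ℝ} (hab : a ≤ b) {α : ℝ} (hα : |α| ≤ 1 / 2) (hB : 0 ≤ B)
    (hb : ∀ h : ℤ, ∫ t in a..b, ‖S1 X (pe t) (l * (α + h))‖ ^ 2 ≤ B) :
    ∫ t in a..b, ‖∑ x ∈ X, Th α (l * pe t x)‖ ^ 2 ≤ Kq ^ 2 * B := by
  rw [intervalIntegral.integral_of_le hab]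
  have hcS : ∀ h : ℤ, Continuous fun t : ℝ => qh h * ‖S1 X (pe t) (l * (α + h))‖ ^ 2 := by
    intro h
    unfold S1
    fun_prop
  have hSN : ∀ (h : ℤ) (t : ℝ), ‖S1 X (pe t) (l * (α + h))‖ ≤ X.card := by
    intro h t
    unfold S1
    refine (norm_sum_le _ _).trans ?_
    simp [norm_ee]
  have hFi : ∀ h : ℤ, Integrable (fun t : ℝ => qh h * ‖S1 X (pe t) (l * (α + h))‖ ^ 2)
      (volume.restrict (Set.Ioc a b)) := fun h =>
    ((hcS h).continuousOn.integrableOn_compact isCompact_Icc).mono_set Set.Ioc_subset_Icc_self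
  have hb' : ∀ h : ℤ, ∫ t in Set.Ioc a b, qh h * ‖S1 X (pe t) (l * (α + h))‖ ^ 2 ≤ qh h * B := by
    intro h
    rw [integral_const_mul]
    have := hb h
    rw [intervalIntegral.integral_of_le hab] at this
    exact mul_le_mul_of_nonneg_left this (qh_pos h).le
  have hFs : Summable fun h : ℤ => ∫ t in Set.Ioc a b, ‖qh h * ‖S1 X (pe t) (l * (α + h))‖ ^ 2‖ := by
    refine Summable.of_nonneg_of_le (fun h => integral_nonneg fun _ => norm_nonneg _) (fun h => ?_)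
      (qh_summable.mul_right B)
    refine le_trans (le_of_eq ?_) (hb' h)
    congr 1
    ext t
    rw [Real.norm_of_nonneg (mul_nonneg (qh_pos h).le (by positivity))]
  have hts := integral_tsum_of_summable_integral_norm hFi hFs
  have hint : Integrable (fun t : ℝ => ∑' h : ℤ, qh h * ‖S1 X (pe t) (l * (α + h))‖ ^ 2)
      (volume.restrict (Set.Ioc a b)) := by
    have hc : Continuous fun t : ℝ => ∑' h : ℤ, qh h * ‖S1 X (pe t) (l * (α + h))‖ ^ 2 := by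
      refine continuous_tsum (u := fun h => qh h * (X.card : ℝ) ^ 2) hcS (qh_summable.mul_right _) fun h t => ?_
      rw [Real.norm_of_nonneg (mul_nonneg (qh_pos h).le (by positivity))]
      exact mul_le_mul_of_nonneg_left (pow_le_pow_left₀ (norm_nonneg _) (hSN h t) 2) (qh_pos h).le
    exact (hc.continuousOn.integrableOn_compact isCompact_Icc).mono_set Set.Ioc_subset_Icc_self
  have hcT : Continuous fun t : ℝ => ‖∑ x ∈ X, Th α (l * pe t x)‖ ^ 2 := by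
    refine Continuous.pow (Continuous.norm ?_) 2
    exact continuous_finsetSum _ fun x _ => Th_cont' continuous_const (by fun_prop)
  have hiT : Integrable (fun t : ℝ => ‖∑ x ∈ X, Th α (l * pe t x)‖ ^ 2) (volume.restrict (Set.Ioc a b)) :=
    (hcT.continuousOn.integrableOn_compact isCompact_Icc).mono_set Set.Ioc_subset_Icc_self
  have hK := Kq_one
  calc ∫ t in Set.Ioc a b, ‖∑ x ∈ X, Th α (l * pe t x)‖ ^ 2
      ≤ ∫ t in Set.Ioc a b, Kq * ∑' h : ℤ, qh h * ‖S1 X (pe t) (l * (α + h))‖ ^ 2 :=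
        integral_mono hiT (hint.const_mul _) fun t => TI_le X l t hα
    _ = Kq * ∑' h : ℤ, ∫ t in Set.Ioc a b, qh h * ‖S1 X (pe t) (l * (α + h))‖ ^ 2 := by
        rw [integral_const_mul, hts]
    _ ≤ Kq * ∑' h : ℤ, qh h * B := by
        refine mul_le_mul_of_nonneg_left ?_ (by linarith)
        have hsum1 : Summable fun h : ℤ => ∫ t in Set.Ioc a b, qh h * ‖S1 X (pe t) (l * (α + h))‖ ^ 2 := by
          refine hFs.congr fun h => ?_
          congr 1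
          ext t
          rw [Real.norm_of_nonneg (mul_nonneg (qh_pos h).le (by positivity))]
        exact hsum1.tsum_le_tsum hb' (qh_summable.mul_right B)
    _ = Kq ^ 2 * B := by
        rw [tsum_mul_right]
        change Kq * (Kq * B) = _
        ring

/-- one factor -/
lemma one_factor_TI {a b ε₁ l Y : ℝ} (ha : 1 ≤ a) (hab : a ≤ b) (hb : b ≤ a + 1) (hl : 0 < l)
    (hε : 1 - a⁻¹ - ε₁ ≤ (a - 1) / b) (hε0 : 0 ≤ ε₁) (hY : 2 ≤ Y) (hY3 : 3 ≤ Y ^ b⁻¹) {α : ℝ} (hα : 1 ≤ |α| * Y)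
    (hα2 : |α| ≤ 1 / 2) :
    ∫ t in a..b, ‖∑ x ∈ Xe a b Y, Th α (l * pe t x)‖ ^ 2 ≤
      (2 * Kq ^ 2) * ((54 * (1 + l⁻¹) * (4 + Real.log Y)) * (Y ^ (a⁻¹ + ε₁) * max 1 (|α| ^ (-a⁻¹)))) := by
  have hY0 : 0 < Y := by linarith
  have hlogY := Real.log_nonneg (by linarith : 1 ≤ Y)
  have hl' : 0 < l⁻¹ := by positivity
  set m : ℝ := max 1 (|α| ^ (-a⁻¹)) with hm
  have hm1 : 1 ≤ m := le_max_left _ _
  set Bd : ℝ := (54 * (1 + l⁻¹) * (4 + Real.log Y)) * (Y ^ (a⁻¹ + ε₁) * m) with hBd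
  have hYp : 0 < Y ^ (a⁻¹ + ε₁) := Real.rpow_pos_of_pos hY0 _
  have hBd0 : 0 ≤ Bd := by positivity
  have h := ms_TI (X := Xe a b Y) (l := l) hab hα2 (B := 2 * Bd) (by positivity) fun h => by
    by_cases h0 : h = 0
    · subst h0
      rw [Int.cast_zero, add_zero]
      refine (one_factor ha hab hb hl hε hε0 (by linarith) hY3 hα).trans ?_
      linarith
    · have hh : (1 : ℝ) ≤ |(h : ℝ)| := by
        have : (1 : ℤ) ≤ |h| := Int.one_le_abs h0
        exact_mod_cast this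
      have h1 : 1 / 2 ≤ |α + h| := by
        have h2 : |(h : ℝ)| ≤ |α + h| + |α| := by
          have : (h : ℝ) = (α + h) - α := by ring
          rw [this]
          refine (abs_sub _ _).trans ?_
          rw [← this]
        linarith
      have h3 : 1 ≤ |α + h| * Y := by nlinarith
      refine (one_factor ha hab hb hl hε hε0 (by linarith) hY3 h3).trans ?_
      have h4 : max 1 (|α + h| ^ (-a⁻¹)) ≤ 2 := by
        refine max_le (by norm_num) ?_
        have h5 : 0 < |α + h| := by linarith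
        have ha' : a⁻¹ ≤ 1 := inv_le_one_of_one_le₀ ha
        have ha0 : 0 < a⁻¹ := inv_pos.2 (by linarith)
        calc |α + h| ^ (-a⁻¹) ≤ (1 / 2 : ℝ) ^ (-a⁻¹) :=
              Real.rpow_le_rpow_of_nonpos (by norm_num) h1 (by linarith)
          _ = 2 ^ a⁻¹ := by
              rw [Real.rpow_neg (by norm_num), one_div, Real.inv_rpow (by norm_num), inv_inv]
          _ ≤ 2 ^ (1 : ℝ) := Real.rpow_le_rpow_of_exponent_le (by norm_num) ha'
          _ = 2 := Real.rpow_one 2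
      calc (54 * (1 + l⁻¹) * (4 + Real.log Y)) * (Y ^ (a⁻¹ + ε₁) * max 1 (|α + h| ^ (-a⁻¹)))
          ≤ (54 * (1 + l⁻¹) * (4 + Real.log Y)) * (Y ^ (a⁻¹ + ε₁) * (2 * m)) := by
            have : max 1 (|α + h| ^ (-a⁻¹)) ≤ 2 * m := by linarith
            gcongr
        _ = 2 * Bd := by rw [hBd]; ring
  refine h.trans (le_of_eq ?_)
  ring

/-- the functions -/
noncomputable def fe (l c : Fin s → ℝ) (i : Fin s) (x : ℕ) : ℝ := l i * pe (c i) x

lemma TT_fe_cont (X : Fin s → Finset ℕ) (l : Fin s → ℝ) :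
    Continuous fun q : (Fin s → ℝ) × ℝ => TT X (fe l q.1) q.2 := by
  have h : ∀ i, Continuous fun q : (Fin s → ℝ) × ℝ => ∑ x ∈ X i, Th q.2 (fe l q.1 i x) := fun i =>
    continuous_finsetSum _ fun x _ => Th_cont' continuous_snd (by unfold fe pe; fun_prop)
  have h2 := continuous_finsetProd (s := (univ : Finset (Fin s)))
    (f := fun i (q : (Fin s → ℝ) × ℝ) => ∑ x ∈ X i, Th q.2 (fe l q.1 i x)) fun i _ => h i
  exact h2

lemma mean_TT (X : Fin s → Finset ℕ) (l : Fin s → ℝ) {a b : Fin s → ℝ} (hab : ∀ i, a i ≤ b i) (α : ℝ) :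
    ∫ c, ‖TT X (fe l c) α‖ ^ 2 ∂(bxe a b) =
      ∏ i, ∫ t in (a i)..(b i), ‖∑ x ∈ X i, Th α (l i * pe t x)‖ ^ 2 := by
  have e : ∀ c : Fin s → ℝ, ‖TT X (fe l c) α‖ ^ 2 = ∏ i, ‖∑ x ∈ X i, Th α (l i * pe (c i) x)‖ ^ 2 := by
    intro c
    unfold TT fe
    rw [norm_prod, prod_pow]
  simp only [e]
  unfold bxe
  rw [integral_fintype_prod_eq_prod (fun i (t : ℝ) => ‖∑ x ∈ X i, Th α (l i * pe t x)‖ ^ 2)]
  refine prod_congr rfl fun i _ => ?_
  rw [intervalIntegral.integral_of_le (hab i)]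

/-- the constant -/
noncomputable def KF (l : Fin s → ℝ) : ℝ := (2 * Kq ^ 2) ^ s * KE l

lemma KF_pos {l : Fin s → ℝ} (hl : ∀ i, 0 < l i) : 1 ≤ KF l := by
  unfold KF
  have h1 := Kq_one
  have h2 : (1 : ℝ) ≤ (2 * Kq ^ 2) ^ s := one_le_pow₀ (by nlinarith)
  exact one_le_mul_of_one_le_of_one_le h2 (KE_pos hl)

lemma phi_TT {a b l : Fin s → ℝ} {ε₁ Y : ℝ} (ha : ∀ i, 1 ≤ a i) (hab : ∀ i, a i ≤ b i) (hb : ∀ i, b i ≤ a i + 1)
    (hl : ∀ i, 0 < l i) (hε : ∀ i, 1 - (a i)⁻¹ - ε₁ ≤ (a i - 1) / b i) (hε0 : 0 ≤ ε₁) (hY : 2 ≤ Y)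
    (hY3 : ∀ i, 3 ≤ Y ^ (b i)⁻¹) {c : ℝ} (hσ : 1 + c ≤ sg a / 2) {α : ℝ}
    (hα : 1 ≤ |α| * Y) (hα2 : |α| ≤ 1 / 2) :
    ∫ t, ‖TT (XE a b Y) (fe l t) α‖ ^ 2 ∂(bxe a b) ≤
      ((KF l * (4 + Real.log Y) ^ s) * Y ^ (sg a + s * ε₁) * (|α| * Y) ^ (-1 - c)) ^ 2 := by
  have hY0 : 0 < Y := by linarith
  have hY1 : 1 ≤ Y := by linarith
  have hlogY := Real.log_nonneg hY1
  have ha0 : 0 < |α| := by
    by_contra h
    push Not at h
    nlinarith [abs_nonneg α]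
  have hM : 0 < |α| * Y := by linarith
  rw [mean_TT _ _ hab]
  have h1 : ∏ i, ∫ t in (a i)..(b i), ‖∑ x ∈ XE a b Y i, Th α (l i * pe t x)‖ ^ 2 ≤
      ∏ i, ((2 * Kq ^ 2) * ((54 * (1 + (l i)⁻¹) * (4 + Real.log Y)) *
        (Y ^ ((a i)⁻¹ + ε₁) * max 1 (|α| ^ (-(a i)⁻¹))))) :=
    prod_le_prod (fun i _ => intervalIntegral.integral_nonneg (hab i) fun t _ => by positivity)
      fun i _ => one_factor_TI (ha i) (hab i) (hb i) (hl i) (hε i) hε0 hY (hY3 i) hα hα2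
  refine h1.trans ?_
  have e1 : ∏ i, Y ^ ((a i)⁻¹ + ε₁) = Y ^ (sg a + s * ε₁) := by
    rw [← Real.rpow_sum_of_pos hY0]
    congr 1
    unfold sg
    rw [sum_add_distrib, sum_const, card_univ, Fintype.card_fin, nsmul_eq_mul]
  have p0 : ∏ _i : Fin s, (2 * Kq ^ 2) = (2 * Kq ^ 2) ^ s := by rw [prod_const, card_univ, Fintype.card_fin]
  have p1 : ∏ i : Fin s, (54 * (1 + (l i)⁻¹) * (4 + Real.log Y)) = KE l * (4 + Real.log Y) ^ s := by
    unfold KE
    rw [prod_mul_distrib (f := fun i => 54 * (1 + (l i)⁻¹)), prod_const, card_univ, Fintype.card_fin]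
  have p2 : ∏ i, (Y ^ ((a i)⁻¹ + ε₁) * max 1 (|α| ^ (-(a i)⁻¹))) =
      Y ^ (sg a + s * ε₁) * ∏ i, max 1 (|α| ^ (-(a i)⁻¹)) := by
    rw [prod_mul_distrib, e1]
  rw [prod_mul_distrib, p0, prod_mul_distrib, p1, p2]
  have hK := KF_pos hl
  set L : ℝ := (4 + Real.log Y) ^ s with hL
  have hL1 : 1 ≤ L := one_le_pow₀ (by linarith)
  set W : ℝ := Y ^ (sg a + s * ε₁) with hW
  have hW0 : 0 < W := Real.rpow_pos_of_pos hY0 _
  have h2c : 2 + 2 * c ≤ sg a := by linarith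
  have hmax : ∏ i, max 1 (|α| ^ (-(a i)⁻¹)) ≤ W * (|α| * Y) ^ (-(2 + 2 * c)) := by
    have h : |α| ≤ 1 := by linarith
    have h3 : ∀ i, max 1 (|α| ^ (-(a i)⁻¹)) = |α| ^ (-(a i)⁻¹) := by
      intro i
      refine max_eq_right ?_
      have : 0 < (a i)⁻¹ := inv_pos.2 (by linarith [ha i])
      rw [Real.rpow_neg ha0.le, one_le_inv₀ (Real.rpow_pos_of_pos ha0 _)]
      exact Real.rpow_le_one ha0.le h this.le
    rw [prod_congr rfl fun i _ => h3 i, ← Real.rpow_sum_of_pos ha0, sum_neg_distrib]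
    have h4 : |α| ^ (-∑ i, (a i)⁻¹) = Y ^ (sg a) * (|α| * Y) ^ (-sg a) := by
      unfold sg
      rw [Real.mul_rpow ha0.le hY0.le, Real.rpow_neg hY0.le]
      have := Real.rpow_pos_of_pos hY0 (∑ i, (a i)⁻¹)
      field_simp
    rw [h4]
    have h5 : (|α| * Y) ^ (-sg a) ≤ (|α| * Y) ^ (-(2 + 2 * c)) :=
      Real.rpow_le_rpow_of_exponent_le hα (by linarith)
    have h6 : Y ^ (sg a) ≤ W := Real.rpow_le_rpow_of_exponent_le hY1 (by
      have : 0 ≤ (s : ℝ) * ε₁ := by positivity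
      linarith)
    gcongr
  have e2 : (KF l * L * W * (|α| * Y) ^ (-1 - c)) ^ 2 =
      (KF l * L) * (KF l * L) * W * (W * (|α| * Y) ^ (-(2 + 2 * c))) := by
    have e3 : ((|α| * Y) ^ (-1 - c)) ^ 2 = (|α| * Y) ^ (-(2 + 2 * c)) := by
      rw [← Real.rpow_natCast, ← Real.rpow_mul hM.le]
      congr 1
      push_cast
      ring
    rw [mul_pow, e3]
    ring
  rw [e2]
  have hKL : 1 ≤ KF l * L := one_le_mul_of_one_le_of_one_le hK hL1
  have hP : 0 < (|α| * Y) ^ (-(2 + 2 * c)) := Real.rpow_pos_of_pos hM _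
  have hKE := KE_pos hl
  have hKq := Kq_one
  have e4 : (2 * Kq ^ 2) ^ s * (KE l * L * (W * ∏ i, max 1 (|α| ^ (-(a i)⁻¹)))) =
      KF l * L * (W * ∏ i, max 1 (|α| ^ (-(a i)⁻¹))) := by
    unfold KF
    ring
  rw [e4]
  calc KF l * L * (W * ∏ i, max 1 (|α| ^ (-(a i)⁻¹))) ≤
        KF l * L * (W * (W * (|α| * Y) ^ (-(2 + 2 * c)))) := by gcongr
    _ = (KF l * L) * 1 * W * (W * (|α| * Y) ^ (-(2 + 2 * c))) := by ring
    _ ≤ _ := by gcongr

end Pool.Agent.Q43.MW
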