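import Mathlib
import Pool.Agent.Q43.MW.Fl3

set_option autoImplicit false

/-!
# Borel-Cantelli for the middle frequencies, and the density of the good integers
-/

namespace Pool.Agent.Q43.MW

open MeasureTheory Complex Finset Filter

variable {n : ℕ}

/-- the middle frequencies are small for almost all exponents -/
lemma bc_TT {a b l : Fin (n + 1) → ℝ} {ε₁ c h C : ℝ} (ha : ∀ i, 1 ≤ a i) (hab : ∀ i, a i ≤ b i)
    (hb : ∀ i, b i ≤ a i + 1) (hl : ∀ i, 0 < l i) (hε : ∀ i, 1 - (a i)⁻¹ - ε₁ ≤ (a i - 1) / b i) (hε0 : 0 ≤ ε₁)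
    (hc : 0 ≤ c) (hσ : 1 + c ≤ sg a / 2) (hh : 0 < h) (hh1 : h < 1) (hC : 0 < C)
    (hmid : sg a + ((n + 1 : ℕ) : ℝ) * ε₁ - h * c < sg b) :
    ∀ᵐ t ∂(bxe a b), ∀ᶠ j in atTop,
      (∫ α in {α : ℝ | Yj j ^ (h - 1) < |α| ∧ |α| ≤ 1 / 2}, ‖TT (XE a b (Yj j)) (fe l t) α‖) <
        C * Yj j ^ (sg b - 1) := by
  set κ : ℝ := (sg b - (sg a + ((n + 1 : ℕ) : ℝ) * ε₁ - h * c)) / 2 with hκ
  have hκ0 : 0 < κ := by rw [hκ]; linarith
  set W := (bxe a b).real Set.univ + 1 with hW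
  have hW0 : 0 ≤ W := by
    have : 0 ≤ (bxe a b).real Set.univ := measureReal_nonneg
    linarith
  have hK := KF_pos hl
  set V : ℝ := W * KF l * 2 / C with hV
  have hY3 : ∀ᶠ Y : ℝ in atTop, ∀ i, 3 ≤ Y ^ (b i)⁻¹ := by
    rw [eventually_all]
    intro i
    exact const_le 3 (inv_pos.2 (by linarith [ha i, hab i]))
  have hgen : ∀ᶠ Y : ℝ in atTop,
      Integrable (fun t => ∫ α in {α : ℝ | Y ^ (h - 1) < |α| ∧ |α| ≤ 1 / 2}, ‖TT (XE a b Y) (fe l t) α‖) (bxe a b) ∧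
      ∫ t, (∫ α in {α : ℝ | Y ^ (h - 1) < |α| ∧ |α| ≤ 1 / 2}, ‖TT (XE a b Y) (fe l t) α‖) ∂(bxe a b) ≤
        C * Y ^ (sg b - 1) * Y ^ (-κ) := by
    filter_upwards [log_pow_le V (n + 2) hκ0, eventually_ge_atTop 2, hY3, const_le 2 (κ := 1 - h) (by linarith)]
      with Y h4 h5 h6 h7
    have hY0 : 0 < Y := by linarith
    have hY1 : 1 ≤ Y := by linarith
    have hlogY := Real.log_nonneg hY1
    have hα0 : 0 < Y ^ (h - 1) := Real.rpow_pos_of_pos hY0 _
    have h12 : Y ^ (h - 1) ≤ 1 / 2 := by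
      rw [show h - 1 = -(1 - h) by ring, Real.rpow_neg hY0.le, one_div]
      exact inv_anti₀ (by norm_num) h7
    have hMe : Y ^ (h - 1) * Y = Y ^ h := by
      rw [← Real.rpow_add_one hY0.ne']
      congr 1
      ring
    have hY1h : 1 ≤ Y ^ h := Real.one_le_rpow hY1 hh.le
    have hYs : 0 < Y ^ (sg a + ((n + 1 : ℕ) : ℝ) * ε₁) := Real.rpow_pos_of_pos hY0 _
    have hg := gen_A1 (ν := bxe a b) (G := fun q => TT (XE a b Y) (fe l q.1) q.2) (TT_fe_cont _ l)
      (N := NN (XE a b Y)) (fun q => TT_norm _ _ q.2) hα0 h12 hY0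
      (by positivity : 0 < KF l * (4 + Real.log Y) ^ (n + 1)) hYs hc
      (fun α g1 g2 => phi_TT ha hab hb hl hε hε0 h5 h6 hσ (by
        calc (1 : ℝ) ≤ Y ^ (h - 1) * Y := by rw [hMe]; exact hY1h
          _ ≤ |α| * Y := by gcongr) g2)
    refine ⟨hg.1, hg.2.trans ?_⟩
    have hlog : Real.log (1 / 2 / Y ^ (h - 1)) ≤ 4 + Real.log Y := by
      have e1 : Real.log (1 / 2 / Y ^ (h - 1)) ≤ Real.log (1 / Y ^ (h - 1)) :=
        Real.log_le_log (by positivity) (by gcongr; norm_num)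
      refine e1.trans ?_
      rw [one_div, ← Real.rpow_neg hY0.le, Real.log_rpow hY0]
      nlinarith
    have hlog0 : 0 ≤ Real.log (1 / 2 / Y ^ (h - 1)) := Real.log_nonneg ((one_le_div hα0).2 h12)
    rw [hMe, ← Real.rpow_mul hY0.le, ← hW]
    have hp2 : 0 < Y ^ (h * -c) := Real.rpow_pos_of_pos hY0 _
    calc W * (KF l * (4 + Real.log Y) ^ (n + 1)) * Y ^ (sg a + ((n + 1 : ℕ) : ℝ) * ε₁) / Y * Y ^ (h * -c) *
          (2 * Real.log (1 / 2 / Y ^ (h - 1)))
        ≤ W * (KF l * (4 + Real.log Y) ^ (n + 1)) * Y ^ (sg a + ((n + 1 : ℕ) : ℝ) * ε₁) / Y * Y ^ (h * -c) *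
          (2 * (4 + Real.log Y)) := by gcongr
      _ = C * (Y ^ (sg a + ((n + 1 : ℕ) : ℝ) * ε₁) / Y * Y ^ (h * -c)) * (V * (4 + Real.log Y) ^ (n + 2)) := by
          rw [hV]
          field_simp
          ring
      _ ≤ C * (Y ^ (sg a + ((n + 1 : ℕ) : ℝ) * ε₁) / Y * Y ^ (h * -c)) * Y ^ κ := by gcongr
      _ = C * Y ^ (sg b - 1) * Y ^ (-κ) := by
          rw [← Real.rpow_sub_one hY0.ne', ← Real.rpow_add hY0, mul_assoc, mul_assoc, ← Real.rpow_add hY0,
            ← Real.rpow_add hY0]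
          congr 2
          rw [hκ]
          ring
  obtain ⟨j₀, hj₀⟩ := eventually_atTop.1 (Yj_tendsto.eventually hgen)
  have hbc := bc (μ := bxe a b)
    (f := fun j t => if j₀ ≤ j then ∫ α in {α : ℝ | Yj j ^ (h - 1) < |α| ∧ |α| ≤ 1 / 2},
      ‖TT (XE a b (Yj j)) (fe l t) α‖ else 0)
    (E := fun j => C * Yj j ^ (sg b - 1) * Yj j ^ (-κ)) (θ := fun j => C * Yj j ^ (sg b - 1)) (j₀ := j₀)
    (fun j => by
      by_cases hj : j₀ ≤ j
      · simp only [hj, if_true]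
        exact (hj₀ j hj).1
      · simp only [hj, if_false]
        exact integrable_const 0)
    (fun j t => by
      by_cases hj : j₀ ≤ j
      · simp only [hj, if_true]
        exact integral_nonneg fun _ => norm_nonneg _
      · simp only [hj, if_false]
        exact le_rfl) (fun j hj => by
        simp only [hj, if_true]
        exact (hj₀ j hj).2)
    (fun j => mul_pos hC (Real.rpow_pos_of_pos (Yj_pos j) _)) (by
      refine (Yj_summable hκ0).congr fun j => ?_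
      have := Real.rpow_pos_of_pos (Yj_pos j) (sg b - 1)
      rw [mul_div_cancel_left₀ _ (by positivity)])
  filter_upwards [hbc] with t ht
  filter_upwards [ht, eventually_ge_atTop j₀] with j h1 h2
  simpa only [h2, if_true] using h1

/-! ### Good integers -/

/-- the good integers of a finite set -/
noncomputable def gd (X : Finset ℕ) (f : ℕ → ℝ) : Finset ℕ := X.filter fun x => 1 / 8 ≤ ww (f x)

/-- a window with a small exponential sum has many good integers -/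
lemma good_window {X : Finset ℕ} {l t : ℝ} {M : ℕ} (hX : X.card = M) (hS : ‖S1 X (pe t) l‖ < M / 2) :
    (M : ℝ) / 8 ≤ ((gd X fun x => l * pe t x).card : ℝ) := by
  have hww : ∀ x ∈ X, ww (l * pe t x) ≤ 1 / 8 + (if 1 / 8 ≤ ww (l * pe t x) then (7 / 8 : ℝ) else 0) := by
    intro x _
    split_ifs with h
    · have := ww_le (l * pe t x)
      linarith
    · push Not at h
      linarith
  have h1 : ∑ x ∈ X, ww (l * pe t x) ≤ (M : ℝ) / 8 + 7 / 8 * ((gd X fun x => l * pe t x).card : ℝ) := by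
    refine (sum_le_sum hww).trans (le_of_eq ?_)
    rw [sum_add_distrib, sum_const, hX, nsmul_eq_mul, ← sum_filter, sum_const, nsmul_eq_mul]
    unfold gd
    ring
  have hre : ∀ x ∈ X, ww (l * pe t x) = 1 / 2 - (ee (l * pe t x)).re / 2 := by
    intro x _
    unfold ww ee
    have : (2 * Real.pi * I * ((l * pe t x : ℝ) : ℂ)) = ((2 * Real.pi * (l * pe t x) : ℝ) : ℂ) * I := by
      push_cast
      ring
    rw [this, Complex.exp_ofReal_mul_I_re]
    ring
  have h2 : ∑ x ∈ X, ww (l * pe t x) = (M : ℝ) / 2 - (S1 X (pe t) l).re / 2 := by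
    rw [sum_congr rfl hre, sum_sub_distrib, sum_const, hX, nsmul_eq_mul, ← sum_div, ← Complex.re_sum]
    unfold S1
    ring
  have h3 : (S1 X (pe t) l).re ≤ ‖S1 X (pe t) l‖ := Complex.re_le_norm _
  have h4 : (0 : ℝ) ≤ M := Nat.cast_nonneg M
  linarith

end Pool.Agent.Q43.MW
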