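import Mathlib
import Pool.Agent.Q43.MW.Fl4

set_option autoImplicit false

/-!
# The good integers in short intervals
-/

namespace Pool.Agent.Q43.MW

open MeasureTheory Complex Finset Filter

variable {n : ℕ}

/-- the length of the short windows -/
noncomputable def Mm (b Y : ℝ) : ℕ := ⌊Y ^ (3 / 4 * b⁻¹)⌋₊

lemma Mm_facts {b Y : ℝ} (hb : 1 ≤ b) (hY : 1 ≤ Y) :
    1 ≤ Mm b Y ∧ (Mm b Y : ℝ) ≤ Y ^ (3 / 4 * b⁻¹) ∧ Y ^ (3 / 4 * b⁻¹) ≤ 2 * Mm b Y := by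
  have h0 : 0 < b⁻¹ := inv_pos.2 (by linarith)
  have h1 : 1 ≤ Y ^ (3 / 4 * b⁻¹) := Real.one_le_rpow hY (by positivity)
  have h2 : 1 ≤ Mm b Y := Nat.le_floor (by exact_mod_cast h1)
  have h3 : Y ^ (3 / 4 * b⁻¹) < (Mm b Y : ℝ) + 1 := Nat.lt_floor_add_one _
  have h4 : (1 : ℝ) ≤ Mm b Y := by exact_mod_cast h2
  exact ⟨h2, Nat.floor_le (by linarith), by linarith⟩

/-- the exponent `t` has many good integers in all short windows at the height `Y` -/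
def GoodE (a b l t Y : ℝ) : Prop :=
  ∀ g : ℕ, 2 ≤ g → ((g + 1 : ℕ) : ℝ) * Mm b Y ≤ 8 * Y ^ a⁻¹ →
    (Mm b Y : ℝ) / 8 ≤ ((gd (Ioc (g * Mm b Y) ((g + 1) * Mm b Y)) fun x => l * pe t x).card : ℝ)

/-- the sum of the squares over the windows -/
noncomputable def Wsum (a b l Y t : ℝ) : ℝ :=
  ∑ g ∈ Ico 2 ⌊8 * Y ^ a⁻¹ / Mm b Y⌋₊, ‖S1 (Ioc (g * Mm b Y) ((g + 1) * Mm b Y)) (pe t) l‖ ^ 2

lemma Wsum_cont (a b l Y : ℝ) : Continuous (Wsum a b l Y) := by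
  unfold Wsum S1
  fun_prop

lemma Wsum_mean {a b l Y : ℝ} (ha : 1 ≤ a) (hab : a ≤ b) (hb : b ≤ a + 1) (hl : 0 < l) (hY : 1 ≤ Y) :
    ∫ t in a..b, Wsum a b l Y t ≤ 24 * (1 + l⁻¹) * (4 + Real.log Y) * Y ^ a⁻¹ := by
  have hY0 : 0 < Y := by linarith
  obtain ⟨m1, m2, m3⟩ := Mm_facts (ha.trans hab) hY
  have hM1 : (1 : ℝ) ≤ Mm b Y := by exact_mod_cast m1
  have hlogM0 := Real.log_nonneg hM1
  have hlogY := Real.log_nonneg hY
  have hlogM : Real.log (Mm b Y) ≤ Real.log Y := by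
    refine Real.log_le_log (by linarith) (m2.trans ?_)
    have hb0 : b⁻¹ ≤ 1 := inv_le_one_of_one_le₀ (ha.trans hab)
    calc Y ^ (3 / 4 * b⁻¹) ≤ Y ^ (1 : ℝ) := Real.rpow_le_rpow_of_exponent_le hY (by linarith)
      _ = Y := Real.rpow_one Y
  have hl' : 0 < l⁻¹ := by positivity
  have h1 : ∀ g ∈ Ico 2 ⌊8 * Y ^ a⁻¹ / Mm b Y⌋₊,
      ∫ t in a..b, ‖S1 (Ioc (g * Mm b Y) ((g + 1) * Mm b Y)) (pe t) l‖ ^ 2 ≤
        3 * Mm b Y * (4 + Real.log Y) * (1 + l⁻¹) := by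
    intro g hg
    rw [mem_Ico] at hg
    have h2 := ms_exp (X := Ioc (g * Mm b Y) ((g + 1) * Mm b Y)) (u := g * Mm b Y + 1) (N := Mm b Y)
      (by
        intro x hx
        rw [mem_Ioc] at hx
        rw [mem_Ico]
        constructor
        · omega
        · have : (g + 1) * Mm b Y = g * Mm b Y + Mm b Y := by ring
          omega) m1 (P := 3) le_rfl (by
        intro x hx
        rw [mem_Ioc] at hx
        have h3 : 2 * 1 ≤ g * Mm b Y := Nat.mul_le_mul hg.1 m1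
        have : 3 ≤ x := by omega
        exact_mod_cast this) ha hab (α := l) hl.ne'
    refine h2.trans ?_
    have h4 : 1 / (|l| * (3 : ℝ) ^ (a - 1)) ≤ l⁻¹ := by
      rw [abs_of_pos hl, one_div]
      refine inv_anti₀ hl ?_
      have : (1 : ℝ) ≤ 3 ^ (a - 1) := Real.one_le_rpow (by norm_num) (by linarith)
      nlinarith
    have h5 : b - a + 2 ≤ 3 := by linarith
    have h6 : 0 ≤ b - a + 2 := by linarith
    have h7 : 1 + Real.log (Mm b Y) ≤ 4 + Real.log Y := by linarith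
    have h8 : 0 ≤ 1 / (|l| * (3 : ℝ) ^ (a - 1)) := by positivity
    gcongr
  unfold Wsum
  rw [intervalIntegral.integral_finsetSum]
  · refine (sum_le_sum h1).trans ?_
    rw [sum_const, nsmul_eq_mul, Nat.card_Ico]
    have h9 : ((⌊8 * Y ^ a⁻¹ / Mm b Y⌋₊ - 2 : ℕ) : ℝ) ≤ 8 * Y ^ a⁻¹ / Mm b Y := by
      have h10 : ((⌊8 * Y ^ a⁻¹ / Mm b Y⌋₊ - 2 : ℕ) : ℝ) ≤ (⌊8 * Y ^ a⁻¹ / Mm b Y⌋₊ : ℝ) := by
        exact_mod_cast Nat.sub_le _ _
      exact h10.trans (Nat.floor_le (by positivity))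
    calc ((⌊8 * Y ^ a⁻¹ / Mm b Y⌋₊ - 2 : ℕ) : ℝ) * (3 * Mm b Y * (4 + Real.log Y) * (1 + l⁻¹))
        ≤ (8 * Y ^ a⁻¹ / Mm b Y) * (3 * Mm b Y * (4 + Real.log Y) * (1 + l⁻¹)) := by gcongr
      _ = _ := by
          field_simp
          ring
  · intro g _
    exact (by unfold S1; fun_prop : Continuous fun t : ℝ =>
      ‖S1 (Ioc (g * Mm b Y) ((g + 1) * Mm b Y)) (pe t) l‖ ^ 2).intervalIntegrable _ _

lemma GoodE_of {a b l t Y : ℝ} (hb : 1 ≤ b) (hY : 1 ≤ Y) (h : Wsum a b l Y t < Y ^ (3 / 2 * b⁻¹) / 16) :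
    GoodE a b l t Y := by
  intro g hg1 hg2
  have hY0 : 0 < Y := by linarith
  obtain ⟨m1, m2, m3⟩ := Mm_facts hb hY
  have hM1 : (1 : ℝ) ≤ Mm b Y := by exact_mod_cast m1
  refine good_window (M := Mm b Y) ?_ ?_
  · rw [Nat.card_Ioc]
    have : (g + 1) * Mm b Y = g * Mm b Y + Mm b Y := by ring
    omega
  · have hmem : g ∈ Ico 2 ⌊8 * Y ^ a⁻¹ / Mm b Y⌋₊ := by
      rw [mem_Ico]
      refine ⟨hg1, ?_⟩
      have : g + 1 ≤ ⌊8 * Y ^ a⁻¹ / Mm b Y⌋₊ := by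
        refine Nat.le_floor ?_
        rw [le_div_iff₀ (by linarith)]
        exact hg2
      omega
    have h1 : ‖S1 (Ioc (g * Mm b Y) ((g + 1) * Mm b Y)) (pe t) l‖ ^ 2 ≤ Wsum a b l Y t := by
      unfold Wsum
      exact single_le_sum (f := fun g : ℕ => ‖S1 (Ioc (g * Mm b Y) ((g + 1) * Mm b Y)) (pe t) l‖ ^ 2)
        (fun g _ => by positivity) hmem
    have h2 : Y ^ (3 / 2 * b⁻¹) = (Y ^ (3 / 4 * b⁻¹)) ^ 2 := by
      rw [← Real.rpow_natCast, ← Real.rpow_mul hY0.le]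
      congr 1
      push_cast
      ring
    have h3 : (Y ^ (3 / 4 * b⁻¹)) ^ 2 ≤ (2 * Mm b Y) ^ 2 := by
      have : 0 ≤ Y ^ (3 / 4 * b⁻¹) := (Real.rpow_pos_of_pos hY0 _).le
      gcongr
    have h4 : ‖S1 (Ioc (g * Mm b Y) ((g + 1) * Mm b Y)) (pe t) l‖ ^ 2 < ((Mm b Y : ℝ) / 2) ^ 2 := by
      rw [h2] at h
      nlinarith
    exact lt_of_pow_lt_pow_left₀ 2 (by positivity) h4

/-- **The good integers, for almost every exponent.** -/
lemma good_ae {a b l : ℝ} (ha : 1 ≤ a) (hab : a ≤ b) (hb : b ≤ a + 1) (hl : 0 < l) (hm : a⁻¹ < 3 / 2 * b⁻¹) :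
    ∀ᵐ t ∂((volume : Measure ℝ).restrict (Set.Ioc a b)), ∀ᶠ j in atTop, GoodE a b l t (Yj j) := by
  set κ : ℝ := (3 / 2 * b⁻¹ - a⁻¹) / 2 with hκ
  have hκ0 : 0 < κ := by rw [hκ]; linarith
  have hb1 : 1 ≤ b := ha.trans hab
  have hl' : 0 < l⁻¹ := by positivity
  have hev : ∀ᶠ Y : ℝ in atTop, 1 ≤ Y ∧
      ∫ t in Set.Ioc a b, Wsum a b l Y t ≤ Y ^ (3 / 2 * b⁻¹) / 16 * Y ^ (-κ) := by
    filter_upwards [log_pow_le (16 * (24 * (1 + l⁻¹))) 1 hκ0, eventually_ge_atTop 1] with Y h1 h2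
    refine ⟨h2, ?_⟩
    have hY0 : 0 < Y := by linarith
    rw [← intervalIntegral.integral_of_le hab]
    refine (Wsum_mean ha hab hb hl h2).trans ?_
    rw [pow_one] at h1
    have h3 : 24 * (1 + l⁻¹) * (4 + Real.log Y) ≤ Y ^ κ / 16 := by linarith
    have h4 : 0 < Y ^ a⁻¹ := Real.rpow_pos_of_pos hY0 _
    calc 24 * (1 + l⁻¹) * (4 + Real.log Y) * Y ^ a⁻¹ ≤ Y ^ κ / 16 * Y ^ a⁻¹ := by gcongr
      _ = 1 / 16 * (Y ^ κ * Y ^ a⁻¹) := by ring
      _ = 1 / 16 * (Y ^ (3 / 2 * b⁻¹) * Y ^ (-κ)) := by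
          rw [← Real.rpow_add hY0, ← Real.rpow_add hY0]
          congr 2
          rw [hκ]
          ring
      _ = _ := by ring
  obtain ⟨j₀, hj₀⟩ := eventually_atTop.1 (Yj_tendsto.eventually hev)
  have hbc := bc (μ := (volume : Measure ℝ).restrict (Set.Ioc a b)) (f := fun j t => Wsum a b l (Yj j) t)
    (E := fun j => Yj j ^ (3 / 2 * b⁻¹) / 16 * Yj j ^ (-κ)) (θ := fun j => Yj j ^ (3 / 2 * b⁻¹) / 16) (j₀ := j₀)
    (fun j => ((Wsum_cont a b l (Yj j)).continuousOn.integrableOn_compact isCompact_Icc).mono_set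
      Set.Ioc_subset_Icc_self)
    (fun j t => by
      unfold Wsum
      exact sum_nonneg fun _ _ => by positivity)
    (fun j hj => (hj₀ j hj).2)
    (fun j => by have := Real.rpow_pos_of_pos (Yj_pos j) (3 / 2 * b⁻¹); positivity) (by
      refine (Yj_summable hκ0).congr fun j => ?_
      have := Real.rpow_pos_of_pos (Yj_pos j) (3 / 2 * b⁻¹)
      rw [mul_div_cancel_left₀ _ (by positivity)])
  filter_upwards [hbc] with t ht
  filter_upwards [ht, eventually_ge_atTop j₀] with j h1 h2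
  exact GoodE_of hb1 (hj₀ j h2).1 h1

lemma good_ind {f : ℕ → ℝ} {M g₁ : ℕ} {q : ℝ} (k : ℕ)
    (h : ∀ g, g₁ ≤ g → g < g₁ + k → q ≤ ((gd (Ioc (g * M) ((g + 1) * M)) f).card : ℝ)) :
    k * q ≤ ((gd (Ioc (g₁ * M) ((g₁ + k) * M)) f).card : ℝ) := by
  induction k with
  | zero => simp
  | succ k ih =>
    have h1 := ih fun g h2 h3 => h g h2 (by omega)
    have h2 := h (g₁ + k) (by omega) (by omega)
    have hunion : gd (Ioc (g₁ * M) ((g₁ + (k + 1)) * M)) f =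
        gd (Ioc (g₁ * M) ((g₁ + k) * M)) f ∪ gd (Ioc ((g₁ + k) * M) ((g₁ + k + 1) * M)) f := by
      unfold gd
      rw [← filter_union]
      congr 1
      rw [Ioc_union_Ioc_eq_Ioc (Nat.mul_le_mul_right _ (by omega)) (Nat.mul_le_mul_right _ (by omega))]
      rfl
    have hdisj : Disjoint (gd (Ioc (g₁ * M) ((g₁ + k) * M)) f) (gd (Ioc ((g₁ + k) * M) ((g₁ + k + 1) * M)) f) := by
      rw [Finset.disjoint_left]
      intro x hx hx2
      unfold gd at hx hx2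
      rw [mem_filter, mem_Ioc] at hx hx2
      omega
    rw [hunion, card_union_of_disjoint hdisj]
    push_cast
    linarith

/-- the good integers in an interval -/
lemma good_interval {f : ℕ → ℝ} {M : ℕ} (hM : 1 ≤ M) {U : ℝ}
    (hg : ∀ g : ℕ, 2 ≤ g → ((g + 1 : ℕ) : ℝ) * M ≤ U →
      (M : ℝ) / 8 ≤ ((gd (Ioc (g * M) ((g + 1) * M)) f).card : ℝ)) {A B : ℝ} (hA : 2 * M ≤ A) (hB : B ≤ U)
    (hAB : 4 * M ≤ B - A) {Z : Finset ℕ} (hZ : ∀ x : ℕ, A < x → (x : ℝ) ≤ B → 1 / 8 ≤ ww (f x) → x ∈ Z) :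
    (B - A) / 16 ≤ (Z.card : ℝ) := by
  have hMr : (1 : ℝ) ≤ M := by exact_mod_cast hM
  have hM0 : (0 : ℝ) < M := by linarith
  have hA0 : 0 ≤ A := by linarith
  have hB0 : 0 ≤ B := by linarith
  set g₁ := ⌈A / M⌉₊ with hg₁
  set g₂ := ⌊B / M⌋₊ with hg₂
  have h1 : A / M ≤ g₁ := Nat.le_ceil _
  have h2 : (g₁ : ℝ) < A / M + 1 := Nat.ceil_lt_add_one (by positivity)
  have h3 : (g₂ : ℝ) ≤ B / M := Nat.floor_le (by positivity)
  have h4 : B / M < g₂ + 1 := Nat.lt_floor_add_one _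
  have h5 : 4 ≤ B / M - A / M := by
    rw [← sub_div, le_div_iff₀ hM0]
    exact hAB
  have hle : g₁ ≤ g₂ := by
    have : (g₁ : ℝ) < g₂ := by linarith
    exact_mod_cast this.le
  obtain ⟨k, hk⟩ := Nat.exists_eq_add_of_le hle
  have hkr : (g₂ : ℝ) = g₁ + k := by exact_mod_cast hk
  have h6 := good_ind (f := f) (M := M) (g₁ := g₁) (q := (M : ℝ) / 8) k (fun g h7 h8 => by
    refine hg g ?_ ?_
    · have h9 : (2 : ℝ) ≤ A / M := by
        rw [le_div_iff₀ hM0]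
        exact hA
      have h10 : (2 : ℝ) ≤ g₁ := by linarith
      have h11 : 2 ≤ g₁ := by exact_mod_cast h10
      omega
    · refine le_trans ?_ hB
      have h9 : g + 1 ≤ g₂ := by omega
      have h10 : ((g + 1 : ℕ) : ℝ) ≤ g₂ := by exact_mod_cast h9
      calc ((g + 1 : ℕ) : ℝ) * M ≤ B / M * M := by
            have := h10.trans h3
            gcongr
        _ = B := by field_simp)
  have hsub : gd (Ioc (g₁ * M) ((g₁ + k) * M)) f ⊆ Z := by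
    intro x hx
    unfold gd at hx
    rw [mem_filter, mem_Ioc, ← hk] at hx
    refine hZ x ?_ ?_ hx.2
    · have h7 : ((g₁ * M : ℕ) : ℝ) < x := by exact_mod_cast hx.1.1
      push_cast at h7
      have h8 : A ≤ g₁ * M := by
        rw [div_le_iff₀ hM0] at h1
        exact h1
      linarith
    · have h7 : (x : ℝ) ≤ ((g₂ * M : ℕ) : ℝ) := by exact_mod_cast hx.1.2
      push_cast at h7
      have h8 : g₂ * (M : ℝ) ≤ B := by
        rw [le_div_iff₀ hM0] at h3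
        exact h3
      linarith
  have hcard : ((gd (Ioc (g₁ * M) ((g₁ + k) * M)) f).card : ℝ) ≤ Z.card := by exact_mod_cast card_le_card hsub
  have h7 : B / M - A / M - 2 ≤ k := by linarith
  have h8 : (B - A) / 16 ≤ (B / M - A / M - 2) * (M / 8) := by
    have e1 : (B / M - A / M - 2) * (M / 8) = (B - A) / 8 - M / 4 := by
      field_simp
      ring
    rw [e1]
    linarith
  have h9 : (B / M - A / M - 2) * (M / 8) ≤ k * (M / 8) := by gcongr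
  linarith

end Pool.Agent.Q43.MW
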