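import Mathlib
import Pool.Agent.Q43.MW.Fl5

set_option autoImplicit false

/-!
# The main term on the good integers
-/

namespace Pool.Agent.Q43.MW

open MeasureTheory Complex Finset Filter

lemma near_good {a b l t Y : ℝ} (ha : 1 ≤ a) (hat : a ≤ t) (htb : t ≤ b) (hY : 1 ≤ Y)
    (hlarge : 16 * Y ^ (3 / 4 * b⁻¹) ≤ Y ^ b⁻¹) (hG : GoodE a b l t Y) {u : ℝ}
    (hu1 : 2 * Y ≤ u) (hu2 : u ≤ 15 / 2 * Y) {h : ℝ}
    (hh : b * 8 ^ b * Y ^ (1 - b⁻¹) * (4 * Y ^ (3 / 4 * b⁻¹)) ≤ h) :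
    1 / 4 * Y ^ (3 / 4 * b⁻¹) ≤
      (((gd (Xe a b Y) fun x => l * pe t x).filter fun x : ℕ => |pe t x - u| ≤ h).card : ℝ) := by
  have hY0 : 0 < Y := by linarith
  have ht1 : 1 ≤ t := ha.trans hat
  have ht0 : 0 < t := by linarith
  have hb0 : 0 < b := by linarith
  have hti : t⁻¹ ≤ 1 := inv_le_one_of_one_le₀ ht1
  have hbt : b⁻¹ ≤ t⁻¹ := inv_anti₀ ht0 htb
  have hta : t⁻¹ ≤ a⁻¹ := inv_anti₀ (by linarith) hat
  obtain ⟨m1, m2, m3⟩ := Mm_facts (ht1.trans htb) hY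
  have hM1 : (1 : ℝ) ≤ Mm b Y := by exact_mod_cast m1
  set r : ℝ := 4 * Y ^ (3 / 4 * b⁻¹) with hr
  have hr0 : 0 < r := by have := Real.rpow_pos_of_pos hY0 (3 / 4 * b⁻¹); positivity
  set P : ℝ := Y ^ t⁻¹ with hP
  have hPb : Y ^ b⁻¹ ≤ P := Real.rpow_le_rpow_of_exponent_le hY hbt
  have hPa : P ≤ Y ^ a⁻¹ := Real.rpow_le_rpow_of_exponent_le hY hta
  have hrP : r ≤ P / 4 := by linarith
  have hu0 : 0 < u := by linarith
  set q : ℝ := u ^ t⁻¹ with hq
  have hq0 : 0 < q := Real.rpow_pos_of_pos hu0 _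
  have hqt : q ^ t = u := by
    rw [hq, ← Real.rpow_mul hu0.le, inv_mul_cancel₀ ht0.ne', Real.rpow_one]
  have hPq : P ≤ q := Real.rpow_le_rpow hY0.le (by linarith) (by positivity)
  have hP0 : 0 < P := Real.rpow_pos_of_pos hY0 _
  have hq8 : q ≤ 15 / 2 * P := by
    calc q ≤ (15 / 2 * Y) ^ t⁻¹ := Real.rpow_le_rpow hu0.le hu2 (by positivity)
      _ = (15 / 2) ^ t⁻¹ * P := Real.mul_rpow (by norm_num) hY0.le
      _ ≤ (15 / 2) * P := by
          have : (15 / 2 : ℝ) ^ t⁻¹ ≤ 15 / 2 := by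
            calc (15 / 2 : ℝ) ^ t⁻¹ ≤ (15 / 2) ^ (1 : ℝ) := Real.rpow_le_rpow_of_exponent_le (by norm_num) hti
              _ = 15 / 2 := Real.rpow_one _
          gcongr
  have key := good_interval (f := fun x => l * pe t x) (M := Mm b Y) m1 (U := 8 * Y ^ a⁻¹) hG (A := q) (B := q + r)
    (by linarith) (by linarith) (by linarith)
    (Z := (gd (Xe a b Y) fun x => l * pe t x).filter fun x : ℕ => |pe t x - u| ≤ h) (by
      intro x hx1 hx2 hx3
      have hx8 : (x : ℝ) < 8 * P := by linarith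
      have hxpos : 1 ≤ x := by
        have : (0 : ℝ) < x := by linarith
        exact_mod_cast this
      unfold gd
      rw [mem_filter, mem_filter, mem_Xe]
      refine ⟨⟨⟨(hPb.trans hPq).trans hx1.le, by linarith⟩, hx3⟩, ?_⟩
      rw [pe_eq t hxpos, ← hqt]
      refine (rpow_lip (M := x) ht1 (Nat.cast_nonneg x) le_rfl hq0.le hx1.le).trans (le_trans ?_ hh)
      have h1 : |(x : ℝ) - q| ≤ r := by
        rw [abs_of_nonneg (by linarith)]
        linarith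
      have h2 : (x : ℝ) ^ (t - 1) ≤ 8 ^ b * Y ^ (1 - b⁻¹) := by
        calc (x : ℝ) ^ (t - 1) ≤ (8 * P) ^ (t - 1) := Real.rpow_le_rpow (Nat.cast_nonneg x) hx8.le (by linarith)
          _ = 8 ^ (t - 1) * P ^ (t - 1) := Real.mul_rpow (by norm_num) (by positivity)
          _ ≤ 8 ^ b * Y ^ (1 - b⁻¹) := by
              have h3 : (8 : ℝ) ^ (t - 1) ≤ 8 ^ b := Real.rpow_le_rpow_of_exponent_le (by norm_num) (by linarith)
              have h4 : P ^ (t - 1) ≤ Y ^ (1 - b⁻¹) := by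
                rw [hP, ← Real.rpow_mul hY0.le]
                refine Real.rpow_le_rpow_of_exponent_le hY ?_
                have : t⁻¹ * (t - 1) = 1 - t⁻¹ := by field_simp
                rw [this]
                linarith
              have : (0 : ℝ) < P ^ (t - 1) := Real.rpow_pos_of_pos (by linarith) _
              gcongr
      have h5 : 0 ≤ (x : ℝ) ^ (t - 1) := by positivity
      calc t * (x : ℝ) ^ (t - 1) * |(x : ℝ) - q| ≤ b * (8 ^ b * Y ^ (1 - b⁻¹)) * r := by gcongr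
        _ = _ := by ring)
  refine le_trans (le_of_eq ?_) key
  rw [hr]
  ring

lemma window_good {a b l t Y ε : ℝ} (ha : 1 ≤ a) (hat : a ≤ t) (htb : t ≤ b) (hY : 1 ≤ Y) (hε0 : 0 < ε)
    (hε : ε ≤ 1 / 2) (hlarge : 4 * Y ^ (3 / 4 * b⁻¹) ≤ ε / b * Y ^ b⁻¹) (hG : GoodE a b l t Y) {z : ℝ}
    (hz1 : 2 * Y ≤ z) (hz2 : z ≤ 5 * Y) :
    ε / (16 * b) * Y ^ b⁻¹ ≤
      (((gd (Xe a b Y) fun x => l * pe t x).filter fun x : ℕ => z * (1 - ε) ≤ pe t x ∧ pe t x ≤ z).card : ℝ) := by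
  have hY0 : 0 < Y := by linarith
  have ht1 : 1 ≤ t := ha.trans hat
  have ht0 : 0 < t := by linarith
  have hb0 : 0 < b := by linarith
  have hb1 : 1 ≤ b := by linarith
  have hti : t⁻¹ ≤ 1 := inv_le_one_of_one_le₀ ht1
  have hbt : b⁻¹ ≤ t⁻¹ := inv_anti₀ ht0 htb
  have hta : t⁻¹ ≤ a⁻¹ := inv_anti₀ (by linarith) hat
  obtain ⟨m1, m2, m3⟩ := Mm_facts hb1 hY
  have hM1 : (1 : ℝ) ≤ Mm b Y := by exact_mod_cast m1
  set P : ℝ := Y ^ t⁻¹ with hP
  have hP0 : 0 < P := Real.rpow_pos_of_pos hY0 _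
  have hPb : Y ^ b⁻¹ ≤ P := Real.rpow_le_rpow_of_exponent_le hY hbt
  have hPa : P ≤ Y ^ a⁻¹ := Real.rpow_le_rpow_of_exponent_le hY hta
  have hPt : P ^ t = Y := by
    rw [hP, ← Real.rpow_mul hY0.le, inv_mul_cancel₀ ht0.ne', Real.rpow_one]
  set ε₁ : ℝ := ε / b with hε₁
  have hε₁0 : 0 < ε₁ := by positivity
  have hε₁1 : ε₁ ≤ ε := by rw [hε₁]; exact div_le_self hε0.le hb1
  have hz0 : 0 < z := by linarith
  set q : ℝ := z ^ t⁻¹ with hq
  have hq0 : 0 < q := Real.rpow_pos_of_pos hz0 _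
  have hqt : q ^ t = z := by
    rw [hq, ← Real.rpow_mul hz0.le, inv_mul_cancel₀ ht0.ne', Real.rpow_one]
  have hPq : P ≤ q := Real.rpow_le_rpow hY0.le (by linarith) (by positivity)
  have hq5 : q ≤ 5 * P := by
    calc q ≤ (5 * Y) ^ t⁻¹ := Real.rpow_le_rpow hz0.le hz2 (by positivity)
      _ = 5 ^ t⁻¹ * P := Real.mul_rpow (by norm_num) hY0.le
      _ ≤ 5 * P := by
          have : (5 : ℝ) ^ t⁻¹ ≤ 5 := by
            calc (5 : ℝ) ^ t⁻¹ ≤ 5 ^ (1 : ℝ) := Real.rpow_le_rpow_of_exponent_le (by norm_num) hti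
              _ = 5 := Real.rpow_one _
          gcongr
  have h1e : 0 ≤ 1 - ε₁ := by linarith
  have hYP : ε₁ * Y ^ b⁻¹ ≤ ε₁ * q := by
    have := hPb.trans hPq
    gcongr
  have hYb1 : 0 < Y ^ b⁻¹ := Real.rpow_pos_of_pos hY0 _
  have h4M : 4 * (Mm b Y : ℝ) ≤ ε₁ * q := by linarith
  have hql : q / 2 ≤ q * (1 - ε₁) := by nlinarith
  have h8M : 4 * (Mm b Y : ℝ) ≤ q / 2 := by nlinarith
  have key := good_interval (f := fun x => l * pe t x) (M := Mm b Y) m1 (U := 8 * Y ^ a⁻¹) hG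
    (A := q * (1 - ε₁)) (B := q) (by linarith) (by linarith) (by linarith)
    (Z := (gd (Xe a b Y) fun x => l * pe t x).filter fun x : ℕ => z * (1 - ε) ≤ pe t x ∧ pe t x ≤ z) (by
      intro x hx1 hx2 hx3
      have hxpos : 1 ≤ x := by
        have : (0 : ℝ) < x := by linarith
        exact_mod_cast this
      have h1 : (x : ℝ) ^ t ≤ z := by
        rw [← hqt]
        exact Real.rpow_le_rpow (Nat.cast_nonneg x) hx2 ht0.le
      have h2 : z * (1 - ε) ≤ (x : ℝ) ^ t := by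
        have h3 : (q * (1 - ε₁)) ^ t ≤ (x : ℝ) ^ t := Real.rpow_le_rpow (by positivity) hx1.le ht0.le
        refine le_trans ?_ h3
        rw [Real.mul_rpow hq0.le h1e, hqt]
        refine mul_le_mul_of_nonneg_left ?_ hz0.le
        have h4 := one_add_mul_self_le_rpow_one_add (s := -ε₁) (by linarith) ht1
        have h5 : t * ε₁ ≤ ε := by
          rw [hε₁]
          calc t * (ε / b) ≤ b * (ε / b) := by gcongr
            _ = ε := by field_simp
        rw [← sub_eq_add_neg] at h4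
        linarith
      unfold gd
      rw [mem_filter, mem_filter, mem_Xe, pe_eq t hxpos]
      refine ⟨⟨⟨?_, ?_⟩, hx3⟩, h2, h1⟩
      · have h6 : Y ≤ (x : ℝ) ^ t := by nlinarith
        have h7 : P ≤ x := by
          by_contra h8
          push Not at h8
          have h9 : (x : ℝ) ^ t < P ^ t := Real.rpow_lt_rpow (Nat.cast_nonneg x) h8 ht0
          rw [hPt] at h9
          linarith
        exact hPb.trans h7
      · linarith)
  refine le_trans ?_ key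
  have h15 : ε / (16 * b) * Y ^ b⁻¹ = ε₁ * Y ^ b⁻¹ / 16 := by rw [hε₁]; field_simp
  rw [h15]
  linarith

variable {n : ℕ}

/-- the large scale -/
noncomputable def Hg (b : Fin (n + 1) → ℝ) (lb Y : ℝ) : ℝ := 4 * (lb * (b 0 * 8 ^ b 0)) * Y ^ (1 - (b 0)⁻¹ / 4)

/-- the constant of the main term -/
noncomputable def cg (b : Fin (n + 1) → ℝ) (la lb : ℝ) : ℝ :=
  Real.exp (-Real.pi) * (1 / 4) * (∏ i : Fin n, la / (2 * ((n : ℝ) + 1) * lb) / (16 * b i.succ)) /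
    (4 * (lb * (b 0 * 8 ^ b 0)))

lemma cg_pos {b : Fin (n + 1) → ℝ} (hb : ∀ i, 1 ≤ b i) {la lb : ℝ} (ha : 0 < la) (hlb : 0 < lb) : 0 < cg b la lb := by
  unfold cg
  have h : ∀ i, (0 : ℝ) < b i := fun i => by linarith [hb i]
  have := h 0
  have h2 : 0 < ∏ i : Fin n, la / (2 * ((n : ℝ) + 1) * lb) / (16 * b i.succ) :=
    prod_pos fun i _ => by have := h i.succ; positivity
  have := Real.exp_pos (-Real.pi)
  positivity

/-- the good parts of the ranges -/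
noncomputable def XG (a b l c : Fin (n + 1) → ℝ) (Y : ℝ) (i : Fin (n + 1)) : Finset ℕ :=
  gd (XE a b Y i) fun x => l i * pe (c i) x

lemma main_good {a b l : Fin (n + 1) → ℝ} {la lb : ℝ} (ha : ∀ i, 1 ≤ a i) (hab : ∀ i, a i ≤ b i) (hla : 0 < la)
    (hlab : la ≤ lb) (hl : ∀ i, la < l i ∧ l i ≤ lb) :
    ∀ᶠ Y : ℝ in atTop, ∀ c : Fin (n + 1) → ℝ, (∀ i, a i ≤ c i ∧ c i ≤ b i) →
      (∀ i, GoodE (a i) (b i) (l i) (c i) Y) → ∀ y : ℝ,
      2 * Y * ∑ i, l i ≤ y → y ≤ 5 * Y * ∑ i, l i →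
        cg b la lb * Y ^ (sg b - 1) * Hg b lb Y ≤ RR (XG a b l c Y) (ve c) l (Hg b lb Y) y := by
  have hlb : 0 < lb := hla.trans_le hlab
  have hb1 : ∀ i, 1 ≤ b i := fun i => (ha i).trans (hab i)
  have hb0 : ∀ i, 0 < b i := fun i => by linarith [hb1 i]
  set ε : ℝ := la / (2 * ((n : ℝ) + 1) * lb) with hε
  have hε0 : 0 < ε := by positivity
  have hε1 : ε ≤ 1 / 2 := by
    rw [hε, div_le_div_iff₀ (by positivity) (by norm_num)]
    have : (0 : ℝ) ≤ n := Nat.cast_nonneg n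
    nlinarith [mul_nonneg this hlb.le]
  have hpow : ∀ i, ∀ C : ℝ, 0 < C → ∀ᶠ Y : ℝ in atTop, Y ^ (3 / 4 * (b i)⁻¹) ≤ C * Y ^ (b i)⁻¹ := by
    intro i C hC
    have hbi := inv_pos.2 (hb0 i)
    filter_upwards [const_le (1 / C) (κ := 1 / 4 * (b i)⁻¹) (by positivity), eventually_ge_atTop 1] with Y hY hY1
    have hY0 : 0 < Y := by linarith
    have e1 : Y ^ (b i)⁻¹ = Y ^ (3 / 4 * (b i)⁻¹) * Y ^ (1 / 4 * (b i)⁻¹) := by
      rw [← Real.rpow_add hY0]
      congr 1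
      ring
    have h1 : 0 < Y ^ (3 / 4 * (b i)⁻¹) := Real.rpow_pos_of_pos hY0 _
    rw [e1]
    rw [div_le_iff₀ hC] at hY
    nlinarith
  have h1 : ∀ᶠ Y : ℝ in atTop, ∀ i, 4 * Y ^ (3 / 4 * (b i)⁻¹) ≤ ε / b i * Y ^ (b i)⁻¹ := by
    rw [eventually_all]
    intro i
    have hbi := hb0 i
    filter_upwards [hpow i (ε / b i / 4) (by positivity)] with Y hY
    linarith
  filter_upwards [h1, hpow 0 (1 / 16) (by norm_num), eventually_ge_atTop 1]
    with Y hY1 hY2 hY3 c hc hG y hy1 hy2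
  have hY0 : 0 < Y := by linarith
  have hbz := hb0 0
  have hH0 : 0 < Hg b lb Y := by
    unfold Hg
    positivity
  have hd := disc (X := XG a b l c Y) (v := ve c) (m₀ := 1 / 4 * Y ^ (3 / 4 * (b 0)⁻¹))
    (m := fun i : Fin n => ε / (16 * b i.succ) * Y ^ (b i.succ)⁻¹)
    hla hlab hH0 hY0 hl hy1 hy2 (by positivity) (fun u hu1 hu2 => by
      refine near_good (ha 0) (hc 0).1 (hc 0).2 hY3 (by linarith) (hG 0) hu1 hu2 (le_of_eq ?_)
      unfold Hg
      have e1 : Y ^ (1 - (b 0)⁻¹ / 4) = Y ^ (1 - (b 0)⁻¹) * Y ^ (3 / 4 * (b 0)⁻¹) := by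
        rw [← Real.rpow_add hY0]
        congr 1
        ring
      rw [e1]
      field_simp) (fun i => by have := hb0 i.succ; positivity) (fun i z hz1 hz2 =>
        window_good (ha i.succ) (hc i.succ).1 (hc i.succ).2 hY3 hε0 hε1 (hY1 i.succ) (hG i.succ) hz1 hz2)
  rw [prod_mul_distrib, ← Real.rpow_sum_of_pos hY0] at hd
  have hsig : sg b = (b 0)⁻¹ + ∑ i : Fin n, (b i.succ)⁻¹ := by
    unfold sg
    rw [Fin.sum_univ_succ]
  refine le_trans (le_of_eq ?_) hd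
  unfold cg Hg
  rw [← hε]
  have e : Y ^ (sg b - 1) * Y ^ (1 - (b 0)⁻¹ / 4) =
      Y ^ (3 / 4 * (b 0)⁻¹) * Y ^ (∑ i : Fin n, (b i.succ)⁻¹) := by
    rw [← Real.rpow_add hY0, ← Real.rpow_add hY0, hsig]
    congr 1
    ring
  have h8 : (0 : ℝ) < 8 ^ b 0 := by positivity
  calc Real.exp (-Real.pi) * (1 / 4) * (∏ i : Fin n, ε / (16 * b i.succ)) / (4 * (lb * (b 0 * 8 ^ b 0))) *
        Y ^ (sg b - 1) * (4 * (lb * (b 0 * 8 ^ b 0)) * Y ^ (1 - (b 0)⁻¹ / 4))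
      = Real.exp (-Real.pi) * (1 / 4) * (∏ i : Fin n, ε / (16 * b i.succ)) *
        (Y ^ (sg b - 1) * Y ^ (1 - (b 0)⁻¹ / 4)) := by
        field_simp
    _ = _ := by
        rw [e]
        ring

lemma RN_lower {a b l c : Fin (n + 1) → ℝ} {H Y : ℝ} (hH : (n : ℝ) + 1 ≤ H) (m : ℤ) :
    (1 / 8) ^ (n + 1) * Real.exp (-(Real.pi / 2)) * RR (XG a b l c Y) (ve c) l H m ≤
      RN (XE a b Y) (fe l c) (2 * H) m := by
  have hH0 : 0 < H := by
    have : (0 : ℝ) ≤ n := Nat.cast_nonneg n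
    linarith
  unfold RR RN
  rw [mul_sum]
  have hsub : Fintype.piFinset (XG a b l c Y) ⊆ Fintype.piFinset (XE a b Y) :=
    Fintype.piFinset_subset _ _ fun i => by
      unfold XG gd
      exact filter_subset _ _
  refine le_trans (sum_le_sum fun x hx => ?_) (sum_le_sum_of_subset_of_nonneg hsub fun x _ _ =>
    mul_nonneg (prod_nonneg fun i _ => ww_nonneg _) (Real.exp_pos _).le)
  rw [Fintype.mem_piFinset] at hx
  have h1 : (1 / 8 : ℝ) ^ (n + 1) ≤ ∏ i, ww (fe l c i (x i)) := by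
    calc (1 / 8 : ℝ) ^ (n + 1) = ∏ _i : Fin (n + 1), (1 / 8 : ℝ) := by
          rw [prod_const, card_univ, Fintype.card_fin]
      _ ≤ _ := by
          refine prod_le_prod (fun i _ => by norm_num) fun i _ => ?_
          have := hx i
          unfold XG gd at this
          rw [mem_filter] at this
          exact this.2
  have h2 : |(NI (fe l c) x : ℝ) - form (ve c) l x| ≤ (n : ℝ) + 1 := by
    unfold NI form fe ve
    push_cast
    rw [← sum_sub_distrib]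
    refine (abs_sum_le_sum_abs _ _).trans ?_
    calc ∑ i, |((⌊l i * pe (c i) (x i)⌋ : ℤ) : ℝ) - l i * pe (c i) (x i)| ≤ ∑ _i : Fin (n + 1), (1 : ℝ) := by
          refine sum_le_sum fun i _ => ?_
          rw [abs_sub_comm, abs_of_nonneg (by linarith [Int.floor_le (l i * pe (c i) (x i))])]
          linarith [Int.lt_floor_add_one (l i * pe (c i) (x i))]
      _ = (n : ℝ) + 1 := by simp
  have h3 : Real.exp (-(Real.pi / 2)) * Real.exp (-Real.pi * ((form (ve c) l x - m) / H) ^ 2) ≤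
      Real.exp (-Real.pi * (((NI (fe l c) x : ℝ) - m) / (2 * H)) ^ 2) := by
    rw [← Real.exp_add]
    refine Real.exp_le_exp.2 ?_
    set u : ℝ := form (ve c) l x - m with hu
    set v : ℝ := (NI (fe l c) x : ℝ) - form (ve c) l x with hv
    have e1 : (NI (fe l c) x : ℝ) - m = u + v := by rw [hu, hv]; ring
    rw [e1]
    have h4 : v ^ 2 ≤ H ^ 2 := by
      rw [← sq_abs v]
      have : |v| ≤ H := h2.trans hH
      have := abs_nonneg v
      nlinarith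
    have h5 : ((u + v) / (2 * H)) ^ 2 ≤ (u / H) ^ 2 + 1 / 2 := by
      rw [div_pow, div_pow, div_le_iff₀ (by positivity)]
      have e2 : (u ^ 2 / H ^ 2 + 1 / 2) * (2 * H) ^ 2 = 4 * u ^ 2 + 2 * H ^ 2 := by
        field_simp
        ring
      rw [e2]
      nlinarith [sq_nonneg (u - v)]
    have := Real.pi_pos
    nlinarith
  calc (1 / 8) ^ (n + 1) * Real.exp (-(Real.pi / 2)) * Real.exp (-Real.pi * ((form (ve c) l x - m) / H) ^ 2)
      = (1 / 8) ^ (n + 1) * (Real.exp (-(Real.pi / 2)) * Real.exp (-Real.pi * ((form (ve c) l x - m) / H) ^ 2)) := by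
        ring
    _ ≤ (∏ i, ww (fe l c i (x i))) * Real.exp (-Real.pi * (((NI (fe l c) x : ℝ) - m) / (2 * H)) ^ 2) :=
        mul_le_mul h1 h3 (by positivity) (prod_nonneg fun i _ => ww_nonneg _)

end Pool.Agent.Q43.MW
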