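import Mathlib
import Pool.Agent.Q43.MW.Fl6

set_option autoImplicit false

/-!
# Sums of integer parts, for almost all exponents
-/

namespace Pool.Agent.Q43.MW

open MeasureTheory Complex Finset Filter

variable {n : ℕ}

/-- `m` is a sum `⌊l_1 x_1 ^ c_1⌋ + ... + ⌊l_s x_s ^ c_s⌋` at positive integers -/
def RepF (l c : Fin (n + 1) → ℝ) (m : ℤ) : Prop :=
  ∃ x : Fin (n + 1) → ℕ, (∀ i, 1 ≤ x i) ∧ ∑ i, ⌊l i * (x i : ℝ) ^ c i⌋ = m

/-- the constant of the weighted main term -/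
noncomputable def cG (b : Fin (n + 1) → ℝ) (la lb : ℝ) : ℝ :=
  (1 / 8) ^ (n + 1) * Real.exp (-(Real.pi / 2)) * cg b la lb / 2

lemma cG_pos {b : Fin (n + 1) → ℝ} (hb : ∀ i, 1 ≤ b i) {la lb : ℝ} (ha : 0 < la) (hlb : 0 < lb) : 0 < cG b la lb := by
  unfold cG
  have := cg_pos hb ha hlb
  have := Real.exp_pos (-(Real.pi / 2))
  positivity

lemma det_TT {a b l : Fin (n + 1) → ℝ} {la lb h : ℝ} (ha : ∀ i, 1 ≤ a i) (hab : ∀ i, a i ≤ b i) (hla : 0 < la)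
    (hlab : la ≤ lb) (hlb1 : 1 ≤ lb) (hl : ∀ i, la < l i ∧ l i ≤ lb)
    (hh1 : h < 1) (hlow : sg a - sg b + 3 * h < (b 0)⁻¹ / 2) :
    ∀ᶠ Y : ℝ in atTop, ∀ c : Fin (n + 1) → ℝ, (∀ i, a i ≤ c i ∧ c i ≤ b i) →
      (∀ i, GoodE (a i) (b i) (l i) (c i) Y) →
      (∫ α in {α : ℝ | Y ^ (h - 1) < |α| ∧ |α| ≤ 1 / 2}, ‖TT (XE a b Y) (fe l c) α‖) <
        cG b la lb / 8 * Y ^ (sg b - 1) → ∀ m : ℤ, 2 * Y * ∑ i, l i ≤ m → (m : ℝ) ≤ 4 * Y * ∑ i, l i →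
          RepF l c m := by
  have hlb : 0 < lb := hla.trans_le hlab
  have hb1 : ∀ i, 1 ≤ b i := fun i => (ha i).trans (hab i)
  have hb0 : ∀ i, 0 < b i := fun i => by linarith [hb1 i]
  have hcG := cG_pos hb1 hla hlb
  have hLpos : 0 < ∑ i, l i := sum_pos (fun i _ => hla.trans (hl i).1) univ_nonempty
  set L := ∑ i, l i with hL
  set h₀ : ℝ := 4 * (lb * (b 0 * 8 ^ b 0)) with hh₀
  have hh01 : 1 ≤ h₀ := by
    have h8 : (1 : ℝ) ≤ 8 ^ b 0 := Real.one_le_rpow (by norm_num) (hb0 0).le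
    have : 1 ≤ lb * (b 0 * 8 ^ b 0) :=
      one_le_mul_of_one_le_of_one_le hlb1 (one_le_mul_of_one_le_of_one_le (hb1 0) h8)
    rw [hh₀]
    linarith
  set C₆ : ℝ := 2 * Real.pi * (4 * h₀ ^ 2) * 9 ^ (n + 1) with hC₆
  have hC₆0 : 0 < C₆ := by have := Real.pi_pos; positivity
  set e₆ : ℝ := (b 0)⁻¹ / 2 - (sg a - sg b + 3 * h) with he₆
  have he₆0 : 0 < e₆ := by rw [he₆]; linarith
  filter_upwards [main_good ha hab hla hlab hl, const_le (8 * C₆ / cG b la lb) he₆0,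
    exp_decay (8 * 9 ^ (n + 1) / cG b la lb) (sg a - sg b + 1) (ε := 1 / 2) (by norm_num),
    const_le ((n : ℝ) + 1) (κ := 3 / 4) (by norm_num), const_le 2 (κ := 1 - h) (by linarith),
    eventually_ge_atTop 2] with Y hY1 hY2 hY3 hY4 hY5 hY6 c hc hG hA1 m hm1 hm2
  have hY0 : 0 < Y := by linarith
  have hY1' : 1 ≤ Y := by linarith
  by_contra hno
  have hinv : (b 0)⁻¹ ≤ 1 := inv_le_one_of_one_le₀ (hb1 0)
  have hinv0 : 0 < (b 0)⁻¹ := inv_pos.2 (hb0 0)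
  set H : ℝ := Hg b lb Y with hH
  have hHY : Y ^ (3 / 4 : ℝ) ≤ H := by
    rw [hH]
    unfold Hg
    rw [← hh₀]
    have h1 : Y ^ (3 / 4 : ℝ) ≤ Y ^ (1 - (b 0)⁻¹ / 4) := Real.rpow_le_rpow_of_exponent_le hY1' (by linarith)
    have h2 : 0 < Y ^ (1 - (b 0)⁻¹ / 4) := Real.rpow_pos_of_pos hY0 _
    nlinarith
  have hHn : (n : ℝ) + 1 ≤ H := hY4.trans hHY
  have hn0 : (0 : ℝ) ≤ n := Nat.cast_nonneg n
  have hH1 : 1 ≤ H := by linarith
  have hH0 : 0 < H := by linarith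
  have hα0 : 0 < Y ^ (h - 1) := Real.rpow_pos_of_pos hY0 _
  have h12 : Y ^ (h - 1) ≤ 1 / 2 := by
    rw [show h - 1 = -(1 - h) by ring, Real.rpow_neg hY0.le, one_div]
    exact inv_anti₀ (by norm_num) hY5
  have hT0 : 0 < Y ^ (sg b - 1) := Real.rpow_pos_of_pos hY0 _
  have hNN := NN_exp (b := b) ha hY1'
  have hmain := hY1 c hc hG m hm1 (by
    have : 4 * Y * L ≤ 5 * Y * L := by nlinarith [mul_pos hY0 hLpos]
    linarith)
  have hRN := RN_lower (a := a) (b := b) (l := l) (c := c) (H := H) (Y := Y) hHn m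
  have hlower : cG b la lb * Y ^ (sg b - 1) ≤ RN (XE a b Y) (fe l c) (2 * H) m / (2 * H) := by
    rw [le_div_iff₀ (by positivity)]
    refine le_trans ?_ hRN
    have hE := Real.exp_pos (-(Real.pi / 2))
    calc cG b la lb * Y ^ (sg b - 1) * (2 * H) =
          (1 / 8) ^ (n + 1) * Real.exp (-(Real.pi / 2)) * (cg b la lb * Y ^ (sg b - 1) * H) := by
          unfold cG
          ring
      _ ≤ _ := by gcongr
  have heng := eng2 (XE a b Y) (fe l c) (H := 2 * H) (α₁ := Y ^ (h - 1)) (by positivity) hα0.le h12 m (by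
    intro x hx hxm
    refine hno ⟨x, ?_, ?_⟩
    · intro i
      have h2 := (mem_Xe.1 (Fintype.mem_piFinset.1 hx i)).1
      have h3 : (1 : ℝ) ≤ Y ^ (b i)⁻¹ := Real.one_le_rpow hY1' (inv_pos.2 (hb0 i)).le
      exact_mod_cast h3.trans h2
    · rw [← hxm]
      unfold NI fe
      refine sum_congr rfl fun i _ => ?_
      have h2 := (mem_Xe.1 (Fintype.mem_piFinset.1 hx i)).1
      have h3 : (1 : ℝ) ≤ Y ^ (b i)⁻¹ := Real.one_le_rpow hY1' (inv_pos.2 (hb0 i)).le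
      rw [pe_eq _ (by exact_mod_cast h3.trans h2)])
  have hlow' : 2 * Real.pi * (2 * H) ^ 2 * (Y ^ (h - 1)) ^ 3 * NN (XE a b Y) ≤
      cG b la lb / 8 * Y ^ (sg b - 1) := by
    have e1 : (2 * H) ^ 2 * (Y ^ (h - 1)) ^ 3 * Y ^ sg a = 4 * h₀ ^ 2 * (Y ^ (-e₆) * Y ^ (sg b - 1)) := by
      have p1 : (Y ^ (1 - (b 0)⁻¹ / 4)) ^ 2 = Y ^ (2 - (b 0)⁻¹ / 2) := by
        rw [← Real.rpow_natCast, ← Real.rpow_mul hY0.le]
        congr 1
        push_cast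
        ring
      have p2 : (Y ^ (h - 1)) ^ 3 = Y ^ (3 * h - 3) := by
        rw [← Real.rpow_natCast, ← Real.rpow_mul hY0.le]
        congr 1
        push_cast
        ring
      have p3 : Y ^ (2 - (b 0)⁻¹ / 2) * Y ^ (3 * h - 3) * Y ^ sg a = Y ^ (-e₆) * Y ^ (sg b - 1) := by
        rw [← Real.rpow_add hY0, ← Real.rpow_add hY0, ← Real.rpow_add hY0]
        congr 1
        rw [he₆]
        ring
      calc (2 * H) ^ 2 * (Y ^ (h - 1)) ^ 3 * Y ^ sg a =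
            4 * h₀ ^ 2 * ((Y ^ (1 - (b 0)⁻¹ / 4)) ^ 2 * (Y ^ (h - 1)) ^ 3 * Y ^ sg a) := by
            rw [hH]
            unfold Hg
            rw [← hh₀]
            ring
        _ = _ := by rw [p1, p2, p3]
    calc 2 * Real.pi * (2 * H) ^ 2 * (Y ^ (h - 1)) ^ 3 * NN (XE a b Y)
        ≤ 2 * Real.pi * (2 * H) ^ 2 * (Y ^ (h - 1)) ^ 3 * (9 ^ (n + 1) * Y ^ sg a) := by
          have := Real.pi_pos
          gcongr
      _ = 2 * Real.pi * 9 ^ (n + 1) * ((2 * H) ^ 2 * (Y ^ (h - 1)) ^ 3 * Y ^ sg a) := by ring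
      _ = C₆ * Y ^ (-e₆) * Y ^ (sg b - 1) := by rw [e1, hC₆]; ring
      _ ≤ cG b la lb / 8 * Y ^ (sg b - 1) := by
          refine mul_le_mul_of_nonneg_right ?_ hT0.le
          rw [Real.rpow_neg hY0.le, ← div_eq_mul_inv, div_le_iff₀ (Real.rpow_pos_of_pos hY0 _)]
          rw [div_le_iff₀ hcG] at hY2
          linarith
  have htail' : 2 * Real.exp (-(3 / 4 * Real.pi) * (2 * H * (1 / 2)) ^ 2) / (2 * H) * NN (XE a b Y) ≤
      cG b la lb / 8 * Y ^ (sg b - 1) := by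
    have q2 : Real.exp (-(3 / 4 * Real.pi) * (2 * H * (1 / 2)) ^ 2) ≤ Real.exp (-Real.pi * Y ^ (1 / 2 : ℝ)) := by
      refine Real.exp_le_exp.2 ?_
      have q3 : Y * Y ^ (1 / 2 : ℝ) ≤ H ^ 2 := by
        calc Y * Y ^ (1 / 2 : ℝ) = (Y ^ (3 / 4 : ℝ)) ^ 2 := by
              rw [← Real.rpow_natCast, ← Real.rpow_mul hY0.le]
              nth_rewrite 1 [← Real.rpow_one Y]
              rw [← Real.rpow_add hY0]
              norm_num
          _ ≤ H ^ 2 := by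
              have : 0 ≤ Y ^ (3 / 4 : ℝ) := (Real.rpow_pos_of_pos hY0 _).le
              gcongr
      have q4 : 0 < Y ^ (1 / 2 : ℝ) := Real.rpow_pos_of_pos hY0 _
      have q5 : 2 * H * (1 / 2) = H := by ring
      rw [q5]
      have q6 : Y ^ (1 / 2 : ℝ) ≤ 3 / 4 * H ^ 2 := by nlinarith
      have := Real.pi_pos
      nlinarith
    have hE := Real.exp_pos (-Real.pi * Y ^ (1 / 2 : ℝ))
    have hNN0 := NN_nonneg (XE a b Y)
    calc 2 * Real.exp (-(3 / 4 * Real.pi) * (2 * H * (1 / 2)) ^ 2) / (2 * H) * NN (XE a b Y)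
        = Real.exp (-(3 / 4 * Real.pi) * (2 * H * (1 / 2)) ^ 2) / H * NN (XE a b Y) := by
          field_simp
      _ ≤ Real.exp (-Real.pi * Y ^ (1 / 2 : ℝ)) / 1 * (9 ^ (n + 1) * Y ^ sg a) := by gcongr
      _ = cG b la lb / 8 * Y ^ sg a * (8 * 9 ^ (n + 1) / cG b la lb * Real.exp (-Real.pi * Y ^ (1 / 2 : ℝ))) := by
          field_simp
      _ ≤ cG b la lb / 8 * Y ^ sg a * Y ^ (-(sg a - sg b + 1)) := by gcongr
      _ = cG b la lb / 8 * Y ^ (sg b - 1) := by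
          rw [mul_assoc, ← Real.rpow_add hY0]
          congr 2
          ring
  have h6 : 0 < cG b la lb * Y ^ (sg b - 1) := by positivity
  linarith

/-- **A small box of exponents.** -/
lemma box_TT {a b l : Fin (n + 1) → ℝ} {h c ε₁ : ℝ} (ha : ∀ i, 1 ≤ a i) (hab : ∀ i, a i ≤ b i)
    (hb : ∀ i, b i ≤ a i + 1) (hl : ∀ i, 0 < l i) (hε : ∀ i, 1 - (a i)⁻¹ - ε₁ ≤ (a i - 1) / b i) (hε0 : 0 ≤ ε₁)
    (hm : ∀ i, (a i)⁻¹ < 3 / 2 * (b i)⁻¹) (hh : 0 < h) (hh1 : h < 1) (hc : 0 ≤ c) (hσ : 1 + c ≤ sg a / 2)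
    (hmid : sg a + ((n + 1 : ℕ) : ℝ) * ε₁ - h * c < sg b) (hlow : sg a - sg b + 3 * h < (b 0)⁻¹ / 2) :
    ∀ᵐ t ∂(bxe a b), (∀ i, a i < t i ∧ t i ≤ b i) → ∃ N₀ : ℝ, ∀ m : ℤ, N₀ ≤ m → RepF l t m := by
  obtain ⟨la, hla, hla2⟩ : ∃ la : ℝ, 0 < la ∧ ∀ i, la < l i := by
    refine ⟨(∑ i, (l i)⁻¹ + 1)⁻¹, ?_, fun i => ?_⟩
    · have : 0 ≤ ∑ i, (l i)⁻¹ := sum_nonneg fun i _ => (inv_pos.2 (hl i)).le
      positivity
    · have h1 : (l i)⁻¹ ≤ ∑ i, (l i)⁻¹ := single_le_sum (f := fun i => (l i)⁻¹)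
        (fun i _ => (inv_pos.2 (hl i)).le) (mem_univ i)
      rw [inv_lt_comm₀ (by linarith [inv_pos.2 (hl i)]) (hl i)]
      linarith
  obtain ⟨lb, hlb1, hlb2⟩ : ∃ lb : ℝ, 1 ≤ lb ∧ ∀ i, l i ≤ lb := by
    refine ⟨∑ i, l i + 1, ?_, fun i => ?_⟩
    · have : 0 ≤ ∑ i, l i := sum_nonneg fun i _ => (hl i).le
      linarith
    · have h1 : l i ≤ ∑ i, l i := single_le_sum (f := fun i => l i) (fun i _ => (hl i).le) (mem_univ i)
      linarith
  have hlab : la ≤ lb := ((hla2 0).trans_le (hlb2 0)).le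
  have hb1 : ∀ i, 1 ≤ b i := fun i => (ha i).trans (hab i)
  have hcG := cG_pos hb1 hla (by linarith : 0 < lb)
  have hbc := bc_TT ha hab hb hl hε hε0 hc hσ hh hh1 (by positivity : 0 < cG b la lb / 8) hmid
  have hgood : ∀ᵐ t ∂(bxe a b), ∀ i, ∀ᶠ j in atTop, GoodE (a i) (b i) (l i) (t i) (Yj j) := by
    rw [ae_all_iff]
    intro i
    have h1 := good_ae (ha i) (hab i) (hb i) (hl i) (hm i)
    unfold bxe
    exact (Measure.quasiMeasurePreserving_eval (fun i => (volume : Measure ℝ).restrict (Set.Ioc (a i) (b i))) i).ae h1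
  have hdet := det_TT ha hab hla hlab hlb1 (fun i => ⟨hla2 i, hlb2 i⟩) hh1 hlow
  have hLpos : 0 < ∑ i, l i := sum_pos (fun i _ => hl i) univ_nonempty
  filter_upwards [hbc, hgood] with t ht htg htb
  obtain ⟨J, hJ⟩ := eventually_atTop.1 ((ht.and (eventually_all.2 htg)).and (Yj_tendsto.eventually hdet))
  refine ⟨2 * (∑ i, l i) * Yj (J + 1), fun m hm => ?_⟩
  obtain ⟨j, hj, hy1, hy2⟩ := dyadic hLpos J hm
  obtain ⟨⟨g1, g3⟩, g2⟩ := hJ j hj
  exact g2 t (fun i => ⟨(htb i).1.le, (htb i).2⟩) g3 g1 m hy1 hy2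

/-- **All large integers, almost all exponents.** -/
theorem all_TT {l : Fin (n + 1) → ℝ} (hl : ∀ i, 0 < l i) :
    ∀ᵐ t : Fin (n + 1) → ℝ, (∀ i, 1 < t i) → 2 < sg t → ∃ N₀ : ℝ, ∀ m : ℤ, N₀ ≤ m → RepF l t m := by
  rw [ae_iff]
  refine measure_null_of_locally_null _ fun p hp => ?_
  simp only [Set.mem_ofPred_eq, not_forall] at hp
  obtain ⟨hp1, hp2, -⟩ := hp
  set c : ℝ := sg p / 2 - 1 with hc
  have hc0 : 0 < c := by rw [hc]; linarith
  have hp0 : (0 : ℝ) < p 0 := by linarith [hp1 0]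
  have hp0i : 0 < (p 0)⁻¹ := inv_pos.2 hp0
  set h : ℝ := (12 * p 0)⁻¹ with hh
  have hh0 : 0 < h := by positivity
  have hh12 : 12 * h = (p 0)⁻¹ := by
    rw [hh]
    field_simp
  have hh1 : h < 1 := by
    have : (p 0)⁻¹ ≤ 1 := inv_le_one_of_one_le₀ (hp1 0).le
    linarith
  set ε₁ : ℝ := h * c / (4 * ((n + 1 : ℕ) : ℝ)) with hε₁
  have hn0 : (0 : ℝ) < ((n + 1 : ℕ) : ℝ) := by positivity
  have hε₁0 : 0 < ε₁ := by positivity
  have hSp : 0 < ∑ i, p i := sum_pos (fun i _ => by linarith [hp1 i]) univ_nonempty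
  set D₁ : ℝ := min (h * c / 2) (min ((p 0)⁻¹ / 4) (2 * (∑ i, p i + 1))⁻¹) with hD₁
  have hD₁0 : 0 < D₁ := by
    rw [hD₁]
    refine lt_min (by positivity) (lt_min (by positivity) (by positivity))
  have hD₁a : D₁ ≤ h * c / 2 := min_le_left _ _
  have hD₁b : D₁ ≤ (p 0)⁻¹ / 4 := (min_le_right _ _).trans (min_le_left _ _)
  have hD₁c : D₁ ≤ (2 * (∑ i, p i + 1))⁻¹ := (min_le_right _ _).trans (min_le_right _ _)
  have hD₂ : 12 * h + 3 * D₁ < 2 * (p 0)⁻¹ := by linarith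
  obtain ⟨w, hw0, hw1, hw2, hw3, hw4, hw5⟩ := small_box hp1 hε₁0 hD₁0 hD₂
  set a : Fin (n + 1) → ℝ := fun i => p i - w with ha
  set b : Fin (n + 1) → ℝ := fun i => p i + w with hb
  have hsga : sg p ≤ sg a := sg_anti (fun i => by have := hw1 i; change 0 < p i - w; linarith)
    (fun i => by change p i - w ≤ p i; linarith)
  have hmid : sg a + ((n + 1 : ℕ) : ℝ) * ε₁ - h * c < sg b := by
    have h1 : ((n + 1 : ℕ) : ℝ) * ε₁ = h * c / 4 := by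
      rw [hε₁]
      field_simp
    rw [h1]
    have : 0 < h * c := by positivity
    linarith
  have hlow : sg a - sg b + 3 * h < (b 0)⁻¹ / 2 := by
    have : (b 0)⁻¹ = (p 0 + w)⁻¹ := rfl
    rw [this]
    linarith
  have hab : ∀ i, a i ≤ b i := fun i => by change p i - w ≤ p i + w; linarith
  have hm : ∀ i, (a i)⁻¹ < 3 / 2 * (b i)⁻¹ := by
    intro i
    have h1 : (a i)⁻¹ - (b i)⁻¹ ≤ sg a - sg b := by
      unfold sg
      rw [← sum_sub_distrib]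
      refine single_le_sum (f := fun i => (a i)⁻¹ - (b i)⁻¹) (fun j _ => ?_) (mem_univ i)
      have := inv_anti₀ (by have := hw1 j; change 0 < p j - w; linarith : 0 < a j) (hab j)
      linarith
    have h2 : (2 * (∑ i, p i + 1))⁻¹ ≤ 1 / 2 * (b i)⁻¹ := by
      rw [mul_inv, ← one_div (2 : ℝ)]
      have h3 : p i ≤ ∑ i, p i := single_le_sum (f := fun i => p i) (fun j _ => by linarith [hp1 j]) (mem_univ i)
      have h4 : (∑ i, p i + 1)⁻¹ ≤ (b i)⁻¹ := by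
        refine inv_anti₀ ?_ ?_
        · change 0 < p i + w
          linarith [hp1 i]
        · change p i + w ≤ _
          linarith
      linarith
    linarith
  have hbox := box_TT (l := l) (h := h) (c := c) (ε₁ := ε₁) hw1 hab
    (fun i => by change p i + w ≤ p i - w + 1; linarith) hl hw3 hε₁0.le hm hh0 hh1 hc0.le
    (by rw [hc]; linarith) hmid hlow
  set u : Set (Fin (n + 1) → ℝ) := Set.univ.pi fun i => Set.Ioo (a i) (b i) with hu
  have huo : IsOpen u := isOpen_set_pi Set.finite_univ fun i _ => isOpen_Ioo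
  have hpu : p ∈ u := fun i _ => ⟨by change p i - w < p i; linarith, by change p i < p i + w; linarith⟩
  refine ⟨u ∩ {t | ¬((∀ i, 1 < t i) → 2 < sg t → ∃ N₀ : ℝ, ∀ m : ℤ, N₀ ≤ m → RepF l t m)},
    Filter.inter_mem (mem_nhdsWithin_of_mem_nhds (huo.mem_nhds hpu)) self_mem_nhdsWithin, ?_⟩
  rw [bxe_eq, ae_restrict_iff' (MeasurableSet.univ_pi fun _ => measurableSet_Ioc), ae_iff] at hbox
  refine measure_mono_null ?_ hbox
  rintro t ⟨ht1, ht2⟩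
  simp only [Set.mem_ofPred_eq] at ht2 ⊢
  intro h3
  refine ht2 fun _ _ => ?_
  exact h3 (fun i _ => ⟨(ht1 i (Set.mem_univ i)).1, (ht1 i (Set.mem_univ i)).2.le⟩)
    fun i => ⟨(ht1 i (Set.mem_univ i)).1, (ht1 i (Set.mem_univ i)).2.le⟩

end Pool.Agent.Q43.MW
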