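import Mathlib
import Pool.Agent.Q43.MW.Fl7

set_option autoImplicit false

/-!
# Almost all integers
-/

namespace Pool.Agent.Q43.MW

open MeasureTheory Complex Finset Filter

variable {s : ℕ}

/-- the part of the middle frequencies -/
noncomputable def Bm (X : Fin s → Finset ℕ) (f : Fin s → ℕ → ℝ) (H α₁ : ℝ) (m : ℤ) : ℂ :=
  ∫ α in {α : ℝ | α₁ < |α| ∧ |α| ≤ 1 / 2}, (((Real.exp (-Real.pi * (H * α) ^ 2) : ℝ) : ℂ) - 1) *
    (TT X f α * ee (-(α * m)))

/-- **The circle method.** -/
lemma eng3 (X : Fin s → Finset ℕ) (f : Fin s → ℕ → ℝ) {H α₁ : ℝ} (hH : 0 < H) (h1 : 0 ≤ α₁) (h12 : α₁ ≤ 1 / 2)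
    (m : ℤ) (hno : ∀ x ∈ Fintype.piFinset X, NI f x ≠ m) :
    RN X f H m / H ≤ 2 * Real.pi * H ^ 2 * α₁ ^ 3 * NN X + ‖Bm X f H α₁ m‖ +
        2 * Real.exp (-(3 / 4 * Real.pi) * (H * (1 / 2)) ^ 2) / H * NN X := by
  set g : ℝ → ℂ := fun α => TT X f α * ee (-(α * m)) with hg
  set E : ℝ → ℝ := fun α => Real.exp (-Real.pi * (H * α) ^ 2) with hE
  have hgn : ∀ α, ‖g α‖ ≤ NN X := by
    intro α
    rw [hg]
    simp only
    rw [norm_mul, norm_ee, mul_one]
    exact TT_norm X f α
  have hgc : Continuous g := (TT_cont X f).mul (by fun_prop)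
  have hN := NN_nonneg X
  have hEi : Integrable E := gauss_integrable hH
  have hEg : Integrable fun α => ((E α : ℝ) : ℂ) * g α :=
    hEi.ofReal.mul_bdd (c := NN X) hgc.aestronglyMeasurable (Eventually.of_forall hgn)
  have hE1 : ∀ α, E α ≤ 1 := by
    intro α
    rw [hE]
    simp only
    rw [Real.exp_le_one_iff]
    have := Real.pi_pos
    nlinarith [sq_nonneg (H * α)]
  have hE0 : ∀ α, 0 ≤ E α := fun α => (Real.exp_pos _).le
  have hE2 : ∀ α, 1 - E α ≤ Real.pi * (H * α) ^ 2 := by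
    intro α
    rw [hE]
    simp only
    have := Real.add_one_le_exp (-Real.pi * (H * α) ^ 2)
    linarith
  set A : Set ℝ := {α : ℝ | |α| ≤ α₁} with hA
  set B : Set ℝ := {α : ℝ | α₁ < |α| ∧ |α| ≤ 1 / 2} with hB
  set C : Set ℝ := {α : ℝ | 1 / 2 < |α|} with hC
  have hAm : MeasurableSet A := (isClosed_le continuous_abs continuous_const).measurableSet
  have hBm : MeasurableSet B := (meas_high α₁).inter
    ((isClosed_le continuous_abs continuous_const).measurableSet : MeasurableSet {α : ℝ | |α| ≤ 1 / 2})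
  have hCm : MeasurableSet C := meas_high (1 / 2)
  have hAB : A ∪ B = Set.Icc (-(1 / 2)) (1 / 2) := by
    ext α
    simp only [hA, hB, Set.mem_union, Set.mem_ofPred_eq, Set.mem_Icc, ← abs_le]
    constructor
    · rintro (h | h)
      · linarith
      · exact h.2
    · intro h
      rcases le_or_gt |α| α₁ with h2 | h2
      · exact Or.inl h2
      · exact Or.inr ⟨h2, h⟩
  have hcompl : (A ∪ B)ᶜ = C := by
    ext α
    rw [hAB]
    simp only [hC, Set.mem_compl_iff, Set.mem_Icc, ← abs_le, Set.mem_ofPred_eq, not_le]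
  have hdisj : Disjoint A B := by
    rw [Set.disjoint_left]
    intro α g1 g2
    simp only [hA, hB, Set.mem_ofPred_eq] at g1 g2
    linarith [g2.1]
  have hgAB : IntegrableOn g (A ∪ B) := by
    rw [hAB]
    exact hgc.continuousOn.integrableOn_compact isCompact_Icc
  have hgA : IntegrableOn g A := hgAB.mono_set Set.subset_union_left
  have hgB : IntegrableOn g B := hgAB.mono_set Set.subset_union_right
  have hzero : (∫ α in A, g α) + ∫ α in B, g α = 0 := by
    rw [← setIntegral_union hdisj hBm hgA hgB, hAB, integral_Icc_eq_integral_Ioc,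
      ← intervalIntegral.integral_of_le (by norm_num)]
    have e1 : ∀ α : ℝ, g α = ∑ x ∈ Fintype.piFinset X, ((∏ i, ww (f i (x i)) : ℝ) : ℂ) *
        ee (α * ((NI f x - m : ℤ) : ℝ)) := by
      intro α
      rw [hg]
      simp only
      rw [TT_eq, sum_mul]
      refine sum_congr rfl fun x _ => ?_
      rw [mul_assoc, ← ee_add]
      congr 2
      push_cast
      ring
    simp only [e1]
    rw [intervalIntegral.integral_finsetSum]
    · refine sum_eq_zero fun x hx => ?_
      rw [intervalIntegral.integral_const_mul, orth (sub_ne_zero.2 (hno x hx)), mul_zero]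
    · intro x _
      exact (by fun_prop : Continuous fun α : ℝ => ((∏ i, ww (f i (x i)) : ℝ) : ℂ) *
        ee (α * ((NI f x - m : ℤ) : ℝ))).intervalIntegrable _ _
  have hsplit : ∫ α, ((E α : ℝ) : ℂ) * g α = (∫ α in A, ((E α : ℝ) : ℂ) * g α) + (∫ α in B, ((E α : ℝ) : ℂ) * g α) +
      ∫ α in C, ((E α : ℝ) : ℂ) * g α := by
    rw [← integral_add_compl (hAm.union hBm) hEg, hcompl, setIntegral_union hdisj hBm hEg.integrableOn
      hEg.integrableOn]
  have hmain : ((RN X f H m / H : ℝ) : ℂ) = (∫ α in A, (((E α : ℝ) : ℂ) - 1) * g α) +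
      (∫ α in B, (((E α : ℝ) : ℂ) - 1) * g α) + ∫ α in C, ((E α : ℝ) : ℂ) * g α := by
    rw [RN_fourier X f hH m]
    change ∫ α, ((E α : ℝ) : ℂ) * g α = _
    have d1 : ∫ α in A, (((E α : ℝ) : ℂ) - 1) * g α = (∫ α in A, ((E α : ℝ) : ℂ) * g α) - ∫ α in A, g α := by
      rw [← integral_sub hEg.integrableOn hgA]
      congr 1
      ext α
      ring
    have d2 : ∫ α in B, (((E α : ℝ) : ℂ) - 1) * g α = (∫ α in B, ((E α : ℝ) : ℂ) * g α) - ∫ α in B, g α := by
      rw [← integral_sub hEg.integrableOn hgB]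
      congr 1
      ext α
      ring
    rw [hsplit, d1, d2]
    linear_combination hzero
  have hnE : ∀ α, ‖((E α : ℝ) : ℂ) - 1‖ = 1 - E α := by
    intro α
    have : ((E α : ℝ) : ℂ) - 1 = ((E α - 1 : ℝ) : ℂ) := by push_cast; ring
    rw [this, Complex.norm_real, Real.norm_eq_abs, abs_sub_comm, abs_of_nonneg (by linarith [hE1 α])]
  have hbA : ‖∫ α in A, (((E α : ℝ) : ℂ) - 1) * g α‖ ≤ 2 * Real.pi * H ^ 2 * α₁ ^ 3 * NN X := by
    have hAI : A = Set.Icc (-α₁) α₁ := by
      ext α
      simp only [hA, Set.mem_ofPred_eq, Set.mem_Icc, abs_le]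
    have h2 : ∀ α ∈ A, ‖(((E α : ℝ) : ℂ) - 1) * g α‖ ≤ Real.pi * (H * α₁) ^ 2 * NN X := by
      intro α hα
      rw [norm_mul, hnE]
      have h3 : 1 - E α ≤ Real.pi * (H * α₁) ^ 2 := by
        refine (hE2 α).trans ?_
        have : (H * α) ^ 2 ≤ (H * α₁) ^ 2 := by
          rw [mul_pow, mul_pow, ← sq_abs α]
          have : |α| ≤ α₁ := hα
          gcongr
        have := Real.pi_pos
        gcongr
      have h4 : 0 ≤ 1 - E α := by linarith [hE1 α]
      have h5 : 0 ≤ Real.pi * (H * α₁) ^ 2 := by have := Real.pi_pos; positivity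
      exact mul_le_mul h3 (hgn α) (norm_nonneg _) h5
    have h5 : volume A < ⊤ := by
      rw [hAI]
      exact measure_Icc_lt_top
    refine (norm_setIntegral_le_of_norm_le_const h5 h2).trans (le_of_eq ?_)
    rw [hAI, measureReal_def, Real.volume_Icc, ENNReal.toReal_ofReal (by linarith)]
    ring
  have hbC : ‖∫ α in C, ((E α : ℝ) : ℂ) * g α‖ ≤ 2 * Real.exp (-(3 / 4 * Real.pi) * (H * (1 / 2)) ^ 2) / H * NN X := by
    refine (norm_integral_le_integral_norm _).trans ?_
    set c := Real.exp (-(3 / 4 * Real.pi) * (H * (1 / 2)) ^ 2) with hc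
    have hg2 : Integrable fun α : ℝ => Real.exp (-Real.pi * (H / 2 * α) ^ 2) := gauss_integrable (by positivity)
    have hgI : ∫ α : ℝ, Real.exp (-Real.pi * (H / 2 * α) ^ 2) = 1 / (H / 2) := gauss_int (by positivity)
    have h2 : ∫ α in C, ‖((E α : ℝ) : ℂ) * g α‖ ≤ ∫ α in C, (c * NN X) * Real.exp (-Real.pi * (H / 2 * α) ^ 2) := by
      refine setIntegral_mono_on hEg.norm.integrableOn (hg2.const_mul _).integrableOn hCm fun α hα => ?_
      rw [norm_mul, Complex.norm_real, Real.norm_of_nonneg (hE0 α)]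
      have h3 : E α ≤ c * Real.exp (-Real.pi * (H / 2 * α) ^ 2) := by
        rw [hc, ← Real.exp_add]
        refine Real.exp_le_exp.2 ?_
        have h4 : (H * (1 / 2)) ^ 2 ≤ (H * α) ^ 2 := by
          rw [mul_pow, mul_pow, ← sq_abs α]
          have : 1 / 2 ≤ |α| := le_of_lt hα
          gcongr
        have := Real.pi_pos
        nlinarith
      calc E α * ‖g α‖ ≤ (c * Real.exp (-Real.pi * (H / 2 * α) ^ 2)) * NN X := by
            have := hgn α
            gcongr
        _ = _ := by ring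
    refine h2.trans ((setIntegral_le_integral (hg2.const_mul _) (Eventually.of_forall fun _ => by
      simp only [Pi.zero_apply]
      positivity)).trans (le_of_eq ?_))
    rw [integral_const_mul, hgI]
    field_simp
  have hle : RN X f H m / H ≤ ‖((RN X f H m / H : ℝ) : ℂ)‖ := by
    rw [Complex.norm_real]
    exact Real.le_norm_self _
  have hBm : Bm X f H α₁ m = ∫ α in B, (((E α : ℝ) : ℂ) - 1) * g α := rfl
  refine hle.trans ?_
  rw [hmain, hBm]
  exact norm_add₃_le.trans (by gcongr)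

/-- **Bessel's inequality.** -/
lemma bessel (X : Fin s → Finset ℕ) (f : Fin s → ℕ → ℝ) {H α₁ : ℝ} (F : Finset ℤ) :
    ∑ m ∈ F, ‖Bm X f H α₁ m‖ ^ 2 ≤ ∫ α in {α : ℝ | α₁ < |α| ∧ |α| ≤ 1 / 2}, ‖TT X f α‖ ^ 2 := by
  set B : Set ℝ := {α : ℝ | α₁ < |α| ∧ |α| ≤ 1 / 2} with hB
  have hBm : MeasurableSet B := (meas_high α₁).inter
    ((isClosed_le continuous_abs continuous_const).measurableSet : MeasurableSet {α : ℝ | |α| ≤ 1 / 2})
  have hBsub : B ⊆ Set.Icc (-(1 / 2)) (1 / 2) := by
    intro α hα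
    exact abs_le.1 hα.2
  set G : ℝ → ℂ := fun α => (((Real.exp (-Real.pi * (H * α) ^ 2) : ℝ) : ℂ) - 1) * TT X f α with hG
  have hTc := TT_cont X f
  have hGc : Continuous G := by
    rw [hG]
    exact Continuous.mul (by fun_prop) hTc
  set b : ℤ → ℂ := fun m => Bm X f H α₁ m with hb
  have hbe : ∀ m, b m = ∫ α in B, G α * ee (-(α * m)) := by
    intro m
    rw [hb, hG]
    unfold Bm
    simp only [mul_assoc]
    rfl
  set Q : ℝ → ℂ := fun α => ∑ m ∈ F, (starRingEnd ℂ) (b m) * ee (-(α * m)) with hQ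
  have hQc : Continuous Q := by
    rw [hQ]
    fun_prop
  have hci : ∀ {g : ℝ → ℂ}, Continuous g → IntegrableOn g B := fun hg =>
    (hg.continuousOn.integrableOn_compact isCompact_Icc).mono_set hBsub
  have hcr : ∀ {g : ℝ → ℝ}, Continuous g → IntegrableOn g B := fun hg =>
    (hg.continuousOn.integrableOn_compact isCompact_Icc).mono_set hBsub
  have e1 : ((∑ m ∈ F, ‖b m‖ ^ 2 : ℝ) : ℂ) = ∫ α in B, G α * Q α := by
    have h1 : ∀ α, G α * Q α = ∑ m ∈ F, (starRingEnd ℂ) (b m) * (G α * ee (-(α * m))) := by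
      intro α
      rw [hQ]
      simp only
      rw [mul_sum]
      refine sum_congr rfl fun m _ => ?_
      ring
    simp only [h1]
    rw [integral_finsetSum]
    · push_cast
      refine sum_congr rfl fun m _ => ?_
      rw [integral_const_mul, ← hbe, ← Complex.conj_mul']
    · intro m _
      exact hci (by fun_prop)
  have e2 : ∫ α in (-(1 / 2) : ℝ)..(1 / 2), ‖Q α‖ ^ 2 = ∑ m ∈ F, ‖b m‖ ^ 2 := by
    have h1 : ∀ α : ℝ, ((‖Q α‖ ^ 2 : ℝ) : ℂ) =
        ∑ m ∈ F, ∑ k ∈ F, ((starRingEnd ℂ) (b m) * b k) * ee (α * ((k - m : ℤ) : ℝ)) := by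
      intro α
      push_cast
      rw [← Complex.mul_conj']
      rw [hQ]
      simp only
      rw [map_sum, sum_mul_sum]
      refine sum_congr rfl fun m _ => sum_congr rfl fun k _ => ?_
      rw [map_mul, Complex.conj_conj, conj_ee]
      have : ee (α * ((k - m : ℤ) : ℝ)) = ee (-(α * m)) * ee (- -(α * k)) := by
        rw [← ee_add]
        congr 1
        push_cast
        ring
      push_cast at this ⊢
      rw [this]
      ring
    have h2 : ((∫ α in (-(1 / 2) : ℝ)..(1 / 2), ‖Q α‖ ^ 2 : ℝ) : ℂ) = ((∑ m ∈ F, ‖b m‖ ^ 2 : ℝ) : ℂ) := by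
      rw [← intervalIntegral.integral_ofReal]
      simp only [h1]
      rw [intervalIntegral.integral_finsetSum]
      · push_cast
        refine sum_congr rfl fun m hm => ?_
        rw [intervalIntegral.integral_finsetSum]
        · rw [sum_eq_single m]
          · rw [intervalIntegral.integral_const_mul]
            simp only [sub_self, mul_zero, ee_zero]
            rw [intervalIntegral.integral_const, ← Complex.conj_mul']
            norm_num
          · intro k _ hkm
            have h3 := orth (sub_ne_zero.2 hkm)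
            push_cast at h3
            rw [intervalIntegral.integral_const_mul, h3, mul_zero]
          · intro h
            exact absurd hm h
        · intro k _
          exact (by fun_prop : Continuous fun α : ℝ => ((starRingEnd ℂ) (b m) * b k) *
            ee (α * ((k : ℝ) - m))).intervalIntegrable _ _
      · intro m _
        exact (by fun_prop : Continuous fun α : ℝ => ∑ k ∈ F, ((starRingEnd ℂ) (b m) * b k) *
            ee (α * ((k - m : ℤ) : ℝ))).intervalIntegrable _ _
    exact_mod_cast h2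
  have e3 : ∫ α in B, ‖Q α‖ ^ 2 ≤ ∑ m ∈ F, ‖b m‖ ^ 2 := by
    rw [← e2, intervalIntegral.integral_of_le (by norm_num), ← integral_Icc_eq_integral_Ioc]
    exact setIntegral_mono_set ((hQc.norm.pow 2).continuousOn.integrableOn_compact isCompact_Icc)
      (Eventually.of_forall fun α => by positivity) (Filter.Eventually.of_forall hBsub)
  have e4 : ∑ m ∈ F, ‖b m‖ ^ 2 ≤ ∫ α in B, (‖TT X f α‖ ^ 2 / 2 + ‖Q α‖ ^ 2 / 2) := by
    have h1 : (∑ m ∈ F, ‖b m‖ ^ 2) = ‖((∑ m ∈ F, ‖b m‖ ^ 2 : ℝ) : ℂ)‖ := by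
      rw [Complex.norm_real, Real.norm_of_nonneg (sum_nonneg fun m _ => by positivity)]
    rw [h1, e1]
    refine (norm_integral_le_integral_norm _).trans ?_
    refine setIntegral_mono_on (hcr (hGc.mul hQc).norm) (hcr (by fun_prop)) hBm fun α _ => ?_
    rw [norm_mul]
    have h2 : ‖G α‖ ≤ ‖TT X f α‖ := by
      rw [hG]
      simp only
      rw [norm_mul]
      have h3 : ‖((Real.exp (-Real.pi * (H * α) ^ 2) : ℝ) : ℂ) - 1‖ ≤ 1 := by
        have h4 : ((Real.exp (-Real.pi * (H * α) ^ 2) : ℝ) : ℂ) - 1 =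
            ((Real.exp (-Real.pi * (H * α) ^ 2) - 1 : ℝ) : ℂ) := by push_cast; ring
        rw [h4, Complex.norm_real, Real.norm_eq_abs, abs_le]
        have h5 := Real.exp_pos (-Real.pi * (H * α) ^ 2)
        have h6 : Real.exp (-Real.pi * (H * α) ^ 2) ≤ 1 := by
          rw [Real.exp_le_one_iff]
          have := Real.pi_pos
          nlinarith [sq_nonneg (H * α)]
        constructor <;> linarith
      have := norm_nonneg (TT X f α)
      nlinarith
    have h3 := norm_nonneg (G α)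
    have h4 := norm_nonneg (Q α)
    nlinarith [sq_nonneg (‖G α‖ - ‖Q α‖)]
  rw [integral_add (hcr (by fun_prop)) (hcr (by fun_prop)), integral_div, integral_div] at e4
  have e5 : ∑ m ∈ F, ‖Bm X f H α₁ m‖ ^ 2 = ∑ m ∈ F, ‖b m‖ ^ 2 := rfl
  rw [e5]
  linarith

end Pool.Agent.Q43.MW
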