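import Mathlib
import Pool.Agent.Q43.MW.Fm1

set_option autoImplicit false

/-!
# Almost all integers: means and the deterministic step
-/

namespace Pool.Agent.Q43.MW

open MeasureTheory Complex Finset Filter

section mean

variable {s : ℕ}

lemma phi_TT2 {a b l : Fin s → ℝ} {ε₁ Y : ℝ} (ha : ∀ i, 1 ≤ a i) (hab : ∀ i, a i ≤ b i) (hb : ∀ i, b i ≤ a i + 1)
    (hl : ∀ i, 0 < l i) (hε : ∀ i, 1 - (a i)⁻¹ - ε₁ ≤ (a i - 1) / b i) (hε0 : 0 ≤ ε₁) (hY : 2 ≤ Y)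
    (hY3 : ∀ i, 3 ≤ Y ^ (b i)⁻¹) {α : ℝ} (hα : 1 ≤ |α| * Y) (hα2 : |α| ≤ 1 / 2) :
    ∫ t, ‖TT (XE a b Y) (fe l t) α‖ ^ 2 ∂(bxe a b) ≤
      (KF l * (4 + Real.log Y) ^ s) * Y ^ (sg a + s * ε₁) * |α| ^ (-sg a) := by
  have hY0 : 0 < Y := by linarith
  have hY1 : 1 ≤ Y := by linarith
  have ha0 : 0 < |α| := by
    by_contra h
    push Not at h
    nlinarith [abs_nonneg α]
  rw [mean_TT _ _ hab]
  have h1 : ∏ i, ∫ t in (a i)..(b i), ‖∑ x ∈ XE a b Y i, Th α (l i * pe t x)‖ ^ 2 ≤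
      ∏ i, ((2 * Kq ^ 2) * ((54 * (1 + (l i)⁻¹) * (4 + Real.log Y)) *
        (Y ^ ((a i)⁻¹ + ε₁) * max 1 (|α| ^ (-(a i)⁻¹))))) :=
    prod_le_prod (fun i _ => intervalIntegral.integral_nonneg (hab i) fun t _ => by positivity)
      fun i _ => one_factor_TI (ha i) (hab i) (hb i) (hl i) (hε i) hε0 hY (hY3 i) hα hα2
  refine h1.trans (le_of_eq ?_)
  have e1 : ∏ i, Y ^ ((a i)⁻¹ + ε₁) = Y ^ (sg a + s * ε₁) := by
    rw [← Real.rpow_sum_of_pos hY0]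
    congr 1
    unfold sg
    rw [sum_add_distrib, sum_const, card_univ, Fintype.card_fin, nsmul_eq_mul]
  have p0 : ∏ _i : Fin s, (2 * Kq ^ 2) = (2 * Kq ^ 2) ^ s := by rw [prod_const, card_univ, Fintype.card_fin]
  have p1 : ∏ i : Fin s, (54 * (1 + (l i)⁻¹) * (4 + Real.log Y)) = KE l * (4 + Real.log Y) ^ s := by
    unfold KE
    rw [prod_mul_distrib (f := fun i => 54 * (1 + (l i)⁻¹)), prod_const, card_univ, Fintype.card_fin]
  have h3 : ∀ i, max 1 (|α| ^ (-(a i)⁻¹)) = |α| ^ (-(a i)⁻¹) := by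
    intro i
    refine max_eq_right ?_
    have : 0 < (a i)⁻¹ := inv_pos.2 (by linarith [ha i])
    rw [Real.rpow_neg ha0.le, one_le_inv₀ (Real.rpow_pos_of_pos ha0 _)]
    exact Real.rpow_le_one ha0.le (by linarith) this.le
  have p2 : ∏ i, (Y ^ ((a i)⁻¹ + ε₁) * max 1 (|α| ^ (-(a i)⁻¹))) =
      Y ^ (sg a + s * ε₁) * |α| ^ (-sg a) := by
    rw [prod_mul_distrib, e1, prod_congr rfl fun i _ => h3 i, ← Real.rpow_sum_of_pos ha0, sum_neg_distrib]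
    rfl
  rw [prod_mul_distrib, p0, prod_mul_distrib, p1, p2]
  unfold KF
  ring

lemma mean2 {a b l : Fin s → ℝ} {ε₁ Y α₁ : ℝ} (ha : ∀ i, 1 ≤ a i) (hab : ∀ i, a i ≤ b i) (hb : ∀ i, b i ≤ a i + 1)
    (hl : ∀ i, 0 < l i) (hε : ∀ i, 1 - (a i)⁻¹ - ε₁ ≤ (a i - 1) / b i) (hε0 : 0 ≤ ε₁) (hY : 2 ≤ Y)
    (hY3 : ∀ i, 3 ≤ Y ^ (b i)⁻¹) (h1 : 0 < α₁) (h12 : α₁ ≤ 1 / 2) (h1Y : 1 ≤ α₁ * Y) (hσ : 1 ≤ sg a) :
    Integrable (fun t => ∫ α in {α : ℝ | α₁ < |α| ∧ |α| ≤ 1 / 2}, ‖TT (XE a b Y) (fe l t) α‖ ^ 2) (bxe a b) ∧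
    ∫ t, (∫ α in {α : ℝ | α₁ < |α| ∧ |α| ≤ 1 / 2}, ‖TT (XE a b Y) (fe l t) α‖ ^ 2) ∂(bxe a b) ≤
      (KF l * (4 + Real.log Y) ^ s) * Y ^ (sg a + s * ε₁) * α₁ ^ (-(sg a - 1)) *
        (2 * Real.log (1 / 2 / α₁)) := by
  have hY0 : 0 < Y := by linarith
  have hlogY := Real.log_nonneg (by linarith : 1 ≤ Y)
  have hfin : IsFiniteMeasure (volume.restrict {α : ℝ | α₁ < |α| ∧ |α| ≤ 1 / 2}) := by
    refine isFiniteMeasure_restrict.2 (ne_of_lt ?_)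
    refine lt_of_le_of_lt (measure_mono (t := Set.Icc (-(1 / 2)) (1 / 2)) ?_) measure_Icc_lt_top
    intro α hα
    exact abs_le.1 hα.2
  have hNN := NN_nonneg (XE a b Y)
  have hTc := TT_fe_cont (XE a b Y) l
  have hint : Integrable (fun q : (Fin s → ℝ) × ℝ => ‖TT (XE a b Y) (fe l q.1) q.2‖ ^ 2)
      ((bxe a b).prod (volume.restrict {α : ℝ | α₁ < |α| ∧ |α| ≤ 1 / 2})) := by
    refine (integrable_const (NN (XE a b Y) ^ 2)).mono' (hTc.norm.pow 2).aestronglyMeasurable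
      (Filter.Eventually.of_forall fun q => ?_)
    rw [Real.norm_of_nonneg (by positivity)]
    exact pow_le_pow_left₀ (norm_nonneg _) (TT_norm _ _ _) 2
  refine ⟨hint.integral_prod_left, ?_⟩
  rw [integral_integral_swap (f := fun t α => ‖TT (XE a b Y) (fe l t) α‖ ^ 2) hint]
  rw [← (inv_int h1 h12).2, ← integral_const_mul]
  have hm : MeasurableSet {α : ℝ | α₁ < |α| ∧ |α| ≤ 1 / 2} := (meas_high α₁).inter
    ((isClosed_le continuous_abs continuous_const).measurableSet : MeasurableSet {α : ℝ | |α| ≤ 1 / 2})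
  have hint2 : Integrable (fun q : ℝ × (Fin s → ℝ) => ‖TT (XE a b Y) (fe l q.2) q.1‖ ^ 2)
      ((volume.restrict {α : ℝ | α₁ < |α| ∧ |α| ≤ 1 / 2}).prod (bxe a b)) := hint.swap
  refine setIntegral_mono_on hint2.integral_prod_left ((inv_int h1 h12).1.const_mul _) hm fun α hα => ?_
  have hα0 : 0 < |α| := h1.trans hα.1
  refine (phi_TT2 ha hab hb hl hε hε0 hY hY3 (h1Y.trans (by have := hα.1.le; gcongr)) hα.2).trans ?_
  have hK := KF_pos hl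
  have h2 : |α| ^ (-sg a) ≤ α₁ ^ (-(sg a - 1)) * (1 / |α|) := by
    have e1 : |α| ^ (-sg a) = |α| ^ (-(sg a - 1)) * (1 / |α|) := by
      rw [one_div, ← Real.rpow_neg_one |α|, ← Real.rpow_add hα0]
      congr 1
      ring
    rw [e1]
    refine mul_le_mul_of_nonneg_right ?_ (by positivity)
    exact Real.rpow_le_rpow_of_nonpos h1 hα.1.le (by linarith)
  have h3 : 0 < Y ^ (sg a + s * ε₁) := Real.rpow_pos_of_pos hY0 _
  calc KF l * (4 + Real.log Y) ^ s * Y ^ (sg a + s * ε₁) * |α| ^ (-sg a) ≤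
        KF l * (4 + Real.log Y) ^ s * Y ^ (sg a + s * ε₁) * (α₁ ^ (-(sg a - 1)) * (1 / |α|)) := by gcongr
    _ = _ := by ring

end mean

variable {n : ℕ}

/-- the middle frequencies are small in mean square for almost all exponents -/
lemma bc_TT2 {a b l : Fin (n + 1) → ℝ} {ε₁ δ h : ℝ} (ha : ∀ i, 1 ≤ a i) (hab : ∀ i, a i ≤ b i)
    (hb : ∀ i, b i ≤ a i + 1) (hl : ∀ i, 0 < l i) (hε : ∀ i, 1 - (a i)⁻¹ - ε₁ ≤ (a i - 1) / b i) (hε0 : 0 ≤ ε₁)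
    (hσ : 1 ≤ sg a) (hh : 0 < h) (hh1 : h < 1)
    (hmid : 2 * (sg a - sg b) + ((n + 1 : ℕ) : ℝ) * ε₁ + δ < h * (sg a - 1)) :
    ∀ᵐ t ∂(bxe a b), ∀ᶠ j in atTop,
      (∫ α in {α : ℝ | Yj j ^ (h - 1) < |α| ∧ |α| ≤ 1 / 2}, ‖TT (XE a b (Yj j)) (fe l t) α‖ ^ 2) <
        Yj j ^ (2 * sg b - 1 - δ) := by
  set κ : ℝ := (h * (sg a - 1) - (2 * (sg a - sg b) + ((n + 1 : ℕ) : ℝ) * ε₁ + δ)) / 2 with hκ
  have hκ0 : 0 < κ := by rw [hκ]; linarith
  have hK := KF_pos hl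
  set V : ℝ := KF l * 2 with hV
  have hY3 : ∀ᶠ Y : ℝ in atTop, ∀ i, 3 ≤ Y ^ (b i)⁻¹ := by
    rw [eventually_all]
    intro i
    exact const_le 3 (inv_pos.2 (by linarith [ha i, hab i]))
  have hgen : ∀ᶠ Y : ℝ in atTop,
      Integrable (fun t => ∫ α in {α : ℝ | Y ^ (h - 1) < |α| ∧ |α| ≤ 1 / 2},
        ‖TT (XE a b Y) (fe l t) α‖ ^ 2) (bxe a b) ∧
      ∫ t, (∫ α in {α : ℝ | Y ^ (h - 1) < |α| ∧ |α| ≤ 1 / 2}, ‖TT (XE a b Y) (fe l t) α‖ ^ 2) ∂(bxe a b) ≤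
        Y ^ (2 * sg b - 1 - δ) * Y ^ (-κ) := by
    filter_upwards [log_pow_le V (n + 2) hκ0, eventually_ge_atTop 2, hY3, const_le 2 (κ := 1 - h) (by linarith)]
      with Y h4 h5 h6 h7
    have hY0 : 0 < Y := by linarith
    have hY1 : 1 ≤ Y := by linarith
    have hlogY := Real.log_nonneg hY1
    have hα0 : 0 < Y ^ (h - 1) := Real.rpow_pos_of_pos hY0 _
    have h12 : Y ^ (h - 1) ≤ 1 / 2 := by
      rw [show h - 1 = -(1 - h) by ring, Real.rpow_neg hY0.le, one_div]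
      exact inv_anti₀ (by norm_num) h7
    have hMe : Y ^ (h - 1) * Y = Y ^ h := by
      rw [← Real.rpow_add_one hY0.ne']
      congr 1
      ring
    have hY1h : 1 ≤ Y ^ h := Real.one_le_rpow hY1 hh.le
    have hg := mean2 ha hab hb hl hε hε0 h5 h6 hα0 h12 (by rw [hMe]; exact hY1h) hσ
    refine ⟨hg.1, hg.2.trans ?_⟩
    have hlog : Real.log (1 / 2 / Y ^ (h - 1)) ≤ 4 + Real.log Y := by
      have e1 : Real.log (1 / 2 / Y ^ (h - 1)) ≤ Real.log (1 / Y ^ (h - 1)) :=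
        Real.log_le_log (by positivity) (by gcongr; norm_num)
      refine e1.trans ?_
      rw [one_div, ← Real.rpow_neg hY0.le, Real.log_rpow hY0]
      nlinarith
    have hlog0 : 0 ≤ Real.log (1 / 2 / Y ^ (h - 1)) := Real.log_nonneg ((one_le_div hα0).2 h12)
    have hp1 : 0 < Y ^ (sg a + ((n + 1 : ℕ) : ℝ) * ε₁) := Real.rpow_pos_of_pos hY0 _
    have hp2 : 0 < (Y ^ (h - 1)) ^ (-(sg a - 1)) := Real.rpow_pos_of_pos hα0 _
    calc (KF l * (4 + Real.log Y) ^ (n + 1)) * Y ^ (sg a + ((n + 1 : ℕ) : ℝ) * ε₁) *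
          (Y ^ (h - 1)) ^ (-(sg a - 1)) * (2 * Real.log (1 / 2 / Y ^ (h - 1)))
        ≤ (KF l * (4 + Real.log Y) ^ (n + 1)) * Y ^ (sg a + ((n + 1 : ℕ) : ℝ) * ε₁) *
          (Y ^ (h - 1)) ^ (-(sg a - 1)) * (2 * (4 + Real.log Y)) := by gcongr
      _ = (Y ^ (sg a + ((n + 1 : ℕ) : ℝ) * ε₁) * (Y ^ (h - 1)) ^ (-(sg a - 1))) *
          (V * (4 + Real.log Y) ^ (n + 2)) := by
          rw [hV]
          ring
      _ ≤ (Y ^ (sg a + ((n + 1 : ℕ) : ℝ) * ε₁) * (Y ^ (h - 1)) ^ (-(sg a - 1))) * Y ^ κ := by gcongr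
      _ = Y ^ (2 * sg b - 1 - δ) * Y ^ (-κ) := by
          rw [← Real.rpow_mul hY0.le, ← Real.rpow_add hY0, ← Real.rpow_add hY0, ← Real.rpow_add hY0]
          congr 1
          rw [hκ]
          ring
  obtain ⟨j₀, hj₀⟩ := eventually_atTop.1 (Yj_tendsto.eventually hgen)
  have hbc := bc (μ := bxe a b)
    (f := fun j t => if j₀ ≤ j then ∫ α in {α : ℝ | Yj j ^ (h - 1) < |α| ∧ |α| ≤ 1 / 2},
      ‖TT (XE a b (Yj j)) (fe l t) α‖ ^ 2 else 0)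
    (E := fun j => Yj j ^ (2 * sg b - 1 - δ) * Yj j ^ (-κ)) (θ := fun j => Yj j ^ (2 * sg b - 1 - δ)) (j₀ := j₀)
    (fun j => by
      by_cases hj : j₀ ≤ j
      · simp only [hj, if_true]
        exact (hj₀ j hj).1
      · simp only [hj, if_false]
        exact integrable_const 0)
    (fun j t => by
      by_cases hj : j₀ ≤ j
      · simp only [hj, if_true]
        exact integral_nonneg fun _ => by positivity
      · simp only [hj, if_false]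
        exact le_rfl) (fun j hj => by
        simp only [hj, if_true]
        exact (hj₀ j hj).2)
    (fun j => Real.rpow_pos_of_pos (Yj_pos j) _) (by
      refine (Yj_summable hκ0).congr fun j => ?_
      have := Real.rpow_pos_of_pos (Yj_pos j) (2 * sg b - 1 - δ)
      rw [mul_div_cancel_left₀ _ (by positivity)])
  filter_upwards [hbc] with t ht
  filter_upwards [ht, eventually_ge_atTop j₀] with j h1 h2
  simpa only [h2, if_true] using h1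

lemma det_Bm {a b l : Fin (n + 1) → ℝ} {la lb h : ℝ} (ha : ∀ i, 1 ≤ a i) (hab : ∀ i, a i ≤ b i) (hla : 0 < la)
    (hlab : la ≤ lb) (hlb1 : 1 ≤ lb) (hl : ∀ i, la < l i ∧ l i ≤ lb)
    (hh1 : h < 1) (hlow : sg a - sg b + 3 * h < (b 0)⁻¹ / 2) :
    ∀ᶠ Y : ℝ in atTop, ∀ c : Fin (n + 1) → ℝ, (∀ i, a i ≤ c i ∧ c i ≤ b i) →
      (∀ i, GoodE (a i) (b i) (l i) (c i) Y) →
      ∀ m : ℤ, 2 * Y * ∑ i, l i ≤ m → (m : ℝ) ≤ 4 * Y * ∑ i, l i →
          ¬ RepF l c m → cG b la lb / 2 * Y ^ (sg b - 1) ≤ ‖Bm (XE a b Y) (fe l c) (2 * Hg b lb Y) (Y ^ (h - 1)) m‖ := by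
  have hlb : 0 < lb := hla.trans_le hlab
  have hb1 : ∀ i, 1 ≤ b i := fun i => (ha i).trans (hab i)
  have hb0 : ∀ i, 0 < b i := fun i => by linarith [hb1 i]
  have hcG := cG_pos hb1 hla hlb
  have hLpos : 0 < ∑ i, l i := sum_pos (fun i _ => hla.trans (hl i).1) univ_nonempty
  set L := ∑ i, l i with hL
  set h₀ : ℝ := 4 * (lb * (b 0 * 8 ^ b 0)) with hh₀
  have hh01 : 1 ≤ h₀ := by
    have h8 : (1 : ℝ) ≤ 8 ^ b 0 := Real.one_le_rpow (by norm_num) (hb0 0).le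
    have : 1 ≤ lb * (b 0 * 8 ^ b 0) :=
      one_le_mul_of_one_le_of_one_le hlb1 (one_le_mul_of_one_le_of_one_le (hb1 0) h8)
    rw [hh₀]
    linarith
  set C₆ : ℝ := 2 * Real.pi * (4 * h₀ ^ 2) * 9 ^ (n + 1) with hC₆
  have hC₆0 : 0 < C₆ := by have := Real.pi_pos; positivity
  set e₆ : ℝ := (b 0)⁻¹ / 2 - (sg a - sg b + 3 * h) with he₆
  have he₆0 : 0 < e₆ := by rw [he₆]; linarith
  filter_upwards [main_good ha hab hla hlab hl, const_le (8 * C₆ / cG b la lb) he₆0,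
    exp_decay (8 * 9 ^ (n + 1) / cG b la lb) (sg a - sg b + 1) (ε := 1 / 2) (by norm_num),
    const_le ((n : ℝ) + 1) (κ := 3 / 4) (by norm_num), const_le 2 (κ := 1 - h) (by linarith),
    eventually_ge_atTop 2] with Y hY1 hY2 hY3 hY4 hY5 hY6 c hc hG m hm1 hm2 hno
  have hY0 : 0 < Y := by linarith
  have hY1' : 1 ≤ Y := by linarith
  have hinv : (b 0)⁻¹ ≤ 1 := inv_le_one_of_one_le₀ (hb1 0)
  have hinv0 : 0 < (b 0)⁻¹ := inv_pos.2 (hb0 0)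
  set H : ℝ := Hg b lb Y with hH
  have hHY : Y ^ (3 / 4 : ℝ) ≤ H := by
    rw [hH]
    unfold Hg
    rw [← hh₀]
    have h1 : Y ^ (3 / 4 : ℝ) ≤ Y ^ (1 - (b 0)⁻¹ / 4) := Real.rpow_le_rpow_of_exponent_le hY1' (by linarith)
    have h2 : 0 < Y ^ (1 - (b 0)⁻¹ / 4) := Real.rpow_pos_of_pos hY0 _
    nlinarith
  have hHn : (n : ℝ) + 1 ≤ H := hY4.trans hHY
  have hn0 : (0 : ℝ) ≤ n := Nat.cast_nonneg n
  have hH1 : 1 ≤ H := by linarith
  have hH0 : 0 < H := by linarith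
  have hα0 : 0 < Y ^ (h - 1) := Real.rpow_pos_of_pos hY0 _
  have h12 : Y ^ (h - 1) ≤ 1 / 2 := by
    rw [show h - 1 = -(1 - h) by ring, Real.rpow_neg hY0.le, one_div]
    exact inv_anti₀ (by norm_num) hY5
  have hT0 : 0 < Y ^ (sg b - 1) := Real.rpow_pos_of_pos hY0 _
  have hNN := NN_exp (b := b) ha hY1'
  have hmain := hY1 c hc hG m hm1 (by
    have : 4 * Y * L ≤ 5 * Y * L := by nlinarith [mul_pos hY0 hLpos]
    linarith)
  have hRN := RN_lower (a := a) (b := b) (l := l) (c := c) (H := H) (Y := Y) hHn m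
  have hlower : cG b la lb * Y ^ (sg b - 1) ≤ RN (XE a b Y) (fe l c) (2 * H) m / (2 * H) := by
    rw [le_div_iff₀ (by positivity)]
    refine le_trans ?_ hRN
    have hE := Real.exp_pos (-(Real.pi / 2))
    calc cG b la lb * Y ^ (sg b - 1) * (2 * H) =
          (1 / 8) ^ (n + 1) * Real.exp (-(Real.pi / 2)) * (cg b la lb * Y ^ (sg b - 1) * H) := by
          unfold cG
          ring
      _ ≤ _ := by gcongr
  have heng := eng3 (XE a b Y) (fe l c) (H := 2 * H) (α₁ := Y ^ (h - 1)) (by positivity) hα0.le h12 m (by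
    intro x hx hxm
    refine hno ⟨x, ?_, ?_⟩
    · intro i
      have h2 := (mem_Xe.1 (Fintype.mem_piFinset.1 hx i)).1
      have h3 : (1 : ℝ) ≤ Y ^ (b i)⁻¹ := Real.one_le_rpow hY1' (inv_pos.2 (hb0 i)).le
      exact_mod_cast h3.trans h2
    · rw [← hxm]
      unfold NI fe
      refine sum_congr rfl fun i _ => ?_
      have h2 := (mem_Xe.1 (Fintype.mem_piFinset.1 hx i)).1
      have h3 : (1 : ℝ) ≤ Y ^ (b i)⁻¹ := Real.one_le_rpow hY1' (inv_pos.2 (hb0 i)).le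
      rw [pe_eq _ (by exact_mod_cast h3.trans h2)])
  have hlow' : 2 * Real.pi * (2 * H) ^ 2 * (Y ^ (h - 1)) ^ 3 * NN (XE a b Y) ≤
      cG b la lb / 8 * Y ^ (sg b - 1) := by
    have e1 : (2 * H) ^ 2 * (Y ^ (h - 1)) ^ 3 * Y ^ sg a = 4 * h₀ ^ 2 * (Y ^ (-e₆) * Y ^ (sg b - 1)) := by
      have p1 : (Y ^ (1 - (b 0)⁻¹ / 4)) ^ 2 = Y ^ (2 - (b 0)⁻¹ / 2) := by
        rw [← Real.rpow_natCast, ← Real.rpow_mul hY0.le]
        congr 1
        push_cast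
        ring
      have p2 : (Y ^ (h - 1)) ^ 3 = Y ^ (3 * h - 3) := by
        rw [← Real.rpow_natCast, ← Real.rpow_mul hY0.le]
        congr 1
        push_cast
        ring
      have p3 : Y ^ (2 - (b 0)⁻¹ / 2) * Y ^ (3 * h - 3) * Y ^ sg a = Y ^ (-e₆) * Y ^ (sg b - 1) := by
        rw [← Real.rpow_add hY0, ← Real.rpow_add hY0, ← Real.rpow_add hY0]
        congr 1
        rw [he₆]
        ring
      calc (2 * H) ^ 2 * (Y ^ (h - 1)) ^ 3 * Y ^ sg a =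
            4 * h₀ ^ 2 * ((Y ^ (1 - (b 0)⁻¹ / 4)) ^ 2 * (Y ^ (h - 1)) ^ 3 * Y ^ sg a) := by
            rw [hH]
            unfold Hg
            rw [← hh₀]
            ring
        _ = _ := by rw [p1, p2, p3]
    calc 2 * Real.pi * (2 * H) ^ 2 * (Y ^ (h - 1)) ^ 3 * NN (XE a b Y)
        ≤ 2 * Real.pi * (2 * H) ^ 2 * (Y ^ (h - 1)) ^ 3 * (9 ^ (n + 1) * Y ^ sg a) := by
          have := Real.pi_pos
          gcongr
      _ = 2 * Real.pi * 9 ^ (n + 1) * ((2 * H) ^ 2 * (Y ^ (h - 1)) ^ 3 * Y ^ sg a) := by ring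
      _ = C₆ * Y ^ (-e₆) * Y ^ (sg b - 1) := by rw [e1, hC₆]; ring
      _ ≤ cG b la lb / 8 * Y ^ (sg b - 1) := by
          refine mul_le_mul_of_nonneg_right ?_ hT0.le
          rw [Real.rpow_neg hY0.le, ← div_eq_mul_inv, div_le_iff₀ (Real.rpow_pos_of_pos hY0 _)]
          rw [div_le_iff₀ hcG] at hY2
          linarith
  have htail' : 2 * Real.exp (-(3 / 4 * Real.pi) * (2 * H * (1 / 2)) ^ 2) / (2 * H) * NN (XE a b Y) ≤
      cG b la lb / 8 * Y ^ (sg b - 1) := by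
    have q2 : Real.exp (-(3 / 4 * Real.pi) * (2 * H * (1 / 2)) ^ 2) ≤ Real.exp (-Real.pi * Y ^ (1 / 2 : ℝ)) := by
      refine Real.exp_le_exp.2 ?_
      have q3 : Y * Y ^ (1 / 2 : ℝ) ≤ H ^ 2 := by
        calc Y * Y ^ (1 / 2 : ℝ) = (Y ^ (3 / 4 : ℝ)) ^ 2 := by
              rw [← Real.rpow_natCast, ← Real.rpow_mul hY0.le]
              nth_rewrite 1 [← Real.rpow_one Y]
              rw [← Real.rpow_add hY0]
              norm_num
          _ ≤ H ^ 2 := by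
              have : 0 ≤ Y ^ (3 / 4 : ℝ) := (Real.rpow_pos_of_pos hY0 _).le
              gcongr
      have q4 : 0 < Y ^ (1 / 2 : ℝ) := Real.rpow_pos_of_pos hY0 _
      have q5 : 2 * H * (1 / 2) = H := by ring
      rw [q5]
      have q6 : Y ^ (1 / 2 : ℝ) ≤ 3 / 4 * H ^ 2 := by nlinarith
      have := Real.pi_pos
      nlinarith
    have hE := Real.exp_pos (-Real.pi * Y ^ (1 / 2 : ℝ))
    have hNN0 := NN_nonneg (XE a b Y)
    calc 2 * Real.exp (-(3 / 4 * Real.pi) * (2 * H * (1 / 2)) ^ 2) / (2 * H) * NN (XE a b Y)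
        = Real.exp (-(3 / 4 * Real.pi) * (2 * H * (1 / 2)) ^ 2) / H * NN (XE a b Y) := by
          field_simp
      _ ≤ Real.exp (-Real.pi * Y ^ (1 / 2 : ℝ)) / 1 * (9 ^ (n + 1) * Y ^ sg a) := by gcongr
      _ = cG b la lb / 8 * Y ^ sg a * (8 * 9 ^ (n + 1) / cG b la lb * Real.exp (-Real.pi * Y ^ (1 / 2 : ℝ))) := by
          field_simp
      _ ≤ cG b la lb / 8 * Y ^ sg a * Y ^ (-(sg a - sg b + 1)) := by gcongr
      _ = cG b la lb / 8 * Y ^ (sg b - 1) := by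
          rw [mul_assoc, ← Real.rpow_add hY0]
          congr 2
          ring
  have h6 : 0 < cG b la lb * Y ^ (sg b - 1) := by positivity
  linarith


end Pool.Agent.Q43.MW
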