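import Mathlib
import Pool.Agent.Q43.MW.Fm2

set_option autoImplicit false

/-!
# Almost all integers, for almost all exponents
-/

namespace Pool.Agent.Q43.MW

open MeasureTheory Complex Finset Filter

variable {n : ℕ}

lemma exc_count {a b l c : Fin (n + 1) → ℝ} {K δ Y H α₁ : ℝ} (hY : 0 < Y) (hK : 0 < K) {F : Finset ℤ}
    (hF : ∀ m ∈ F, K * Y ^ (sg b - 1) ≤ ‖Bm (XE a b Y) (fe l c) H α₁ m‖)
    (hI : (∫ α in {α : ℝ | α₁ < |α| ∧ |α| ≤ 1 / 2}, ‖TT (XE a b Y) (fe l c) α‖ ^ 2) < Y ^ (2 * sg b - 1 - δ)) :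
    (F.card : ℝ) ≤ 1 / K ^ 2 * Y ^ (1 - δ) := by
  have hT0 : 0 < Y ^ (sg b - 1) := Real.rpow_pos_of_pos hY _
  have h1 : (F.card : ℝ) * (K * Y ^ (sg b - 1)) ^ 2 ≤ Y ^ (2 * sg b - 1 - δ) := by
    calc (F.card : ℝ) * (K * Y ^ (sg b - 1)) ^ 2 = ∑ _m ∈ F, (K * Y ^ (sg b - 1)) ^ 2 := by
          rw [sum_const, nsmul_eq_mul]
      _ ≤ ∑ m ∈ F, ‖Bm (XE a b Y) (fe l c) H α₁ m‖ ^ 2 :=
          sum_le_sum fun m hm => pow_le_pow_left₀ (by positivity) (hF m hm) 2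
      _ ≤ _ := (bessel _ _ F).trans hI.le
  have e1 : Y ^ (2 * sg b - 1 - δ) = (Y ^ (sg b - 1)) ^ 2 * Y ^ (1 - δ) := by
    rw [← Real.rpow_natCast, ← Real.rpow_mul hY.le, ← Real.rpow_add hY]
    congr 1
    push_cast
    ring
  rw [e1, mul_pow] at h1
  have h2 : (F.card : ℝ) * K ^ 2 ≤ Y ^ (1 - δ) := by
    have h3 : 0 < (Y ^ (sg b - 1)) ^ 2 := by positivity
    nlinarith
  rw [one_div, inv_mul_eq_div, le_div_iff₀ (by positivity)]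
  exact h2

/-- **A small box of exponents.** -/
lemma box_AI {a b l : Fin (n + 1) → ℝ} {h δ ε₁ : ℝ} (ha : ∀ i, 1 ≤ a i) (hab : ∀ i, a i ≤ b i)
    (hb : ∀ i, b i ≤ a i + 1) (hl : ∀ i, 0 < l i) (hε : ∀ i, 1 - (a i)⁻¹ - ε₁ ≤ (a i - 1) / b i) (hε0 : 0 ≤ ε₁)
    (hm : ∀ i, (a i)⁻¹ < 3 / 2 * (b i)⁻¹) (hh : 0 < h) (hh1 : h < 1) (hσ : 1 ≤ sg a) (hδ1 : δ ≤ 1)
    (hmid : 2 * (sg a - sg b) + ((n + 1 : ℕ) : ℝ) * ε₁ + δ < h * (sg a - 1))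
    (hlow : sg a - sg b + 3 * h < (b 0)⁻¹ / 2) :
    ∀ᵐ t ∂(bxe a b), (∀ i, a i < t i ∧ t i ≤ b i) → ∃ C : ℝ, ∀ Z : ℝ, 1 ≤ Z → ∀ F : Finset ℤ,
      (∀ m ∈ F, Z ≤ m ∧ (m : ℝ) ≤ 2 * Z ∧ ¬ RepF l t m) → (F.card : ℝ) ≤ C * Z ^ (1 - δ) := by
  obtain ⟨la, hla, hla2⟩ : ∃ la : ℝ, 0 < la ∧ ∀ i, la < l i := by
    refine ⟨(∑ i, (l i)⁻¹ + 1)⁻¹, ?_, fun i => ?_⟩
    · have : 0 ≤ ∑ i, (l i)⁻¹ := sum_nonneg fun i _ => (inv_pos.2 (hl i)).le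
      positivity
    · have h1 : (l i)⁻¹ ≤ ∑ i, (l i)⁻¹ := single_le_sum (f := fun i => (l i)⁻¹)
        (fun i _ => (inv_pos.2 (hl i)).le) (mem_univ i)
      rw [inv_lt_comm₀ (by linarith [inv_pos.2 (hl i)]) (hl i)]
      linarith
  obtain ⟨lb, hlb1, hlb2⟩ : ∃ lb : ℝ, 1 ≤ lb ∧ ∀ i, l i ≤ lb := by
    refine ⟨∑ i, l i + 1, ?_, fun i => ?_⟩
    · have : 0 ≤ ∑ i, l i := sum_nonneg fun i _ => (hl i).le
      linarith
    · have h1 : l i ≤ ∑ i, l i := single_le_sum (f := fun i => l i) (fun i _ => (hl i).le) (mem_univ i)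
      linarith
  have hlab : la ≤ lb := ((hla2 0).trans_le (hlb2 0)).le
  have hb1 : ∀ i, 1 ≤ b i := fun i => (ha i).trans (hab i)
  have hcG := cG_pos hb1 hla (by linarith : 0 < lb)
  have hbc := bc_TT2 (δ := δ) ha hab hb hl hε hε0 hσ hh hh1 hmid
  have hgood : ∀ᵐ t ∂(bxe a b), ∀ i, ∀ᶠ j in atTop, GoodE (a i) (b i) (l i) (t i) (Yj j) := by
    rw [ae_all_iff]
    intro i
    have h1 := good_ae (ha i) (hab i) (hb i) (hl i) (hm i)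
    unfold bxe
    exact (Measure.quasiMeasurePreserving_eval (fun i => (volume : Measure ℝ).restrict (Set.Ioc (a i) (b i))) i).ae h1
  have hdet := det_Bm ha hab hla hlab hlb1 (fun i => ⟨hla2 i, hlb2 i⟩) hh1 hlow
  have hLpos : 0 < ∑ i, l i := sum_pos (fun i _ => hl i) univ_nonempty
  filter_upwards [hbc, hgood] with t ht htg htb
  obtain ⟨J, hJ⟩ := eventually_atTop.1 ((ht.and (eventually_all.2 htg)).and (Yj_tendsto.eventually hdet))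
  set L : ℝ := ∑ i, l i with hL
  set K : ℝ := cG b la lb / 2 with hK
  have hK0 : 0 < K := by positivity
  have htile : ∀ j, J ≤ j → ∀ F : Finset ℤ, (∀ m ∈ F, 2 * Yj j * L ≤ m ∧ (m : ℝ) ≤ 4 * Yj j * L ∧ ¬ RepF l t m) →
      (F.card : ℝ) ≤ 1 / K ^ 2 * Yj j ^ (1 - δ) := by
    intro j hj F hF
    obtain ⟨⟨g1, g3⟩, g2⟩ := hJ j hj
    exact exc_count (Yj_pos j) hK0 (fun m hm => g2 t (fun i => ⟨(htb i).1.le, (htb i).2⟩) g3 m (hF m hm).1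
      (hF m hm).2.1 (hF m hm).2.2) g1
  set Z₀ : ℝ := 2 * L * Yj (J + 1) with hZ₀
  have hZ₀0 : 0 < Z₀ := by have := Yj_pos (J + 1); positivity
  set C₁ : ℝ := 2 * (1 / K ^ 2) * (1 / L) ^ (1 - δ) with hC₁
  have hC₁0 : 0 ≤ C₁ := by positivity
  refine ⟨2 * Z₀ + 1 + C₁, fun Z hZ F hF => ?_⟩
  have hZ0 : 0 < Z := by linarith
  have hδ0 : 0 ≤ 1 - δ := by linarith
  have hZ1 : 1 ≤ Z ^ (1 - δ) := Real.one_le_rpow hZ hδ0
  rcases lt_or_ge Z Z₀ with hlt | hge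
  · have h1 : F ⊆ Icc 0 ⌊2 * Z₀⌋ := by
      intro m hm
      obtain ⟨h2, h3, -⟩ := hF m hm
      rw [mem_Icc, Int.le_floor]
      refine ⟨?_, by linarith⟩
      have : (0 : ℝ) ≤ m := by linarith
      exact_mod_cast this
    have h2 := card_le_card h1
    rw [Int.card_Icc] at h2
    have h3 : (F.card : ℝ) ≤ 2 * Z₀ + 1 := by
      have h4 : (F.card : ℝ) ≤ (((⌊2 * Z₀⌋ + 1 - 0).toNat : ℕ) : ℝ) := by exact_mod_cast h2
      refine h4.trans ?_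
      have h5 : (0 : ℤ) ≤ ⌊2 * Z₀⌋ := Int.floor_nonneg.2 (by positivity)
      have h6 : (((⌊2 * Z₀⌋ + 1 - 0).toNat : ℕ) : ℝ) = (⌊2 * Z₀⌋ : ℝ) + 1 := by
        have h7 : (((⌊2 * Z₀⌋ + 1 - 0).toNat : ℕ) : ℤ) = ⌊2 * Z₀⌋ + 1 := by
          rw [Int.toNat_of_nonneg (by omega)]
          ring
        exact_mod_cast h7
      rw [h6]
      linarith [Int.floor_le (2 * Z₀)]
    calc (F.card : ℝ) ≤ (2 * Z₀ + 1) * 1 := by linarith
      _ ≤ (2 * Z₀ + 1 + C₁) * Z ^ (1 - δ) := mul_le_mul (by linarith) hZ1 (by norm_num) (by positivity)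
  · obtain ⟨j, hj, hz1, hz2⟩ := dyadic hLpos J hge
    have hYj1 : Yj (j + 1) = 2 * Yj j := by unfold Yj; ring
    have hYj0 := Yj_pos j
    have hYj10 := Yj_pos (j + 1)
    have h1 := htile j hj (F.filter fun m : ℤ => (m : ℝ) ≤ 4 * Yj j * L) (by
      intro m hm
      rw [mem_filter] at hm
      obtain ⟨h2, h3, h4⟩ := hF m hm.1
      exact ⟨by linarith, hm.2, h4⟩)
    have h2 := htile (j + 1) (by omega) (F.filter fun m : ℤ => ¬ (m : ℝ) ≤ 4 * Yj j * L) (by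
      intro m hm
      rw [mem_filter] at hm
      obtain ⟨h2, h3, h4⟩ := hF m hm.1
      push Not at hm
      rw [hYj1]
      exact ⟨by linarith [hm.2], by linarith, h4⟩)
    have h3 : (F.card : ℝ) = ((F.filter fun m : ℤ => (m : ℝ) ≤ 4 * Yj j * L).card : ℝ) +
        ((F.filter fun m : ℤ => ¬ (m : ℝ) ≤ 4 * Yj j * L).card : ℝ) := by
      exact_mod_cast (card_filter_add_card_filter_not (s := F) (fun m : ℤ => (m : ℝ) ≤ 4 * Yj j * L)).symm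
    have h7 : Yj (j + 1) ≤ 1 / L * Z := by
      rw [hYj1, one_div, inv_mul_eq_div, le_div_iff₀ hLpos]
      linarith
    have h8 : Yj j ≤ 1 / L * Z := by linarith
    have h9 : Yj j ^ (1 - δ) ≤ (1 / L) ^ (1 - δ) * Z ^ (1 - δ) := by
      rw [← Real.mul_rpow (by positivity) hZ0.le]
      exact Real.rpow_le_rpow hYj0.le h8 hδ0
    have h10 : Yj (j + 1) ^ (1 - δ) ≤ (1 / L) ^ (1 - δ) * Z ^ (1 - δ) := by
      rw [← Real.mul_rpow (by positivity) hZ0.le]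
      exact Real.rpow_le_rpow hYj10.le h7 hδ0
    have hK2 : 0 < 1 / K ^ 2 := by positivity
    calc (F.card : ℝ) ≤ 1 / K ^ 2 * Yj j ^ (1 - δ) + 1 / K ^ 2 * Yj (j + 1) ^ (1 - δ) := by linarith
      _ ≤ 1 / K ^ 2 * ((1 / L) ^ (1 - δ) * Z ^ (1 - δ)) + 1 / K ^ 2 * ((1 / L) ^ (1 - δ) * Z ^ (1 - δ)) := by
          gcongr
      _ = (0 + C₁) * Z ^ (1 - δ) := by rw [hC₁]; ring
      _ ≤ (2 * Z₀ + 1 + C₁) * Z ^ (1 - δ) := mul_le_mul_of_nonneg_right (by linarith) (by positivity)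

/-- **Almost all integers, almost all exponents.** -/
theorem all_AI {l : Fin (n + 1) → ℝ} (hl : ∀ i, 0 < l i) :
    ∀ᵐ t : Fin (n + 1) → ℝ, (∀ i, 1 < t i) → 1 < sg t → ∃ δ : ℝ, 0 < δ ∧ δ < 1 ∧ ∃ C : ℝ, ∀ Z : ℝ, 1 ≤ Z →
      ∀ F : Finset ℤ, (∀ m ∈ F, Z ≤ m ∧ (m : ℝ) ≤ 2 * Z ∧ ¬ RepF l t m) → (F.card : ℝ) ≤ C * Z ^ (1 - δ) := by
  rw [ae_iff]
  refine measure_null_of_locally_null _ fun p hp => ?_
  simp only [Set.mem_ofPred_eq, not_forall] at hp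
  obtain ⟨hp1, hp2, -⟩ := hp
  have hp0 : (0 : ℝ) < p 0 := by linarith [hp1 0]
  have hp0i : 0 < (p 0)⁻¹ := inv_pos.2 hp0
  set h : ℝ := (12 * p 0)⁻¹ with hh
  have hh0 : 0 < h := by positivity
  have hh12 : 12 * h = (p 0)⁻¹ := by
    rw [hh]
    field_simp
  have hh1 : h < 1 := by
    have : (p 0)⁻¹ ≤ 1 := inv_le_one_of_one_le₀ (hp1 0).le
    linarith
  set u : ℝ := h * (sg p - 1) with hu
  have hu0 : 0 < u := mul_pos hh0 (by linarith)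
  set δ : ℝ := min (u / 8) (1 / 2) with hδ
  have hδ0 : 0 < δ := lt_min (by positivity) (by norm_num)
  have hδu : δ ≤ u / 8 := min_le_left _ _
  have hδ1 : δ < 1 := (min_le_right _ _).trans_lt (by norm_num)
  set ε₁ : ℝ := u / (8 * ((n + 1 : ℕ) : ℝ)) with hε₁
  have hn0 : (0 : ℝ) < ((n + 1 : ℕ) : ℝ) := by positivity
  have hε₁0 : 0 < ε₁ := by positivity
  have hSp : 0 < ∑ i, p i := sum_pos (fun i _ => by linarith [hp1 i]) univ_nonempty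
  set D₁ : ℝ := min (u / 8) (min ((p 0)⁻¹ / 4) (2 * (∑ i, p i + 1))⁻¹) with hD₁
  have hD₁0 : 0 < D₁ := by
    rw [hD₁]
    refine lt_min (by positivity) (lt_min (by positivity) (by positivity))
  have hD₁a : D₁ ≤ u / 8 := min_le_left _ _
  have hD₁b : D₁ ≤ (p 0)⁻¹ / 4 := (min_le_right _ _).trans (min_le_left _ _)
  have hD₁c : D₁ ≤ (2 * (∑ i, p i + 1))⁻¹ := (min_le_right _ _).trans (min_le_right _ _)
  have hD₂ : 12 * h + 3 * D₁ < 2 * (p 0)⁻¹ := by linarith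
  obtain ⟨w, hw0, hw1, hw2, hw3, hw4, hw5⟩ := small_box hp1 hε₁0 hD₁0 hD₂
  set a : Fin (n + 1) → ℝ := fun i => p i - w with ha
  set b : Fin (n + 1) → ℝ := fun i => p i + w with hb
  have hsga : sg p ≤ sg a := sg_anti (fun i => by have := hw1 i; change 0 < p i - w; linarith)
    (fun i => by change p i - w ≤ p i; linarith)
  have hmid : 2 * (sg a - sg b) + ((n + 1 : ℕ) : ℝ) * ε₁ + δ < h * (sg a - 1) := by
    have h1 : ((n + 1 : ℕ) : ℝ) * ε₁ = u / 8 := by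
      rw [hε₁]
      field_simp
    rw [h1]
    have h2 : u ≤ h * (sg a - 1) := by
      rw [hu]
      exact mul_le_mul_of_nonneg_left (by linarith) hh0.le
    linarith
  have hlow : sg a - sg b + 3 * h < (b 0)⁻¹ / 2 := by
    have : (b 0)⁻¹ = (p 0 + w)⁻¹ := rfl
    rw [this]
    linarith
  have hab : ∀ i, a i ≤ b i := fun i => by change p i - w ≤ p i + w; linarith
  have hm : ∀ i, (a i)⁻¹ < 3 / 2 * (b i)⁻¹ := by
    intro i
    have h1 : (a i)⁻¹ - (b i)⁻¹ ≤ sg a - sg b := by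
      unfold sg
      rw [← sum_sub_distrib]
      refine single_le_sum (f := fun i => (a i)⁻¹ - (b i)⁻¹) (fun j _ => ?_) (mem_univ i)
      have := inv_anti₀ (by have := hw1 j; change 0 < p j - w; linarith : 0 < a j) (hab j)
      linarith
    have h2 : (2 * (∑ i, p i + 1))⁻¹ ≤ 1 / 2 * (b i)⁻¹ := by
      rw [mul_inv, ← one_div (2 : ℝ)]
      have h3 : p i ≤ ∑ i, p i := single_le_sum (f := fun i => p i) (fun j _ => by linarith [hp1 j]) (mem_univ i)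
      have h4 : (∑ i, p i + 1)⁻¹ ≤ (b i)⁻¹ := by
        refine inv_anti₀ ?_ ?_
        · change 0 < p i + w
          linarith [hp1 i]
        · change p i + w ≤ _
          linarith
      linarith
    linarith
  have hbox := box_AI (l := l) (h := h) (δ := δ) (ε₁ := ε₁) hw1 hab
    (fun i => by change p i + w ≤ p i - w + 1; linarith) hl hw3 hε₁0.le hm hh0 hh1 (by linarith) hδ1.le hmid hlow
  set U : Set (Fin (n + 1) → ℝ) := Set.univ.pi fun i => Set.Ioo (a i) (b i) with hU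
  have huo : IsOpen U := isOpen_set_pi Set.finite_univ fun i _ => isOpen_Ioo
  have hpu : p ∈ U := fun i _ => ⟨by change p i - w < p i; linarith, by change p i < p i + w; linarith⟩
  refine ⟨U ∩ {t | ¬((∀ i, 1 < t i) → 1 < sg t → ∃ δ : ℝ, 0 < δ ∧ δ < 1 ∧ ∃ C : ℝ, ∀ Z : ℝ, 1 ≤ Z →
      ∀ F : Finset ℤ, (∀ m ∈ F, Z ≤ m ∧ (m : ℝ) ≤ 2 * Z ∧ ¬ RepF l t m) → (F.card : ℝ) ≤ C * Z ^ (1 - δ))},
    Filter.inter_mem (mem_nhdsWithin_of_mem_nhds (huo.mem_nhds hpu)) self_mem_nhdsWithin, ?_⟩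
  rw [bxe_eq, ae_restrict_iff' (MeasurableSet.univ_pi fun _ => measurableSet_Ioc), ae_iff] at hbox
  refine measure_mono_null ?_ hbox
  rintro t ⟨ht1, ht2⟩
  simp only [Set.mem_ofPred_eq] at ht2 ⊢
  intro h3
  refine ht2 fun _ _ => ?_
  exact ⟨δ, hδ0, hδ1, h3 (fun i _ => ⟨(ht1 i (Set.mem_univ i)).1, (ht1 i (Set.mem_univ i)).2.le⟩)
    fun i => ⟨(ht1 i (Set.mem_univ i)).1, (ht1 i (Set.mem_univ i)).2.le⟩⟩

end Pool.Agent.Q43.MW
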