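import Mathlib
import Pool.Agent.Q43.MW.Fm3

set_option autoImplicit false

/-!
# Integer parts: means over the coefficients
-/

namespace Pool.Agent.Q43.MW

open MeasureTheory Complex Finset Filter

/-- the sum of one variable, for any function -/
lemma TI_gen (X : Finset ℕ) (v : ℕ → ℝ) (t : ℝ) {α : ℝ} (hα : |α| ≤ 1 / 2) :
    ‖∑ x ∈ X, Th α (t * v x)‖ ^ 2 ≤ Kq * ∑' h : ℤ, qh h * ‖S1 X v (t * (α + h))‖ ^ 2 := by
  have hs : HasSum (fun h : ℤ => ∑ x ∈ X, cf α h * ee ((α + h) * (t * v x))) (∑ x ∈ X, Th α (t * v x)) :=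
    hasSum_sum fun x _ => Th_series hα _
  have e1 : ∀ h : ℤ, ∑ x ∈ X, cf α h * ee ((α + h) * (t * v x)) = cf α h * S1 X v (t * (α + h)) := by
    intro h
    unfold S1
    rw [mul_sum]
    refine sum_congr rfl fun x _ => ?_
    congr 2
    ring
  simp only [e1] at hs
  have hSN : ∀ h : ℤ, ‖S1 X v (t * (α + h))‖ ≤ X.card := by
    intro h
    unfold S1
    refine (norm_sum_le _ _).trans ?_
    simp [norm_ee]
  have hsum : Summable fun h : ℤ => qh h * ‖S1 X v (t * (α + h))‖ := Summable.of_nonneg_of_le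
    (fun h => mul_nonneg (qh_pos h).le (norm_nonneg _)) (fun h => mul_le_mul_of_nonneg_left (hSN h) (qh_pos h).le)
    (qh_summable.mul_right _)
  have hn : ‖∑ x ∈ X, Th α (t * v x)‖ ≤ ∑' h : ℤ, qh h * ‖S1 X v (t * (α + h))‖ := by
    rw [← hs.tsum_eq]
    refine tsum_of_norm_bounded hsum.hasSum fun h => ?_
    rw [norm_mul]
    exact mul_le_mul_of_nonneg_right (cf_bound hα h) (norm_nonneg _)
  exact (pow_le_pow_left₀ (norm_nonneg _) hn 2).trans (cs_q (fun h => norm_nonneg _) hSN)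

lemma ms_TIc {X : Finset ℕ} {v : ℕ → ℝ} {a b B : ℝ} (hab : a ≤ b) {α : ℝ} (hα : |α| ≤ 1 / 2) (hB : 0 ≤ B)
    (hb : ∀ h : ℤ, ∫ t in a..b, ‖S1 X v (t * (α + h))‖ ^ 2 ≤ B) :
    ∫ t in a..b, ‖∑ x ∈ X, Th α (t * v x)‖ ^ 2 ≤ Kq ^ 2 * B := by
  rw [intervalIntegral.integral_of_le hab]
  have hcS : ∀ h : ℤ, Continuous fun t : ℝ => qh h * ‖S1 X v (t * (α + h))‖ ^ 2 := by
    intro h
    unfold S1
    fun_prop
  have hSN : ∀ (h : ℤ) (t : ℝ), ‖S1 X v (t * (α + h))‖ ≤ X.card := by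
    intro h t
    unfold S1
    refine (norm_sum_le _ _).trans ?_
    simp [norm_ee]
  have hFi : ∀ h : ℤ, Integrable (fun t : ℝ => qh h * ‖S1 X v (t * (α + h))‖ ^ 2)
      (volume.restrict (Set.Ioc a b)) := fun h =>
    ((hcS h).continuousOn.integrableOn_compact isCompact_Icc).mono_set Set.Ioc_subset_Icc_self
  have hb' : ∀ h : ℤ, ∫ t in Set.Ioc a b, qh h * ‖S1 X v (t * (α + h))‖ ^ 2 ≤ qh h * B := by
    intro h
    rw [integral_const_mul]
    have := hb h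
    rw [intervalIntegral.integral_of_le hab] at this
    exact mul_le_mul_of_nonneg_left this (qh_pos h).le
  have hFs : Summable fun h : ℤ => ∫ t in Set.Ioc a b, ‖qh h * ‖S1 X v (t * (α + h))‖ ^ 2‖ := by
    refine Summable.of_nonneg_of_le (fun h => integral_nonneg fun _ => norm_nonneg _) (fun h => ?_)
      (qh_summable.mul_right B)
    refine le_trans (le_of_eq ?_) (hb' h)
    congr 1
    ext t
    rw [Real.norm_of_nonneg (mul_nonneg (qh_pos h).le (by positivity))]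
  have hts := integral_tsum_of_summable_integral_norm hFi hFs
  have hint : Integrable (fun t : ℝ => ∑' h : ℤ, qh h * ‖S1 X v (t * (α + h))‖ ^ 2)
      (volume.restrict (Set.Ioc a b)) := by
    have hc : Continuous fun t : ℝ => ∑' h : ℤ, qh h * ‖S1 X v (t * (α + h))‖ ^ 2 := by
      refine continuous_tsum (u := fun h => qh h * (X.card : ℝ) ^ 2) hcS (qh_summable.mul_right _) fun h t => ?_
      rw [Real.norm_of_nonneg (mul_nonneg (qh_pos h).le (by positivity))]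
      exact mul_le_mul_of_nonneg_left (pow_le_pow_left₀ (norm_nonneg _) (hSN h t) 2) (qh_pos h).le
    exact (hc.continuousOn.integrableOn_compact isCompact_Icc).mono_set Set.Ioc_subset_Icc_self
  have hcT : Continuous fun t : ℝ => ‖∑ x ∈ X, Th α (t * v x)‖ ^ 2 := by
    refine Continuous.pow (Continuous.norm ?_) 2
    exact continuous_finsetSum _ fun x _ => Th_cont' continuous_const (by fun_prop)
  have hiT : Integrable (fun t : ℝ => ‖∑ x ∈ X, Th α (t * v x)‖ ^ 2) (volume.restrict (Set.Ioc a b)) :=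
    (hcT.continuousOn.integrableOn_compact isCompact_Icc).mono_set Set.Ioc_subset_Icc_self
  have hK := Kq_one
  calc ∫ t in Set.Ioc a b, ‖∑ x ∈ X, Th α (t * v x)‖ ^ 2
      ≤ ∫ t in Set.Ioc a b, Kq * ∑' h : ℤ, qh h * ‖S1 X v (t * (α + h))‖ ^ 2 :=
        integral_mono hiT (hint.const_mul _) fun t => TI_gen X v t hα
    _ = Kq * ∑' h : ℤ, ∫ t in Set.Ioc a b, qh h * ‖S1 X v (t * (α + h))‖ ^ 2 := by
        rw [integral_const_mul, hts]
    _ ≤ Kq * ∑' h : ℤ, qh h * B := by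
        refine mul_le_mul_of_nonneg_left ?_ (by linarith)
        have hsum1 : Summable fun h : ℤ => ∫ t in Set.Ioc a b, qh h * ‖S1 X v (t * (α + h))‖ ^ 2 := by
          refine hFs.congr fun h => ?_
          congr 1
          ext t
          rw [Real.norm_of_nonneg (mul_nonneg (qh_pos h).le (by positivity))]
        exact hsum1.tsum_le_tsum hb' (qh_summable.mul_right B)
    _ = Kq ^ 2 * B := by
        rw [tsum_mul_right]
        change Kq * (Kq * B) = _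
        ring

/-- separation of the powers -/
lemma sep_pe {c P : ℝ} (hc : 1 ≤ c) (hP : 1 ≤ P) {x z : ℕ} (hx : P ≤ x) (hz : P ≤ z) :
    P ^ (c - 1) * |(x : ℝ) - z| ≤ |pe c x - pe c z| := by
  have key : ∀ x z : ℕ, P ≤ z → z ≤ x → P ^ (c - 1) * ((x : ℝ) - z) ≤ pe c x - pe c z := by
    intro x z hz hzx
    have hzr : (0 : ℝ) < z := by linarith
    have hzx' : (z : ℝ) ≤ x := by exact_mod_cast hzx
    have hxr : (0 : ℝ) < x := by linarith
    have hz1 : 1 ≤ z := by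
      have : (1 : ℝ) ≤ z := by linarith
      exact_mod_cast this
    have hx1 : 1 ≤ x := by omega
    rw [pe_eq c hx1, pe_eq c hz1]
    have h8 : P ^ (c - 1) ≤ (z : ℝ) ^ (c - 1) := Real.rpow_le_rpow (by linarith) hz (by linarith)
    have h9 : (z : ℝ) ^ (c - 1) ≤ (x : ℝ) ^ (c - 1) := Real.rpow_le_rpow hzr.le hzx' (by linarith)
    have e1 : (x : ℝ) ^ c = (x : ℝ) ^ (c - 1) * x := by
      rw [← Real.rpow_add_one hxr.ne']
      congr 1
      ring
    have e2 : (z : ℝ) ^ c = (z : ℝ) ^ (c - 1) * z := by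
      rw [← Real.rpow_add_one hzr.ne']
      congr 1
      ring
    rw [e1, e2]
    have h10 : P ^ (c - 1) * (x - z) ≤ (z : ℝ) ^ (c - 1) * (x - z) :=
      mul_le_mul_of_nonneg_right h8 (by linarith)
    have h11 : (z : ℝ) ^ (c - 1) * x ≤ (x : ℝ) ^ (c - 1) * x := by gcongr
    linarith
  rcases le_total x z with h | h
  · have h1 := key z x hx h
    have h2 : (x : ℝ) ≤ z := by exact_mod_cast h
    have h3 : 0 ≤ pe c z - pe c x := by
      have : 0 ≤ P ^ (c - 1) * ((z : ℝ) - x) := mul_nonneg (Real.rpow_nonneg (by linarith) _) (by linarith)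
      linarith
    rw [abs_sub_comm, abs_sub_comm (pe c x), abs_of_nonneg (by linarith), abs_of_nonneg h3]
    exact h1
  · have h1 := key x z hz h
    have h2 : (z : ℝ) ≤ x := by exact_mod_cast h
    have h3 : 0 ≤ pe c x - pe c z := by
      have : 0 ≤ P ^ (c - 1) * ((x : ℝ) - z) := mul_nonneg (Real.rpow_nonneg (by linarith) _) (by linarith)
      linarith
    rw [abs_of_nonneg (by linarith), abs_of_nonneg h3]
    exact h1

/-- one factor -/
lemma one_factor_l {c la lb Y : ℝ} (hc : 1 ≤ c) (hab : la ≤ lb) (hY : 2 ≤ Y) {α : ℝ} (hα : 1 ≤ |α| * Y)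
    (hα2 : |α| ≤ 1 / 2) :
    ∫ t in la..lb, ‖∑ x ∈ Xe c c Y, Th α (t * pe c x)‖ ^ 2 ≤
      (Kq ^ 2 * (27 * (lb - la + 1)) * (4 + Real.log Y)) * (Y ^ c⁻¹ * |α| ^ (-c⁻¹)) := by
  have hY0 : 0 < Y := by linarith
  have hY1 : 1 ≤ Y := by linarith
  have hlogY := Real.log_nonneg hY1
  have hc0 : 0 < c := by linarith
  have hci : 0 < c⁻¹ := inv_pos.2 hc0
  have hci1 : c⁻¹ ≤ 1 := inv_le_one_of_one_le₀ hc
  have hα0 : 0 < |α| := by
    by_contra h
    push Not at h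
    nlinarith [abs_nonneg α]
  set m : ℝ := |α| ^ (-c⁻¹) with hm
  have hm1 : 1 ≤ m := by
    rw [hm, Real.rpow_neg hα0.le, one_le_inv₀ (Real.rpow_pos_of_pos hα0 _)]
    exact Real.rpow_le_one hα0.le (by linarith) hci.le
  obtain ⟨f1, f2, f3, f4⟩ := Xe_facts (b := c) hc hY1
  have hN1 : (1 : ℝ) ≤ Ne c Y := by exact_mod_cast f2
  have hlN := Real.log_nonneg hN1
  have hP1 : 1 ≤ Y ^ c⁻¹ := Real.one_le_rpow hY1 hci.le
  have hYc : 0 < Y ^ c⁻¹ := by linarith
  have hlba : 0 ≤ lb - la := by linarith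
  -- a frequency
  have gen : ∀ β : ℝ, 1 ≤ |β| * Y → |β| ^ (-c⁻¹) ≤ 2 * m →
      ∫ t in la..lb, ‖S1 (Xe c c Y) (pe c) (t * β)‖ ^ 2 ≤ 27 * (lb - la + 1) * (4 + Real.log Y) * (Y ^ c⁻¹ * m) := by
    intro β hβ hβm
    have hβ0 : 0 < |β| := by
      by_contra h
      push Not at h
      nlinarith [abs_nonneg β]
    have hD0 : 0 < (Y ^ c⁻¹) ^ (c - 1) := Real.rpow_pos_of_pos hYc _
    have h := ms (X := Xe c c Y) f1 f2 (v := pe c) hD0
      (fun x hx z hz => sep_pe hc hP1 (mem_Xe.1 hx).1 (mem_Xe.1 hz).1) hab (abs_pos.1 hβ0)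
    refine h.trans ?_
    have e1 : (Y ^ c⁻¹) ^ (c - 1) = Y ^ (1 - c⁻¹) := by
      rw [← Real.rpow_mul hY0.le]
      congr 1
      field_simp
    have e2 : 1 / (|β| * (Y ^ c⁻¹) ^ (c - 1)) ≤ 2 * m := by
      refine le_trans ?_ hβm
      rw [e1]
      have h1 : 1 / (|β| * Y ^ (1 - c⁻¹)) = Y ^ c⁻¹ / (|β| * Y) := by
        rw [Real.rpow_sub hY0, Real.rpow_one]
        field_simp
      rw [h1]
      have hM : 0 < |β| * Y := by linarith
      have h3 : (|β| * Y) ^ c⁻¹ ≤ |β| * Y := by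
        calc (|β| * Y) ^ c⁻¹ ≤ (|β| * Y) ^ (1 : ℝ) := Real.rpow_le_rpow_of_exponent_le hβ hci1
          _ = _ := Real.rpow_one _
      rw [div_le_iff₀ hM]
      have h4 : 0 < |β| ^ (-c⁻¹) := Real.rpow_pos_of_pos hβ0 _
      calc Y ^ c⁻¹ = |β| ^ (-c⁻¹) * (|β| * Y) ^ c⁻¹ := by
            rw [Real.mul_rpow hβ0.le hY0.le, Real.rpow_neg hβ0.le]
            have := Real.rpow_pos_of_pos hβ0 c⁻¹
            field_simp
        _ ≤ |β| ^ (-c⁻¹) * (|β| * Y) := by gcongr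
    have e3 : 1 + 1 / (|β| * (Y ^ c⁻¹) ^ (c - 1)) ≤ 3 * m := by linarith
    have e4 : 1 + Real.log (Ne c Y) ≤ 4 + Real.log Y := by linarith
    have e5 : 0 ≤ 1 + 1 / (|β| * (Y ^ c⁻¹) ^ (c - 1)) := by positivity
    calc (lb - la + 1) * (Ne c Y : ℝ) * (1 + Real.log (Ne c Y)) * (1 + 1 / (|β| * (Y ^ c⁻¹) ^ (c - 1)))
        ≤ (lb - la + 1) * (9 * Y ^ c⁻¹) * (4 + Real.log Y) * (3 * m) := by gcongr
      _ = _ := by ring
  have hB0 : 0 ≤ 27 * (lb - la + 1) * (4 + Real.log Y) * (Y ^ c⁻¹ * m) := by positivity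
  have h := ms_TIc (X := Xe c c Y) (v := pe c) hab hα2 hB0 fun h => by
    by_cases h0 : h = 0
    · subst h0
      rw [Int.cast_zero, add_zero]
      exact gen α hα (by linarith)
    · have hh : (1 : ℝ) ≤ |(h : ℝ)| := by
        have : (1 : ℤ) ≤ |h| := Int.one_le_abs h0
        exact_mod_cast this
      have h1 : 1 / 2 ≤ |α + h| := by
        have h2 : |(h : ℝ)| ≤ |α + h| + |α| := by
          have : (h : ℝ) = (α + h) - α := by ring
          rw [this]
          refine (abs_sub _ _).trans ?_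
          rw [← this]
        linarith
      refine gen (α + h) (by nlinarith) ?_
      have h5 : 0 < |α + h| := by linarith
      have h6 : |α + h| ^ (-c⁻¹) ≤ 2 := by
        calc |α + h| ^ (-c⁻¹) ≤ (1 / 2 : ℝ) ^ (-c⁻¹) :=
              Real.rpow_le_rpow_of_nonpos (by norm_num) h1 (by linarith)
          _ = 2 ^ c⁻¹ := by
              rw [Real.rpow_neg (by norm_num), one_div, Real.inv_rpow (by norm_num), inv_inv]
          _ ≤ 2 ^ (1 : ℝ) := Real.rpow_le_rpow_of_exponent_le (by norm_num) hci1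
          _ = 2 := Real.rpow_one 2
      linarith
  refine h.trans (le_of_eq ?_)
  ring

variable {s : ℕ}

lemma TT_fl_cont (X : Fin s → Finset ℕ) (c : Fin s → ℝ) :
    Continuous fun q : (Fin s → ℝ) × ℝ => TT X (fe q.1 c) q.2 := by
  have h : ∀ i, Continuous fun q : (Fin s → ℝ) × ℝ => ∑ x ∈ X i, Th q.2 (fe q.1 c i x) := fun i =>
    continuous_finsetSum _ fun x _ => Th_cont' continuous_snd (by unfold fe pe; fun_prop)
  have h2 := continuous_finsetProd (s := (univ : Finset (Fin s)))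
    (f := fun i (q : (Fin s → ℝ) × ℝ) => ∑ x ∈ X i, Th q.2 (fe q.1 c i x)) fun i _ => h i
  exact h2

lemma mean_TL (X : Fin s → Finset ℕ) (c : Fin s → ℝ) {la lb : ℝ} (hab : la ≤ lb) (α : ℝ) :
    ∫ l, ‖TT X (fe l c) α‖ ^ 2 ∂(bxe (fun _ : Fin s => la) (fun _ => lb)) =
      ∏ i, ∫ t in la..lb, ‖∑ x ∈ X i, Th α (t * pe (c i) x)‖ ^ 2 := by
  have e : ∀ l : Fin s → ℝ, ‖TT X (fe l c) α‖ ^ 2 = ∏ i, ‖∑ x ∈ X i, Th α (l i * pe (c i) x)‖ ^ 2 := by
    intro l
    unfold TT fe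
    rw [norm_prod, prod_pow]
  simp only [e]
  unfold bxe
  rw [integral_fintype_prod_eq_prod (fun i (t : ℝ) => ‖∑ x ∈ X i, Th α (t * pe (c i) x)‖ ^ 2)]
  refine prod_congr rfl fun i _ => ?_
  rw [intervalIntegral.integral_of_le hab]

/-- the constant -/
noncomputable def KL (s : ℕ) (la lb : ℝ) : ℝ := (Kq ^ 2 * (27 * (lb - la + 1))) ^ s

lemma KL_one {la lb : ℝ} (hab : la ≤ lb) : 1 ≤ KL s la lb := by
  unfold KL
  have h1 := Kq_one
  refine one_le_pow₀ (one_le_mul_of_one_le_of_one_le (one_le_pow₀ h1) ?_)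
  linarith

lemma phi_TL {c : Fin s → ℝ} {la lb Y : ℝ} (hc : ∀ i, 1 ≤ c i) (hab : la ≤ lb) (hY : 2 ≤ Y) {α : ℝ}
    (hα : 1 ≤ |α| * Y) (hα2 : |α| ≤ 1 / 2) :
    ∫ l, ‖TT (XE c c Y) (fe l c) α‖ ^ 2 ∂(bxe (fun _ : Fin s => la) (fun _ => lb)) ≤
      (KL s la lb * (4 + Real.log Y) ^ s) * Y ^ sg c * |α| ^ (-sg c) := by
  have hY0 : 0 < Y := by linarith
  have ha0 : 0 < |α| := by
    by_contra h
    push Not at h
    nlinarith [abs_nonneg α]
  rw [mean_TL _ _ hab]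
  have h1 : ∏ i, ∫ t in la..lb, ‖∑ x ∈ XE c c Y i, Th α (t * pe (c i) x)‖ ^ 2 ≤
      ∏ i, ((Kq ^ 2 * (27 * (lb - la + 1)) * (4 + Real.log Y)) * (Y ^ (c i)⁻¹ * |α| ^ (-(c i)⁻¹))) :=
    prod_le_prod (fun i _ => intervalIntegral.integral_nonneg hab fun t _ => by positivity)
      fun i _ => one_factor_l (hc i) hab hY hα hα2
  refine h1.trans (le_of_eq ?_)
  rw [prod_mul_distrib (f := fun _ => Kq ^ 2 * (27 * (lb - la + 1)) * (4 + Real.log Y)),
    prod_mul_distrib (f := fun i => Y ^ (c i)⁻¹), ← Real.rpow_sum_of_pos hY0, ← Real.rpow_sum_of_pos ha0,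
    sum_neg_distrib, prod_const, card_univ, Fintype.card_fin, mul_pow]
  unfold KL sg
  ring

end Pool.Agent.Q43.MW
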