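import Mathlib
import Pool.Agent.Q43.MW.Gl1

set_option autoImplicit false

/-!
# Integer parts, for almost all coefficients
-/

namespace Pool.Agent.Q43.MW

open MeasureTheory Complex Finset Filter

variable {n : ℕ}

/-- the middle frequencies are small for almost all coefficients -/
lemma bc_TL {e : Fin (n + 1) → ℝ} {la lb c h C : ℝ} (he : ∀ i, 1 ≤ e i) (hab : la ≤ lb)
    (hc : 0 < c) (hσ : 1 + c ≤ sg e / 2) (hh : 0 < h) (hh1 : h < 1) (hC : 0 < C) :
    ∀ᵐ l ∂(bxe (fun _ : Fin (n + 1) => la) (fun _ => lb)), ∀ᶠ j in atTop,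
      (∫ α in {α : ℝ | Yj j ^ (h - 1) < |α| ∧ |α| ≤ 1 / 2}, ‖TT (XE e e (Yj j)) (fe l e) α‖) <
        C * Yj j ^ (sg e - 1) := by
  set κ : ℝ := h * c / 2 with hκ
  have hκ0 : 0 < κ := by positivity
  set ν := bxe (fun _ : Fin (n + 1) => la) (fun _ => lb) with hν
  set W := ν.real Set.univ + 1 with hW
  have hW0 : 0 ≤ W := by
    have : 0 ≤ ν.real Set.univ := measureReal_nonneg
    linarith
  have hK := KL_one (s := n + 1) hab
  set V : ℝ := W * KL (n + 1) la lb * 2 / C with hV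
  have hgen : ∀ᶠ Y : ℝ in atTop,
      Integrable (fun l => ∫ α in {α : ℝ | Y ^ (h - 1) < |α| ∧ |α| ≤ 1 / 2}, ‖TT (XE e e Y) (fe l e) α‖) ν ∧
      ∫ l, (∫ α in {α : ℝ | Y ^ (h - 1) < |α| ∧ |α| ≤ 1 / 2}, ‖TT (XE e e Y) (fe l e) α‖) ∂ν ≤
        C * Y ^ (sg e - 1) * Y ^ (-κ) := by
    filter_upwards [log_pow_le V (n + 2) hκ0, eventually_ge_atTop 2, const_le 2 (κ := 1 - h) (by linarith)]
      with Y h4 h5 h7
    have hY0 : 0 < Y := by linarith
    have hY1 : 1 ≤ Y := by linarith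
    have hlogY := Real.log_nonneg hY1
    have hα0 : 0 < Y ^ (h - 1) := Real.rpow_pos_of_pos hY0 _
    have h12 : Y ^ (h - 1) ≤ 1 / 2 := by
      rw [show h - 1 = -(1 - h) by ring, Real.rpow_neg hY0.le, one_div]
      exact inv_anti₀ (by norm_num) h7
    have hMe : Y ^ (h - 1) * Y = Y ^ h := by
      rw [← Real.rpow_add_one hY0.ne']
      congr 1
      ring
    have hY1h : 1 ≤ Y ^ h := Real.one_le_rpow hY1 hh.le
    have hYs : 0 < Y ^ sg e := Real.rpow_pos_of_pos hY0 _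
    set K : ℝ := KL (n + 1) la lb * (4 + Real.log Y) ^ (n + 1) with hKK
    have hK1 : 1 ≤ K := one_le_mul_of_one_le_of_one_le hK (one_le_pow₀ (by linarith))
    have hg := gen_A1 (ν := ν) (G := fun q => TT (XE e e Y) (fe q.1 e) q.2) (TT_fl_cont _ e)
      (N := NN (XE e e Y)) (fun q => TT_norm _ _ q.2) hα0 h12 hY0
      (by positivity : 0 < K) hYs hc.le
      (fun α g1 g2 => by
        have hα1 : 1 ≤ |α| * Y := by
          calc (1 : ℝ) ≤ Y ^ (h - 1) * Y := by rw [hMe]; exact hY1h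
            _ ≤ |α| * Y := by gcongr
        refine (phi_TL he hab h5 hα1 g2).trans ?_
        have ha0 : 0 < |α| := hα0.trans g1
        have hM : 0 < |α| * Y := by linarith
        have e3 : ((|α| * Y) ^ (-1 - c)) ^ 2 = (|α| * Y) ^ (-(2 + 2 * c)) := by
          rw [← Real.rpow_natCast, ← Real.rpow_mul hM.le]
          congr 1
          push_cast
          ring
        have h8 : |α| ^ (-sg e) = Y ^ sg e * (|α| * Y) ^ (-sg e) := by
          rw [Real.mul_rpow ha0.le hY0.le, Real.rpow_neg hY0.le]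
          field_simp
        have h9 : (|α| * Y) ^ (-sg e) ≤ (|α| * Y) ^ (-(2 + 2 * c)) :=
          Real.rpow_le_rpow_of_exponent_le hα1 (by linarith)
        rw [mul_pow, mul_pow, e3, h8]
        have h10 : 0 < (|α| * Y) ^ (-(2 + 2 * c)) := Real.rpow_pos_of_pos hM _
        calc K * Y ^ sg e * (Y ^ sg e * (|α| * Y) ^ (-sg e))
            ≤ K * Y ^ sg e * (Y ^ sg e * (|α| * Y) ^ (-(2 + 2 * c))) := by gcongr
          _ = K * 1 * (Y ^ sg e) ^ 2 * (|α| * Y) ^ (-(2 + 2 * c)) := by ring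
          _ ≤ K * K * (Y ^ sg e) ^ 2 * (|α| * Y) ^ (-(2 + 2 * c)) := by gcongr
          _ = _ := by ring)
    refine ⟨hg.1, hg.2.trans ?_⟩
    have hlog : Real.log (1 / 2 / Y ^ (h - 1)) ≤ 4 + Real.log Y := by
      have e1 : Real.log (1 / 2 / Y ^ (h - 1)) ≤ Real.log (1 / Y ^ (h - 1)) :=
        Real.log_le_log (by positivity) (by gcongr; norm_num)
      refine e1.trans ?_
      rw [one_div, ← Real.rpow_neg hY0.le, Real.log_rpow hY0]
      nlinarith
    have hlog0 : 0 ≤ Real.log (1 / 2 / Y ^ (h - 1)) := Real.log_nonneg ((one_le_div hα0).2 h12)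
    rw [hMe, ← Real.rpow_mul hY0.le, ← hW]
    have hp2 : 0 < Y ^ (h * -c) := Real.rpow_pos_of_pos hY0 _
    calc W * K * Y ^ sg e / Y * Y ^ (h * -c) * (2 * Real.log (1 / 2 / Y ^ (h - 1)))
        ≤ W * K * Y ^ sg e / Y * Y ^ (h * -c) * (2 * (4 + Real.log Y)) := by gcongr
      _ = C * (Y ^ sg e / Y * Y ^ (h * -c)) * (V * (4 + Real.log Y) ^ (n + 2)) := by
          rw [hV, hKK]
          field_simp
          ring
      _ ≤ C * (Y ^ sg e / Y * Y ^ (h * -c)) * Y ^ κ := by gcongr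
      _ = C * Y ^ (sg e - 1) * Y ^ (-κ) := by
          rw [← Real.rpow_sub_one hY0.ne', ← Real.rpow_add hY0, mul_assoc, mul_assoc, ← Real.rpow_add hY0,
            ← Real.rpow_add hY0]
          congr 2
          rw [hκ]
          ring
  obtain ⟨j₀, hj₀⟩ := eventually_atTop.1 (Yj_tendsto.eventually hgen)
  have hbc := bc (μ := ν)
    (f := fun j l => if j₀ ≤ j then ∫ α in {α : ℝ | Yj j ^ (h - 1) < |α| ∧ |α| ≤ 1 / 2},
      ‖TT (XE e e (Yj j)) (fe l e) α‖ else 0)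
    (E := fun j => C * Yj j ^ (sg e - 1) * Yj j ^ (-κ)) (θ := fun j => C * Yj j ^ (sg e - 1)) (j₀ := j₀)
    (fun j => by
      by_cases hj : j₀ ≤ j
      · simp only [hj, if_true]
        exact (hj₀ j hj).1
      · simp only [hj, if_false]
        exact integrable_const 0)
    (fun j t => by
      by_cases hj : j₀ ≤ j
      · simp only [hj, if_true]
        exact integral_nonneg fun _ => norm_nonneg _
      · simp only [hj, if_false]
        exact le_rfl) (fun j hj => by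
        simp only [hj, if_true]
        exact (hj₀ j hj).2)
    (fun j => mul_pos hC (Real.rpow_pos_of_pos (Yj_pos j) _)) (by
      refine (Yj_summable hκ0).congr fun j => ?_
      have := Real.rpow_pos_of_pos (Yj_pos j) (sg e - 1)
      rw [mul_div_cancel_left₀ _ (by positivity)])
  filter_upwards [hbc] with t ht
  filter_upwards [ht, eventually_ge_atTop j₀] with j h1 h2
  simpa only [h2, if_true] using h1

/-! ### Good integers -/

lemma Wsum_cont_l (c Y : ℝ) : Continuous fun l : ℝ => Wsum c c l Y c := by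
  unfold Wsum S1
  fun_prop

lemma Wsum_mean_l {c la lb Y : ℝ} (hc : 1 ≤ c) (hab : la ≤ lb) (hY : 1 ≤ Y) :
    ∫ l in la..lb, Wsum c c l Y c ≤ 16 * (lb - la + 1) * (4 + Real.log Y) * Y ^ c⁻¹ := by
  have hY0 : 0 < Y := by linarith
  obtain ⟨m1, m2, m3⟩ := Mm_facts hc hY
  have hM1 : (1 : ℝ) ≤ Mm c Y := by exact_mod_cast m1
  have hlogM0 := Real.log_nonneg hM1
  have hlogY := Real.log_nonneg hY
  have hlogM : Real.log (Mm c Y) ≤ Real.log Y := by
    refine Real.log_le_log (by linarith) (m2.trans ?_)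
    have hb0 : c⁻¹ ≤ 1 := inv_le_one_of_one_le₀ hc
    calc Y ^ (3 / 4 * c⁻¹) ≤ Y ^ (1 : ℝ) := Real.rpow_le_rpow_of_exponent_le hY (by linarith)
      _ = Y := Real.rpow_one Y
  have hba : 0 ≤ lb - la := by linarith
  have h1 : ∀ g ∈ Ico 2 ⌊8 * Y ^ c⁻¹ / Mm c Y⌋₊,
      ∫ l in la..lb, ‖S1 (Ioc (g * Mm c Y) ((g + 1) * Mm c Y)) (pe c) l‖ ^ 2 ≤
        (lb - la + 1) * Mm c Y * (4 + Real.log Y) * 2 := by
    intro g hg
    rw [mem_Ico] at hg
    have h2 := ms (X := Ioc (g * Mm c Y) ((g + 1) * Mm c Y)) (u := g * Mm c Y + 1) (N := Mm c Y)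
      (by
        intro x hx
        rw [mem_Ioc] at hx
        rw [mem_Ico]
        constructor
        · omega
        · have : (g + 1) * Mm c Y = g * Mm c Y + Mm c Y := by ring
          omega) m1 (v := pe c) (D := 1) one_pos (by
        intro x hx z hz
        rw [mem_Ioc] at hx hz
        have h3 : 2 * 1 ≤ g * Mm c Y := Nat.mul_le_mul hg.1 m1
        have h4 : (1 : ℝ) ≤ x := by exact_mod_cast (by omega : 1 ≤ x)
        have h5 : (1 : ℝ) ≤ z := by exact_mod_cast (by omega : 1 ≤ z)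
        have h6 := sep_pe hc (P := 1) le_rfl h4 h5
        rwa [Real.one_rpow] at h6) hab (α := 1) one_ne_zero
    simp only [mul_one] at h2
    refine h2.trans ?_
    have h7 : 1 + Real.log (Mm c Y) ≤ 4 + Real.log Y := by linarith
    have h8 : (1 : ℝ) + 1 / |(1 : ℝ)| = 2 := by norm_num
    rw [h8]
    gcongr
  unfold Wsum
  rw [intervalIntegral.integral_finsetSum]
  · refine (sum_le_sum h1).trans ?_
    rw [sum_const, nsmul_eq_mul, Nat.card_Ico]
    have h9 : ((⌊8 * Y ^ c⁻¹ / Mm c Y⌋₊ - 2 : ℕ) : ℝ) ≤ 8 * Y ^ c⁻¹ / Mm c Y := by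
      have h10 : ((⌊8 * Y ^ c⁻¹ / Mm c Y⌋₊ - 2 : ℕ) : ℝ) ≤ (⌊8 * Y ^ c⁻¹ / Mm c Y⌋₊ : ℝ) := by
        exact_mod_cast Nat.sub_le _ _
      exact h10.trans (Nat.floor_le (by positivity))
    calc ((⌊8 * Y ^ c⁻¹ / Mm c Y⌋₊ - 2 : ℕ) : ℝ) * ((lb - la + 1) * Mm c Y * (4 + Real.log Y) * 2)
        ≤ (8 * Y ^ c⁻¹ / Mm c Y) * ((lb - la + 1) * Mm c Y * (4 + Real.log Y) * 2) := by gcongr
      _ = _ := by
          field_simp
          ring
  · intro g _
    exact (by unfold S1; fun_prop : Continuous fun l : ℝ =>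
      ‖S1 (Ioc (g * Mm c Y) ((g + 1) * Mm c Y)) (pe c) l‖ ^ 2).intervalIntegrable _ _

/-- **The good integers, for almost every coefficient.** -/
lemma good_ae_l {c la lb : ℝ} (hc : 1 ≤ c) (hab : la ≤ lb) :
    ∀ᵐ l ∂((volume : Measure ℝ).restrict (Set.Ioc la lb)), ∀ᶠ j in atTop, GoodE c c l c (Yj j) := by
  have hci : 0 < c⁻¹ := inv_pos.2 (by linarith)
  set κ : ℝ := c⁻¹ / 4 with hκ
  have hκ0 : 0 < κ := by positivity
  have hev : ∀ᶠ Y : ℝ in atTop, 1 ≤ Y ∧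
      ∫ l in Set.Ioc la lb, Wsum c c l Y c ≤ Y ^ (3 / 2 * c⁻¹) / 16 * Y ^ (-κ) := by
    filter_upwards [log_pow_le (16 * (16 * (lb - la + 1))) 1 hκ0, eventually_ge_atTop 1] with Y h1 h2
    refine ⟨h2, ?_⟩
    have hY0 : 0 < Y := by linarith
    rw [← intervalIntegral.integral_of_le hab]
    refine (Wsum_mean_l hc hab h2).trans ?_
    rw [pow_one] at h1
    have h3 : 16 * (lb - la + 1) * (4 + Real.log Y) ≤ Y ^ κ / 16 := by linarith
    have h4 : 0 < Y ^ c⁻¹ := Real.rpow_pos_of_pos hY0 _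
    calc 16 * (lb - la + 1) * (4 + Real.log Y) * Y ^ c⁻¹ ≤ Y ^ κ / 16 * Y ^ c⁻¹ := by gcongr
      _ = 1 / 16 * (Y ^ κ * Y ^ c⁻¹) := by ring
      _ = 1 / 16 * (Y ^ (3 / 2 * c⁻¹) * Y ^ (-κ)) := by
          rw [← Real.rpow_add hY0, ← Real.rpow_add hY0]
          congr 2
          rw [hκ]
          ring
      _ = _ := by ring
  obtain ⟨j₀, hj₀⟩ := eventually_atTop.1 (Yj_tendsto.eventually hev)
  have hbc := bc (μ := (volume : Measure ℝ).restrict (Set.Ioc la lb)) (f := fun j l => Wsum c c l (Yj j) c)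
    (E := fun j => Yj j ^ (3 / 2 * c⁻¹) / 16 * Yj j ^ (-κ)) (θ := fun j => Yj j ^ (3 / 2 * c⁻¹) / 16) (j₀ := j₀)
    (fun j => ((Wsum_cont_l c (Yj j)).continuousOn.integrableOn_compact isCompact_Icc).mono_set
      Set.Ioc_subset_Icc_self)
    (fun j l => by
      unfold Wsum
      exact sum_nonneg fun _ _ => by positivity)
    (fun j hj => (hj₀ j hj).2)
    (fun j => by have := Real.rpow_pos_of_pos (Yj_pos j) (3 / 2 * c⁻¹); positivity) (by
      refine (Yj_summable hκ0).congr fun j => ?_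
      have := Real.rpow_pos_of_pos (Yj_pos j) (3 / 2 * c⁻¹)
      rw [mul_div_cancel_left₀ _ (by positivity)])
  filter_upwards [hbc] with l hl
  filter_upwards [hl, eventually_ge_atTop j₀] with j h1 h2
  exact GoodE_of hc (hj₀ j h2).1 h1

/-- **A cube of coefficients.** -/
lemma box_TL {e : Fin (n + 1) → ℝ} (he : ∀ i, 1 ≤ e i) (hσ : 2 < sg e) {la lb : ℝ} (hla : 0 < la)
    (hlab : la ≤ lb) (hlb1 : 1 ≤ lb) :
    ∀ᵐ l ∂(bxe (fun _ : Fin (n + 1) => la) (fun _ => lb)), (∀ i, la < l i ∧ l i ≤ lb) →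
      ∃ N₀ : ℝ, ∀ m : ℤ, N₀ ≤ m → RepF l e m := by
  have he0 : 0 < e 0 := by linarith [he 0]
  have hei : 0 < (e 0)⁻¹ := inv_pos.2 he0
  have hei1 : (e 0)⁻¹ ≤ 1 := inv_le_one_of_one_le₀ (he 0)
  set h : ℝ := (e 0)⁻¹ / 12 with hh
  have hh0 : 0 < h := by positivity
  have hh1 : h < 1 := by linarith
  set c : ℝ := sg e / 2 - 1 with hc
  have hc0 : 0 < c := by rw [hc]; linarith
  have hcG := cG_pos he hla (by linarith : 0 < lb)
  have hbc := bc_TL (h := h) he hlab hc0 (by rw [hc]; linarith) hh0 hh1 (by positivity : 0 < cG e la lb / 8)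
  have hgood : ∀ᵐ l ∂(bxe (fun _ : Fin (n + 1) => la) (fun _ => lb)),
      ∀ i, ∀ᶠ j in atTop, GoodE (e i) (e i) (l i) (e i) (Yj j) := by
    rw [ae_all_iff]
    intro i
    have h1 := good_ae_l (he i) hlab
    unfold bxe
    exact (Measure.quasiMeasurePreserving_eval
      (fun _ : Fin (n + 1) => (volume : Measure ℝ).restrict (Set.Ioc la lb)) i).ae h1
  filter_upwards [hbc, hgood] with l ht htg hl
  have hdet := det_TT (h := h) he (fun i => le_rfl) hla hlab hlb1 hl hh1 (by rw [hh]; linarith)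
  have hLpos : 0 < ∑ i, l i := sum_pos (fun i _ => hla.trans (hl i).1) univ_nonempty
  obtain ⟨J, hJ⟩ := eventually_atTop.1 ((ht.and (eventually_all.2 htg)).and (Yj_tendsto.eventually hdet))
  refine ⟨2 * (∑ i, l i) * Yj (J + 1), fun m hm => ?_⟩
  obtain ⟨j, hj, hy1, hy2⟩ := dyadic hLpos J hm
  obtain ⟨⟨g1, g3⟩, g2⟩ := hJ j hj
  exact g2 e (fun i => ⟨le_rfl, le_rfl⟩) g3 g1 m hy1 hy2

/-- **All large integers, almost all coefficients.** -/
theorem all_TL {e : Fin (n + 1) → ℝ} (he : ∀ i, 1 ≤ e i) (hσ : 2 < sg e) :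
    ∀ᵐ l : Fin (n + 1) → ℝ, (∀ i, 0 < l i) → ∃ N₀ : ℝ, ∀ m : ℤ, N₀ ≤ m → RepF l e m := by
  have h : ∀ᵐ l : Fin (n + 1) → ℝ, ∀ q : ℕ, (∀ i, ((q : ℝ) + 1)⁻¹ < l i ∧ l i ≤ (q : ℝ) + 1) →
      ∃ N₀ : ℝ, ∀ m : ℤ, N₀ ≤ m → RepF l e m := by
    rw [ae_all_iff]
    intro q
    have hq : (0 : ℝ) ≤ q := Nat.cast_nonneg q
    have hq1 : ((q : ℝ) + 1)⁻¹ ≤ 1 := inv_le_one_of_one_le₀ (by linarith)
    have hbox := box_TL he hσ (la := ((q : ℝ) + 1)⁻¹) (lb := (q : ℝ) + 1) (by positivity) (by linarith) (by linarith)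
    rw [bxe_eq, ae_restrict_iff' (MeasurableSet.univ_pi fun _ => measurableSet_Ioc)] at hbox
    filter_upwards [hbox] with l hl h1
    exact hl (fun i _ => ⟨(h1 i).1, (h1 i).2⟩) h1
  filter_upwards [h] with l hl h0
  obtain ⟨q, hq⟩ := exists_nat_ge (∑ i, (l i + (l i)⁻¹))
  refine hl q fun i => ?_
  have hi0 := h0 i
  have hi1 : 0 < (l i)⁻¹ := inv_pos.2 hi0
  have h1 : l i + (l i)⁻¹ ≤ ∑ i, (l i + (l i)⁻¹) := single_le_sum (f := fun i => l i + (l i)⁻¹)
    (fun j _ => by have := h0 j; positivity) (mem_univ i)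
  constructor
  · rw [inv_lt_comm₀ (by linarith [(Nat.cast_nonneg q : (0 : ℝ) ≤ q)]) hi0]
    linarith
  · linarith

end Pool.Agent.Q43.MW
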