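import Mathlib
import Pool.Agent.Q43.MW.Gl2

set_option autoImplicit false

/-!
# Almost all integers, for almost all coefficients
-/

namespace Pool.Agent.Q43.MW

open MeasureTheory Complex Finset Filter

lemma mean2_l {s : ℕ} {e : Fin s → ℝ} {la lb Y α₁ : ℝ} (he : ∀ i, 1 ≤ e i) (hab : la ≤ lb) (hY : 2 ≤ Y)
    (h1 : 0 < α₁) (h12 : α₁ ≤ 1 / 2) (h1Y : 1 ≤ α₁ * Y) (hσ : 1 ≤ sg e) :
    Integrable (fun l => ∫ α in {α : ℝ | α₁ < |α| ∧ |α| ≤ 1 / 2}, ‖TT (XE e e Y) (fe l e) α‖ ^ 2)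
      (bxe (fun _ : Fin s => la) (fun _ => lb)) ∧
    ∫ l, (∫ α in {α : ℝ | α₁ < |α| ∧ |α| ≤ 1 / 2}, ‖TT (XE e e Y) (fe l e) α‖ ^ 2)
        ∂(bxe (fun _ : Fin s => la) (fun _ => lb)) ≤
      (KL s la lb * (4 + Real.log Y) ^ s) * Y ^ sg e * α₁ ^ (-(sg e - 1)) * (2 * Real.log (1 / 2 / α₁)) := by
  have hY0 : 0 < Y := by linarith
  have hlogY := Real.log_nonneg (by linarith : 1 ≤ Y)
  have hfin : IsFiniteMeasure (volume.restrict {α : ℝ | α₁ < |α| ∧ |α| ≤ 1 / 2}) := by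
    refine isFiniteMeasure_restrict.2 (ne_of_lt ?_)
    refine lt_of_le_of_lt (measure_mono (t := Set.Icc (-(1 / 2)) (1 / 2)) ?_) measure_Icc_lt_top
    intro α hα
    exact abs_le.1 hα.2
  set ν := bxe (fun _ : Fin s => la) (fun _ => lb) with hν
  have hNN := NN_nonneg (XE e e Y)
  have hTc := TT_fl_cont (XE e e Y) e
  have hint : Integrable (fun q : (Fin s → ℝ) × ℝ => ‖TT (XE e e Y) (fe q.1 e) q.2‖ ^ 2)
      (ν.prod (volume.restrict {α : ℝ | α₁ < |α| ∧ |α| ≤ 1 / 2})) := by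
    refine (integrable_const (NN (XE e e Y) ^ 2)).mono' (hTc.norm.pow 2).aestronglyMeasurable
      (Filter.Eventually.of_forall fun q => ?_)
    rw [Real.norm_of_nonneg (by positivity)]
    exact pow_le_pow_left₀ (norm_nonneg _) (TT_norm _ _ _) 2
  refine ⟨hint.integral_prod_left, ?_⟩
  rw [integral_integral_swap (f := fun l α => ‖TT (XE e e Y) (fe l e) α‖ ^ 2) hint]
  rw [← (inv_int h1 h12).2, ← integral_const_mul]
  have hm : MeasurableSet {α : ℝ | α₁ < |α| ∧ |α| ≤ 1 / 2} := (meas_high α₁).inter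
    ((isClosed_le continuous_abs continuous_const).measurableSet : MeasurableSet {α : ℝ | |α| ≤ 1 / 2})
  have hint2 : Integrable (fun q : ℝ × (Fin s → ℝ) => ‖TT (XE e e Y) (fe q.2 e) q.1‖ ^ 2)
      ((volume.restrict {α : ℝ | α₁ < |α| ∧ |α| ≤ 1 / 2}).prod ν) := hint.swap
  refine setIntegral_mono_on hint2.integral_prod_left ((inv_int h1 h12).1.const_mul _) hm fun α hα => ?_
  have hα0 : 0 < |α| := h1.trans hα.1
  refine (phi_TL he hab hY (h1Y.trans (by have := hα.1.le; gcongr)) hα.2).trans ?_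
  have hK := KL_one (s := s) hab
  have h2 : |α| ^ (-sg e) ≤ α₁ ^ (-(sg e - 1)) * (1 / |α|) := by
    have e1 : |α| ^ (-sg e) = |α| ^ (-(sg e - 1)) * (1 / |α|) := by
      rw [one_div, ← Real.rpow_neg_one |α|, ← Real.rpow_add hα0]
      congr 1
      ring
    rw [e1]
    refine mul_le_mul_of_nonneg_right ?_ (by positivity)
    exact Real.rpow_le_rpow_of_nonpos h1 hα.1.le (by linarith)
  have h3 : 0 < Y ^ sg e := Real.rpow_pos_of_pos hY0 _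
  calc KL s la lb * (4 + Real.log Y) ^ s * Y ^ sg e * |α| ^ (-sg e) ≤
        KL s la lb * (4 + Real.log Y) ^ s * Y ^ sg e * (α₁ ^ (-(sg e - 1)) * (1 / |α|)) := by gcongr
    _ = _ := by ring

variable {n : ℕ}

/-- the middle frequencies are small in mean square for almost all coefficients -/
lemma bc_TL2 {e : Fin (n + 1) → ℝ} {la lb δ h : ℝ} (he : ∀ i, 1 ≤ e i) (hab : la ≤ lb)
    (hσ : 1 ≤ sg e) (hh : 0 < h) (hh1 : h < 1) (hmid : δ < h * (sg e - 1)) :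
    ∀ᵐ l ∂(bxe (fun _ : Fin (n + 1) => la) (fun _ => lb)), ∀ᶠ j in atTop,
      (∫ α in {α : ℝ | Yj j ^ (h - 1) < |α| ∧ |α| ≤ 1 / 2}, ‖TT (XE e e (Yj j)) (fe l e) α‖ ^ 2) <
        Yj j ^ (2 * sg e - 1 - δ) := by
  set κ : ℝ := (h * (sg e - 1) - δ) / 2 with hκ
  have hκ0 : 0 < κ := by rw [hκ]; linarith
  set ν := bxe (fun _ : Fin (n + 1) => la) (fun _ => lb) with hν
  have hK := KL_one (s := n + 1) hab
  set V : ℝ := KL (n + 1) la lb * 2 with hV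
  have hgen : ∀ᶠ Y : ℝ in atTop,
      Integrable (fun l => ∫ α in {α : ℝ | Y ^ (h - 1) < |α| ∧ |α| ≤ 1 / 2},
        ‖TT (XE e e Y) (fe l e) α‖ ^ 2) ν ∧
      ∫ l, (∫ α in {α : ℝ | Y ^ (h - 1) < |α| ∧ |α| ≤ 1 / 2}, ‖TT (XE e e Y) (fe l e) α‖ ^ 2) ∂ν ≤
        Y ^ (2 * sg e - 1 - δ) * Y ^ (-κ) := by
    filter_upwards [log_pow_le V (n + 2) hκ0, eventually_ge_atTop 2, const_le 2 (κ := 1 - h) (by linarith)]
      with Y h4 h5 h7
    have hY0 : 0 < Y := by linarith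
    have hY1 : 1 ≤ Y := by linarith
    have hlogY := Real.log_nonneg hY1
    have hα0 : 0 < Y ^ (h - 1) := Real.rpow_pos_of_pos hY0 _
    have h12 : Y ^ (h - 1) ≤ 1 / 2 := by
      rw [show h - 1 = -(1 - h) by ring, Real.rpow_neg hY0.le, one_div]
      exact inv_anti₀ (by norm_num) h7
    have hMe : Y ^ (h - 1) * Y = Y ^ h := by
      rw [← Real.rpow_add_one hY0.ne']
      congr 1
      ring
    have hY1h : 1 ≤ Y ^ h := Real.one_le_rpow hY1 hh.le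
    have hg := mean2_l he hab h5 hα0 h12 (by rw [hMe]; exact hY1h) hσ
    refine ⟨hg.1, hg.2.trans ?_⟩
    have hlog : Real.log (1 / 2 / Y ^ (h - 1)) ≤ 4 + Real.log Y := by
      have e1 : Real.log (1 / 2 / Y ^ (h - 1)) ≤ Real.log (1 / Y ^ (h - 1)) :=
        Real.log_le_log (by positivity) (by gcongr; norm_num)
      refine e1.trans ?_
      rw [one_div, ← Real.rpow_neg hY0.le, Real.log_rpow hY0]
      nlinarith
    have hlog0 : 0 ≤ Real.log (1 / 2 / Y ^ (h - 1)) := Real.log_nonneg ((one_le_div hα0).2 h12)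
    have hp1 : 0 < Y ^ sg e := Real.rpow_pos_of_pos hY0 _
    have hp2 : 0 < (Y ^ (h - 1)) ^ (-(sg e - 1)) := Real.rpow_pos_of_pos hα0 _
    calc (KL (n + 1) la lb * (4 + Real.log Y) ^ (n + 1)) * Y ^ sg e *
          (Y ^ (h - 1)) ^ (-(sg e - 1)) * (2 * Real.log (1 / 2 / Y ^ (h - 1)))
        ≤ (KL (n + 1) la lb * (4 + Real.log Y) ^ (n + 1)) * Y ^ sg e *
          (Y ^ (h - 1)) ^ (-(sg e - 1)) * (2 * (4 + Real.log Y)) := by gcongr
      _ = (Y ^ sg e * (Y ^ (h - 1)) ^ (-(sg e - 1))) * (V * (4 + Real.log Y) ^ (n + 2)) := by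
          rw [hV]
          ring
      _ ≤ (Y ^ sg e * (Y ^ (h - 1)) ^ (-(sg e - 1))) * Y ^ κ := by gcongr
      _ = Y ^ (2 * sg e - 1 - δ) * Y ^ (-κ) := by
          rw [← Real.rpow_mul hY0.le, ← Real.rpow_add hY0, ← Real.rpow_add hY0, ← Real.rpow_add hY0]
          congr 1
          rw [hκ]
          ring
  obtain ⟨j₀, hj₀⟩ := eventually_atTop.1 (Yj_tendsto.eventually hgen)
  have hbc := bc (μ := ν)
    (f := fun j l => if j₀ ≤ j then ∫ α in {α : ℝ | Yj j ^ (h - 1) < |α| ∧ |α| ≤ 1 / 2},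
      ‖TT (XE e e (Yj j)) (fe l e) α‖ ^ 2 else 0)
    (E := fun j => Yj j ^ (2 * sg e - 1 - δ) * Yj j ^ (-κ)) (θ := fun j => Yj j ^ (2 * sg e - 1 - δ)) (j₀ := j₀)
    (fun j => by
      by_cases hj : j₀ ≤ j
      · simp only [hj, if_true]
        exact (hj₀ j hj).1
      · simp only [hj, if_false]
        exact integrable_const 0)
    (fun j t => by
      by_cases hj : j₀ ≤ j
      · simp only [hj, if_true]
        exact integral_nonneg fun _ => by positivity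
      · simp only [hj, if_false]
        exact le_rfl) (fun j hj => by
        simp only [hj, if_true]
        exact (hj₀ j hj).2)
    (fun j => Real.rpow_pos_of_pos (Yj_pos j) _) (by
      refine (Yj_summable hκ0).congr fun j => ?_
      have := Real.rpow_pos_of_pos (Yj_pos j) (2 * sg e - 1 - δ)
      rw [mul_div_cancel_left₀ _ (by positivity)])
  filter_upwards [hbc] with t ht
  filter_upwards [ht, eventually_ge_atTop j₀] with j h1 h2
  simpa only [h2, if_true] using h1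

/-- **A cube of coefficients.** -/
lemma box_AL {e : Fin (n + 1) → ℝ} {la lb h δ : ℝ} (he : ∀ i, 1 ≤ e i) (hla : 0 < la)
    (hlab : la ≤ lb) (hlb1 : 1 ≤ lb) (hh : 0 < h) (hh1 : h < 1) (hσ : 1 ≤ sg e) (hδ1 : δ ≤ 1)
    (hmid : δ < h * (sg e - 1)) (hlow : 3 * h < (e 0)⁻¹ / 2) :
    ∀ᵐ l ∂(bxe (fun _ : Fin (n + 1) => la) (fun _ => lb)), (∀ i, la < l i ∧ l i ≤ lb) →
      ∃ C : ℝ, ∀ Z : ℝ, 1 ≤ Z → ∀ F : Finset ℤ,
      (∀ m ∈ F, Z ≤ m ∧ (m : ℝ) ≤ 2 * Z ∧ ¬ RepF l e m) → (F.card : ℝ) ≤ C * Z ^ (1 - δ) := by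
  have hcG := cG_pos he hla (by linarith : 0 < lb)
  have hbc := bc_TL2 (δ := δ) he hlab hσ hh hh1 hmid
  have hgood : ∀ᵐ l ∂(bxe (fun _ : Fin (n + 1) => la) (fun _ => lb)),
      ∀ i, ∀ᶠ j in atTop, GoodE (e i) (e i) (l i) (e i) (Yj j) := by
    rw [ae_all_iff]
    intro i
    have h1 := good_ae_l (he i) hlab
    unfold bxe
    exact (Measure.quasiMeasurePreserving_eval
      (fun _ : Fin (n + 1) => (volume : Measure ℝ).restrict (Set.Ioc la lb)) i).ae h1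
  filter_upwards [hbc, hgood] with l ht htg hl
  have hdet := det_Bm (h := h) he (fun i => le_rfl) hla hlab hlb1 hl hh1 (by linarith)
  have hLpos : 0 < ∑ i, l i := sum_pos (fun i _ => hla.trans (hl i).1) univ_nonempty
  obtain ⟨J, hJ⟩ := eventually_atTop.1 ((ht.and (eventually_all.2 htg)).and (Yj_tendsto.eventually hdet))
  set L : ℝ := ∑ i, l i with hL
  set K : ℝ := cG e la lb / 2 with hK
  have hK0 : 0 < K := by positivity
  have htile : ∀ j, J ≤ j → ∀ F : Finset ℤ, (∀ m ∈ F, 2 * Yj j * L ≤ m ∧ (m : ℝ) ≤ 4 * Yj j * L ∧ ¬ RepF l e m) →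
      (F.card : ℝ) ≤ 1 / K ^ 2 * Yj j ^ (1 - δ) := by
    intro j hj F hF
    obtain ⟨⟨g1, g3⟩, g2⟩ := hJ j hj
    exact exc_count (Yj_pos j) hK0 (fun m hm => g2 e (fun i => ⟨le_rfl, le_rfl⟩) g3 m (hF m hm).1
      (hF m hm).2.1 (hF m hm).2.2) g1
  set Z₀ : ℝ := 2 * L * Yj (J + 1) with hZ₀
  have hZ₀0 : 0 < Z₀ := by have := Yj_pos (J + 1); positivity
  set C₁ : ℝ := 2 * (1 / K ^ 2) * (1 / L) ^ (1 - δ) with hC₁
  have hC₁0 : 0 ≤ C₁ := by positivity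
  refine ⟨2 * Z₀ + 1 + C₁, fun Z hZ F hF => ?_⟩
  have hZ0 : 0 < Z := by linarith
  have hδ0 : 0 ≤ 1 - δ := by linarith
  have hZ1 : 1 ≤ Z ^ (1 - δ) := Real.one_le_rpow hZ hδ0
  rcases lt_or_ge Z Z₀ with hlt | hge
  · have h1 : F ⊆ Icc 0 ⌊2 * Z₀⌋ := by
      intro m hm
      obtain ⟨h2, h3, -⟩ := hF m hm
      rw [mem_Icc, Int.le_floor]
      refine ⟨?_, by linarith⟩
      have : (0 : ℝ) ≤ m := by linarith
      exact_mod_cast this
    have h2 := card_le_card h1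
    rw [Int.card_Icc] at h2
    have h3 : (F.card : ℝ) ≤ 2 * Z₀ + 1 := by
      have h4 : (F.card : ℝ) ≤ (((⌊2 * Z₀⌋ + 1 - 0).toNat : ℕ) : ℝ) := by exact_mod_cast h2
      refine h4.trans ?_
      have h5 : (0 : ℤ) ≤ ⌊2 * Z₀⌋ := Int.floor_nonneg.2 (by positivity)
      have h6 : (((⌊2 * Z₀⌋ + 1 - 0).toNat : ℕ) : ℝ) = (⌊2 * Z₀⌋ : ℝ) + 1 := by
        have h7 : (((⌊2 * Z₀⌋ + 1 - 0).toNat : ℕ) : ℤ) = ⌊2 * Z₀⌋ + 1 := by
          rw [Int.toNat_of_nonneg (by omega)]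
          ring
        exact_mod_cast h7
      rw [h6]
      linarith [Int.floor_le (2 * Z₀)]
    calc (F.card : ℝ) ≤ (2 * Z₀ + 1) * 1 := by linarith
      _ ≤ (2 * Z₀ + 1 + C₁) * Z ^ (1 - δ) := mul_le_mul (by linarith) hZ1 (by norm_num) (by positivity)
  · obtain ⟨j, hj, hz1, hz2⟩ := dyadic hLpos J hge
    have hYj1 : Yj (j + 1) = 2 * Yj j := by unfold Yj; ring
    have hYj0 := Yj_pos j
    have hYj10 := Yj_pos (j + 1)
    have h1 := htile j hj (F.filter fun m : ℤ => (m : ℝ) ≤ 4 * Yj j * L) (by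
      intro m hm
      rw [mem_filter] at hm
      obtain ⟨h2, h3, h4⟩ := hF m hm.1
      exact ⟨by linarith, hm.2, h4⟩)
    have h2 := htile (j + 1) (by omega) (F.filter fun m : ℤ => ¬ (m : ℝ) ≤ 4 * Yj j * L) (by
      intro m hm
      rw [mem_filter] at hm
      obtain ⟨h2, h3, h4⟩ := hF m hm.1
      push Not at hm
      rw [hYj1]
      exact ⟨by linarith [hm.2], by linarith, h4⟩)
    have h3 : (F.card : ℝ) = ((F.filter fun m : ℤ => (m : ℝ) ≤ 4 * Yj j * L).card : ℝ) +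
        ((F.filter fun m : ℤ => ¬ (m : ℝ) ≤ 4 * Yj j * L).card : ℝ) := by
      exact_mod_cast (card_filter_add_card_filter_not (s := F) (fun m : ℤ => (m : ℝ) ≤ 4 * Yj j * L)).symm
    have h7 : Yj (j + 1) ≤ 1 / L * Z := by
      rw [hYj1, one_div, inv_mul_eq_div, le_div_iff₀ hLpos]
      linarith
    have h8 : Yj j ≤ 1 / L * Z := by linarith
    have h9 : Yj j ^ (1 - δ) ≤ (1 / L) ^ (1 - δ) * Z ^ (1 - δ) := by
      rw [← Real.mul_rpow (by positivity) hZ0.le]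
      exact Real.rpow_le_rpow hYj0.le h8 hδ0
    have h10 : Yj (j + 1) ^ (1 - δ) ≤ (1 / L) ^ (1 - δ) * Z ^ (1 - δ) := by
      rw [← Real.mul_rpow (by positivity) hZ0.le]
      exact Real.rpow_le_rpow hYj10.le h7 hδ0
    have hK2 : 0 < 1 / K ^ 2 := by positivity
    calc (F.card : ℝ) ≤ 1 / K ^ 2 * Yj j ^ (1 - δ) + 1 / K ^ 2 * Yj (j + 1) ^ (1 - δ) := by linarith
      _ ≤ 1 / K ^ 2 * ((1 / L) ^ (1 - δ) * Z ^ (1 - δ)) + 1 / K ^ 2 * ((1 / L) ^ (1 - δ) * Z ^ (1 - δ)) := by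
          gcongr
      _ = (0 + C₁) * Z ^ (1 - δ) := by rw [hC₁]; ring
      _ ≤ (2 * Z₀ + 1 + C₁) * Z ^ (1 - δ) := mul_le_mul_of_nonneg_right (by linarith) (by positivity)

/-- **Almost all integers, almost all coefficients.** -/
theorem all_AL {e : Fin (n + 1) → ℝ} (he : ∀ i, 1 ≤ e i) (hσ : 1 < sg e) {δ : ℝ} (hδ1 : δ < 1)
    (hδ : δ < (sg e - 1) / (6 * e 0)) :
    ∀ᵐ l : Fin (n + 1) → ℝ, (∀ i, 0 < l i) → ∃ C : ℝ, ∀ Z : ℝ, 1 ≤ Z → ∀ F : Finset ℤ,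
      (∀ m ∈ F, Z ≤ m ∧ (m : ℝ) ≤ 2 * Z ∧ ¬ RepF l e m) → (F.card : ℝ) ≤ C * Z ^ (1 - δ) := by
  have he0 : 0 < e 0 := by linarith [he 0]
  have hei : 0 < (e 0)⁻¹ := inv_pos.2 he0
  have hei1 : (e 0)⁻¹ ≤ 1 := inv_le_one_of_one_le₀ (he 0)
  have hσ0 : 0 < sg e - 1 := by linarith
  have hδ2 : δ / (sg e - 1) < (e 0)⁻¹ / 6 := by
    rw [div_lt_iff₀ hσ0]
    refine hδ.trans_le (le_of_eq ?_)
    field_simp
  obtain ⟨h, hh1, hh2⟩ := exists_between (show max (δ / (sg e - 1)) 0 < (e 0)⁻¹ / 6 from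
    max_lt hδ2 (by positivity))
  have hh0 : 0 < h := (le_max_right _ _).trans_lt hh1
  have hhδ : δ < h * (sg e - 1) := by
    have := (le_max_left _ _).trans_lt hh1
    rwa [div_lt_iff₀ hσ0] at this
  have hq : ∀ᵐ l : Fin (n + 1) → ℝ, ∀ q : ℕ, (∀ i, ((q : ℝ) + 1)⁻¹ < l i ∧ l i ≤ (q : ℝ) + 1) →
      ∃ C : ℝ, ∀ Z : ℝ, 1 ≤ Z → ∀ F : Finset ℤ,
      (∀ m ∈ F, Z ≤ m ∧ (m : ℝ) ≤ 2 * Z ∧ ¬ RepF l e m) → (F.card : ℝ) ≤ C * Z ^ (1 - δ) := by
    rw [ae_all_iff]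
    intro q
    have hq : (0 : ℝ) ≤ q := Nat.cast_nonneg q
    have hq1 : ((q : ℝ) + 1)⁻¹ ≤ 1 := inv_le_one_of_one_le₀ (by linarith)
    have hbox := box_AL (h := h) (δ := δ) he (la := ((q : ℝ) + 1)⁻¹) (lb := (q : ℝ) + 1) (by positivity) (by linarith)
      (by linarith) hh0 (by linarith) hσ.le hδ1.le hhδ (by linarith)
    rw [bxe_eq, ae_restrict_iff' (MeasurableSet.univ_pi fun _ => measurableSet_Ioc)] at hbox
    filter_upwards [hbox] with l hl h1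
    exact hl (fun i _ => ⟨(h1 i).1, (h1 i).2⟩) h1
  filter_upwards [hq] with l hl h0
  obtain ⟨q, hq⟩ := exists_nat_ge (∑ i, (l i + (l i)⁻¹))
  refine hl q fun i => ?_
  have hi0 := h0 i
  have hi1 : 0 < (l i)⁻¹ := inv_pos.2 hi0
  have h1 : l i + (l i)⁻¹ ≤ ∑ i, (l i + (l i)⁻¹) := single_le_sum (f := fun i => l i + (l i)⁻¹)
    (fun j _ => by have := h0 j; positivity) (mem_univ i)
  constructor
  · rw [inv_lt_comm₀ (by linarith [(Nat.cast_nonneg q : (0 : ℝ) ≤ q)]) hi0]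
    linarith
  · linarith

end Pool.Agent.Q43.MW
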