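import Mathlib
import Pool.Agent.Q43.MW.Sharp

set_option autoImplicit false

/-!
# The asymptotic formula for the number of integer points in thin shells
-/

namespace Pool.Agent.Q43.MW

open MeasureTheory Complex Finset Filter

variable {s : ℕ}

/-- the integer points of the shell -/
def shl (k : ℕ) (l : Fin s → ℝ) (η y : ℝ) : Set (Fin s → ℤ) := {m | |(∑ i, l i * |(m i : ℝ)| ^ k) - y| ≤ η}

lemma count_eq {k P : ℕ} (hk : 1 ≤ k) {a : ℝ} (ha : 0 < a) {l : Fin s → ℝ} (hl : ∀ i, a < l i) {η y : ℝ}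
    (hP : (y + η) / a ≤ (P : ℝ) ^ k) :
    (shl k l η y).Finite ∧
      ((shl k l η y).ncard : ℝ) = ZZ (fun _ : Fin s => range (2 * P + 1)) (vF s k) l η y := by
  classical
  set F := (Fintype.piFinset fun _ : Fin s => range (2 * P + 1)).filter fun x => |form (vF s k) l x - y| ≤ η with hF
  have hform : ∀ x : Fin s → ℕ, form (vF s k) l x = ∑ i, l i * |((dz (x i) : ℤ) : ℝ)| ^ k := by
    intro x
    unfold form vF
    refine sum_congr rfl fun i _ => ?_
    rw [vz_eq]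
  have hinj : Function.Injective fun x : Fin s → ℕ => fun i => dz (x i) := by
    intro x z h
    funext i
    exact dz_inj (congrFun h i)
  have hset : shl k l η y = (F.image fun x : Fin s → ℕ => fun i => dz (x i) : Finset (Fin s → ℤ)) := by
    ext m
    rw [coe_image, Set.mem_image]
    constructor
    · intro hm
      have hm' : |(∑ i, l i * |(m i : ℝ)| ^ k) - y| ≤ η := hm
      have h1 : ∀ i, ∃ n ∈ range (2 * P + 1), dz n = m i := by
        intro i
        have h2 : l i * |(m i : ℝ)| ^ k ≤ ∑ i, l i * |(m i : ℝ)| ^ k :=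
          single_le_sum (f := fun i => l i * |(m i : ℝ)| ^ k)
            (fun i _ => mul_nonneg (ha.trans (hl i)).le (by positivity)) (mem_univ i)
        have h3 : |(m i : ℝ)| ^ k ≤ (P : ℝ) ^ k := by
          refine le_trans ?_ hP
          rw [le_div_iff₀ ha]
          have h4 := (abs_le.1 hm').2
          have h5 : 0 ≤ |(m i : ℝ)| ^ k := by positivity
          have := hl i
          nlinarith
        have h4 : |(m i : ℝ)| ≤ P := le_of_pow_le_pow_left₀ (by omega) (Nat.cast_nonneg P) h3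
        have h5 := abs_le.1 h4
        refine dz_surj ?_ ?_
        · exact_mod_cast h5.1
        · exact_mod_cast h5.2
      choose f hf1 hf2 using h1
      refine ⟨f, ?_, funext hf2⟩
      rw [mem_coe, hF, mem_filter, Fintype.mem_piFinset, hform]
      refine ⟨hf1, ?_⟩
      simp only [hf2]
      exact hm'
    · rintro ⟨x, hx, rfl⟩
      rw [mem_coe, hF, mem_filter, hform] at hx
      exact hx.2
  constructor
  · rw [hset]
    exact finite_toSet _
  · rw [hset, Set.ncard_coe_finset, card_image_of_injective _ hinj]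
    rfl

lemma ZZ_le (X : Fin s → Finset ℕ) (v : Fin s → ℕ → ℝ) (l : Fin s → ℝ) (η y : ℝ) : ZZ X v l η y ≤ NN X := by
  unfold ZZ
  have h := card_filter_le (Fintype.piFinset X) fun x => |form v l x - y| ≤ η
  rw [Fintype.card_piFinset] at h
  unfold NN
  exact_mod_cast h

/-- the conclusion for one vector of coefficients and one exponent -/
def Asym (k : ℕ) (l : Fin s → ℝ) (δ : ℝ) : Prop :=
  ∃ κ : ℝ, 0 < κ ∧ ∃ y₀ : ℝ, 1 ≤ y₀ ∧ ∀ y : ℝ, y₀ ≤ y → ∀ η : ℝ, y ^ (-δ) ≤ η → η ≤ 1 →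
    (shl k l η y).Finite ∧ |((shl k l η y).ncard : ℝ) -
      2 * η * (Vk k l * ((s : ℝ) / k) * y ^ ((s : ℝ) / k - 1))| ≤ η * y ^ ((s : ℝ) / k - 1 - κ)

lemma asym_box {k : ℕ} (hk : 1 ≤ k) {a b : ℝ} (ha : 0 < a) (hab : a ≤ b) {δ : ℝ} (hδ0 : 0 ≤ δ)
    (hδ : δ < (s : ℝ) / k / 2 - 1) :
    ∀ᵐ l ∂(bx s a b), (∀ i, a < l i ∧ l i ≤ b) → Asym k l δ := by
  have hk0 : (0 : ℝ) < k := by exact_mod_cast (by omega : 0 < k)
  set σ : ℝ := (s : ℝ) / k with hσd
  set A : ℝ := max 1 (4 / a) with hA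
  have hA1 : 1 ≤ A := le_max_left _ _
  have hA2 : 4 / a ≤ A := le_max_right _ _
  set g : ℝ := σ / 2 - 1 - δ with hg
  have hg0 : 0 < g := by rw [hg]; linarith
  set κ₁ : ℝ := g / 16 with hκ₁
  have hκ₁0 : 0 < κ₁ := by positivity
  set β : ℝ := δ + 4 * κ₁ with hβ
  have hβ0 : 0 ≤ β := by positivity
  set c : ℝ := g / 2 / (1 + β) with hc
  have hc0 : 0 < c := by positivity
  have hfit : (1 + β) * (1 + c) ≤ σ / 2 := by
    have : (1 + β) * c = g / 2 := by rw [hc]; field_simp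
    have : (1 + β) * (1 + c) = 1 + β + g / 2 := by linarith
    rw [this, hβ, hκ₁, hg]
    linarith
  obtain ⟨κ, hκ, hae⟩ := small_scales (s := s) hk ha hab hA1 hA2 hc0 hκ₁0 hβ0 (by rw [← hσd]; exact hfit)
  filter_upwards [hae] with l hl hlb
  have hV := Vk_nonneg k l
  have hσ2 : 2 ≤ σ := by linarith
  set κ₂ : ℝ := min (min κ κ₁) (1 / 2) with hκ₂
  have hκ₂0 : 0 < κ₂ := by positivity
  have hκ₂a : κ₂ ≤ κ := (min_le_left _ _).trans (min_le_left _ _)
  have hκ₂b : κ₂ ≤ κ₁ := (min_le_left _ _).trans (min_le_right _ _)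
  have hκ₂c : κ₂ ≤ 1 / 2 := min_le_right _ _
  set C₅ : ℝ := Vk k l * σ * 2 ^ (σ - 1) with hC₅
  have hC₅0 : 0 ≤ C₅ := by positivity
  set C₆ : ℝ := Vk k l * σ * ((σ - 1) * 4 ^ (σ - 2) * 2) with hC₆
  have hdet : ∀ᶠ Y : ℝ in atTop, (∀ y : ℝ, Y / 2 ≤ y → y ≤ 3 * Y → ∀ h : ℝ, Y ^ (-β + κ₁) ≤ h → h ≤ 1 →
        |RR (XF s k A Y) (vF s k) l h y - h * (Vk k l * σ * y ^ (σ - 1))| ≤ h * Y ^ (σ - 1 - κ)) →
      ∀ y : ℝ, Y ≤ y → y ≤ 2 * Y → ∀ η : ℝ, y ^ (-δ) ≤ η → η ≤ 1 →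
      (shl k l η y).Finite ∧ |((shl k l η y).ncard : ℝ) -
      2 * η * (Vk k l * σ * y ^ (σ - 1))| ≤ η * y ^ (σ - 1 - κ₂ / 2) := by
    filter_upwards [const_le (2 ^ δ) (κ := κ₁) hκ₁0, const_le C₆ (κ := 1 / 2) (by norm_num),
      const_le (2 * C₅ + 9) (κ := κ₂ / 2) (by positivity), const_le 2 (κ := κ₁) hκ₁0,
      exp_decay (2 * (2 ^ δ * (5 * A) ^ s)) (1 + δ + κ₂) (ε := κ₁) hκ₁0,
      eventually_ge_atTop 4] with Y h1 h2 h3 h3' h4 h5 hRR y hy1 hy2 η hη1 hη2
    have hY0 : 0 < Y := by linarith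
    have hY1 : 1 ≤ Y := by linarith
    have hy0 : 0 < y := by linarith
    have hη0 : 0 < η := lt_of_lt_of_le (Real.rpow_pos_of_pos hy0 _) hη1
    have hP : (y + η) / a ≤ (PP k A Y : ℝ) ^ k := by
      have e1 : (A * Y) ^ (k : ℝ)⁻¹ ≤ PP k A Y := Nat.le_ceil _
      have e2 : ((A * Y) ^ (k : ℝ)⁻¹) ^ k = A * Y := Real.rpow_inv_natCast_pow (by positivity) (by omega)
      calc (y + η) / a ≤ 4 * Y / a := by gcongr; linarith
        _ = 4 / a * Y := by ring
        _ ≤ A * Y := by gcongr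
        _ = ((A * Y) ^ (k : ℝ)⁻¹) ^ k := e2.symm
        _ ≤ (PP k A Y : ℝ) ^ k := pow_le_pow_left₀ (by positivity) e1 k
    obtain ⟨hfin, hcard⟩ := count_eq (s := s) hk ha (fun i => (hlb i).1) hP
    refine ⟨hfin, ?_⟩
    rw [hcard]
    set X : Fin s → Finset ℕ := XF s k A Y with hX
    have hXe : (fun _ : Fin s => range (2 * PP k A Y + 1)) = X := rfl
    rw [hXe]
    set q : ℝ := Y ^ κ₁ with hq
    have hq0 : 0 < q := Real.rpow_pos_of_pos hY0 _
    set w : ℝ := η / q with hw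
    set h : ℝ := w / q with hh
    have hw0 : 0 < w := by positivity
    have hh0 : 0 < h := by positivity
    have hwh : w / h = q := by rw [hh]; field_simp
    have hwη : w ≤ η := by rw [hw]; exact div_le_self hη0.le (by linarith)
    have hhw : h ≤ w := by rw [hh]; exact div_le_self hw0.le (by linarith)
    have hηlow : Y ^ (-δ - κ₁) ≤ η := by
      refine le_trans ?_ hη1
      have q1 : (2 * Y) ^ (-δ) ≤ y ^ (-δ) := Real.rpow_le_rpow_of_nonpos hy0 hy2 (by linarith)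
      refine le_trans ?_ q1
      rw [Real.mul_rpow (by norm_num) hY0.le, Real.rpow_neg (by norm_num : (0 : ℝ) ≤ 2), Real.rpow_sub hY0, ← hq,
        div_eq_mul_inv, mul_comm]
      have : q⁻¹ ≤ ((2 : ℝ) ^ δ)⁻¹ := by gcongr
      have := Real.rpow_pos_of_pos hY0 (-δ)
      gcongr
    have hhlow : Y ^ (-β + κ₁) ≤ h := by
      have e1 : h = η * Y ^ (-(2 * κ₁)) := by
        rw [hh, hw, Real.rpow_neg hY0.le, show 2 * κ₁ = κ₁ + κ₁ by ring, Real.rpow_add hY0, ← hq]
        field_simp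
      rw [e1]
      calc Y ^ (-β + κ₁) = Y ^ (-δ - κ₁) * Y ^ (-(2 * κ₁)) := by
            rw [← Real.rpow_add hY0, hβ]
            congr 1
            ring
        _ ≤ η * Y ^ (-(2 * κ₁)) := by
            have := Real.rpow_pos_of_pos hY0 (-(2 * κ₁))
            gcongr
    set G : ℝ := Vk k l * σ * y ^ (σ - 1) with hG
    set S : ℝ := Y ^ (σ - 1) with hS
    have hS0 : 0 < S := Real.rpow_pos_of_pos hY0 _
    set θ : ℝ := Y ^ (-κ₂) with hθ
    have hθ0 : 0 < θ := Real.rpow_pos_of_pos hY0 _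
    have hθ1 : θ ≤ 1 := Real.rpow_le_one_of_one_le_of_nonpos hY1 (by linarith)
    have hSθ : S * θ = Y ^ (σ - 1 - κ₂) := by
      rw [hS, hθ, ← Real.rpow_add hY0]
      congr 1
    set Δ : ℝ := 2 * (S * θ) with hΔ
    have hclose : ∀ u : ℝ, |u| ≤ η + w → |RR X (vF s k) l h (y + u) - h * G| ≤ h * Δ := by
      intro u hu
      have hu2 : |u| ≤ 2 := by linarith
      have hu3 := abs_le.1 hu2
      have p1 := hRR (y + u) (by linarith) (by linarith) h hhlow (by linarith)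
      have p2 : |(y + u) ^ (σ - 1) - y ^ (σ - 1)| ≤ (σ - 1) * (4 * Y) ^ (σ - 1 - 1) * 2 := by
        refine (rpow_lip (M := 4 * Y) (by linarith) (by linarith) (by linarith) hy0.le (by linarith)).trans ?_
        have : |y + u - y| ≤ 2 := by rw [add_sub_cancel_left]; exact hu2
        have h9 : 0 ≤ (σ - 1) * (4 * Y) ^ (σ - 1 - 1) := mul_nonneg (by linarith) (by positivity)
        gcongr
      have p3 : Vk k l * σ * ((σ - 1) * (4 * Y) ^ (σ - 1 - 1) * 2) ≤ S * θ := by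
        have e1 : (4 * Y) ^ (σ - 1 - 1) = 4 ^ (σ - 2) * Y ^ (σ - 2) := by
          rw [show σ - 1 - 1 = σ - 2 by ring, Real.mul_rpow (by norm_num) hY0.le]
        calc Vk k l * σ * ((σ - 1) * (4 * Y) ^ (σ - 1 - 1) * 2) = C₆ * Y ^ (σ - 2) := by rw [e1, hC₆]; ring
          _ ≤ Y ^ (1 / 2 : ℝ) * Y ^ (σ - 2) := by
              have := Real.rpow_pos_of_pos hY0 (σ - 2)
              gcongr
          _ = Y ^ (1 / 2 + (σ - 2)) := by rw [Real.rpow_add hY0]
          _ ≤ Y ^ (σ - 1 - κ₂) := Real.rpow_le_rpow_of_exponent_le hY1 (by linarith)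
          _ = S * θ := hSθ.symm
      have p4 : |h * (Vk k l * σ * (y + u) ^ (σ - 1)) - h * G| ≤ h * (S * θ) := by
        rw [hG, ← mul_sub, ← mul_sub, abs_mul, abs_of_pos hh0, abs_mul, abs_of_nonneg (by positivity : 0 ≤ Vk k l * σ)]
        refine mul_le_mul_of_nonneg_left ?_ hh0.le
        calc Vk k l * σ * |(y + u) ^ (σ - 1) - y ^ (σ - 1)| ≤
            Vk k l * σ * ((σ - 1) * (4 * Y) ^ (σ - 1 - 1) * 2) := by gcongr
          _ ≤ _ := p3
      have p5 : Y ^ (σ - 1 - κ) ≤ S * θ := by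
        rw [hSθ]
        exact Real.rpow_le_rpow_of_exponent_le hY1 (by linarith)
      have p6 : h * Y ^ (σ - 1 - κ) ≤ h * (S * θ) := by gcongr
      have p7 := abs_le.1 (p1.trans p6)
      have p8 := abs_le.1 p4
      rw [abs_le, hΔ]
      constructor <;> linarith [p7.1, p7.2, p8.1, p8.2]
    obtain ⟨hup, hlo⟩ := sharp X (vF s k) l hh0 hw0.le hη0 hwη hclose
    rw [hwh] at hup hlo
    set e : ℝ := 2 * Real.exp (-(3 / 4 * Real.pi) * q ^ 2) with he
    have he0 : 0 < e := by positivity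
    have hN := NN_full (s := s) hk hA1 hY1
    rw [← hσd] at hN
    have heN : e * NN X ≤ η * (S * θ) := by
      have p1 : Real.exp (-(3 / 4 * Real.pi) * q ^ 2) ≤ Real.exp (-Real.pi * q) := by
        refine Real.exp_le_exp.2 ?_
        have p2 : 4 / 3 * q ≤ q ^ 2 := by nlinarith
        have := Real.pi_pos
        nlinarith
      calc e * NN X ≤ 2 * Real.exp (-Real.pi * q) * ((5 * A) ^ s * Y ^ σ) := by
            rw [he]
            have := NN_nonneg X
            gcongr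
        _ = Y ^ σ * ((2 : ℝ) ^ δ)⁻¹ * (2 * (2 ^ δ * (5 * A) ^ s) * Real.exp (-Real.pi * q)) := by
            have : (0 : ℝ) < 2 ^ δ := by positivity
            field_simp
        _ ≤ Y ^ σ * ((2 : ℝ) ^ δ)⁻¹ * Y ^ (-(1 + δ + κ₂)) := by gcongr
        _ = ((2 : ℝ) ^ δ)⁻¹ * Y ^ (-δ) * (S * θ) := by
            rw [hSθ, mul_comm (Y ^ σ), mul_assoc, mul_assoc, ← Real.rpow_add hY0, ← Real.rpow_add hY0]
            congr 2
            ring
        _ ≤ η * (S * θ) := by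
            have q1 : (2 * Y) ^ (-δ) ≤ y ^ (-δ) := Real.rpow_le_rpow_of_nonpos hy0 hy2 (by linarith)
            rw [Real.mul_rpow (by norm_num) hY0.le, Real.rpow_neg (by norm_num : (0 : ℝ) ≤ 2)] at q1
            have q2 := q1.trans hη1
            gcongr
    have hZN := ZZ_le X (vF s k) l η y
    have hZ0 : 0 ≤ ZZ X (vF s k) l η y := by unfold ZZ; positivity
    have hGS : G ≤ C₅ * S := by
      rw [hG, hC₅, hS]
      have : y ^ (σ - 1) ≤ 2 ^ (σ - 1) * Y ^ (σ - 1) := by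
        rw [← Real.mul_rpow (by norm_num) hY0.le]
        exact Real.rpow_le_rpow hy0.le hy2 (by linarith)
      calc Vk k l * σ * y ^ (σ - 1) ≤ Vk k l * σ * (2 ^ (σ - 1) * Y ^ (σ - 1)) := by gcongr
        _ = _ := by ring
    have hG0 : 0 ≤ G := by rw [hG]; positivity
    have hwθ : w ≤ θ * η := by
      rw [hw, hθ, Real.rpow_neg hY0.le, div_eq_mul_inv, mul_comm]
      have : Y ^ κ₂ ≤ q := Real.rpow_le_rpow_of_exponent_le hY1 hκ₂b
      have h9 : q⁻¹ ≤ (Y ^ κ₂)⁻¹ := by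
        have := Real.rpow_pos_of_pos hY0 κ₂
        gcongr
      gcongr
    have hwG : w * G ≤ θ * η * (C₅ * S) := mul_le_mul hwθ hGS hG0 (by positivity)
    have hΔ0 : 0 < Δ := by positivity
    have hwΔ : w * Δ ≤ η * Δ := by gcongr
    have hbound : |ZZ X (vF s k) l η y - 2 * η * G| ≤ (2 * C₅ + 9) * (η * (S * θ)) := by
      have hηST : 0 < η * (S * θ) := by positivity
      have heZ : e * ZZ X (vF s k) l η y ≤ e * NN X := by gcongr
      rw [abs_le]
      constructor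
      · have e1 : 2 * (η - w) * (G - Δ) = 2 * η * G - 2 * (w * G) - 2 * (η * Δ) + 2 * (w * Δ) := by ring
        rw [e1] at hlo
        have e2 : θ * η * (C₅ * S) = C₅ * (η * (S * θ)) := by ring
        have e3 : η * Δ = 2 * (η * (S * θ)) := by rw [hΔ]; ring
        have h9 : 0 ≤ w * Δ := by positivity
        rw [e2] at hwG
        rw [e3] at hlo
        linarith
      · have e1 : 2 * (η + w) * (G + Δ) = 2 * η * G + 2 * (w * G) + 2 * (η * Δ) + 2 * (w * Δ) := by ring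
        rw [e1] at hup
        have e2 : θ * η * (C₅ * S) = C₅ * (η * (S * θ)) := by ring
        have e3 : η * Δ = 2 * (η * (S * θ)) := by rw [hΔ]; ring
        rw [e2] at hwG
        rw [e3] at hup hwΔ
        linarith
    refine hbound.trans ?_
    have hfin1 : (2 * C₅ + 9) * (S * θ) ≤ y ^ (σ - 1 - κ₂ / 2) := by
      calc (2 * C₅ + 9) * (S * θ) ≤ Y ^ (κ₂ / 2) * Y ^ (σ - 1 - κ₂) := by rw [hSθ]; gcongr
        _ = Y ^ (σ - 1 - κ₂ / 2) := by rw [← Real.rpow_add hY0]; congr 1; ring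
        _ ≤ y ^ (σ - 1 - κ₂ / 2) := Real.rpow_le_rpow hY0.le hy1 (by linarith)
    calc (2 * C₅ + 9) * (η * (S * θ)) = η * ((2 * C₅ + 9) * (S * θ)) := by ring
      _ ≤ _ := by gcongr
  obtain ⟨J, hJ⟩ := eventually_atTop.1 ((hl hlb).and (Yj_tendsto.eventually hdet))
  refine ⟨κ₂ / 2, by positivity, Yj J, one_le_pow₀ (by norm_num), fun y hy η hη1 hη2 => ?_⟩
  have hy1 : (1 : ℝ) ≤ y := (one_le_pow₀ (by norm_num) : (1 : ℝ) ≤ Yj J).trans hy
  obtain ⟨j, hj1, hj2⟩ := exists_nat_pow_near hy1 (by norm_num : (1 : ℝ) < 2)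
  have hj : J ≤ j := by
    by_contra h
    push Not at h
    have h6 : (2 : ℝ) ^ (j + 1) ≤ 2 ^ J := pow_le_pow_right₀ (by norm_num) (by omega)
    unfold Yj at hy
    linarith
  obtain ⟨g1, g2⟩ := hJ j hj
  exact g2 g1 y hj1 (by unfold Yj; rw [pow_succ] at hj2; linarith) η hη1 hη2

/-- the volume, explicitly -/
lemma Vk_eq {k : ℕ} (hk : 1 ≤ k) (hs : 1 ≤ s) {l : Fin s → ℝ} (hl : ∀ i, 0 < l i) :
    Vk k l = (∏ i, l i ^ (-(k : ℝ)⁻¹)) * ((2 * Real.Gamma (1 / k + 1)) ^ s / Real.Gamma ((s : ℝ) / k + 1)) := by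
  have hk0 : (0 : ℝ) < k := by exact_mod_cast (by omega : 0 < k)
  have hk1 : (1 : ℝ) ≤ k := by exact_mod_cast hk
  have : Nonempty (Fin s) := ⟨⟨0, hs⟩⟩
  set D : Fin s → ℝ := fun i => l i ^ (k : ℝ)⁻¹ with hD
  have hD0 : ∀ i, 0 < D i := fun i => Real.rpow_pos_of_pos (hl i) _
  have hDk : ∀ i, D i ^ k = l i := fun i => Real.rpow_inv_natCast_pow (hl i).le (by omega)
  have hdet : LinearMap.det (Matrix.toLin' (Matrix.diagonal D)) = ∏ i, D i := by
    rw [LinearMap.det_toLin', Matrix.det_diagonal]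
  have hprod : 0 < ∏ i, D i := prod_pos fun i _ => hD0 i
  have hpre : {ξ : Fin s → ℝ | Fk k l ξ ≤ 1} =
      (Matrix.toLin' (Matrix.diagonal D)) ⁻¹' {x : Fin s → ℝ | (∑ i, |x i| ^ (k : ℝ)) ^ (1 / (k : ℝ)) ≤ 1} := by
    ext ξ
    simp only [Set.mem_ofPred_eq, Set.mem_preimage]
    have e1 : ∀ i, Matrix.toLin' (Matrix.diagonal D) ξ i = D i * ξ i := by
      intro i
      rw [Matrix.toLin'_apply, Matrix.mulVec_diagonal]
    have e2 : ∑ i, |Matrix.toLin' (Matrix.diagonal D) ξ i| ^ (k : ℝ) = Fk k l ξ := by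
      unfold Fk
      refine sum_congr rfl fun i _ => ?_
      rw [e1, Real.rpow_natCast, abs_mul, mul_pow, abs_of_pos (hD0 i), hDk]
    rw [e2]
    have h0 := Fk_nonneg (k := k) hl ξ
    constructor
    · intro h
      exact Real.rpow_le_one h0 h (by positivity)
    · intro h
      by_contra h1
      push Not at h1
      have := Real.one_lt_rpow h1 (by positivity : 0 < 1 / (k : ℝ))
      linarith
  unfold Vk
  rw [hpre, Measure.addHaar_preimage_linearMap volume (by rw [hdet]; exact hprod.ne'), hdet,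
    MeasureTheory.volume_sum_rpow_le (Fin s) hk1, ENNReal.ofReal_one, one_pow, one_mul, Fintype.card_fin,
    ENNReal.toReal_mul, ENNReal.toReal_ofReal (abs_nonneg _), ENNReal.toReal_ofReal (by
      have h1 := Real.Gamma_pos_of_pos (s := 1 / (k : ℝ) + 1) (by positivity)
      have h2 := Real.Gamma_pos_of_pos (s := (s : ℝ) / k + 1) (by positivity)
      positivity)]
  congr 1
  rw [abs_of_pos (by positivity), ← prod_inv_distrib]
  refine prod_congr rfl fun i _ => ?_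
  rw [hD, Real.rpow_neg (hl i).le]

end Pool.Agent.Q43.MW
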